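import Mathlib

set_option autoImplicit false

namespace Pool.Agent.Helper793Bricks

universe u v w

/-- A brick: a nonzero module all of whose nonzero endomorphisms are bijective. -/
def IsBrick (R : Type u) [Ring R] (M : Type v) [AddCommGroup M] [Module R M] : Prop :=
  Nontrivial M ∧ ∀ f : M →ₗ[R] M, f ≠ 0 → Function.Bijective f

section

variable {R : Type u} [Ring R]

/-- length of a module, as a natural number (0 for infinite length) -/
noncomputable def len (R : Type u) [Ring R] (M : Type v) [AddCommGroup M] [Module R M] : ℕ :=
  (Module.length R M).toNat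

lemma len_cast (M : Type v) [AddCommGroup M] [Module R M] [IsArtinian R M] [IsNoetherian R M] :
    (len R M : ℕ∞) = Module.length R M :=
  ENat.natCast_toNat Module.length_ne_top

lemma len_le_of_injective {M : Type v} {N : Type w} [AddCommGroup M] [Module R M]
    [AddCommGroup N] [Module R N] [IsArtinian R N] [IsNoetherian R N]
    (f : M →ₗ[R] N) (hf : Function.Injective f) : len R M ≤ len R N := by
  have := Module.length_le_of_injective f hf
  exact ENat.toNat_le_toNat this Module.length_ne_top

lemma len_le_of_surjective {M : Type v} {N : Type w} [AddCommGroup M] [Module R M]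
    [AddCommGroup N] [Module R N] [IsArtinian R M] [IsNoetherian R M]
    (f : M →ₗ[R] N) (hf : Function.Surjective f) : len R N ≤ len R M := by
  have := Module.length_le_of_surjective f hf
  exact ENat.toNat_le_toNat this Module.length_ne_top

lemma len_submodule_lt {M : Type v} [AddCommGroup M] [Module R M]
    [IsArtinian R M] [IsNoetherian R M] {N : Submodule R M} (h : N ≠ ⊤) :
    len R N < len R M := by
  have h1 := Submodule.length_lt h
  rw [← len_cast, ← len_cast] at h1
  exact_mod_cast h1

lemma len_quotient_lt {M : Type v} [AddCommGroup M] [Module R M]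
    [IsArtinian R M] [IsNoetherian R M] {N : Submodule R M} (h : N ≠ ⊥) :
    len R (M ⧸ N) < len R M := by
  have h1 := Submodule.length_quotient_lt (R := R) N h
  rw [← len_cast, ← len_cast] at h1
  exact_mod_cast h1

lemma len_eq_of_equiv {M : Type v} {N : Type w} [AddCommGroup M] [Module R M]
    [AddCommGroup N] [Module R N] (e : M ≃ₗ[R] N) : len R M = len R N := by
  unfold len; rw [e.length_eq]

/-- An injective map between modules of the same finite length is bijective. -/
lemma bijective_of_injective_of_len {M : Type v} {N : Type w} [AddCommGroup M] [Module R M]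
    [AddCommGroup N] [Module R N] [IsArtinian R N] [IsNoetherian R N]
    (f : M →ₗ[R] N) (hf : Function.Injective f) (h : len R N ≤ len R M) :
    Function.Bijective f := by
  refine ⟨hf, ?_⟩
  rw [← LinearMap.range_eq_top]
  by_contra hne
  have h1 := len_submodule_lt hne
  have h2 := len_eq_of_equiv (LinearEquiv.ofInjective f hf)
  omega

/-- A surjective map between modules of the same finite length is bijective. -/
lemma bijective_of_surjective_of_len {M : Type v} {N : Type w} [AddCommGroup M] [Module R M]
    [AddCommGroup N] [Module R N] [IsArtinian R M] [IsNoetherian R M]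
    (f : M →ₗ[R] N) (hf : Function.Surjective f) (h : len R M ≤ len R N) :
    Function.Bijective f := by
  refine ⟨?_, hf⟩
  rw [← LinearMap.ker_eq_bot]
  by_contra hne
  have h1 := len_quotient_lt hne
  have h2 := len_eq_of_equiv (f.quotKerEquivOfSurjective hf)
  omega

/-- **Image brick lemma.** A nonzero module of finite length has a submodule which is a brick and
which is also a quotient. -/
theorem exists_image_brick (I : Type v) [AddCommGroup I] [Module R I] [IsArtinian R I]
    [IsNoetherian R I] [Nontrivial I] :
    ∃ C : Submodule R I, IsBrick R C ∧ ∃ q : I →ₗ[R] C, Function.Surjective q := by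
  classical
  let P : ℕ → Prop := fun n => ∃ f : I →ₗ[R] I, f ≠ 0 ∧ len R (LinearMap.range f) = n
  have hP : ∃ n, P n := ⟨_, LinearMap.id, by
    intro h
    obtain ⟨x, hx⟩ := exists_ne (0 : I)
    exact hx (by simpa using LinearMap.congr_fun h x), rfl⟩
  obtain ⟨f, hf0, hfn⟩ := Nat.find_spec hP
  have hmin : ∀ g : I →ₗ[R] I, g ≠ 0 → len R (LinearMap.range f) ≤ len R (LinearMap.range g) := by
    intro g hg
    rw [hfn]
    exact Nat.find_min' hP ⟨g, hg, rfl⟩
  refine ⟨LinearMap.range f, ⟨?_, ?_⟩, f.rangeRestrict, f.surjective_rangeRestrict⟩
  · rw [Submodule.nontrivial_iff_ne_bot]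
    intro h
    exact hf0 (LinearMap.range_eq_bot.mp h)
  · intro g hg
    let F : I →ₗ[R] I := (LinearMap.range f).subtype ∘ₗ g ∘ₗ f.rangeRestrict
    have hF : F ≠ 0 := by
      intro h
      apply hg
      ext ⟨y, x, rfl⟩
      have := LinearMap.congr_fun h x
      exact this
    have hle := hmin F hF
    have hr : LinearMap.range F = (LinearMap.range g).map (LinearMap.range f).subtype := by
      simp only [F]
      rw [LinearMap.range_comp, LinearMap.range_comp_of_range_eq_top]
      rw [LinearMap.range_eq_top]
      exact f.surjective_rangeRestrict
    have hlen : len R (LinearMap.range F) = len R (LinearMap.range g) := by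
      rw [hr]
      exact (len_eq_of_equiv (Submodule.equivMapOfInjective _
        (Submodule.subtype_injective _) _)).symm
    have htop : LinearMap.range g = ⊤ := by
      by_contra hne
      have := len_submodule_lt hne
      omega
    exact bijective_of_surjective_of_len g (LinearMap.range_eq_top.mp htop) le_rfl

end

end Pool.Agent.Helper793Bricks
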