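import Mathlib
import Pool.Agent.Helper793_Bricks.Basic

set_option autoImplicit false

namespace Pool.Agent.Helper793Bricks

universe u v w x

variable {A : Type u} [Ring A]

/-- A map `f : P₁ → P₀` is rigid if every map `P₁ → P₀` is null-homotopic with respect to `f`,
i.e. of the form `a ∘ f + f ∘ b`. For projective modules this says that the complex
`P₁ → P₀` is presilting. -/
def IsRigidMap {P₁ : Type v} {P₀ : Type w} [AddCommGroup P₁] [Module A P₁] [AddCommGroup P₀]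
    [Module A P₀] (f : P₁ →ₗ[A] P₀) : Prop :=
  ∀ h : P₁ →ₗ[A] P₀, ∃ (a : P₀ →ₗ[A] P₀) (b : P₁ →ₗ[A] P₁), h = a ∘ₗ f + f ∘ₗ b

/-- lifting a map with range in a submodule along a sum decomposition -/
lemma exists_split_of_range_le_sup {P₁ : Type v} {P₀ : Type w} [AddCommGroup P₁] [Module A P₁]
    [AddCommGroup P₀] [Module A P₀] [Module.Projective A P₁] (N N' : Submodule A P₀)
    (g : P₁ →ₗ[A] P₀) (hg : LinearMap.range g ≤ N ⊔ N') :
    ∃ g₁ g₂ : P₁ →ₗ[A] P₀, LinearMap.range g₁ ≤ N ∧ LinearMap.range g₂ ≤ N' ∧ g = g₁ + g₂ := by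
  let σ : (N × N') →ₗ[A] P₀ := N.subtype.coprod N'.subtype
  have hσ : LinearMap.range σ = N ⊔ N' := by
    simp only [σ, LinearMap.range_coprod, Submodule.range_subtype]
  let σ' : (N × N') →ₗ[A] LinearMap.range σ := σ.rangeRestrict
  let g' : P₁ →ₗ[A] LinearMap.range σ :=
    g.codRestrict (LinearMap.range σ) (fun x => by rw [hσ]; exact hg ⟨x, rfl⟩)
  obtain ⟨l, hl⟩ := Module.projective_lifting_property σ' g' σ.surjective_rangeRestrict
  refine ⟨N.subtype ∘ₗ LinearMap.fst A N N' ∘ₗ l, N'.subtype ∘ₗ LinearMap.snd A N N' ∘ₗ l,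
    ?_, ?_, ?_⟩
  · rintro _ ⟨x, rfl⟩; exact (l x).1.2
  · rintro _ ⟨x, rfl⟩; exact (l x).2.2
  · ext x
    have h1 := congrArg (Subtype.val) (LinearMap.congr_fun hl x)
    have h2 : ((σ' (l x) : LinearMap.range σ) : P₀) = (l x).1 + (l x).2 := by
      change σ (l x) = _
      simp [σ]
    have h3 : ((g' x : LinearMap.range σ) : P₀) = g x := rfl
    rw [LinearMap.comp_apply] at h1
    rw [← h3, ← h1, h2]
    rfl

/-- **Obstruction lemma.** Let `ξ` be a nonzero additive functional on `Hom(P₁, P₀)` killing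
`End(P₀) f + f End(P₁)`. Then there is a brick quotient `c : P₀ → B` with `c f = 0` and a map
`h : P₁ → P₀` such that `c h` does not factor through `f`. -/
theorem exists_brick_obstruction {P₁ : Type v} {P₀ : Type w} [AddCommGroup P₁] [Module A P₁]
    [AddCommGroup P₀] [Module A P₀] [Module.Projective A P₁] [Module.Projective A P₀]
    [IsArtinian A P₀] [IsNoetherian A P₀] {G : Type x} [AddCommGroup G]
    (f : P₁ →ₗ[A] P₀) (ξ : (P₁ →ₗ[A] P₀) →+ G)
    (h1 : ∀ a : P₀ →ₗ[A] P₀, ξ (a ∘ₗ f) = 0) (h2 : ∀ b : P₁ →ₗ[A] P₁, ξ (f ∘ₗ b) = 0)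
    (h0 : P₁ →ₗ[A] P₀) (hξ : ξ h0 ≠ 0) :
    ∃ (B : Type w) (_ : AddCommGroup B) (_ : Module A B) (_ : IsArtinian A B)
      (_ : IsNoetherian A B), IsBrick A B ∧ len A B ≤ len A P₀ ∧
      ∃ c : P₀ →ₗ[A] B, Function.Surjective c ∧ c ∘ₗ f = 0 ∧
      ∃ h : P₁ →ₗ[A] P₀, ∀ v : P₀ →ₗ[A] B, c ∘ₗ h ≠ v ∘ₗ f := by
  classical
  -- the largest submodule on which ξ vanishes
  let S : Set (Submodule A P₀) := {N | ∀ g : P₁ →ₗ[A] P₀, LinearMap.range g ≤ N → ξ g = 0}
  have hSne : S.Nonempty := ⟨⊥, fun g hg => by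
    have : g = 0 := LinearMap.range_eq_bot.mp (le_bot_iff.mp hg)
    rw [this, map_zero]⟩
  obtain ⟨N, hNS, hNmax⟩ := set_has_maximal_iff_noetherian.mpr ‹IsNoetherian A P₀› S hSne
  have hsup : ∀ N' ∈ S, N' ≤ N := by
    intro N' hN'
    have h3 : N ⊔ N' ∈ S := by
      intro g hg
      obtain ⟨g₁, g₂, hg₁, hg₂, rfl⟩ := exists_split_of_range_le_sup N N' g hg
      rw [map_add, hNS g₁ hg₁, hN' g₂ hg₂, add_zero]
    have h4 := hNmax _ h3
    have h5 : N = N ⊔ N' := by
      by_contra hne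
      exact h4 (lt_of_le_of_ne le_sup_left hne)
    rw [h5]; exact le_sup_right
  have hfN : LinearMap.range f ≤ N := by
    apply hsup
    intro g hg
    let g' : P₁ →ₗ[A] LinearMap.range f := g.codRestrict _ (fun x => hg ⟨x, rfl⟩)
    obtain ⟨b, hb⟩ := Module.projective_lifting_property f.rangeRestrict g'
      f.surjective_rangeRestrict
    have : g = f ∘ₗ b := by
      ext x
      have h3 := congrArg Subtype.val (LinearMap.congr_fun hb x)
      exact h3.symm
    rw [this]; exact h2 b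
  have hNtop : N ≠ ⊤ := by
    intro h
    exact hξ (hNS h0 (by rw [h]; exact le_top))
  have : Nontrivial (P₀ ⧸ N) := Submodule.Quotient.nontrivial_iff.mpr hNtop
  obtain ⟨C, hC, q, hq⟩ := exists_image_brick (R := A) (P₀ ⧸ N)
  refine ⟨C, inferInstance, inferInstance, inferInstance, inferInstance, hC, ?_,
    q ∘ₗ N.mkQ, hq.comp N.mkQ_surjective, ?_, ?_⟩
  · exact len_le_of_surjective (q ∘ₗ N.mkQ) (hq.comp N.mkQ_surjective)
  · ext x
    have h3 : N.mkQ (f x) = 0 := by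
      rw [← LinearMap.mem_ker, Submodule.ker_mkQ]
      exact hfN ⟨x, rfl⟩
    simp only [LinearMap.comp_apply, h3, map_zero, LinearMap.zero_apply]
  · -- preimage of C
    let N' : Submodule A P₀ := C.comap N.mkQ
    have hN' : N' ∉ S := by
      intro h
      have h3 := hsup N' h
      obtain ⟨hnt, -⟩ := hC
      obtain ⟨⟨y, hy⟩, hy0⟩ := exists_ne (0 : C)
      obtain ⟨z, rfl⟩ := N.mkQ_surjective y
      have h4 : z ∈ N := h3 hy
      apply hy0
      apply Subtype.ext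
      change N.mkQ z = 0
      rw [← LinearMap.mem_ker, Submodule.ker_mkQ]
      exact h4
    have hN'2 : ∃ g : P₁ →ₗ[A] P₀, LinearMap.range g ≤ N' ∧ ξ g ≠ 0 := by
      by_contra hcon
      push Not at hcon
      exact hN' hcon
    obtain ⟨g, hg, hξg⟩ := hN'2
    let u : P₁ →ₗ[A] C := (N.mkQ ∘ₗ g).codRestrict C (fun x => hg ⟨x, rfl⟩)
    obtain ⟨h, hh⟩ := Module.projective_lifting_property (q ∘ₗ N.mkQ) u
      (hq.comp N.mkQ_surjective)
    refine ⟨h, fun v hv => hξg ?_⟩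
    rw [hh] at hv
    obtain ⟨w, hw⟩ := Module.projective_lifting_property N.mkQ (C.subtype ∘ₗ v) N.mkQ_surjective
    have h3 : LinearMap.range (g - w ∘ₗ f) ≤ N := by
      rintro _ ⟨x, rfl⟩
      rw [← Submodule.ker_mkQ N, LinearMap.mem_ker, LinearMap.sub_apply, map_sub, sub_eq_zero]
      have h4 : N.mkQ (g x) = ((u x : C) : P₀ ⧸ N) := rfl
      have h5 := LinearMap.congr_fun hw (f x)
      simp only [LinearMap.comp_apply] at h5 ⊢
      rw [h4, h5, hv]
      rfl
    have h4 := hNS _ h3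
    rw [map_sub, h1 w, sub_zero] at h4
    exact h4

end Pool.Agent.Helper793Bricks
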