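import Mathlib

set_option autoImplicit false

namespace Pool.Agent.Helper793Bricks

universe u v w

variable {K : Type u} [Field K]

/-- **Rank maximality.** Let `H` be a set of linear maps `U → W`, stable under left multiplication
by the set `S` of endomorphisms of `W`. If `g ∈ H` is such that every `h ∈ H` is of the form
`a g + g b` with `a ∈ S`, then `g` has the largest rank in `H`. -/
theorem finrank_range_le_of_rigid {U : Type v} {W : Type w} [AddCommGroup U] [Module K U]
    [AddCommGroup W] [Module K W] [FiniteDimensional K U] [FiniteDimensional K W]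
    (H : Set (U →ₗ[K] W)) (S : Set (W →ₗ[K] W)) (hS : ∀ a ∈ S, ∀ h ∈ H, a ∘ₗ h ∈ H)
    (g : U →ₗ[K] W) (hg : g ∈ H)
    (hrig : ∀ h ∈ H, ∃ a ∈ S, ∃ b : U →ₗ[K] U, h = a ∘ₗ g + g ∘ₗ b)
    (g' : U →ₗ[K] W) (hg' : g' ∈ H) :
    Module.finrank K (LinearMap.range g') ≤ Module.finrank K (LinearMap.range g) := by
  classical
  let U' : Submodule K U :=
    { carrier := {x | ∀ h ∈ H, h x ∈ LinearMap.range g}
      add_mem' := fun {x y} hx hy h hh => by rw [map_add]; exact add_mem (hx h hh) (hy h hh)
      zero_mem' := fun h _ => by rw [map_zero]; exact zero_mem _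
      smul_mem' := fun c x hx h hh => by rw [map_smul]; exact Submodule.smul_mem _ _ (hx h hh) }
  let W' : Submodule K W :=
    { carrier := {y | y ∈ LinearMap.range g ∧ ∀ a ∈ S, a y ∈ LinearMap.range g}
      add_mem' := fun {x y} hx hy => ⟨add_mem hx.1 hy.1, fun a ha => by
        rw [map_add]; exact add_mem (hx.2 a ha) (hy.2 a ha)⟩
      zero_mem' := ⟨zero_mem _, fun a _ => by rw [map_zero]; exact zero_mem _⟩
      smul_mem' := fun c x hx => ⟨Submodule.smul_mem _ _ hx.1, fun a ha => by
        rw [map_smul]; exact Submodule.smul_mem _ _ (hx.2 a ha)⟩ }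
  have hU'1 : ∀ h ∈ H, ∀ x ∈ U', h x ∈ W' := by
    intro h hh x hx
    refine ⟨hx h hh, fun a ha => ?_⟩
    exact hx (a ∘ₗ h) (hS a ha h hh)
  have hU'2 : ∀ x, g x ∈ W' → x ∈ U' := by
    intro x hx h hh
    obtain ⟨a, ha, b, rfl⟩ := hrig h hh
    exact add_mem (hx.2 a ha) ⟨b x, rfl⟩
  have hker : LinearMap.ker g ≤ U' := by
    intro x hx
    apply hU'2
    rw [LinearMap.mem_ker.mp hx]
    exact zero_mem _
  -- rank of g restricted to U'
  have h1 : Submodule.map g U' = W' := by
    apply le_antisymm
    · rintro _ ⟨x, hx, rfl⟩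
      exact hU'1 g hg x hx
    · rintro y hy
      obtain ⟨x, rfl⟩ := hy.1
      exact ⟨x, hU'2 x hy, rfl⟩
  have h2 : Module.finrank K W' + Module.finrank K (LinearMap.ker g) = Module.finrank K U' := by
    have h3 := LinearMap.finrank_range_add_finrank_ker (g.domRestrict U')
    have h4 : LinearMap.range (g.domRestrict U') = W' := by
      rw [LinearMap.range_domRestrict, h1]
    have h5 : Module.finrank K (LinearMap.ker (g.domRestrict U')) =
        Module.finrank K (LinearMap.ker g) := by
      rw [LinearMap.ker_domRestrict]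
      exact (Submodule.comap_equiv_self_of_inj_of_le (Submodule.subtype_injective U')
        (by rw [Submodule.range_subtype]; exact hker)).finrank_eq
    rw [h4, h5] at h3
    exact h3
  have h6 := LinearMap.finrank_range_add_finrank_ker g
  obtain ⟨C, hC⟩ := Submodule.exists_isCompl U'
  have h7 : Module.finrank K U' + Module.finrank K C = Module.finrank K U :=
    Submodule.finrank_add_eq_of_isCompl hC
  have h8 : LinearMap.range g' ≤ W' ⊔ Submodule.map g' C := by
    rw [LinearMap.range_eq_map, ← hC.sup_eq_top, Submodule.map_sup]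
    apply sup_le_sup_right
    rintro _ ⟨x, hx, rfl⟩
    exact hU'1 g' hg' x hx
  have h9 : Module.finrank K (LinearMap.range g') ≤
      Module.finrank K W' + Module.finrank K (Submodule.map g' C) :=
    (Submodule.finrank_mono h8).trans (Submodule.finrank_add_le_finrank_add_finrank _ _)
  have h10 : Module.finrank K (Submodule.map g' C) ≤ Module.finrank K C :=
    Submodule.finrank_map_le g' C
  omega

end Pool.Agent.Helper793Bricks
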