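import Mathlib
import Pool.Agent.Helper793_Bricks.RankMax
import Pool.Agent.Helper793_Bricks.Obstruct

set_option autoImplicit false

namespace Pool.Agent.Helper793Bricks

universe u v w

/-- `Hom(F, G[1]) = 0` for two-term complexes `F : U₁ → U₀`, `G : V₁ → V₀`. -/
def E2 {A : Type*} [Ring A] {U₁ U₀ V₁ V₀ : Type*} [AddCommGroup U₁] [Module A U₁]
    [AddCommGroup U₀] [Module A U₀] [AddCommGroup V₁] [Module A V₁] [AddCommGroup V₀]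
    [Module A V₀] (F : U₁ →ₗ[A] U₀) (G : V₁ →ₗ[A] V₀) : Prop :=
  ∀ h : U₁ →ₗ[A] V₀, ∃ (α : U₀ →ₗ[A] V₀) (β : U₁ →ₗ[A] V₁), h = α ∘ₗ F + G ∘ₗ β

/-- `Hom(F, M[1]) = 0` for a two-term complex and a module. -/
def E0 {A : Type*} [Ring A] {U₁ U₀ : Type*} [AddCommGroup U₁] [Module A U₁]
    [AddCommGroup U₀] [Module A U₀] (F : U₁ →ₗ[A] U₀) (M : Type*) [AddCommGroup M] [Module A M] :
    Prop :=
  ∀ ψ : U₁ →ₗ[A] M, ∃ φ : U₀ →ₗ[A] M, φ ∘ₗ F = ψ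

/-- `Hom(F, M) = 0` for a two-term complex and a module. -/
def H0 {A : Type*} [Ring A] {U₁ U₀ : Type*} [AddCommGroup U₁] [Module A U₁]
    [AddCommGroup U₀] [Module A U₀] (F : U₁ →ₗ[A] U₀) (M : Type*) [AddCommGroup M] [Module A M] :
    Prop :=
  ∀ φ : U₀ →ₗ[A] M, φ ∘ₗ F = 0 → φ = 0

section rank

variable {K : Type u} [Field K]

/-- relative version of rank maximality -/
theorem finrank_sup_le_of_rigid {U : Type v} {X : Type w} [AddCommGroup U] [Module K U]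
    [AddCommGroup X] [Module K X] [FiniteDimensional K U] [FiniteDimensional K X]
    (Z : Submodule K X) (H : Set (U →ₗ[K] X)) (S : Set (X →ₗ[K] X))
    (hZ : ∀ a ∈ S, Z ≤ Z.comap a)
    (hS : ∀ a ∈ S, ∀ h ∈ H, a ∘ₗ h ∈ H) (g : U →ₗ[K] X) (hg : g ∈ H)
    (hrig : ∀ h ∈ H, ∃ a ∈ S, ∃ b : U →ₗ[K] U, h = a ∘ₗ g + g ∘ₗ b)
    (g' : U →ₗ[K] X) (hg' : g' ∈ H) :
    Module.finrank K (Z ⊔ LinearMap.range g' : Submodule K X) ≤
      Module.finrank K (Z ⊔ LinearMap.range g : Submodule K X) := by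
  have key : ∀ T : U →ₗ[K] X, Module.finrank K (LinearMap.range (Z.mkQ ∘ₗ T)) +
      Module.finrank K Z = Module.finrank K (Z ⊔ LinearMap.range T : Submodule K X) := by
    intro T
    have h1 := LinearMap.finrank_range_add_finrank_ker
      (Z.mkQ.domRestrict (Z ⊔ LinearMap.range T))
    have h2 : LinearMap.range (Z.mkQ.domRestrict (Z ⊔ LinearMap.range T)) =
        LinearMap.range (Z.mkQ ∘ₗ T) := by
      rw [LinearMap.range_domRestrict, Submodule.map_sup, LinearMap.range_comp]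
      rw [Submodule.mkQ_map_self, bot_sup_eq]
    have h3 : Module.finrank K (LinearMap.ker (Z.mkQ.domRestrict (Z ⊔ LinearMap.range T))) =
        Module.finrank K Z := by
      rw [LinearMap.ker_domRestrict, Submodule.ker_mkQ]
      exact (Submodule.comap_equiv_self_of_inj_of_le
        (Submodule.subtype_injective (Z ⊔ LinearMap.range T))
        (by rw [Submodule.range_subtype]; exact le_sup_left)).finrank_eq
    rw [h2, h3] at h1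
    exact h1
  rw [← key g, ← key g']
  apply Nat.add_le_add_right
  let H' : Set (U →ₗ[K] (X ⧸ Z)) := (fun h => Z.mkQ ∘ₗ h) '' H
  let S' : Set ((X ⧸ Z) →ₗ[K] (X ⧸ Z)) := {a' | ∃ a ∈ S, a' ∘ₗ Z.mkQ = Z.mkQ ∘ₗ a}
  refine finrank_range_le_of_rigid H' S' ?_ (Z.mkQ ∘ₗ g) ⟨g, hg, rfl⟩ ?_ (Z.mkQ ∘ₗ g')
    ⟨g', hg', rfl⟩
  · rintro a' ⟨a, ha, haa⟩ _ ⟨h, hh, rfl⟩
    refine ⟨a ∘ₗ h, hS a ha h hh, ?_⟩
    change Z.mkQ ∘ₗ (a ∘ₗ h) = a' ∘ₗ (Z.mkQ ∘ₗ h)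
    rw [← LinearMap.comp_assoc, ← haa, LinearMap.comp_assoc]
  · rintro _ ⟨h, hh, rfl⟩
    obtain ⟨a, ha, b, rfl⟩ := hrig h hh
    refine ⟨Z.mapQ Z a (hZ a ha), ⟨a, ha, ?_⟩, b, ?_⟩
    · exact Submodule.mapQ_mkQ _ _ _
    · change Z.mkQ ∘ₗ (a ∘ₗ g + g ∘ₗ b) = Z.mapQ Z a (hZ a ha) ∘ₗ (Z.mkQ ∘ₗ g) + (Z.mkQ ∘ₗ g) ∘ₗ b
      ext x
      rfl

end rank

section numbers

variable {K : Type*} [Field K] {A : Type*} [Ring A] [Algebra K A]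
variable {U₁ U₀ V₁ V₀ : Type*} [AddCommGroup U₁] [Module A U₁]
    [AddCommGroup U₀] [Module A U₀] [AddCommGroup V₁] [Module A V₁] [AddCommGroup V₀]
    [Module A V₀] [Module K V₁] [IsScalarTower K A V₁] [Module K V₀] [IsScalarTower K A V₀]

/-- `α ↦ α F` -/
noncomputable def preC (K : Type*) [Field K] {A : Type*} [Ring A] [Algebra K A]
    {U₁ U₀ : Type*} [AddCommGroup U₁] [Module A U₁] [AddCommGroup U₀] [Module A U₀]
    (F : U₁ →ₗ[A] U₀) (C : Type*) [AddCommGroup C] [Module A C] [Module K C]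
    [IsScalarTower K A C] : (U₀ →ₗ[A] C) →ₗ[K] (U₁ →ₗ[A] C) where
  toFun φ := φ ∘ₗ F
  map_add' _ _ := rfl
  map_smul' _ _ := rfl

/-- `β ↦ G β` -/
noncomputable def postC (K : Type*) [Field K] {A : Type*} [Ring A] [Algebra K A]
    {V₁ V₀ : Type*} [AddCommGroup V₁] [Module A V₁] [AddCommGroup V₀] [Module A V₀]
    [Module K V₁] [IsScalarTower K A V₁] [Module K V₀] [IsScalarTower K A V₀]
    (G : V₁ →ₗ[A] V₀) (C : Type*) [AddCommGroup C] [Module A C] :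
    (C →ₗ[A] V₁) →ₗ[K] (C →ₗ[A] V₀) where
  toFun φ := G ∘ₗ φ
  map_add' φ ψ := by ext x; simp
  map_smul' c φ := by
    ext x
    simp only [LinearMap.comp_apply, LinearMap.smul_apply, RingHom.id_apply]
    rw [← algebraMap_smul A c (φ x), map_smul, algebraMap_smul]

/-- the subspace of null-homotopic maps -/
noncomputable def nullS (K : Type*) [Field K] {A : Type*} [Ring A] [Algebra K A]
    {U₁ U₀ V₁ V₀ : Type*} [AddCommGroup U₁] [Module A U₁]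
    [AddCommGroup U₀] [Module A U₀] [AddCommGroup V₁] [Module A V₁] [AddCommGroup V₀]
    [Module A V₀] [Module K V₁] [IsScalarTower K A V₁] [Module K V₀] [IsScalarTower K A V₀]
    (F : U₁ →ₗ[A] U₀) (G : V₁ →ₗ[A] V₀) : Submodule K (U₁ →ₗ[A] V₀) :=
  LinearMap.range (preC K F V₀) ⊔ LinearMap.range (postC K G U₁)

lemma mem_nullS (F : U₁ →ₗ[A] U₀) (G : V₁ →ₗ[A] V₀) (h : U₁ →ₗ[A] V₀) :
    h ∈ nullS K F G ↔ ∃ (α : U₀ →ₗ[A] V₀) (β : U₁ →ₗ[A] V₁), h = α ∘ₗ F + G ∘ₗ β := by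
  unfold nullS
  rw [Submodule.mem_sup]
  constructor
  · rintro ⟨_, ⟨α, rfl⟩, _, ⟨β, rfl⟩, rfl⟩
    exact ⟨α, β, rfl⟩
  · rintro ⟨α, β, rfl⟩
    exact ⟨_, ⟨α, rfl⟩, _, ⟨β, rfl⟩, rfl⟩

/-- `dim Hom(F, G[1])` -/
noncomputable def e2 (K : Type*) [Field K] {A : Type*} [Ring A] [Algebra K A]
    {U₁ U₀ V₁ V₀ : Type*} [AddCommGroup U₁] [Module A U₁]
    [AddCommGroup U₀] [Module A U₀] [AddCommGroup V₁] [Module A V₁] [AddCommGroup V₀]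
    [Module A V₀] [Module K V₁] [IsScalarTower K A V₁] [Module K V₀] [IsScalarTower K A V₀]
    (F : U₁ →ₗ[A] U₀) (G : V₁ →ₗ[A] V₀) : ℕ :=
  Module.finrank K ((U₁ →ₗ[A] V₀) ⧸ nullS K F G)

lemma nullS_eq_top_iff (F : U₁ →ₗ[A] U₀) (G : V₁ →ₗ[A] V₀) : nullS K F G = ⊤ ↔ E2 F G := by
  rw [Submodule.eq_top_iff']
  simp only [mem_nullS]
  rfl

lemma e2_eq_zero_iff [FiniteDimensional K (U₁ →ₗ[A] V₀)] (F : U₁ →ₗ[A] U₀) (G : V₁ →ₗ[A] V₀) :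
    e2 K F G = 0 ↔ E2 F G := by
  rw [← nullS_eq_top_iff (K := K), e2, Module.finrank_zero_iff, Submodule.Quotient.subsingleton_iff]

lemma e2_le_of_finrank_le [FiniteDimensional K (U₁ →ₗ[A] V₀)] {U₀' V₁' : Type*}
    [AddCommGroup U₀'] [Module A U₀'] [AddCommGroup V₁'] [Module A V₁']
    [Module K V₁'] [IsScalarTower K A V₁']
    (F : U₁ →ₗ[A] U₀) (G : V₁ →ₗ[A] V₀) (F' : U₁ →ₗ[A] U₀') (G' : V₁' →ₗ[A] V₀)
    (h : Module.finrank K (nullS K F' G') ≤ Module.finrank K (nullS K F G)) :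
    e2 K F G ≤ e2 K F' G' := by
  have h1 := Submodule.finrank_quotient_add_finrank (nullS K F G)
  have h2 := Submodule.finrank_quotient_add_finrank (nullS K F' G')
  unfold e2
  omega

/-- A rigid complex minimises `dim Hom(-, G[1])` in its class. -/
theorem e2_le_left [FiniteDimensional K (U₁ →ₗ[A] V₀)] [FiniteDimensional K (U₀ →ₗ[A] V₀)]
    (F : U₁ →ₗ[A] U₀) (hF : E2 F F) (F' : U₁ →ₗ[A] U₀) (G : V₁ →ₗ[A] V₀) :
    e2 K F G ≤ e2 K F' G := by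
  apply e2_le_of_finrank_le
  unfold nullS
  rw [sup_comm, sup_comm (LinearMap.range (preC K F V₀))]
  let S : Set ((U₁ →ₗ[A] V₀) →ₗ[K] (U₁ →ₗ[A] V₀)) :=
    Set.range (fun b : U₁ →ₗ[A] U₁ => preC K b V₀)
  refine finrank_sup_le_of_rigid (LinearMap.range (postC K G U₁))
    (Set.range (fun F : U₁ →ₗ[A] U₀ => preC K F V₀)) S ?_ ?_ (preC K F V₀) ⟨F, rfl⟩ ?_
    (preC K F' V₀) ⟨F', rfl⟩
  · rintro _ ⟨b, rfl⟩ _ ⟨β, rfl⟩
    exact ⟨β ∘ₗ b, rfl⟩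
  · rintro _ ⟨b, rfl⟩ _ ⟨H, rfl⟩
    exact ⟨H ∘ₗ b, rfl⟩
  · rintro _ ⟨H, rfl⟩
    obtain ⟨α, β, hαβ⟩ := hF H
    refine ⟨_, ⟨β, rfl⟩, preC K α V₀, ?_⟩
    ext φ x
    change φ (H x) = φ (F (β x)) + φ (α (F x))
    rw [hαβ, ← map_add, add_comm]
    rfl

/-- A rigid complex minimises `dim Hom(F, -[1])` in its class. -/
theorem e2_le_right [FiniteDimensional K (U₁ →ₗ[A] V₀)] [FiniteDimensional K (U₁ →ₗ[A] V₁)]
    (F : U₁ →ₗ[A] U₀) (G : V₁ →ₗ[A] V₀) (hG : E2 G G) (G' : V₁ →ₗ[A] V₀) :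
    e2 K F G ≤ e2 K F G' := by
  apply e2_le_of_finrank_le
  unfold nullS
  let S : Set ((U₁ →ₗ[A] V₀) →ₗ[K] (U₁ →ₗ[A] V₀)) :=
    Set.range (fun a : V₀ →ₗ[A] V₀ => postC K a U₁)
  refine finrank_sup_le_of_rigid (LinearMap.range (preC K F V₀))
    (Set.range (fun G : V₁ →ₗ[A] V₀ => postC K G U₁)) S ?_ ?_ (postC K G U₁) ⟨G, rfl⟩ ?_
    (postC K G' U₁) ⟨G', rfl⟩
  · rintro _ ⟨a, rfl⟩ _ ⟨α, rfl⟩
    exact ⟨a ∘ₗ α, rfl⟩
  · rintro _ ⟨a, rfl⟩ _ ⟨H, rfl⟩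
    exact ⟨a ∘ₗ H, rfl⟩
  · rintro _ ⟨H, rfl⟩
    obtain ⟨α, β, hαβ⟩ := hG H
    refine ⟨_, ⟨α, rfl⟩, postC K β U₁, ?_⟩
    ext φ x
    change H (φ x) = α (G (φ x)) + G (β (φ x))
    rw [hαβ]
    rfl

end numbers

end Pool.Agent.Helper793Bricks
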