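import Mathlib
import Pool.Agent.Helper793_Bricks.Basic
import Pool.Agent.Helper793_Bricks.Complex

set_option autoImplicit false

namespace Pool.Agent.Helper793Bricks

section

variable {A : Type*} [Ring A]
variable {U₁ U₀ V₁ V₀ : Type*} [AddCommGroup U₁] [Module A U₁]
    [AddCommGroup U₀] [Module A U₀] [AddCommGroup V₁] [Module A V₁] [AddCommGroup V₀]
    [Module A V₀]
variable {M N : Type*} [AddCommGroup M] [Module A M] [AddCommGroup N] [Module A N]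

lemma E0.of_surjective [Module.Projective A U₁] {F : U₁ →ₗ[A] U₀} (h : E0 F M) (q : M →ₗ[A] N)
    (hq : Function.Surjective q) : E0 F N := by
  intro ψ
  obtain ⟨ψ', hψ'⟩ := Module.projective_lifting_property q ψ hq
  obtain ⟨φ, hφ⟩ := h ψ'
  exact ⟨q ∘ₗ φ, by rw [LinearMap.comp_assoc, hφ, hψ']⟩

lemma E0.prod {F : U₁ →ₗ[A] U₀} (h : E0 F M) (h' : E0 F N) : E0 F (M × N) := by
  intro ψ
  obtain ⟨φ, hφ⟩ := h (LinearMap.fst A M N ∘ₗ ψ)
  obtain ⟨φ', hφ'⟩ := h' (LinearMap.snd A M N ∘ₗ ψ)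
  refine ⟨φ.prod φ', ?_⟩
  exact LinearMap.ext fun x => Prod.ext (LinearMap.congr_fun hφ x) (LinearMap.congr_fun hφ' x)

lemma E0.sup [Module.Projective A U₁] {F : U₁ →ₗ[A] U₀} {N₁ N₂ : Submodule A M}
    (h₁ : E0 F N₁) (h₂ : E0 F N₂) : E0 F (N₁ ⊔ N₂ : Submodule A M) := by
  let σ : (N₁ × N₂) →ₗ[A] (N₁ ⊔ N₂ : Submodule A M) :=
    (Submodule.inclusion le_sup_left).coprod (Submodule.inclusion le_sup_right)
  refine (h₁.prod h₂).of_surjective σ ?_
  rintro ⟨x, hx⟩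
  obtain ⟨y, hy, z, hz, rfl⟩ := Submodule.mem_sup.mp hx
  exact ⟨(⟨y, hy⟩, ⟨z, hz⟩), rfl⟩

lemma E0_bot (F : U₁ →ₗ[A] U₀) : E0 F (⊥ : Submodule A M) := by
  intro ψ
  exact ⟨0, LinearMap.ext fun x => Subsingleton.elim _ _⟩

/-- If `Hom(G, F[1]) = 0` then `Hom(G, -[1])` vanishes on images of maps from the cokernel of
`F`. -/
lemma E2.range [Module.Projective A V₁] {G : V₁ →ₗ[A] V₀} {F : U₁ →ₗ[A] U₀} (h : E2 G F)
    (φ : U₀ →ₗ[A] M) (hφ : φ ∘ₗ F = 0) : E0 G (LinearMap.range φ) := by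
  intro ψ
  obtain ⟨l, hl⟩ := Module.projective_lifting_property φ.rangeRestrict ψ φ.surjective_rangeRestrict
  obtain ⟨α, β, hαβ⟩ := h l
  refine ⟨φ.rangeRestrict ∘ₗ α, ?_⟩
  rw [← hl, hαβ, LinearMap.comp_add, ← LinearMap.comp_assoc (f := β)]
  have h1 : φ.rangeRestrict ∘ₗ F = 0 := by
    ext x
    exact LinearMap.congr_fun hφ x
  rw [h1, LinearMap.zero_comp, add_zero, LinearMap.comp_assoc]

/-- The trace of the cokernel of `F` in `M`. -/
def Tr (F : U₁ →ₗ[A] U₀) (M : Type*) [AddCommGroup M] [Module A M] : Submodule A M :=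
  ⨆ φ : {φ : U₀ →ₗ[A] M // φ ∘ₗ F = 0}, LinearMap.range φ.1

lemma range_le_Tr (F : U₁ →ₗ[A] U₀) (φ : U₀ →ₗ[A] M) (hφ : φ ∘ₗ F = 0) :
    LinearMap.range φ ≤ Tr F M :=
  le_iSup (fun φ : {φ : U₀ →ₗ[A] M // φ ∘ₗ F = 0} => LinearMap.range φ.1) ⟨φ, hφ⟩

lemma Tr_le (F : U₁ →ₗ[A] U₀) (N : Submodule A M)
    (h : ∀ φ : U₀ →ₗ[A] M, φ ∘ₗ F = 0 → LinearMap.range φ ≤ N) : Tr F M ≤ N :=
  iSup_le fun φ => h φ.1 φ.2

lemma Tr_E0 [Module.Projective A V₁] [IsNoetherian A M] {G : V₁ →ₗ[A] V₀} {F : U₁ →ₗ[A] U₀}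
    (h : E2 G F) : E0 G (Tr F M) := by
  classical
  let S : Set (Submodule A M) := {N | N ≤ Tr F M ∧ E0 G N}
  have hSne : S.Nonempty := ⟨⊥, bot_le, E0_bot G⟩
  obtain ⟨N, hNS, hNmax⟩ := set_has_maximal_iff_noetherian.mpr ‹IsNoetherian A M› S hSne
  have h1 : Tr F M ≤ N := by
    apply Tr_le
    intro φ hφ
    have h3 : N ⊔ LinearMap.range φ ∈ S :=
      ⟨sup_le hNS.1 (range_le_Tr F φ hφ), hNS.2.sup (h.range φ hφ)⟩
    have h4 := hNmax _ h3
    have h5 : N = N ⊔ LinearMap.range φ := by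
      by_contra hne
      exact h4 (lt_of_le_of_ne le_sup_left hne)
    rw [h5]; exact le_sup_right
  have h2 : N = Tr F M := le_antisymm hNS.1 h1
  rw [← h2]
  exact hNS.2

lemma Tr_H0 [Module.Projective A U₀] {F : U₁ →ₗ[A] U₀} (h : E0 F (Tr F M)) :
    H0 F (M ⧸ Tr F M) := by
  intro φ hφ
  obtain ⟨φ₁, hφ₁⟩ := Module.projective_lifting_property (Tr F M).mkQ φ (Tr F M).mkQ_surjective
  have h1 : ∀ x, φ₁ (F x) ∈ Tr F M := by
    intro x
    rw [← Submodule.ker_mkQ (Tr F M), LinearMap.mem_ker]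
    have h2 := LinearMap.congr_fun hφ x
    rw [← hφ₁] at h2
    exact h2
  obtain ⟨φ₂, hφ₂⟩ := h ((φ₁ ∘ₗ F).codRestrict _ h1)
  have h2 : (φ₁ - (Tr F M).subtype ∘ₗ φ₂) ∘ₗ F = 0 := by
    ext x
    have h3 := congrArg Subtype.val (LinearMap.congr_fun hφ₂ x)
    have h4 : φ₁ (F x) - (φ₂ (F x) : M) = 0 := by
      rw [sub_eq_zero]; exact h3.symm
    exact h4
  have h3 := range_le_Tr F _ h2
  rw [← hφ₁]
  ext x
  have h4 : φ₁ x ∈ Tr F M := by
    have h5 : φ₁ x - (φ₂ x : M) ∈ Tr F M := h3 ⟨x, rfl⟩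
    have h6 := add_mem h5 (φ₂ x).2
    rwa [sub_add_cancel] at h6
  change (Tr F M).mkQ (φ₁ x) = 0
  rwa [← LinearMap.mem_ker, Submodule.ker_mkQ]

lemma E0.of_eq_top {F : U₁ →ₗ[A] U₀} {N : Submodule A M} (h : E0 F N) (hN : N = ⊤) : E0 F M := by
  intro ψ
  obtain ⟨φ, hφ⟩ := h (ψ.codRestrict N (fun x => by rw [hN]; trivial))
  refine ⟨N.subtype ∘ₗ φ, ?_⟩
  ext x
  exact congrArg Subtype.val (LinearMap.congr_fun hφ x)

end

section rankone

variable {K : Type*} [Field K] {A : Type*} [Ring A] [Algebra K A]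

/-- existence of a socle element of `Hom(X, N)` -/
lemma exists_socle {X N : Type*} [AddCommGroup X] [Module A X] [Module K X] [IsScalarTower K A X]
    [AddCommGroup N] [Module A N] [Module K N] [IsScalarTower K A N]
    [IsArtinian A X] [IsNoetherian A X] [FiniteDimensional K (X →ₗ[A] N)]
    (h2 : ∀ φ : X →ₗ[A] X, Function.Bijective φ ∨ ∃ n : ℕ, (φ ^ n : Module.End A X) = 0)
    (g₀ : X →ₗ[A] N) (hg₀ : g₀ ≠ 0) :
    ∃ g : X →ₗ[A] N, g ≠ 0 ∧ ∀ φ : X →ₗ[A] X, ¬ Function.Bijective φ → g ∘ₗ φ = 0 := by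
  classical
  let Pr : ℕ → Prop := fun n => ∃ g : X →ₗ[A] N, g ≠ 0 ∧
    Module.finrank K (LinearMap.range (postC K g X)) = n
  have hP : ∃ n, Pr n := ⟨_, g₀, hg₀, rfl⟩
  obtain ⟨g, hg0, hgn⟩ := Nat.find_spec hP
  have hmin : ∀ g' : X →ₗ[A] N, g' ≠ 0 → Module.finrank K (LinearMap.range (postC K g X)) ≤
      Module.finrank K (LinearMap.range (postC K g' X)) := by
    intro g' hg'
    rw [hgn]
    exact Nat.find_min' hP ⟨g', hg', rfl⟩
  refine ⟨g, hg0, fun φ hφ => ?_⟩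
  by_contra hne
  have h3 := hmin _ hne
  have h4 : LinearMap.range (postC K (g ∘ₗ φ) X) ≤ LinearMap.range (postC K g X) := by
    rintro _ ⟨ψ, rfl⟩
    exact ⟨φ ∘ₗ ψ, rfl⟩
  have h5 := Submodule.eq_of_le_of_finrank_le h4 h3
  have h6 : g ∈ LinearMap.range (postC K (g ∘ₗ φ) X) := by
    rw [h5]
    exact ⟨LinearMap.id, rfl⟩
  obtain ⟨ψ, hψ⟩ := h6
  have h7 : g ∘ₗ (φ ∘ₗ ψ) = g := hψ
  rcases h2 (φ ∘ₗ ψ) with hb | ⟨n, hn⟩
  · apply hφ
    have hs : Function.Surjective φ := by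
      have : Function.Surjective (φ ∘ ψ) := hb.2
      exact this.of_comp
    exact bijective_of_surjective_of_len φ hs le_rfl
  · have h8 : ∀ m : ℕ, g ∘ₗ ((φ ∘ₗ ψ : Module.End A X) ^ m : Module.End A X) = g := by
      intro m
      induction m with
      | zero => rfl
      | succ m ih =>
        rw [pow_succ']
        change g ∘ₗ ((φ ∘ₗ ψ) ∘ₗ _) = g
        rw [← LinearMap.comp_assoc, h7, ih]
    apply hg0
    rw [← h8 n, hn]
    ext x; simp

/-- **Rank one theorem.** -/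
theorem exists_hom_ne_zero {A : Type} [Ring A] [Algebra K A]
    {V₁ V₀ : Type*} [AddCommGroup V₁] [Module A V₁] [AddCommGroup V₀] [Module A V₀]
    [Module.Projective A V₁] (G : V₁ →ₗ[A] V₀)
    {X : Type} [AddCommGroup X] [Module A X] [Module K X] [IsScalarTower K A X]
    [IsArtinian A X] [IsNoetherian A X]
    (h1 : E0 G X)
    (h2 : ∀ φ : X →ₗ[A] X, Function.Bijective φ ∨ ∃ n : ℕ, (φ ^ n : Module.End A X) = 0)
    (h3 : ∀ (N : Type) [AddCommGroup N] [Module A N] [IsNoetherian A N] [IsArtinian A N],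
      E0 G N → ∀ N' : Submodule A N, N' ≠ ⊤ → ∃ φ : X →ₗ[A] N, ¬ (LinearMap.range φ ≤ N'))
    {M : Type} [AddCommGroup M] [Module A M] [IsNoetherian A M] [IsArtinian A M] [Nontrivial M]
    (hM : E0 G M) (hM' : H0 G M)
    {N : Type} [AddCommGroup N] [Module A N] [IsNoetherian A N] [IsArtinian A N] [Nontrivial N]
    [Module K N] [IsScalarTower K A N] [FiniteDimensional K (X →ₗ[A] N)]
    (hN : E0 G N) : ∃ f : M →ₗ[A] N, f ≠ 0 := by
  classical
  -- the socle element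
  obtain ⟨g₀, hg₀⟩ := h3 N hN ⊥ bot_ne_top
  have hg₀' : g₀ ≠ 0 := by
    rintro rfl
    apply hg₀
    rw [LinearMap.range_zero]
  obtain ⟨g, hg0, hg⟩ := exists_socle (K := K) h2 g₀ hg₀'
  -- maximal proper torsion submodule M'
  let S : Set (Submodule A M) := {M' | M' ≠ ⊤ ∧ E0 G M'}
  have hSne : S.Nonempty := ⟨⊥, bot_ne_top, E0_bot G⟩
  obtain ⟨M', hM'S, hM'max⟩ := set_has_maximal_iff_noetherian.mpr ‹IsNoetherian A M› S hSne
  obtain ⟨φ₁, hφ₁⟩ := h3 M hM M' hM'S.1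
  have hsup : M' ⊔ LinearMap.range φ₁ = ⊤ := by
    by_contra hne
    have hmem : M' ⊔ LinearMap.range φ₁ ∈ S := by
      refine ⟨hne, hM'S.2.sup ?_⟩
      exact h1.of_surjective φ₁.rangeRestrict φ₁.surjective_rangeRestrict
    apply hM'max _ hmem
    refine lt_of_le_of_ne le_sup_left ?_
    intro heq
    apply hφ₁
    rw [heq]
    exact le_sup_right
  let X' : Submodule A X := M'.comap φ₁
  have hX'ne : X' ≠ ⊤ := by
    intro h
    apply hφ₁
    rintro _ ⟨x, rfl⟩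
    have : x ∈ X' := by rw [h]; trivial
    exact this
  have hX'E : E0 G X' := by
    intro ψ
    obtain ⟨φa, hφa⟩ := h1 (X'.subtype ∘ₗ ψ)
    have hψM : ∀ x, φ₁ (ψ x) ∈ M' := fun x => (ψ x).2
    obtain ⟨φb, hφb⟩ := hM'S.2 ((φ₁ ∘ₗ X'.subtype ∘ₗ ψ).codRestrict M' hψM)
    have h4 : (φ₁ ∘ₗ φa - M'.subtype ∘ₗ φb) ∘ₗ G = 0 := by
      ext x
      have h5 := LinearMap.congr_fun hφa x
      have h6 := congrArg Subtype.val (LinearMap.congr_fun hφb x)
      simp only [LinearMap.comp_apply, LinearMap.sub_apply, LinearMap.zero_apply,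
        Submodule.subtype_apply] at h5 h6 ⊢
      rw [h5, h6, sub_eq_zero]
      rfl
    have h5 := hM' _ h4
    have h6 : ∀ x, φ₁ (φa x) ∈ M' := by
      intro x
      have h7 := LinearMap.congr_fun h5 x
      simp only [LinearMap.comp_apply, LinearMap.sub_apply, LinearMap.zero_apply,
        Submodule.subtype_apply, sub_eq_zero] at h7
      rw [h7]
      exact (φb x).2
    refine ⟨φa.codRestrict X' h6, ?_⟩
    ext x
    exact LinearMap.congr_fun hφa x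
  have hX'g : X' ≤ LinearMap.ker g := by
    by_contra hcon
    have hne : (LinearMap.ker g).comap X'.subtype ≠ ⊤ := by
      intro h
      apply hcon
      intro x hx
      have : (⟨x, hx⟩ : X') ∈ (LinearMap.ker g).comap X'.subtype := by rw [h]; trivial
      exact this
    obtain ⟨φ, hφ⟩ := h3 X' hX'E _ hne
    have h4 : g ∘ₗ (X'.subtype ∘ₗ φ) ≠ 0 := by
      intro h
      apply hφ
      rintro _ ⟨x, rfl⟩
      exact LinearMap.congr_fun h x
    have h5 : Function.Bijective (X'.subtype ∘ₗ φ) := by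
      by_contra hb
      exact h4 (hg _ hb)
    apply hX'ne
    rw [eq_top_iff]
    intro x _
    obtain ⟨y, rfl⟩ := h5.2 x
    exact (φ y).2
  -- construct the map
  let π : X →ₗ[A] (M ⧸ M') := M'.mkQ ∘ₗ φ₁
  have hπs : Function.Surjective π := by
    intro z
    obtain ⟨m, rfl⟩ := M'.mkQ_surjective z
    have hm : m ∈ M' ⊔ LinearMap.range φ₁ := by rw [hsup]; trivial
    obtain ⟨y, hy, _, ⟨x, rfl⟩, rfl⟩ := Submodule.mem_sup.mp hm
    refine ⟨x, ?_⟩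
    have : M'.mkQ y = 0 := by rw [← LinearMap.mem_ker, Submodule.ker_mkQ]; exact hy
    change M'.mkQ (φ₁ x) = M'.mkQ (y + φ₁ x)
    rw [map_add, this, zero_add]
  have hπk : LinearMap.ker π ≤ LinearMap.ker g := by
    refine le_trans ?_ hX'g
    intro x hx
    have : M'.mkQ (φ₁ x) = 0 := hx
    rwa [← LinearMap.mem_ker, Submodule.ker_mkQ] at this
  let f : M →ₗ[A] N := (LinearMap.ker π).liftQ g hπk ∘ₗ
    (π.quotKerEquivOfSurjective hπs).symm.toLinearMap ∘ₗ M'.mkQ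
  refine ⟨f, fun hf => hg0 ?_⟩
  ext x
  have h4 := LinearMap.congr_fun hf (φ₁ x)
  have h5 : (π.quotKerEquivOfSurjective hπs).symm (M'.mkQ (φ₁ x)) = (LinearMap.ker π).mkQ x := by
    rw [LinearEquiv.symm_apply_eq]
    rfl
  simp only [f, LinearMap.comp_apply, LinearEquiv.coe_coe, h5, LinearMap.zero_apply] at h4
  rw [LinearMap.zero_apply, ← h4]
  rfl

end rankone

end Pool.Agent.Helper793Bricks
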