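import Mathlib
import Pool.Agent.Helper793_Bricks.Torsion

set_option autoImplicit false

namespace Pool.Agent.Helper793Bricks

section

variable {A : Type*} [Ring A]

/-- `F'' : Y₁ → Y₀` is a retract of `F : X₁ → X₀`. -/
structure IsRetract {X₁ X₀ Y₁ Y₀ : Type*} [AddCommGroup X₁] [Module A X₁]
    [AddCommGroup X₀] [Module A X₀] [AddCommGroup Y₁] [Module A Y₁] [AddCommGroup Y₀]
    [Module A Y₀] (F : X₁ →ₗ[A] X₀) (F' : Y₁ →ₗ[A] Y₀) (i₁ : Y₁ →ₗ[A] X₁) (i₀ : Y₀ →ₗ[A] X₀)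
    (r₁ : X₁ →ₗ[A] Y₁) (r₀ : X₀ →ₗ[A] Y₀) : Prop where
  ri₁ : ∀ y, r₁ (i₁ y) = y
  ri₀ : ∀ y, r₀ (i₀ y) = y
  hi : ∀ y, F (i₁ y) = i₀ (F' y)
  hr : ∀ x, F' (r₁ x) = r₀ (F x)

variable {X₁ X₀ Y₁ Y₀ V₁ V₀ : Type*} [AddCommGroup X₁] [Module A X₁]
    [AddCommGroup X₀] [Module A X₀] [AddCommGroup Y₁] [Module A Y₁] [AddCommGroup Y₀]
    [Module A Y₀] [AddCommGroup V₁] [Module A V₁] [AddCommGroup V₀] [Module A V₀]
    {F : X₁ →ₗ[A] X₀} {F' : Y₁ →ₗ[A] Y₀} {i₁ : Y₁ →ₗ[A] X₁} {i₀ : Y₀ →ₗ[A] X₀}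
    {r₁ : X₁ →ₗ[A] Y₁} {r₀ : X₀ →ₗ[A] Y₀}

lemma IsRetract.E2_self (h : IsRetract F F' i₁ i₀ r₁ r₀) (hF : E2 F F) : E2 F' F' := by
  intro g
  obtain ⟨α, β, hαβ⟩ := hF (i₀ ∘ₗ g ∘ₗ r₁)
  refine ⟨r₀ ∘ₗ α ∘ₗ i₀, r₁ ∘ₗ β ∘ₗ i₁, ?_⟩
  ext y
  have h1 := congrArg r₀ (LinearMap.congr_fun hαβ (i₁ y))
  simp only [LinearMap.comp_apply, LinearMap.add_apply, map_add, h.ri₀, h.ri₁, h.hi] at h1
  simp only [LinearMap.comp_apply, LinearMap.add_apply, h.hr]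
  exact h1

lemma IsRetract.E2_right (h : IsRetract F F' i₁ i₀ r₁ r₀) {G : V₁ →ₗ[A] V₀} (hF : E2 G F) :
    E2 G F' := by
  intro g
  obtain ⟨α, β, hαβ⟩ := hF (i₀ ∘ₗ g)
  refine ⟨r₀ ∘ₗ α, r₁ ∘ₗ β, ?_⟩
  ext y
  have h1 := congrArg r₀ (LinearMap.congr_fun hαβ y)
  simp only [LinearMap.comp_apply, LinearMap.add_apply, map_add, h.ri₀] at h1
  simp only [LinearMap.comp_apply, LinearMap.add_apply, h.hr]
  exact h1

lemma IsRetract.E0 (h : IsRetract F F' i₁ i₀ r₁ r₀) {M : Type*} [AddCommGroup M] [Module A M]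
    (hF : E0 F M) : E0 F' M := by
  intro ψ
  obtain ⟨φ, hφ⟩ := hF (ψ ∘ₗ r₁)
  refine ⟨φ ∘ₗ i₀, ?_⟩
  ext y
  have h1 := LinearMap.congr_fun hφ (i₁ y)
  simp only [LinearMap.comp_apply, h.ri₁, h.hi] at h1
  exact h1

/-- retract from a complement -/
lemma isRetract_of_isCompl (F : X₁ →ₗ[A] X₀) {N₀ N₀' : Submodule A X₀} {N₁ N₁' : Submodule A X₁}
    (h₀ : IsCompl N₀ N₀') (h₁ : IsCompl N₁ N₁') (hF : ∀ x ∈ N₁, F x ∈ N₀)
    (hF' : ∀ x ∈ N₁', F x ∈ N₀') :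
    IsRetract F (F.restrict hF) N₁.subtype N₀.subtype (N₁.projectionOnto N₁' h₁)
      (N₀.projectionOnto N₀' h₀) where
  ri₁ y := Submodule.projectionOnto_apply_left h₁ y
  ri₀ y := Submodule.projectionOnto_apply_left h₀ y
  hi y := rfl
  hr x := by
    have hx : x ∈ N₁ ⊔ N₁' := by rw [h₁.sup_eq_top]; trivial
    obtain ⟨y, hy, z, hz, rfl⟩ := Submodule.mem_sup.mp hx
    have e1 : N₁.projectionOnto N₁' h₁ y = ⟨y, hy⟩ :=
      Submodule.projectionOnto_apply_of_mem_left h₁ hy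
    have e2 : N₁.projectionOnto N₁' h₁ z = 0 :=
      (Submodule.projectionOnto_apply_eq_zero_iff h₁).mpr hz
    have e3 : N₀.projectionOnto N₀' h₀ (F y) = ⟨F y, hF y hy⟩ :=
      Submodule.projectionOnto_apply_of_mem_left h₀ (hF y hy)
    have e4 : N₀.projectionOnto N₀' h₀ (F z) = 0 :=
      (Submodule.projectionOnto_apply_eq_zero_iff h₀).mpr (hF' z hz)
    rw [map_add F, map_add (N₁.projectionOnto N₁' h₁), map_add (N₀.projectionOnto N₀' h₀),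
      e1, e2, e3, e4, add_zero, add_zero]
    rfl

end

section good

variable {A : Type} [Ring A]

/-- The conditions on a left neighbour of `G`, relative to test simples `S₁`, `S₂` and a module
`M`. -/
structure Good {V₁ V₀ : Type} [AddCommGroup V₁] [Module A V₁] [AddCommGroup V₀] [Module A V₀]
    (G : V₁ →ₗ[A] V₀) (S₁ S₂ M : Type) [AddCommGroup S₁] [Module A S₁] [AddCommGroup S₂]
    [Module A S₂] [AddCommGroup M] [Module A M] {X₁ X₀ : Type} [AddCommGroup X₁] [Module A X₁]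
    [AddCommGroup X₀] [Module A X₀] (F : X₁ →ₗ[A] X₀) : Prop where
  fin₁ : Module.Finite A X₁
  fin₀ : Module.Finite A X₀
  proj₁ : Module.Projective A X₁
  proj₀ : Module.Projective A X₀
  hS₂ : ∀ f : X₀ →ₗ[A] S₂, f = 0
  hS₁ : ∀ f : X₁ →ₗ[A] S₁, f = 0
  rig : E2 F F
  comp : E2 G F
  hM : E0 F M
  hne : ∃ φ : X₀ →ₗ[A] M, φ ∘ₗ F = 0 ∧ φ ≠ 0

variable {V₁ V₀ : Type} [AddCommGroup V₁] [Module A V₁] [AddCommGroup V₀] [Module A V₀]
    {G : V₁ →ₗ[A] V₀} {S₁ S₂ M : Type} [AddCommGroup S₁] [Module A S₁] [AddCommGroup S₂]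
    [Module A S₂] [AddCommGroup M] [Module A M]

lemma Good.retract {X₁ X₀ Y₁ Y₀ : Type} [AddCommGroup X₁] [Module A X₁]
    [AddCommGroup X₀] [Module A X₀] [AddCommGroup Y₁] [Module A Y₁] [AddCommGroup Y₀]
    [Module A Y₀] {F : X₁ →ₗ[A] X₀} {F' : Y₁ →ₗ[A] Y₀} {i₁ : Y₁ →ₗ[A] X₁} {i₀ : Y₀ →ₗ[A] X₀}
    {r₁ : X₁ →ₗ[A] Y₁} {r₀ : X₀ →ₗ[A] Y₀} (hF : Good G S₁ S₂ M F)
    (h : IsRetract F F' i₁ i₀ r₁ r₀) (φ : X₀ →ₗ[A] M) (hφ : φ ∘ₗ F = 0) (hφ0 : φ ∘ₗ i₀ ≠ 0) :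
    Good G S₁ S₂ M F' := by
  obtain ⟨f1, f0, p1, p0, hS2, hS1, rig, comp, hM, hne⟩ := hF
  refine ⟨?_, ?_, ?_, ?_, ?_, ?_, h.E2_self rig, h.E2_right comp, h.E0 hM,
    ⟨φ ∘ₗ i₀, ?_, hφ0⟩⟩
  · exact Module.Finite.of_surjective r₁ (fun y => ⟨i₁ y, h.ri₁ y⟩)
  · exact Module.Finite.of_surjective r₀ (fun y => ⟨i₀ y, h.ri₀ y⟩)
  · exact Module.Projective.of_split i₁ r₁ (LinearMap.ext h.ri₁)
  · exact Module.Projective.of_split i₀ r₀ (LinearMap.ext h.ri₀)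
  · intro f
    have h1 := hS2 (f ∘ₗ r₀)
    ext y
    have h2 := LinearMap.congr_fun h1 (i₀ y)
    simp only [LinearMap.comp_apply, h.ri₀] at h2
    exact h2
  · intro f
    have h1 := hS1 (f ∘ₗ r₁)
    ext y
    have h2 := LinearMap.congr_fun h1 (i₁ y)
    simp only [LinearMap.comp_apply, h.ri₁] at h2
    exact h2
  · ext y
    have h2 := LinearMap.congr_fun hφ (i₁ y)
    simp only [LinearMap.comp_apply, h.hi] at h2
    exact h2

/-- A good complex of minimal size. -/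
theorem exists_min_good [IsArtinianRing A] {X₁ X₀ : Type} [AddCommGroup X₁] [Module A X₁]
    [AddCommGroup X₀] [Module A X₀] {F : X₁ →ₗ[A] X₀} (hF : Good G S₁ S₂ M F) :
    ∃ (Y₁ Y₀ : Type) (_ : AddCommGroup Y₁) (_ : Module A Y₁) (_ : AddCommGroup Y₀)
      (_ : Module A Y₀) (F' : Y₁ →ₗ[A] Y₀), Good G S₁ S₂ M F' ∧
      ∀ (α : Y₀ →ₗ[A] Y₀) (β : Y₁ →ₗ[A] Y₁), α ∘ₗ F' = F' ∘ₗ β →
        (∃ n : ℕ, (α ^ n : Module.End A Y₀) = 0) ∨ Function.Surjective α := by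
  classical
  let Pr : ℕ → Prop := fun n => ∃ (Y₁ Y₀ : Type) (_ : AddCommGroup Y₁) (_ : Module A Y₁)
    (_ : AddCommGroup Y₀) (_ : Module A Y₀) (F' : Y₁ →ₗ[A] Y₀), Good G S₁ S₂ M F' ∧
    len A Y₁ + len A Y₀ = n
  have hP : ∃ n, Pr n := ⟨_, X₁, X₀, _, _, _, _, F, hF, rfl⟩
  obtain ⟨Y₁, Y₀, _, _, _, _, F', hF', hn⟩ := Nat.find_spec hP
  have hmin : ∀ (Z₁ Z₀ : Type) [AddCommGroup Z₁] [Module A Z₁]
    [AddCommGroup Z₀] [Module A Z₀] (F'' : Z₁ →ₗ[A] Z₀), Good G S₁ S₂ M F'' →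
    len A Y₁ + len A Y₀ ≤ len A Z₁ + len A Z₀ := by
    intro Z₁ Z₀ _ _ _ _ F'' hF''
    rw [hn]
    exact Nat.find_min' hP ⟨Z₁, Z₀, _, _, _, _, F'', hF'', rfl⟩
  refine ⟨Y₁, Y₀, _, _, _, _, F', hF', ?_⟩
  intro α β hαβ
  have := hF'.fin₁
  have := hF'.fin₀
  obtain ⟨n, ⟨hn0, hn1⟩, hn2⟩ := ((LinearMap.eventually_isCompl_ker_pow_range_pow α).and
    (LinearMap.eventually_isCompl_ker_pow_range_pow β)).and (Filter.eventually_ge_atTop 1)
    |>.exists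
  have hpow : ∀ (m : ℕ) (x : Y₁), (α ^ m) (F' x) = F' ((β ^ m) x) := by
    intro m
    induction m with
    | zero => intro x; rfl
    | succ m ih =>
      intro x
      rw [pow_succ', pow_succ', Module.End.mul_apply, Module.End.mul_apply, ih]
      exact LinearMap.congr_fun hαβ _
  have hk : ∀ x ∈ LinearMap.ker (β ^ n), F' x ∈ LinearMap.ker (α ^ n) := by
    intro x hx
    rw [LinearMap.mem_ker] at hx ⊢
    rw [hpow, hx, map_zero]
  have hr : ∀ x ∈ LinearMap.range (β ^ n), F' x ∈ LinearMap.range (α ^ n) := by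
    rintro _ ⟨x, rfl⟩
    exact ⟨F' x, hpow n x⟩
  obtain ⟨φ, hφ, hφ0⟩ := hF'.hne
  by_cases hc : φ ∘ₗ (LinearMap.ker (α ^ n)).subtype = 0
  · right
    have hc' : φ ∘ₗ (LinearMap.range (α ^ n)).subtype ≠ 0 := by
      intro hc'
      apply hφ0
      ext x
      have hx : x ∈ LinearMap.ker (α ^ n) ⊔ LinearMap.range (α ^ n) := by
        rw [hn0.sup_eq_top]; trivial
      obtain ⟨y, hy, z, hz, rfl⟩ := Submodule.mem_sup.mp hx
      rw [map_add]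
      have e1 : φ y = 0 := LinearMap.congr_fun hc ⟨y, hy⟩
      have e2 : φ z = 0 := LinearMap.congr_fun hc' ⟨z, hz⟩
      rw [e1, e2]; simp
    have hg := hF'.retract (isRetract_of_isCompl F' hn0.symm hn1.symm hr hk) φ hφ hc'
    have hle := hmin _ _ _ hg
    have h1 : len A (LinearMap.range (β ^ n)) ≤ len A Y₁ :=
      len_le_of_injective _ (Submodule.subtype_injective _)
    have h2 : LinearMap.range (α ^ n) = ⊤ := by
      by_contra hne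
      have := len_submodule_lt hne
      omega
    have h3 : Function.Surjective (α ^ n : Module.End A Y₀) := LinearMap.range_eq_top.mp h2
    intro y
    obtain ⟨x, hx⟩ := h3 y
    obtain ⟨m, rfl⟩ : ∃ m, n = m + 1 := ⟨n - 1, by omega⟩
    rw [pow_succ', Module.End.mul_apply] at hx
    exact ⟨_, hx⟩
  · left
    have hg := hF'.retract (isRetract_of_isCompl F' hn0 hn1 hk hr) φ hφ hc
    have hle := hmin _ _ _ hg
    have h1 : len A (LinearMap.ker (β ^ n)) ≤ len A Y₁ :=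
      len_le_of_injective _ (Submodule.subtype_injective _)
    have h2 : LinearMap.ker (α ^ n) = ⊤ := by
      by_contra hne
      have := len_submodule_lt hne
      omega
    exact ⟨n, LinearMap.ker_eq_top.mp h2⟩

lemma E2.quot {X₁ X₀ : Type} [AddCommGroup X₁] [Module A X₁]
    [AddCommGroup X₀] [Module A X₀] [Module.Projective A V₁] {F : X₁ →ₗ[A] X₀} (h : E2 G F) :
    E0 G (X₀ ⧸ LinearMap.range F) := by
  have h1 := h.range (LinearMap.range F).mkQ (by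
    ext x
    change (LinearMap.range F).mkQ (F x) = 0
    rw [← LinearMap.mem_ker, Submodule.ker_mkQ]
    exact ⟨x, rfl⟩)
  exact h1.of_eq_top (Submodule.range_mkQ _)

/-- endomorphisms of the cokernel -/
lemma coker_endo {X₁ X₀ : Type} [AddCommGroup X₁] [Module A X₁]
    [AddCommGroup X₀] [Module A X₀] [Module.Projective A X₁] [Module.Projective A X₀]
    [IsArtinian A X₀] [IsNoetherian A X₀]
    {F : X₁ →ₗ[A] X₀}
    (h : ∀ (α : X₀ →ₗ[A] X₀) (β : X₁ →ₗ[A] X₁), α ∘ₗ F = F ∘ₗ β →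
        (∃ n : ℕ, (α ^ n : Module.End A X₀) = 0) ∨ Function.Surjective α)
    (φ : (X₀ ⧸ LinearMap.range F) →ₗ[A] (X₀ ⧸ LinearMap.range F)) :
    Function.Bijective φ ∨ ∃ n : ℕ, (φ ^ n : Module.End A (X₀ ⧸ LinearMap.range F)) = 0 := by
  let π := (LinearMap.range F).mkQ
  have hπF : ∀ x, π (F x) = 0 := by
    intro x
    rw [← LinearMap.mem_ker, Submodule.ker_mkQ]
    exact ⟨x, rfl⟩
  obtain ⟨α, hα⟩ := Module.projective_lifting_property π (φ ∘ₗ π) (Submodule.mkQ_surjective _)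
  have hαx : ∀ x, π (α x) = φ (π x) := fun x => LinearMap.congr_fun hα x
  have h1 : ∀ x, α (F x) ∈ LinearMap.range F := by
    intro x
    rw [← Submodule.ker_mkQ (LinearMap.range F), LinearMap.mem_ker]
    change π (α (F x)) = 0
    rw [hαx, hπF, map_zero]
  obtain ⟨β, hβ⟩ := Module.projective_lifting_property F.rangeRestrict
    ((α ∘ₗ F).codRestrict _ h1) F.surjective_rangeRestrict
  have h2 : α ∘ₗ F = F ∘ₗ β := by
    ext x
    exact (congrArg Subtype.val (LinearMap.congr_fun hβ x)).symm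
  rcases h α β h2 with ⟨n, hn⟩ | hs
  · right
    refine ⟨n, ?_⟩
    have h3 : ∀ (m : ℕ) (x : X₀), (φ ^ m) (π x) = π ((α ^ m) x) := by
      intro m
      induction m with
      | zero => intro x; rfl
      | succ m ih =>
        intro x
        rw [pow_succ', pow_succ', Module.End.mul_apply, Module.End.mul_apply, ih, hαx]
    ext x
    change (φ ^ n) (π x) = _
    rw [h3, hn]
    simp
  · left
    apply bijective_of_surjective_of_len φ _ le_rfl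
    intro y
    obtain ⟨y', rfl⟩ := Submodule.mkQ_surjective _ y
    obtain ⟨x, rfl⟩ := hs y'
    exact ⟨π x, (hαx x).symm⟩

end good

end Pool.Agent.Helper793Bricks
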