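import Mathlib
import Pool.Agent.Helper793_Bricks.Retract

set_option autoImplicit false

namespace Pool.Agent.Helper793Bricks

section

variable (K : Type*) [Field K] {A : Type*} [Ring A] [Algebra K A]

/-- `dim Hom(X, N)` -/
noncomputable def hd (X N : Type*) [AddCommGroup X] [Module A X] [AddCommGroup N] [Module A N]
    [Module K N] [IsScalarTower K A N] : ℕ :=
  Module.finrank K (X →ₗ[A] N)

variable {X N N' : Type*} [AddCommGroup X] [Module A X] [AddCommGroup N] [Module A N]
    [Module K N] [IsScalarTower K A N] [AddCommGroup N'] [Module A N']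
    [Module K N'] [IsScalarTower K A N']

omit [Field K] [Algebra K A] [Module K N] [IsScalarTower K A N] in
lemma finDimHom [Field K] [Algebra K A] [Module K N] [IsScalarTower K A N]
    [Module.Finite A X] [FiniteDimensional K N] : FiniteDimensional K (X →ₗ[A] N) := by
  obtain ⟨n, f, hf⟩ := Module.Finite.exists_fin' A X
  let T : (X →ₗ[A] N) →ₗ[K] (Fin n → N) :=
    { toFun := fun φ i => φ (f (Pi.single i 1))
      map_add' := fun _ _ => rfl
      map_smul' := fun _ _ => rfl }
  apply Module.Finite.of_injective T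
  intro φ ψ h
  have h1 : φ ∘ₗ f = ψ ∘ₗ f := by
    apply LinearMap.pi_ext'
    intro i
    ext
    exact congrFun h i
  ext x
  obtain ⟨y, rfl⟩ := hf x
  exact LinearMap.congr_fun h1 y

lemma hd_congr (e : N ≃ₗ[A] N') : hd K (A := A) X N = hd K (A := A) X N' := by
  let T : (X →ₗ[A] N) ≃ₗ[K] (X →ₗ[A] N') :=
    { postC K e.toLinearMap X with
      invFun := fun h => e.symm.toLinearMap ∘ₗ h
      left_inv := fun h => by ext x; simp [postC]
      right_inv := fun h => by ext x; simp [postC] }
  exact T.finrank_eq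

lemma hd_add [Module.Projective A X] [Module.Finite A X] [FiniteDimensional K N]
    (S : Submodule A N) :
    hd K (A := A) X N = hd K (A := A) X S + hd K (A := A) X (N ⧸ S) := by
  have : FiniteDimensional K (X →ₗ[A] N) := finDimHom K
  let T : (X →ₗ[A] N) →ₗ[K] (X →ₗ[A] (N ⧸ S)) :=
    { toFun := fun φ => S.mkQ ∘ₗ φ
      map_add' := fun φ ψ => by ext x; simp
      map_smul' := fun c φ => by ext x; rfl }
  have h1 := LinearMap.finrank_range_add_finrank_ker T
  have h2 : LinearMap.range T = ⊤ := by
    rw [LinearMap.range_eq_top]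
    intro φ
    exact Module.projective_lifting_property S.mkQ φ S.mkQ_surjective
  let T' : (X →ₗ[A] S) ≃ₗ[K] LinearMap.ker T :=
    { toFun := fun φ => ⟨S.subtype ∘ₗ φ, by
        rw [LinearMap.mem_ker]
        ext x
        change S.mkQ (φ x : N) = 0
        rw [← LinearMap.mem_ker, Submodule.ker_mkQ]
        exact (φ x).2⟩
      map_add' := fun φ ψ => rfl
      map_smul' := fun c φ => rfl
      invFun := fun φ => φ.1.codRestrict S (fun x => by
        have := LinearMap.congr_fun φ.2 x
        change S.mkQ (φ.1 x) = 0 at this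
        rwa [← LinearMap.mem_ker, Submodule.ker_mkQ] at this)
      left_inv := fun φ => by ext x; rfl
      right_inv := fun φ => by ext x; rfl }
  rw [h2, finrank_top, ← T'.finrank_eq] at h1
  unfold hd
  omega

lemma hd_pi {n : ℕ} [Module.Finite A X] [FiniteDimensional K N] :
    hd K (A := A) (Fin n → X) N = n * hd K (A := A) X N := by
  unfold hd
  have : FiniteDimensional K (X →ₗ[A] N) := finDimHom K
  have T : (Fin n → (X →ₗ[A] N)) ≃ₗ[K] ((Fin n → X) →ₗ[A] N) :=
    LinearMap.lsum A (fun _ : Fin n => X) K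
  rw [← T.finrank_eq, Module.finrank_pi_fintype]
  simp

lemma hd_zero (h : ∀ f : X →ₗ[A] N, f = 0) : hd K (A := A) X N = 0 := by
  unfold hd
  have : Subsingleton (X →ₗ[A] N) := ⟨fun a b => by rw [h a, h b]⟩
  exact Module.finrank_zero_of_subsingleton

lemma hd_pos [Module.Finite A X] [FiniteDimensional K N] (f : X →ₗ[A] N) (hf : f ≠ 0) :
    0 < hd K (A := A) X N := by
  unfold hd
  have : FiniteDimensional K (X →ₗ[A] N) := finDimHom K
  exact Module.finrank_pos_iff_exists_ne_zero.mpr ⟨f, hf⟩

variable {Y : Type*} [AddCommGroup Y] [Module A Y]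

lemma hd_le_of_H0 [Module.Finite A X] [Module.Finite A Y] [FiniteDimensional K N]
    (F : Y →ₗ[A] X) (h : H0 F N) : hd K (A := A) X N ≤ hd K (A := A) Y N := by
  have : FiniteDimensional K (X →ₗ[A] N) := finDimHom K
  have : FiniteDimensional K (Y →ₗ[A] N) := finDimHom K
  unfold hd
  apply LinearMap.finrank_le_finrank_of_injective (f := preC K F N)
  rw [← LinearMap.ker_eq_bot, LinearMap.ker_eq_bot']
  exact h

lemma hd_le_of_E0 [Module.Finite A X] [Module.Finite A Y] [FiniteDimensional K N]
    (F : Y →ₗ[A] X) (h : E0 F N) : hd K (A := A) Y N ≤ hd K (A := A) X N := by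
  have : FiniteDimensional K (X →ₗ[A] N) := finDimHom K
  have : FiniteDimensional K (Y →ₗ[A] N) := finDimHom K
  unfold hd
  have h2 := LinearMap.finrank_range_add_finrank_ker (preC K F N)
  have hs : Function.Surjective (preC K F N) := h
  rw [LinearMap.range_eq_top.mpr hs, finrank_top] at h2
  omega

lemma hd_lt_of_E0 [Module.Finite A X] [Module.Finite A Y] [FiniteDimensional K N]
    (F : Y →ₗ[A] X) (h : E0 F N) (φ : X →ₗ[A] N) (hφ : φ ∘ₗ F = 0) (hφ0 : φ ≠ 0) :
    hd K (A := A) Y N < hd K (A := A) X N := by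
  have : FiniteDimensional K (X →ₗ[A] N) := finDimHom K
  have : FiniteDimensional K (Y →ₗ[A] N) := finDimHom K
  unfold hd
  have h2 := LinearMap.finrank_range_add_finrank_ker (preC K F N)
  have hs : Function.Surjective (preC K F N) := h
  rw [LinearMap.range_eq_top.mpr hs, finrank_top] at h2
  have h3 : 0 < Module.finrank K (LinearMap.ker (preC K F N)) := by
    rw [Module.finrank_pos_iff_exists_ne_zero]
    exact ⟨⟨φ, hφ⟩, fun h => hφ0 (congrArg Subtype.val h)⟩
  omega

end

open scoped ModuleCat

/-- Data: two projectives `P`, `Q`, two simples `S₁`, `S₂` which are all the simples. -/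
structure R2Data (K A : Type) [Field K] [Ring A] [Algebra K A] where
  P : ModuleCat.{0} A
  Q : ModuleCat.{0} A
  S₁ : ModuleCat.{0} A
  S₂ : ModuleCat.{0} A
  finP : Module.Finite A P
  finQ : Module.Finite A Q
  projP : Module.Projective A P
  projQ : Module.Projective A Q
  simple₁ : IsSimpleModule A S₁
  simple₂ : IsSimpleModule A S₂
  PS₁ : ∃ f : P →ₗ[A] S₁, f ≠ 0
  PS₂ : ∀ f : P →ₗ[A] S₂, f = 0
  QS₂ : ∃ f : Q →ₗ[A] S₂, f ≠ 0
  QS₁ : ∀ f : Q →ₗ[A] S₁, f = 0
  all : ∀ (T : Type) [AddCommGroup T] [Module A T] [IsSimpleModule A T],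
    Nonempty (T ≃ₗ[A] S₁) ∨ Nonempty (T ≃ₗ[A] S₂)

/-- swapping the roles -/
def R2Data.swap {K A : Type} [Field K] [Ring A] [Algebra K A] (D : R2Data K A) : R2Data K A where
  P := D.Q
  Q := D.P
  S₁ := D.S₂
  S₂ := D.S₁
  finP := D.finQ
  finQ := D.finP
  projP := D.projQ
  projQ := D.projP
  simple₁ := D.simple₂
  simple₂ := D.simple₁
  PS₁ := D.QS₂
  PS₂ := D.QS₁
  QS₂ := D.PS₁
  QS₁ := D.PS₂
  all := fun T _ _ _ => (D.all T).symm

section

variable {K A : Type} [Field K] [Ring A] [Algebra K A] [FiniteDimensional K A] (D : R2Data K A)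

/-- a simple submodule -/
lemma exists_simple_sub (N : Type) [AddCommGroup N] [Module A N] [IsArtinian A N] [Nontrivial N] :
    ∃ S : Submodule A N, IsSimpleModule A S := by
  obtain ⟨S, hS⟩ := IsAtomic.exists_atom (Submodule A N)
  exact ⟨S, isSimpleModule_iff_isAtom.mpr hS⟩

omit [FiniteDimensional K A] in
/-- multiplicity lemma -/
lemma R2Data.mult (X : Type) [AddCommGroup X] [Module A X] [Module.Finite A X]
    [Module.Projective A X] (hX : ∀ f : X →ₗ[A] D.S₂, f = 0) :
    ∀ (n : ℕ) (N : Type) [AddCommGroup N] [Module A N] [Module K N] [IsScalarTower K A N]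
      [FiniteDimensional K N], Module.finrank K N = n →
      hd K (A := A) X N * hd K (A := A) D.P D.S₁ = hd K (A := A) X D.S₁ * hd K (A := A) D.P N := by
  intro n
  induction n using Nat.strong_induction_on with
  | _ n ih =>
  intro N _ _ _ _ _ hn
  have := D.finP
  have := D.projP
  have : IsArtinian A N := isArtinian_of_tower K inferInstance
  rcases subsingleton_or_nontrivial N with hs | hs
  · rw [hd_zero K (fun f => LinearMap.ext fun x => Subsingleton.elim _ _),
      hd_zero K (X := D.P) (N := N) (fun f => LinearMap.ext fun x => Subsingleton.elim _ _)]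
    simp
  · obtain ⟨S, hS⟩ := exists_simple_sub (A := A) N
    have : Nontrivial S := IsSimpleModule.nontrivial A S
    have : FiniteDimensional K S :=
      Module.Finite.of_injective (S.subtype.restrictScalars K) (Submodule.subtype_injective S)
    have h1 : Module.finrank K (N ⧸ S) < n := by
      let Sk : Submodule K N := S.restrictScalars K
      have h2 : Module.finrank K (N ⧸ S) + Module.finrank K S = Module.finrank K N := by
        have h3 := LinearMap.finrank_range_add_finrank_ker (S.mkQ.restrictScalars K)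
        have h4 : LinearMap.range (S.mkQ.restrictScalars K) = ⊤ := by
          rw [LinearMap.range_eq_top]
          exact S.mkQ_surjective
        have h5 : LinearMap.ker (S.mkQ.restrictScalars K) = S.restrictScalars K := by
          ext x
          rw [LinearMap.mem_ker, Submodule.restrictScalars_mem]
          change S.mkQ x = 0 ↔ _
          rw [← LinearMap.mem_ker, Submodule.ker_mkQ]
        rw [h4, finrank_top, h5] at h3
        exact h3
      have h6 : 0 < Module.finrank K S := Module.finrank_pos
      omega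
    have h2 := ih _ h1 (N ⧸ S) rfl
    have h3 : hd K (A := A) X S * hd K (A := A) D.P D.S₁ =
        hd K (A := A) X D.S₁ * hd K (A := A) D.P S := by
      rcases D.all S with ⟨⟨e⟩⟩ | ⟨⟨e⟩⟩
      · rw [hd_congr K (X := X) e, hd_congr K (X := D.P) e]
      · rw [hd_congr K (X := X) e, hd_congr K (X := D.P) e, hd_zero K hX, hd_zero K D.PS₂]
        simp
    rw [hd_add K (X := X) S, hd_add K (X := D.P) S, add_mul, h2, h3, mul_add]

end

end Pool.Agent.Helper793Bricks
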