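import Mathlib
import Pool.Agent.Helper793_Bricks.Complex

set_option autoImplicit false

namespace Pool.Agent.Helper793Bricks

universe u v w

lemma finrank_lt_quotient {K : Type*} [Field K] {Y Z : Type*} [AddCommGroup Y] [Module K Y]
    [AddCommGroup Z] [Module K Z] [FiniteDimensional K Y] (Λ : Y →ₗ[K] Z)
    (hΛ : Function.Surjective Λ) (T : Submodule K Y) (hT : T ≤ LinearMap.ker Λ) (ξ : Y)
    (hξ : Λ ξ = 0) (hξT : ξ ∉ T) : Module.finrank K Z < Module.finrank K (Y ⧸ T) := by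
  have h1 := Submodule.finrank_quotient_add_finrank T
  have h2 := LinearMap.finrank_range_add_finrank_ker Λ
  rw [LinearMap.range_eq_top.mpr hΛ, finrank_top] at h2
  have h3 : T < LinearMap.ker Λ := lt_of_le_of_ne hT (fun h => hξT (by rw [h]; exact hξ))
  have h4 := Submodule.finrank_lt_finrank_of_lt h3
  omega

section

variable {K : Type*} [Field K] {A : Type*} [Ring A] [Algebra K A]
variable {U₁ U₀ V₁ V₀ : Type*} [AddCommGroup U₁] [Module A U₁]
    [AddCommGroup U₀] [Module A U₀] [AddCommGroup V₁] [Module A V₁] [AddCommGroup V₀]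
    [Module A V₀] [Module K V₁] [IsScalarTower K A V₁] [Module K V₀] [IsScalarTower K A V₀]
    [Module K U₁] [IsScalarTower K A U₁] [Module K U₀] [IsScalarTower K A U₀]

/-- The extension of `F` by `G` given by `ξ`. -/
def extMap (F : U₁ →ₗ[A] U₀) (G : V₁ →ₗ[A] V₀) (ξ : U₁ →ₗ[A] V₀) :
    (V₁ × U₁) →ₗ[A] (V₀ × U₀) :=
  (G.coprod ξ).prod (F ∘ₗ LinearMap.snd A V₁ U₁)

omit [Algebra K A] [Module K V₁] [IsScalarTower K A V₁] [Module K V₀] [IsScalarTower K A V₀]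
    [Module K U₁] [IsScalarTower K A U₁] [Module K U₀] [IsScalarTower K A U₀] in
lemma extMap_apply (F : U₁ →ₗ[A] U₀) (G : V₁ →ₗ[A] V₀) (ξ : U₁ →ₗ[A] V₀) (v : V₁) (u : U₁) :
    extMap F G ξ (v, u) = (G v + ξ u, F u) := rfl

theorem ext_lt_a [FiniteDimensional K (U₁ →ₗ[A] V₀)]
    (F : U₁ →ₗ[A] U₀) (hF : E2 F F) (G : V₁ →ₗ[A] V₀) (ξ : U₁ →ₗ[A] V₀)
    (hξ : ξ ∉ nullS K F G) : e2 K F (extMap F G ξ) < e2 K F G := by
  let ι : (U₁ →ₗ[A] V₀) →ₗ[K] (U₁ →ₗ[A] (V₀ × U₀)) :=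
    { toFun := fun h => LinearMap.inl A V₀ U₀ ∘ₗ h
      map_add' := fun h h' => by ext x <;> simp
      map_smul' := fun c h => by ext x <;> simp }
  let Λ := (nullS K F (extMap F G ξ)).mkQ ∘ₗ ι
  refine finrank_lt_quotient Λ ?_ (nullS K F G) ?_ ξ ?_ hξ
  · intro z
    obtain ⟨h, rfl⟩ := Submodule.mkQ_surjective _ z
    obtain ⟨α, β, hαβ⟩ := hF (LinearMap.snd A V₀ U₀ ∘ₗ h)
    refine ⟨LinearMap.fst A V₀ U₀ ∘ₗ h - ξ ∘ₗ β, ?_⟩
    change Submodule.Quotient.mk _ = Submodule.Quotient.mk _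
    rw [Submodule.Quotient.eq, mem_nullS]
    refine ⟨-(LinearMap.inr A V₀ U₀ ∘ₗ α), -(LinearMap.inr A V₁ U₁ ∘ₗ β), ?_⟩
    ext x
    · simp only [ι, LinearMap.sub_apply, LinearMap.add_apply, LinearMap.comp_apply,
        LinearMap.neg_apply, LinearMap.inl_apply, LinearMap.inr_apply, map_neg, extMap_apply,
        LinearMap.coe_mk, AddHom.coe_mk, LinearMap.fst_apply, Prod.fst_sub, Prod.fst_add,
        Prod.fst_neg, map_zero]
      abel
    · have h1 : (h x).2 = α (F x) + F (β x) := LinearMap.congr_fun hαβ x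
      simp only [ι, LinearMap.sub_apply, LinearMap.add_apply, LinearMap.comp_apply,
        LinearMap.neg_apply, LinearMap.inl_apply, LinearMap.inr_apply, map_neg, extMap_apply,
        LinearMap.coe_mk, AddHom.coe_mk, LinearMap.fst_apply, Prod.snd_sub, Prod.snd_add,
        Prod.snd_neg, h1]
      abel
  · intro h hh
    rw [mem_nullS] at hh
    obtain ⟨α, β, rfl⟩ := hh
    rw [LinearMap.mem_ker]
    change Submodule.Quotient.mk _ = _
    rw [Submodule.Quotient.mk_eq_zero, mem_nullS]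
    refine ⟨LinearMap.inl A V₀ U₀ ∘ₗ α, LinearMap.inl A V₁ U₁ ∘ₗ β, ?_⟩
    ext x <;>
    simp only [ι, LinearMap.add_apply, LinearMap.comp_apply,
        LinearMap.inl_apply, extMap_apply,
        LinearMap.coe_mk, AddHom.coe_mk, Prod.fst_add, Prod.snd_add, map_zero, add_zero]
  · change Submodule.Quotient.mk _ = _
    rw [Submodule.Quotient.mk_eq_zero, mem_nullS]
    refine ⟨-LinearMap.inr A V₀ U₀, LinearMap.inr A V₁ U₁, ?_⟩
    ext x <;>
    simp [ι, extMap_apply]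

theorem ext_lt_b [FiniteDimensional K (U₁ →ₗ[A] V₀)]
    (F : U₁ →ₗ[A] U₀) (G : V₁ →ₗ[A] V₀) (hG : E2 G G) (ξ : U₁ →ₗ[A] V₀)
    (hξ : ξ ∉ nullS K F G) : e2 K (extMap F G ξ) G < e2 K F G := by
  let ι : (U₁ →ₗ[A] V₀) →ₗ[K] ((V₁ × U₁) →ₗ[A] V₀) :=
    { toFun := fun h => h ∘ₗ LinearMap.snd A V₁ U₁
      map_add' := fun h h' => rfl
      map_smul' := fun c h => rfl }
  let Λ := (nullS K (extMap F G ξ) G).mkQ ∘ₗ ι
  refine finrank_lt_quotient Λ ?_ (nullS K F G) ?_ ξ ?_ hξ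
  · intro z
    obtain ⟨h, rfl⟩ := Submodule.mkQ_surjective _ z
    obtain ⟨α, β, hαβ⟩ := hG (h ∘ₗ LinearMap.inl A V₁ U₁)
    refine ⟨h ∘ₗ LinearMap.inr A V₁ U₁ - α ∘ₗ ξ, ?_⟩
    change Submodule.Quotient.mk _ = Submodule.Quotient.mk _
    rw [Submodule.Quotient.eq, mem_nullS]
    refine ⟨-(α ∘ₗ LinearMap.fst A V₀ U₀), -(β ∘ₗ LinearMap.fst A V₁ U₁), ?_⟩
    apply LinearMap.ext
    rintro ⟨v, u⟩
    have h1 : h (v, 0) = α (G v) + G (β v) := LinearMap.congr_fun hαβ v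
    have h2 : h (v, u) = h (v, 0) + h (0, u) := by
      rw [← map_add]; simp
    simp only [ι, LinearMap.sub_apply, LinearMap.add_apply, LinearMap.comp_apply,
        LinearMap.neg_apply, LinearMap.inr_apply, map_neg, extMap_apply,
        LinearMap.coe_mk, AddHom.coe_mk, LinearMap.fst_apply, LinearMap.snd_apply, h2, h1, map_add]
    abel
  · intro h hh
    rw [mem_nullS] at hh
    obtain ⟨α, β, rfl⟩ := hh
    rw [LinearMap.mem_ker]
    change Submodule.Quotient.mk _ = _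
    rw [Submodule.Quotient.mk_eq_zero, mem_nullS]
    refine ⟨α ∘ₗ LinearMap.snd A V₀ U₀, β ∘ₗ LinearMap.snd A V₁ U₁, ?_⟩
    rfl
  · change Submodule.Quotient.mk _ = _
    rw [Submodule.Quotient.mk_eq_zero, mem_nullS]
    refine ⟨LinearMap.fst A V₀ U₀, -LinearMap.fst A V₁ U₁, ?_⟩
    apply LinearMap.ext
    rintro ⟨v, u⟩
    simp [ι, extMap_apply]

end

section transport

variable {K : Type*} [Field K] {A : Type*} [Ring A] [Algebra K A]
variable {U₁ U₀ V₁ V₀ U₁' U₀' V₁' V₀' : Type*} [AddCommGroup U₁] [Module A U₁]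
    [AddCommGroup U₀] [Module A U₀] [AddCommGroup V₁] [Module A V₁] [AddCommGroup V₀]
    [Module A V₀] [Module K V₁] [IsScalarTower K A V₁] [Module K V₀] [IsScalarTower K A V₀]
    [AddCommGroup U₁'] [Module A U₁']
    [AddCommGroup U₀'] [Module A U₀'] [AddCommGroup V₁'] [Module A V₁'] [AddCommGroup V₀']
    [Module A V₀'] [Module K V₁'] [IsScalarTower K A V₁'] [Module K V₀'] [IsScalarTower K A V₀']

/-- the dimension does not change under isomorphism of the first complex -/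
lemma e2_congr_left (σ₁ : U₁ ≃ₗ[A] U₁') (σ₀ : U₀ ≃ₗ[A] U₀') (F : U₁' →ₗ[A] U₀')
    (G : V₁ →ₗ[A] V₀) :
    e2 K (σ₀.symm.toLinearMap ∘ₗ F ∘ₗ σ₁.toLinearMap) G = e2 K F G := by
  let T : (U₁' →ₗ[A] V₀) ≃ₗ[K] (U₁ →ₗ[A] V₀) :=
    { toFun := fun h => h ∘ₗ σ₁.toLinearMap
      invFun := fun h => h ∘ₗ σ₁.symm.toLinearMap
      map_add' := fun _ _ => rfl
      map_smul' := fun _ _ => rfl
      left_inv := fun h => by ext x; simp
      right_inv := fun h => by ext x; simp }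
  have h1 : (nullS K F G).map T.toLinearMap =
      nullS K (σ₀.symm.toLinearMap ∘ₗ F ∘ₗ σ₁.toLinearMap) G := by
    ext h
    rw [mem_nullS, Submodule.mem_map]
    constructor
    · rintro ⟨h', hh', rfl⟩
      rw [mem_nullS] at hh'
      obtain ⟨α, β, rfl⟩ := hh'
      refine ⟨α ∘ₗ σ₀.toLinearMap, β ∘ₗ σ₁.toLinearMap, ?_⟩
      ext x
      simp [T]
    · rintro ⟨α, β, rfl⟩
      refine ⟨α ∘ₗ σ₀.symm.toLinearMap ∘ₗ F + G ∘ₗ (β ∘ₗ σ₁.symm.toLinearMap), ?_, ?_⟩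
      · rw [mem_nullS]
        exact ⟨α ∘ₗ σ₀.symm.toLinearMap, β ∘ₗ σ₁.symm.toLinearMap, rfl⟩
      · ext x
        simp [T]
  unfold e2
  exact (Submodule.Quotient.equiv _ _ T h1).symm.finrank_eq

/-- the dimension does not change under isomorphism of the second complex -/
lemma e2_congr_right (σ₁ : V₁ ≃ₗ[A] V₁') (σ₀ : V₀ ≃ₗ[A] V₀') (F : U₁ →ₗ[A] U₀)
    (G : V₁' →ₗ[A] V₀') :
    e2 K F (σ₀.symm.toLinearMap ∘ₗ G ∘ₗ σ₁.toLinearMap) = e2 K F G := by
  let T : (U₁ →ₗ[A] V₀') ≃ₗ[K] (U₁ →ₗ[A] V₀) :=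
    { toFun := fun h => σ₀.symm.toLinearMap ∘ₗ h
      invFun := fun h => σ₀.toLinearMap ∘ₗ h
      map_add' := fun _ _ => by ext x; simp
      map_smul' := fun c h => by
        ext x
        simp only [LinearMap.comp_apply, LinearMap.smul_apply, RingHom.id_apply,
          LinearEquiv.coe_coe]
        rw [← algebraMap_smul A c (h x), map_smul, algebraMap_smul]
      left_inv := fun h => by ext x; simp
      right_inv := fun h => by ext x; simp }
  have h1 : (nullS K F G).map T.toLinearMap =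
      nullS K F (σ₀.symm.toLinearMap ∘ₗ G ∘ₗ σ₁.toLinearMap) := by
    ext h
    rw [mem_nullS, Submodule.mem_map]
    constructor
    · rintro ⟨h', hh', rfl⟩
      rw [mem_nullS] at hh'
      obtain ⟨α, β, rfl⟩ := hh'
      refine ⟨σ₀.symm.toLinearMap ∘ₗ α, σ₁.symm.toLinearMap ∘ₗ β, ?_⟩
      ext x
      simp [T]
    · rintro ⟨α, β, rfl⟩
      refine ⟨(σ₀.toLinearMap ∘ₗ α) ∘ₗ F + G ∘ₗ (σ₁.toLinearMap ∘ₗ β), ?_, ?_⟩
      · rw [mem_nullS]
        exact ⟨σ₀.toLinearMap ∘ₗ α, σ₁.toLinearMap ∘ₗ β, rfl⟩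
      · ext x
        simp [T]
  unfold e2
  exact (Submodule.Quotient.equiv _ _ T h1).symm.finrank_eq

end transport

end Pool.Agent.Helper793Bricks
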