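import Mathlib
import Pool.Agent.Helper793_Bricks.Basic

set_option autoImplicit false

namespace Pool.Agent.Helper793Bricks

universe u v w

variable (R : Type u) [Ring R]

/-- isomorphism of modules as a setoid -/
def isoSetoid : Setoid (ModuleCat.{v} R) where
  r M N := Nonempty (M ≃ₗ[R] N)
  iseqv := ⟨fun M => ⟨LinearEquiv.refl R M⟩, fun ⟨e⟩ => ⟨e.symm⟩, fun ⟨e⟩ ⟨e'⟩ => ⟨e.trans e'⟩⟩

/-- isomorphism classes of modules -/
abbrev Cls := Quotient (isoSetoid.{u, v} R)

/-- finite length brick of length n -/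
def IsBr (n : ℕ) (M : ModuleCat.{v} R) : Prop :=
  IsBrick R M ∧ IsArtinian R M ∧ IsNoetherian R M ∧ len R M = n

/-- isomorphism classes of bricks of length n -/
def BrCls (n : ℕ) : Set (Cls.{u, v} R) := {c | ∃ M : ModuleCat.{v} R, ⟦M⟧ = c ∧ IsBr R n M}

variable {R}

lemma IsBrick.of_equiv {M : Type v} {N : Type w} [AddCommGroup M] [Module R M]
    [AddCommGroup N] [Module R N] (h : IsBrick R M) (e : M ≃ₗ[R] N) : IsBrick R N := by
  obtain ⟨h1, h2⟩ := h
  refine ⟨e.symm.toEquiv.nontrivial, fun f hf => ?_⟩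
  have h3 : (e.symm.toLinearMap ∘ₗ f ∘ₗ e.toLinearMap) ≠ 0 := by
    intro h0
    apply hf
    ext x
    have := LinearMap.congr_fun h0 (e.symm x)
    simpa using this
  have h4 := h2 _ h3
  have h5 : (f : N → N) = e ∘ (e.symm.toLinearMap ∘ₗ f ∘ₗ e.toLinearMap) ∘ e.symm := by
    ext x; simp
  rw [h5]
  exact e.bijective.comp (h4.comp e.symm.bijective)

/-- No hom, no iso, same length, and a small brick `D` that is a quotient and a submodule:
contradiction. -/
lemma brick_no_small {M : Type v} {D : Type w} [AddCommGroup M] [Module R M]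
    [AddCommGroup D] [Module R D] (hM : IsBrick R M) [Nontrivial D]
    (q : M →ₗ[R] D) (hq : Function.Surjective q) (s : D →ₗ[R] M) (hs : Function.Injective s) :
    Function.Bijective q ∧ Function.Bijective s := by
  have h0 : s ∘ₗ q ≠ 0 := by
    intro h
    obtain ⟨d, hd⟩ := exists_ne (0 : D)
    obtain ⟨m, rfl⟩ := hq d
    apply hd
    apply hs
    rw [map_zero]
    exact LinearMap.congr_fun h m
  have h1 := hM.2 _ h0
  have h2 : Function.Bijective (s ∘ q) := h1
  exact ⟨⟨h2.1.of_comp, hq⟩, ⟨hs, h2.2.of_comp⟩⟩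

/-- **Theorem R1.** If there are infinitely many isomorphism classes of bricks of length `n`, then
there is an infinite sequence of pairwise Hom-orthogonal bricks of one same length `d ≤ n`. -/
theorem exists_semibrick_of_infinite (n : ℕ) (h : (BrCls.{u, v} R n).Infinite) :
    ∃ d ≤ n, ∃ M : ℕ → ModuleCat.{v} R, (∀ i, IsBr R d (M i)) ∧
      ∀ i j, i ≠ j → ∀ f : M i →ₗ[R] M j, f = 0 := by
  classical
  have hex : ∃ n, (BrCls.{u, v} R n).Infinite := ⟨n, h⟩
  let d := Nat.find hex
  have hd : (BrCls.{u, v} R d).Infinite := Nat.find_spec hex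
  have hdmin : ∀ m < d, (BrCls.{u, v} R m).Finite := fun m hm => by
    have := Nat.find_min hex hm
    rwa [Set.not_infinite] at this
  refine ⟨d, Nat.find_min' hex h, ?_⟩
  let F : Set (Cls.{u, v} R) := ⋃ m ∈ Set.Iio d, BrCls.{u, v} R m
  have hF : F.Finite := Set.Finite.biUnion (Set.finite_Iio d) (fun m hm => hdmin m hm)
  have : Finite F := hF.to_subtype
  choose rep hrep1 hrep2 using fun c : BrCls.{u, v} R d => c.2
  have : Infinite (BrCls.{u, v} R d) := hd.to_subtype
  let ty : BrCls.{u, v} R d → Set F × Set F := fun c =>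
    ({D | ∃ q : rep c →ₗ[R] D.1.out, Function.Surjective q},
     {D | ∃ s : D.1.out →ₗ[R] rep c, Function.Injective s})
  obtain ⟨t, ht⟩ := Finite.exists_infinite_fiber ty
  let e := Infinite.natEmbedding (ty ⁻¹' {t})
  refine ⟨fun i => rep (e i).1, fun i => hrep2 _, ?_⟩
  intro i j hij f
  change rep (e i).1 →ₗ[R] rep (e j).1 at f
  by_contra hf
  obtain ⟨hbi, hai, hni, hli⟩ := hrep2 (e i).1
  obtain ⟨hbj, haj, hnj, hlj⟩ := hrep2 (e j).1
  have hniso : ¬ Function.Bijective f := by
    intro hb
    apply hij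
    apply e.injective
    apply Subtype.ext
    apply Subtype.ext
    rw [← hrep1, ← hrep1 (e j).1]
    exact Quotient.sound ⟨LinearEquiv.ofBijective f hb⟩
  have hrlt : len R (LinearMap.range f) < d := by
    by_contra hge
    have h1 : LinearMap.range f = ⊤ := by
      by_contra hne
      have := len_submodule_lt hne
      omega
    exact hniso (bijective_of_surjective_of_len f (LinearMap.range_eq_top.mp h1) (by omega))
  have : Nontrivial (LinearMap.range f) := by
    rw [Submodule.nontrivial_iff_ne_bot]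
    intro h
    exact hf (LinearMap.range_eq_bot.mp h)
  obtain ⟨C, hC, q, hq⟩ := exists_image_brick (R := R) (LinearMap.range f)
  have hClen : len R C ≤ len R (LinearMap.range f) :=
    len_le_of_surjective q hq
  let D : Cls.{u, v} R := ⟦ModuleCat.of R C⟧
  have hDF : D ∈ F := by
    have hlt : len R C < d := by omega
    refine Set.mem_biUnion (x := len R C) hlt ?_
    exact ⟨ModuleCat.of R C, rfl, hC, inferInstanceAs (IsArtinian R C),
      inferInstanceAs (IsNoetherian R C), rfl⟩
  obtain ⟨eD⟩ : Nonempty (D.out ≃ₗ[R] C) := by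
    have : (isoSetoid R).r D.out (ModuleCat.of R C) := Quotient.exact (Quotient.out_eq D)
    exact this
  have hQi : (⟨D, hDF⟩ : F) ∈ (ty (e i).1).1 := by
    refine ⟨eD.symm.toLinearMap ∘ₗ q ∘ₗ f.rangeRestrict, ?_⟩
    exact eD.symm.surjective.comp (hq.comp f.surjective_rangeRestrict)
  have hSj : (⟨D, hDF⟩ : F) ∈ (ty (e j).1).2 := by
    refine ⟨(LinearMap.range f).subtype ∘ₗ C.subtype ∘ₗ eD.toLinearMap, ?_⟩
    exact (Submodule.subtype_injective _).comp ((Submodule.subtype_injective _).comp eD.injective)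
  have hti : ty (e i).1 = t := (e i).2
  have htj : ty (e j).1 = t := (e j).2
  rw [hti, ← htj] at hQi
  obtain ⟨q', hq'⟩ := hQi
  obtain ⟨s', hs'⟩ := hSj
  have : Nontrivial D.out := (hC.of_equiv eD.symm).1
  have hb := (brick_no_small hbj q' hq' s' hs').2
  have h1 : len R D.out = len R (rep (e j).1) := len_eq_of_equiv (LinearEquiv.ofBijective s' hb)
  have h2 : len R D.out = len R C := len_eq_of_equiv eD
  omega

end Pool.Agent.Helper793Bricks
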