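import Mathlib
import Pool.Agent.Helper793_Bricks.Numeric

set_option autoImplicit false

namespace Pool.Agent.Helper793Bricks

open scoped ModuleCat

/-- finite powers of projectives are projective -/
lemma projPi {A : Type*} [Ring A] {Q : Type*} [AddCommGroup Q] [Module A Q]
    [Module.Projective A Q] (n : ℕ) : Module.Projective A (Fin n → Q) :=
  Module.Projective.of_equiv' (M := DirectSum (Fin n) (fun _ => Q))
    (DirectSum.linearEquivFunOnFintype A (Fin n) (fun _ => Q))

section

variable {K A : Type} [Field K] [Ring A] [Algebra K A] (D : R2Data K A)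

lemma R2Data.hdPS₁_pos [FiniteDimensional K A] : 0 < hd K (A := A) D.P D.S₁ := by
  have := D.finP
  have := D.simple₁
  have : Module.Finite A D.S₁ := inferInstance
  have : FiniteDimensional K D.S₁ := Module.Finite.trans A D.S₁
  obtain ⟨f, hf⟩ := D.PS₁
  exact hd_pos K f hf

lemma R2Data.hd_P_pos_of (N : Type) [AddCommGroup N] [Module A N] [Module K N]
    [IsScalarTower K A N] [FiniteDimensional K N] (S : Submodule A N) (e : S ≃ₗ[A] D.S₁) :
    0 < hd K (A := A) D.P N := by
  have := D.finP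
  obtain ⟨f, hf⟩ := D.PS₁
  refine hd_pos K (S.subtype ∘ₗ e.symm.toLinearMap ∘ₗ f) ?_
  intro h
  apply hf
  ext x
  have h1 : (e.symm (f x) : N) = 0 := LinearMap.congr_fun h x
  have h2 : e.symm (f x) = 0 := Subtype.ext h1
  have h3 : f x = 0 := by rw [← e.apply_symm_apply (f x), h2, map_zero]
  rw [h3]; rfl

lemma R2Data.subsingleton_of (N : Type) [AddCommGroup N] [Module A N] [Module K N]
    [IsScalarTower K A N] [FiniteDimensional K N] (hP : hd K (A := A) D.P N = 0)
    (hQ : hd K (A := A) D.Q N = 0) : Subsingleton N := by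
  have : IsArtinian A N := isArtinian_of_tower K inferInstance
  by_contra hcon
  rw [not_subsingleton_iff_nontrivial] at hcon
  obtain ⟨S, hS⟩ := exists_simple_sub (A := A) N
  rcases D.all S with ⟨⟨e⟩⟩ | ⟨⟨e⟩⟩
  · have := D.hd_P_pos_of N S e
    omega
  · have : 0 < hd K (A := A) D.Q N := D.swap.hd_P_pos_of N S e
    omega

/-- the numerical lemma -/
lemma R2Data.numeric [FiniteDimensional K A] (a b : ℕ)
    (G : (Fin b → D.Q) →ₗ[A] (Fin a → D.P))
    {X₁ X₀ : Type} [AddCommGroup X₁] [Module A X₁]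
    [AddCommGroup X₀] [Module A X₀] (F : X₁ →ₗ[A] X₀) [Module.Finite A X₁] [Module.Finite A X₀]
    [Module.Projective A X₁] [Module.Projective A X₀] (h2 : ∀ f : X₀ →ₗ[A] D.S₂, f = 0)
    (h1 : ∀ f : X₁ →ₗ[A] D.S₁, f = 0)
    (hdet : hd K (A := A) X₁ D.S₂ * hd K (A := A) D.P D.S₁ * a <
      hd K (A := A) X₀ D.S₁ * hd K (A := A) D.Q D.S₂ * b)
    (N : Type) [AddCommGroup N] [Module A N] [Module K N] [IsScalarTower K A N]
    [FiniteDimensional K N] (hF : H0 F N) (hG : E0 G N) : Subsingleton N := by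
  have := D.finP
  have := D.finQ
  have e1 := D.mult X₀ h2 _ N rfl
  have e2 : hd K (A := A) X₁ N * hd K (A := A) D.Q D.S₂ =
    hd K (A := A) X₁ D.S₂ * hd K (A := A) D.Q N := D.swap.mult X₁ h1 _ N rfl
  have e3 := hd_le_of_H0 K F hF
  have e4 := hd_le_of_E0 K G hG
  rw [hd_pi, hd_pi] at e4
  have hs : 0 < hd K (A := A) D.P D.S₁ := D.hdPS₁_pos
  have ht : 0 < hd K (A := A) D.Q D.S₂ := D.swap.hdPS₁_pos
  set s := hd K (A := A) D.P D.S₁
  set t := hd K (A := A) D.Q D.S₂
  set c := hd K (A := A) X₀ D.S₁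
  set d := hd K (A := A) X₁ D.S₂
  set x := hd K (A := A) D.P N
  set y := hd K (A := A) D.Q N
  set u0 := hd K (A := A) X₀ N
  set u1 := hd K (A := A) X₁ N
  have f1 : c * t * x ≤ s * d * y := by
    calc c * t * x = (c * x) * t := by ring
      _ = (u0 * s) * t := by rw [e1]
      _ = (s * t) * u0 := by ring
      _ ≤ (s * t) * u1 := Nat.mul_le_mul_left _ e3
      _ = s * (u1 * t) := by ring
      _ = s * (d * y) := by rw [e2]
      _ = s * d * y := by ring
  have f2 : c * t * b * x ≤ d * s * a * x := by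
    calc c * t * b * x = b * (c * t * x) := by ring
      _ ≤ b * (s * d * y) := Nat.mul_le_mul_left _ f1
      _ = s * d * (b * y) := by ring
      _ ≤ s * d * (a * x) := Nat.mul_le_mul_left _ e4
      _ = d * s * a * x := by ring
  have hx : x = 0 := by
    by_contra hx
    have hx' : 0 < x := Nat.pos_of_ne_zero hx
    have := Nat.mul_lt_mul_of_pos_right hdet hx'
    omega
  have hb : 0 < b := by
    rcases Nat.eq_zero_or_pos b with h | h
    · rw [h, Nat.mul_zero] at hdet
      omega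
    · exact h
  have hy : y = 0 := by
    rw [hx, Nat.mul_zero] at e4
    rcases Nat.mul_eq_zero.mp (Nat.le_zero.mp e4) with h | h
    · omega
    · exact h
  exact D.subsingleton_of N hx hy

/-- the determinant condition for a good complex -/
lemma R2Data.det_of_good [FiniteDimensional K A] (a b : ℕ) (hb : 0 < b)
    (G : (Fin b → D.Q) →ₗ[A] (Fin a → D.P))
    {X₁ X₀ : Type} [AddCommGroup X₁] [Module A X₁]
    [AddCommGroup X₀] [Module A X₀] (F : X₁ →ₗ[A] X₀)
    (M : Type) [AddCommGroup M] [Module A M] [Module K M] [IsScalarTower K A M]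
    [FiniteDimensional K M] (hM : E0 G M) (hM' : H0 G M) (hgood : Good G D.S₁ D.S₂ M F) :
    hd K (A := A) X₁ D.S₂ * hd K (A := A) D.P D.S₁ * a <
      hd K (A := A) X₀ D.S₁ * hd K (A := A) D.Q D.S₂ * b := by
  obtain ⟨i1, i0, p1, p0, h2, h1, rig, comp, hE, φ, hφ, hφ0⟩ := hgood
  have := D.finP
  have := D.finQ
  have e1 := D.mult X₀ h2 _ M rfl
  have e2 : hd K (A := A) X₁ M * hd K (A := A) D.Q D.S₂ =
    hd K (A := A) X₁ D.S₂ * hd K (A := A) D.Q M := D.swap.mult X₁ h1 _ M rfl
  have e3 := hd_lt_of_E0 K F hE φ hφ hφ0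
  have e4 := hd_le_of_E0 K G hM
  have e5 := hd_le_of_H0 K G hM'
  have e6 : b * hd K (A := A) D.Q M = a * hd K (A := A) D.P M := by
    rw [hd_pi, hd_pi] at e4 e5
    exact le_antisymm e4 e5
  have hs : 0 < hd K (A := A) D.P D.S₁ := D.hdPS₁_pos
  have ht : 0 < hd K (A := A) D.Q D.S₂ := D.swap.hdPS₁_pos
  set s := hd K (A := A) D.P D.S₁
  set t := hd K (A := A) D.Q D.S₂
  set c := hd K (A := A) X₀ D.S₁
  set d := hd K (A := A) X₁ D.S₂
  set x := hd K (A := A) D.P M
  set y := hd K (A := A) D.Q M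
  set u0 := hd K (A := A) X₀ M
  set u1 := hd K (A := A) X₁ M
  have f1 : s * d * y < c * t * x := by
    calc s * d * y = s * (d * y) := by ring
      _ = s * (u1 * t) := by rw [e2]
      _ = (s * t) * u1 := by ring
      _ < (s * t) * u0 := Nat.mul_lt_mul_of_pos_left e3 (Nat.mul_pos hs ht)
      _ = (u0 * s) * t := by ring
      _ = (c * x) * t := by rw [e1]
      _ = c * t * x := by ring
  have f2 : d * s * a * x < c * t * b * x := by
    calc d * s * a * x = s * d * (a * x) := by ring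
      _ = s * d * (b * y) := by rw [e6]
      _ = b * (s * d * y) := by ring
      _ < b * (c * t * x) := Nat.mul_lt_mul_of_pos_left f1 hb
      _ = c * t * b * x := by ring
  exact Nat.lt_of_mul_lt_mul_right f2

/-- If all maps from a module `X` land in ... -/
lemma R2Data.P3 [FiniteDimensional K A] (a b : ℕ)
    (G : (Fin b → D.Q) →ₗ[A] (Fin a → D.P))
    {X₁ X₀ : Type} [AddCommGroup X₁] [Module A X₁]
    [AddCommGroup X₀] [Module A X₀] (F : X₁ →ₗ[A] X₀) [Module.Finite A X₁] [Module.Finite A X₀]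
    [Module.Projective A X₁] [Module.Projective A X₀] (h2 : ∀ f : X₀ →ₗ[A] D.S₂, f = 0)
    (h1 : ∀ f : X₁ →ₗ[A] D.S₁, f = 0) (rig : E2 F F)
    (hdet : hd K (A := A) X₁ D.S₂ * hd K (A := A) D.P D.S₁ * a <
      hd K (A := A) X₀ D.S₁ * hd K (A := A) D.Q D.S₂ * b)
    (N : Type) [AddCommGroup N] [Module A N] [IsNoetherian A N] (hG : E0 G N) :
    Tr F N = ⊤ := by
  letI : Module K N := Module.compHom N (algebraMap K A)
  have : IsScalarTower K A N := ⟨fun x y z => by
    rw [Algebra.smul_def, mul_smul]; rfl⟩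
  have : FiniteDimensional K N := Module.Finite.trans A N
  have := D.projQ
  have : Module.Projective A (Fin b → D.Q) := projPi b
  have h3 : E0 F (Tr F N) := Tr_E0 rig
  have h4 := Tr_H0 h3
  have h5 : E0 G (N ⧸ Tr F N) := hG.of_surjective _ (Submodule.mkQ_surjective _)
  have h6 := D.numeric a b G F h2 h1 hdet (N ⧸ Tr F N) h4 h5
  exact Submodule.Quotient.subsingleton_iff.mp h6

/-- **Left neighbour theorem.** -/
theorem R2Data.exists_hom_of_left [FiniteDimensional K A] (a b a' b' : ℕ)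
    (G : (Fin b → D.Q) →ₗ[A] (Fin a → D.P))
    (F : (Fin b' → D.Q) →ₗ[A] (Fin a' → D.P)) (hF : E2 F F) (hGF : E2 G F)
    (hdet : b' * a < a' * b)
    (M : Type) [AddCommGroup M] [Module A M] [IsNoetherian A M] [IsArtinian A M] [Nontrivial M]
    (hM : E0 G M) (hM' : H0 G M)
    (N : Type) [AddCommGroup N] [Module A N] [IsNoetherian A N] [IsArtinian A N] [Nontrivial N]
    (hN : E0 G N) : ∃ f : M →ₗ[A] N, f ≠ 0 := by
  have := D.projP
  have := D.projQ
  have := D.finP
  have := D.finQ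
  have : Module.Projective A (Fin b → D.Q) := projPi b
  have : Module.Projective A (Fin b' → D.Q) := projPi b'
  have : Module.Projective A (Fin a' → D.P) := projPi a'
  have : IsArtinianRing A := isArtinian_of_tower K inferInstance
  letI : Module K M := Module.compHom M (algebraMap K A)
  have : IsScalarTower K A M := ⟨fun x y z => by
    rw [Algebra.smul_def, mul_smul]; rfl⟩
  have : FiniteDimensional K M := Module.Finite.trans A M
  letI : Module K N := Module.compHom N (algebraMap K A)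
  have : IsScalarTower K A N := ⟨fun x y z => by
    rw [Algebra.smul_def, mul_smul]; rfl⟩
  have : FiniteDimensional K N := Module.Finite.trans A N
  have hb : 0 < b := by
    rcases Nat.eq_zero_or_pos b with h | h
    · rw [h, Nat.mul_zero] at hdet
      omega
    · exact h
  have := D.simple₁
  have := D.simple₂
  have : FiniteDimensional K D.S₁ := Module.Finite.trans A D.S₁
  have : FiniteDimensional K D.S₂ := Module.Finite.trans A D.S₂
  have h2 : ∀ f : (Fin a' → D.P) →ₗ[A] D.S₂, f = 0 := by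
    intro f
    apply LinearMap.pi_ext'
    intro i
    rw [D.PS₂ (f ∘ₗ LinearMap.single A (fun _ : Fin a' => (D.P : Type)) i), LinearMap.zero_comp]
  have h1 : ∀ f : (Fin b' → D.Q) →ₗ[A] D.S₁, f = 0 := by
    intro f
    apply LinearMap.pi_ext'
    intro i
    rw [D.QS₁ (f ∘ₗ LinearMap.single A (fun _ : Fin b' => (D.Q : Type)) i), LinearMap.zero_comp]
  have hdet' : hd K (A := A) (Fin b' → D.Q) D.S₂ * hd K (A := A) D.P D.S₁ * a <
      hd K (A := A) (Fin a' → D.P) D.S₁ * hd K (A := A) D.Q D.S₂ * b := by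
    rw [hd_pi, hd_pi]
    have hs : 0 < hd K (A := A) D.P D.S₁ := D.hdPS₁_pos
    have ht : 0 < hd K (A := A) D.Q D.S₂ := D.swap.hdPS₁_pos
    calc b' * hd K (A := A) D.Q D.S₂ * hd K (A := A) D.P D.S₁ * a
        = (hd K (A := A) D.Q D.S₂ * hd K (A := A) D.P D.S₁) * (b' * a) := by ring
      _ < (hd K (A := A) D.Q D.S₂ * hd K (A := A) D.P D.S₁) * (a' * b) :=
        Nat.mul_lt_mul_of_pos_left hdet (Nat.mul_pos ht hs)
      _ = _ := by ring
  have hTr : Tr F M = ⊤ := D.P3 a b G F h2 h1 hF hdet' M hM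
  have hgood : Good G D.S₁ D.S₂ M F := by
    refine ⟨inferInstance, inferInstance, inferInstance, inferInstance, h2, h1, hF, hGF,
      (Tr_E0 hF).of_eq_top hTr, ?_⟩
    by_contra hcon
    push Not at hcon
    have h3 : Tr F M ≤ ⊥ := by
      apply Tr_le
      intro φ hφ
      rw [hcon φ hφ, LinearMap.range_zero]
    rw [hTr] at h3
    exact bot_ne_top (le_bot_iff.mp h3).symm
  obtain ⟨Y₁, Y₀, _, _, _, _, F', hgood', hend⟩ := exists_min_good hgood
  have hdet'' := D.det_of_good a b hb G F' M hM hM' hgood'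
  have := hgood'.fin₁
  have := hgood'.fin₀
  have := hgood'.proj₁
  have := hgood'.proj₀
  letI : Module K (Y₀ ⧸ LinearMap.range F') := Module.compHom _ (algebraMap K A)
  have : IsScalarTower K A (Y₀ ⧸ LinearMap.range F') := ⟨fun x y z => by
    rw [Algebra.smul_def, mul_smul]; rfl⟩
  have : FiniteDimensional K ((Y₀ ⧸ LinearMap.range F') →ₗ[A] N) := finDimHom K
  refine exists_hom_ne_zero (K := K) G (X := Y₀ ⧸ LinearMap.range F') hgood'.comp.quot
    (coker_endo hend) ?_ hM hM' hN
  intro N _ _ _ _ hGN N' hN'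
  by_contra hcon
  push Not at hcon
  have h3 := D.P3 a b G F' hgood'.hS₂ hgood'.hS₁ hgood'.rig hdet'' N hGN
  have h4 : Tr F' N ≤ N' := by
    apply Tr_le
    intro φ hφ
    have h5 : LinearMap.range F' ≤ LinearMap.ker φ := by
      rintro _ ⟨x, rfl⟩
      exact LinearMap.congr_fun hφ x
    have h6 := hcon ((LinearMap.range F').liftQ φ h5)
    refine le_trans ?_ h6
    rintro _ ⟨x, rfl⟩
    exact ⟨(LinearMap.range F').mkQ x, rfl⟩
  rw [h3] at h4
  exact hN' (top_le_iff.mp h4)

end

end Pool.Agent.Helper793Bricks
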