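import Mathlib
import Pool.Agent.Helper793_Bricks.Left
import Pool.Agent.Helper793_Bricks.Ext
import Pool.Agent.Helper793_Bricks.Family

set_option autoImplicit false

namespace Pool.Agent.Helper793Bricks

open scoped ModuleCat

/-- splitting a power -/
def powSplit (A : Type*) [Ring A] (Q : Type*) [AddCommGroup Q] [Module A Q] (n m : ℕ) :
    (Fin (n + m) → Q) ≃ₗ[A] (Fin n → Q) × (Fin m → Q) :=
  (LinearEquiv.funCongrLeft A Q finSumFinEquiv).trans
    (LinearEquiv.sumArrowLequivProdArrow (Fin n) (Fin m) A Q)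

section

variable {K A : Type} [Field K] [Ring A] [Algebra K A] [FiniteDimensional K A] (D : R2Data K A)
  (R : ∀ a b : ℕ, (Fin b → D.Q) →ₗ[A] (Fin a → D.P))

lemma R2Data.dec (hR : ∀ a b, E2 (R a b) (R a b)) (a b a' b' : ℕ)
    (h : e2 K (R a b) (R a' b') ≠ 0) :
    e2 K (R a b) (R (a' + a) (b' + b)) < e2 K (R a b) (R a' b') ∧
    e2 K (R (a' + a) (b' + b)) (R a' b') < e2 K (R a b) (R a' b') := by
  have := D.finP
  have := D.finQ
  have : FiniteDimensional K D.P := Module.Finite.trans A D.P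
  have : FiniteDimensional K D.Q := Module.Finite.trans A D.Q
  have hfd : ∀ n m : ℕ, FiniteDimensional K ((Fin n → D.Q) →ₗ[A] (Fin m → D.P)) :=
    fun n m => finDimHom K
  have hfd2 : ∀ n m : ℕ, FiniteDimensional K ((Fin n → D.P) →ₗ[A] (Fin m → D.P)) :=
    fun n m => finDimHom K
  have hfd3 : ∀ n m : ℕ, FiniteDimensional K ((Fin n → D.Q) →ₗ[A] (Fin m → D.Q)) :=
    fun n m => finDimHom K
  obtain ⟨ξ, hξ⟩ : ∃ ξ, ξ ∉ nullS K (R a b) (R a' b') := by
    by_contra hcon
    push Not at hcon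
    apply h
    rw [e2_eq_zero_iff, ← nullS_eq_top_iff (K := K), eq_top_iff]
    intro x _
    exact hcon x
  have h1 := ext_lt_a (R a b) (hR a b) (R a' b') ξ hξ
  have h2 := ext_lt_b (R a b) (R a' b') (hR a' b') ξ hξ
  constructor
  · refine lt_of_le_of_lt ?_ h1
    rw [← e2_congr_right (powSplit A D.Q b' b) (powSplit A D.P a' a) (R a b)
      (extMap (R a b) (R a' b') ξ)]
    exact e2_le_right _ _ (hR _ _) _
  · refine lt_of_le_of_lt ?_ h2
    rw [← e2_congr_left (powSplit A D.Q b' b) (powSplit A D.P a' a)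
      (extMap (R a b) (R a' b') ξ) (R a' b')]
    exact e2_le_left _ (hR _ _) _ _

/-- bricks generated by `P` which are in the torsion class of `(a,b)` but not of `(a',b')` -/
def R2Data.BSet (a b a' b' : ℕ) : Set (Cls.{0, 0} A) :=
  {c | ∃ M : ModuleCat.{0} A, Quotient.mk (isoSetoid A) M = c ∧ Module.Finite A M ∧
    IsBrick A M ∧ Tr (R 1 0) M = ⊤ ∧ E0 (R a b) M ∧ ¬ E0 (R a' b') M}

/-- a left neighbour -/
def R2Data.Lft (a b : ℕ) : Prop := ∃ a' b' : ℕ, b' * a < a' * b ∧ E2 (R a b) (R a' b')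

lemma R2Data.brick_H0 (hR : ∀ a b, E2 (R a b) (R a b)) (a b a' b' : ℕ)
    (hL : D.Lft R a b) (h : E2 (R a' b') (R a b)) (B : Type) [AddCommGroup B] [Module A B]
    [Module.Finite A B] (hB : IsBrick A B) (h1 : E0 (R a b) B) (h2 : ¬ E0 (R a' b') B) :
    H0 (R a b) B := by
  have := D.projP
  have := D.projQ
  have : IsArtinianRing A := isArtinian_of_tower K inferInstance
  have : Module.Projective A (Fin b → D.Q) := projPi b
  have : Module.Projective A (Fin b' → D.Q) := projPi b'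
  have : Module.Projective A (Fin a → D.P) := projPi a
  have hT : Tr (R a b) B ≠ ⊤ := by
    intro hT
    exact h2 ((Tr_E0 h).of_eq_top hT)
  have : Nontrivial (B ⧸ Tr (R a b) B) := Submodule.Quotient.nontrivial_iff.mpr hT
  have : Nontrivial B := hB.1
  obtain ⟨a'', b'', hdet, hL'⟩ := hL
  obtain ⟨f, hf⟩ := D.exists_hom_of_left a b a'' b'' (R a b) (R a'' b'') (hR _ _) hL' hdet
    (B ⧸ Tr (R a b) B) (h1.of_surjective _ (Submodule.mkQ_surjective _))
    (Tr_H0 (Tr_E0 (hR a b))) B h1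
  have h3 : f ∘ₗ (Tr (R a b) B).mkQ ≠ 0 := by
    intro h0
    apply hf
    ext x
    exact LinearMap.congr_fun h0 x
  have h4 := hB.2 _ h3
  have h5 : Tr (R a b) B = ⊥ := by
    rw [eq_bot_iff]
    intro x hx
    rw [Submodule.mem_bot]
    apply h4.1
    rw [map_zero]
    have : (Tr (R a b) B).mkQ x = 0 := by
      rw [← LinearMap.mem_ker, Submodule.ker_mkQ]; exact hx
    rw [LinearMap.comp_apply, this, map_zero]
  intro φ hφ
  have h6 := range_le_Tr (R a b) φ hφ
  rw [h5, le_bot_iff] at h6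
  exact LinearMap.range_eq_bot.mp h6

lemma R2Data.surj_of_left (hR : ∀ a b, E2 (R a b) (R a b)) (a b : ℕ)
    (hL : D.Lft R a b) (B B' : Type) [AddCommGroup B] [Module A B]
    [Module.Finite A B] (hB : IsBrick A B) (h1 : E0 (R a b) B)
    [AddCommGroup B'] [Module A B']
    [Module.Finite A B'] (hB' : IsBrick A B') (h1' : E0 (R a b) B') (h2' : H0 (R a b) B')
    (f : B →ₗ[A] B') (hf : f ≠ 0) : Function.Surjective f := by
  have := D.projP
  have := D.projQ
  have : IsArtinianRing A := isArtinian_of_tower K inferInstance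
  have : Module.Projective A (Fin b → D.Q) := projPi b
  have : Nontrivial B := hB.1
  have : Nontrivial B' := hB'.1
  have : Nontrivial (LinearMap.range f) := by
    rw [Submodule.nontrivial_iff_ne_bot]
    intro h
    exact hf (LinearMap.range_eq_bot.mp h)
  obtain ⟨a'', b'', hdet, hL'⟩ := hL
  obtain ⟨g, hg⟩ := D.exists_hom_of_left a b a'' b'' (R a b) (R a'' b'') (hR _ _) hL' hdet
    B' h1' h2' (LinearMap.range f)
    (h1.of_surjective f.rangeRestrict f.surjective_rangeRestrict)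
  have h3 : (LinearMap.range f).subtype ∘ₗ g ≠ 0 := by
    intro h0
    apply hg
    ext x
    exact LinearMap.congr_fun h0 x
  have h4 := hB'.2 _ h3
  intro y
  obtain ⟨x, hx⟩ := h4.2 y
  obtain ⟨z, hz⟩ := (g x).2
  exact ⟨z, by rw [hz]; exact hx⟩

/-- base case: at most one brick -/
lemma R2Data.BSet_subsingleton (hR : ∀ a b, E2 (R a b) (R a b)) (a b a' b' : ℕ)
    (hL : D.Lft R a b) (h : E2 (R a' b') (R a b)) : (D.BSet R a b a' b').Subsingleton := by
  rintro c ⟨M, rfl, hMf, hM, -, hM1, hM2⟩ c' ⟨M', rfl, hMf', hM', -, hM1', hM2'⟩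
  have : IsArtinianRing A := isArtinian_of_tower K inferInstance
  have : Nontrivial M := hM.1
  have : Nontrivial M' := hM'.1
  have h1 := D.brick_H0 R hR a b a' b' hL h M hM hM1 hM2
  have h2 := D.brick_H0 R hR a b a' b' hL h M' hM' hM1' hM2'
  obtain ⟨a'', b'', hdet, hL'⟩ := id hL
  obtain ⟨f, hf⟩ := D.exists_hom_of_left a b a'' b'' (R a b) (R a'' b'') (hR _ _) hL' hdet
    M hM1 h1 M' hM1'
  obtain ⟨g, hg⟩ := D.exists_hom_of_left a b a'' b'' (R a b) (R a'' b'') (hR _ _) hL' hdet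
    M' hM1' h2 M hM1
  have h3 := D.surj_of_left R hR a b hL M M' hM hM1 hM' hM1' h2 f hf
  have h4 := D.surj_of_left R hR a b hL M' M hM' hM1' hM hM1 h1 g hg
  have h5 := len_le_of_surjective g h4
  have h6 := bijective_of_surjective_of_len f h3 h5
  exact Quotient.sound ⟨LinearEquiv.ofBijective f h6⟩

/-- **The induction.** -/
theorem R2Data.chain (hR : ∀ a b, E2 (R a b) (R a b)) :
    ∀ (n a b a' b' : ℕ), e2 K (R a' b') (R a b) = n → b * a' < a * b' →
      ((a = 1 ∧ b = 0) ∨ D.Lft R a b) → D.Lft R a' b' ∧ (D.BSet R a b a' b').Finite := by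
  have := D.finP
  have := D.finQ
  have := D.projP
  have := D.projQ
  have : FiniteDimensional K D.P := Module.Finite.trans A D.P
  have : FiniteDimensional K D.Q := Module.Finite.trans A D.Q
  have hfd : ∀ n m : ℕ, FiniteDimensional K ((Fin n → D.Q) →ₗ[A] (Fin m → D.P)) :=
    fun n m => finDimHom K
  intro n
  induction n using Nat.strong_induction_on with
  | _ n ih =>
  intro a b a' b' hn hdet hL
  by_cases h0 : n = 0
  · rw [h0, e2_eq_zero_iff] at hn
    refine ⟨⟨a, b, hdet, hn⟩, ?_⟩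
    rcases hL with ⟨rfl, rfl⟩ | hL
    · have : D.BSet R 1 0 a' b' = ∅ := by
        rw [Set.eq_empty_iff_forall_notMem]
        rintro c ⟨M, rfl, hMf, hM, hT, hM1, hM2⟩
        have : Module.Projective A (Fin b' → D.Q) := projPi b'
        have : IsNoetherian A M := by
          have : IsNoetherianRing A := isNoetherian_of_tower K inferInstance
          infer_instance
        exact hM2 ((Tr_E0 hn).of_eq_top hT)
      rw [this]
      exact Set.finite_empty
    · exact (D.BSet_subsingleton R hR a b a' b' hL hn).finite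
  · have hdec := D.dec R hR a' b' a b (by rw [hn]; exact h0)
    rw [hn] at hdec
    obtain ⟨hL1, hF1⟩ := ih _ hdec.2 a b (a + a') (b + b') rfl (by
      rw [Nat.mul_add, Nat.mul_add, Nat.mul_comm b a]; omega) hL
    obtain ⟨hL2, hF2⟩ := ih _ hdec.1 (a + a') (b + b') a' b' rfl (by
      rw [Nat.add_mul, Nat.add_mul, Nat.mul_comm b' a']; omega) (Or.inr hL1)
    refine ⟨hL2, (hF1.union hF2).subset ?_⟩
    rintro c ⟨M, rfl, hMf, hM, hT, hM1, hM2⟩
    by_cases hE : E0 (R (a + a') (b + b')) M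
    · exact Or.inr ⟨M, rfl, hMf, hM, hT, hE, hM2⟩
    · exact Or.inl ⟨M, rfl, hMf, hM, hT, hM1, hE⟩

end

end Pool.Agent.Helper793Bricks
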