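import Mathlib
import Pool.Agent.Helper793_Bricks.Family

set_option autoImplicit false

open CategoryTheory

namespace Pool.Agent.Helper793Bricks

universe u v w

variable {R : Type u} [Ring R]

lemma isIso_iff_bij {M N : ModuleCat.{v} R} (f : M ⟶ N) :
    IsIso f ↔ Function.Bijective f.hom := by
  rw [ConcreteCategory.isIso_iff_bijective]

lemma isBrick_iff (M : ModuleCat.{v} R) :
    IsBrick R M ↔ (Nontrivial M ∧ ∀ f : M ⟶ M, f ≠ 0 → IsIso f) := by
  unfold IsBrick
  refine and_congr_right fun _ => ⟨fun h f hf => ?_, fun h f hf => ?_⟩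
  · rw [isIso_iff_bij]
    apply h
    intro h0
    apply hf
    ext x
    rw [h0]
    rfl
  · have h1 : ModuleCat.ofHom f ≠ 0 := by
      intro h0
      apply hf
      have := congrArg ModuleCat.Hom.hom h0
      simpa using this
    have h2 := h _ h1
    rw [isIso_iff_bij] at h2
    exact h2

lemma not_equiv_of_isEmpty {M N : ModuleCat.{v} R} (h : IsEmpty (M ≅ N)) :
    IsEmpty (M ≃ₗ[R] N) := ⟨fun e => h.false e.toModuleIso⟩

lemma artin_noeth_of_length_ne_top (M : Type v) [AddCommGroup M] [Module R M]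
    (h : Module.length R M ≠ ⊤) : IsArtinian R M ∧ IsNoetherian R M := by
  rw [Module.length_ne_top_iff, isFiniteLength_iff_isNoetherian_isArtinian] at h
  exact ⟨h.2, h.1⟩

lemma hom_eq_zero {M N : ModuleCat.{v} R} (h : ∀ f : M →ₗ[R] N, f = 0) (f : M ⟶ N) : f = 0 := by
  ext x
  rw [h f.hom]
  rfl

/-- From an infinite sequence of pairwise non-isomorphic bricks of length `≤ n` we get an infinite
class set of bricks of some length. -/
lemma exists_infinite_brCls (n : ℕ) (M : ℕ → ModuleCat.{v} R)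
    (hb : ∀ i, IsBrick R (M i)) (hl : ∀ i, Module.length R (M i) ≤ n)
    (hni : ∀ i j, i ≠ j → IsEmpty (M i ≃ₗ[R] M j)) :
    ∃ d ≤ n, (BrCls.{u, v} R d).Infinite := by
  have hfin : ∀ i, IsArtinian R (M i) ∧ IsNoetherian R (M i) := fun i =>
    artin_noeth_of_length_ne_top (M i) (ne_top_of_le_ne_top (ENat.natCast_ne_top n) (hl i))
  have hlen : ∀ i, len R (M i) ≤ n := fun i => by
    obtain ⟨h1, h2⟩ := hfin i
    have := hl i
    rw [← len_cast] at this
    exact_mod_cast this
  by_contra hcon
  push Not at hcon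
  have hfinite : ∀ d ≤ n, (BrCls.{u, v} R d).Finite := hcon
  have hU : (⋃ d ∈ Set.Iic n, BrCls.{u, v} R d).Finite :=
    Set.Finite.biUnion (Set.finite_Iic n) (fun d hd => hfinite d hd)
  have hmem : ∀ i, (Quotient.mk (isoSetoid R) (M i)) ∈ (⋃ d ∈ Set.Iic n, BrCls.{u, v} R d) := by
    intro i
    refine Set.mem_biUnion (x := len R (M i)) (hlen i) ?_
    exact ⟨M i, rfl, hb i, (hfin i).1, (hfin i).2, rfl⟩
  have hinj : Function.Injective (fun i => Quotient.mk (isoSetoid R) (M i)) := by
    intro i j hij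
    by_contra hne
    obtain ⟨e⟩ : (isoSetoid R).r (M i) (M j) := Quotient.exact hij
    exact (hni i j hne).false e
  exact Set.infinite_of_injective_forall_mem hinj hmem hU

end Pool.Agent.Helper793Bricks
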