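import Mathlib

set_option autoImplicit false

namespace Pool.Agent.Helper793Bricks

universe u v w

variable {K : Type u} [Field K]

/-- If `S x = 0` and `T x ∉ range S`, then some `S + t • T` has larger rank than `S`
(over an infinite field). -/
theorem exists_rank_lt [Infinite K] {U : Type v} {W : Type w} [AddCommGroup U] [Module K U]
    [AddCommGroup W] [Module K W] [FiniteDimensional K U] [FiniteDimensional K W]
    (S T : U →ₗ[K] W) (x : U) (hx : S x = 0) (hTx : T x ∉ LinearMap.range S) :
    ∃ t : K, Module.finrank K (LinearMap.range S) < Module.finrank K (LinearMap.range (S + t • T)) := by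
  classical
  obtain ⟨U', hU'⟩ := Submodule.exists_isCompl (LinearMap.ker S)
  -- the map E = U' × K → W, (u, s) ↦ S u + s T x
  let G : (U' × K) →ₗ[K] W :=
    (S ∘ₗ U'.subtype) ∘ₗ LinearMap.fst K U' K +
      (LinearMap.toSpanSingleton K W (T x)) ∘ₗ LinearMap.snd K U' K
  have hGapp : ∀ u s, G (u, s) = S u + s • T x := fun u s => by simp [G]
  have hGinj : Function.Injective G := by
    rw [← LinearMap.ker_eq_bot, LinearMap.ker_eq_bot']
    rintro ⟨u, s⟩ h
    rw [hGapp] at h
    have hs : s = 0 := by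
      by_contra hs
      apply hTx
      refine ⟨-(s⁻¹ • (u : U)), ?_⟩
      have h1 : s • T x = - S u := by
        rw [eq_neg_iff_add_eq_zero, add_comm]; exact h
      rw [map_neg, map_smul, ← smul_neg, ← h1, smul_smul, inv_mul_cancel₀ hs, one_smul]
    subst hs
    simp only [zero_smul, add_zero] at h
    have hu : (u : U) ∈ LinearMap.ker S ⊓ U' := ⟨h, u.2⟩
    rw [hU'.inf_eq_bot, Submodule.mem_bot] at hu
    have : u = 0 := Subtype.ext hu
    rw [this]; rfl
  obtain ⟨L, hL⟩ := G.exists_leftInverse_of_injective (LinearMap.ker_eq_bot.mpr hGinj)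
  let B : (U' × K) →ₗ[K] (U' × K) := L ∘ₗ T ∘ₗ U'.subtype ∘ₗ LinearMap.fst K U' K
  -- choose t ≠ 0 with 1 + t B injective
  obtain ⟨t, ht0, ht⟩ : ∃ t : K, t ≠ 0 ∧ ∀ z, z + t • B z = 0 → z = 0 := by
    have hfin : {μ : K | Module.End.HasEigenvalue B μ}.Finite :=
      Module.End.finite_hasEigenvalue B
    have hfin2 : ({μ : K | Module.End.HasEigenvalue B μ} ∪ {0}).Finite :=
      hfin.union (Set.finite_singleton 0)
    obtain ⟨μ, hμ⟩ := hfin2.exists_notMem
    simp only [Set.mem_union, Set.mem_ofPred_eq, Set.mem_singleton_iff, not_or] at hμ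
    obtain ⟨hμ1, hμ0⟩ := hμ
    refine ⟨-μ⁻¹, by simpa using hμ0, fun z hz => ?_⟩
    by_contra hz0
    apply hμ1
    apply Module.End.hasEigenvalue_of_hasEigenvector (x := z)
    refine ⟨?_, hz0⟩
    rw [Module.End.mem_eigenspace_iff]
    have h1 : z = μ⁻¹ • B z := by
      rw [neg_smul, ← sub_eq_add_neg, sub_eq_zero] at hz
      exact hz
    calc B z = μ • (μ⁻¹ • B z) := by rw [smul_smul, mul_inv_cancel₀ hμ0, one_smul]
      _ = μ • z := by rw [← h1]
  refine ⟨t, ?_⟩
  -- the injective map (u,s) ↦ (S + tT)(u + (s/t) x)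
  let Φ : (U' × K) →ₗ[K] LinearMap.range (S + t • T) :=
    (S + t • T).rangeRestrict ∘ₗ (U'.subtype ∘ₗ LinearMap.fst K U' K +
      (LinearMap.toSpanSingleton K U (t⁻¹ • x)) ∘ₗ LinearMap.snd K U' K)
  have hΦapp : ∀ u s, ((Φ (u, s) : LinearMap.range (S + t • T)) : W) =
      S u + s • T x + t • T u := by
    intro u s
    have : ((Φ (u, s) : LinearMap.range (S + t • T)) : W) =
      (S + t • T) ((u : U) + s • (t⁻¹ • x)) := rfl
    have e1 : (S + t • T) (t⁻¹ • x) = T x := by
      rw [LinearMap.add_apply, LinearMap.smul_apply, map_smul, map_smul, hx, smul_zero, zero_add,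
        smul_smul, mul_inv_cancel₀ ht0, one_smul]
    rw [this, map_add, map_smul, e1, LinearMap.add_apply, LinearMap.smul_apply]
    abel
  have hΦinj : Function.Injective Φ := by
    rw [← LinearMap.ker_eq_bot, LinearMap.ker_eq_bot']
    rintro ⟨u, s⟩ h
    apply ht
    have h1 : S u + s • T x + t • T u = 0 := by
      rw [← hΦapp, h]; rfl
    have h2 : L (G (u, s)) = (u, s) := LinearMap.congr_fun hL (u, s)
    have h3 : B (u, s) = L (T u) := rfl
    rw [h3, ← map_smul, ← h2, ← map_add, hGapp]
    rw [h1, map_zero]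
  have hrank := LinearMap.finrank_le_finrank_of_injective hΦinj
  have hdim : Module.finrank K (U' × K) = Module.finrank K (LinearMap.range S) + 1 := by
    rw [Module.finrank_prod, Module.finrank_self]
    have h1 := Submodule.finrank_add_eq_of_isCompl hU'
    have h2 := LinearMap.finrank_range_add_finrank_ker S
    omega
  omega

/-- Existence of an element of maximal rank, with the resulting property. -/
theorem exists_max_rank [Infinite K] {H : Type*} {U : Type v} {W : Type w}
    [AddCommGroup H] [Module K H] [AddCommGroup U] [Module K U]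
    [AddCommGroup W] [Module K W] [FiniteDimensional K U] [FiniteDimensional K W]
    (Φ : H →ₗ[K] (U →ₗ[K] W)) :
    ∃ f : H, ∀ (h : H) (x : U), Φ f x = 0 → Φ h x ∈ LinearMap.range (Φ f) := by
  classical
  let S : Set ℕ := Set.range (fun f : H => Module.finrank K (LinearMap.range (Φ f)))
  have hne : S.Nonempty := Set.range_nonempty _
  have hbdd : BddAbove S := by
    refine ⟨Module.finrank K W, ?_⟩
    rintro _ ⟨f, rfl⟩
    exact Submodule.finrank_le _
  obtain ⟨f, hf⟩ := Nat.sSup_mem hne hbdd
  refine ⟨f, fun h x hx => ?_⟩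
  by_contra hcon
  obtain ⟨t, ht⟩ := exists_rank_lt (Φ f) (Φ h) x hx hcon
  have h1 : Module.finrank K (LinearMap.range (Φ (f + t • h))) ≤ sSup S := le_csSup hbdd ⟨_, rfl⟩
  rw [map_add, map_smul] at h1
  have h2 : Module.finrank K (LinearMap.range (Φ f)) = sSup S := hf
  omega

end Pool.Agent.Helper793Bricks
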