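import Mathlib
import Pool.Agent.Helper793_Bricks.Cat
import Pool.Agent.Helper793_Bricks.Rank
import Pool.Agent.Helper793_Bricks.Obstruct

set_option autoImplicit false

namespace Pool.Agent.Helper793Bricks

universe u v w x

section

variable {K : Type w} [Field K] {A : Type u} [Ring A] [Algebra K A]

/-- precomposition, as a `K`-bilinear map -/
noncomputable def preHom (P₁ P₀ C : Type*) [AddCommGroup P₁] [Module A P₁] [AddCommGroup P₀] [Module A P₀]
    [AddCommGroup C] [Module A C] [Module K P₁] [IsScalarTower K A P₁] [Module K P₀]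
    [IsScalarTower K A P₀] [Module K C] [IsScalarTower K A C] :
    (P₁ →ₗ[A] P₀) →ₗ[K] ((P₀ →ₗ[A] C) →ₗ[K] (P₁ →ₗ[A] C)) where
  toFun f :=
    { toFun := fun φ => φ ∘ₗ f
      map_add' := fun φ ψ => by ext x; rfl
      map_smul' := fun k φ => by ext x; rfl }
  map_add' f g := by
    ext φ x
    simp
  map_smul' k f := by
    ext φ x
    simp only [RingHom.id_apply, LinearMap.smul_apply]
    change φ (k • f x) = k • φ (f x)
    rw [← algebraMap_smul A k (f x), map_smul, algebraMap_smul]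

lemma preHom_apply (P₁ P₀ C : Type*) [AddCommGroup P₁] [Module A P₁] [AddCommGroup P₀] [Module A P₀]
    [AddCommGroup C] [Module A C] [Module K P₁] [IsScalarTower K A P₁] [Module K P₀]
    [IsScalarTower K A P₀] [Module K C] [IsScalarTower K A C] (f : P₁ →ₗ[A] P₀)
    (φ : P₀ →ₗ[A] C) : preHom (K := K) P₁ P₀ C f φ = φ ∘ₗ f := rfl

/-- The `K`-subspace of null-homotopic maps. -/
noncomputable def nullHom {P₁ : Type*} {P₀ : Type*} [AddCommGroup P₁] [Module A P₁] [AddCommGroup P₀]
    [Module A P₀] [Module K P₁] [IsScalarTower K A P₁] [Module K P₀]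
    [IsScalarTower K A P₀] (f : P₁ →ₗ[A] P₀) : Submodule K (P₁ →ₗ[A] P₀) where
  carrier := {h | ∃ (a : P₀ →ₗ[A] P₀) (b : P₁ →ₗ[A] P₁), h = a ∘ₗ f + f ∘ₗ b}
  add_mem' := by
    rintro _ _ ⟨a, b, rfl⟩ ⟨a', b', rfl⟩
    refine ⟨a + a', b + b', ?_⟩
    ext x; simp; abel
  zero_mem' := ⟨0, 0, by ext x; simp⟩
  smul_mem' := by
    rintro k _ ⟨a, b, rfl⟩
    refine ⟨k • a, k • b, ?_⟩
    ext x
    simp only [LinearMap.smul_apply, LinearMap.add_apply, LinearMap.comp_apply, smul_add]
    congr 1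
    rw [← algebraMap_smul A k (b x), map_smul, algebraMap_smul]

theorem exists_rigid_aux [Infinite K] (P₁ : Type x) (P₀ : Type v) [AddCommGroup P₁] [Module A P₁]
    [AddCommGroup P₀] [Module A P₀] [Module K P₁] [IsScalarTower K A P₁] [Module K P₀]
    [IsScalarTower K A P₀] [Module.Projective A P₁] [Module.Projective A P₀]
    [FiniteDimensional K P₁] [FiniteDimensional K P₀]
    {ι : Type*} [Finite ι] (C : ι → Type v) [∀ i, AddCommGroup (C i)] [∀ i, Module A (C i)]
    [∀ i, Module K (C i)] [∀ i, IsScalarTower K A (C i)] [∀ i, FiniteDimensional K (C i)]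
    [IsArtinian A P₀] [IsNoetherian A P₀]
    (hC : ∀ (B : Type v) [AddCommGroup B] [Module A B] [IsArtinian A B] [IsNoetherian A B],
      IsBrick A B → len A B ≤ len A P₀ → ∃ i, Nonempty (B ≃ₗ[A] C i)) :
    ∃ f : P₁ →ₗ[A] P₀, IsRigidMap f := by
  classical
  have : Fintype ι := Fintype.ofFinite ι
  have hfd : ∀ (X Y : Type _) [AddCommGroup X] [Module A X] [Module K X] [IsScalarTower K A X]
      [AddCommGroup Y] [Module A Y] [Module K Y] [IsScalarTower K A Y]
      [FiniteDimensional K X] [FiniteDimensional K Y], FiniteDimensional K (X →ₗ[A] Y) := by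
    intro X Y _ _ _ _ _ _ _ _ _ _
    exact Module.Finite.of_injective (LinearMap.restrictScalarsₗ K A X Y K)
      (LinearMap.restrictScalars_injective K)
  have h1 : FiniteDimensional K (P₀ →ₗ[A] (∀ i, C i)) :=
    Module.Finite.of_injective (LinearMap.restrictScalarsₗ K A P₀ (∀ i, C i) K)
      (LinearMap.restrictScalars_injective K)
  have h2 : FiniteDimensional K (P₁ →ₗ[A] (∀ i, C i)) :=
    Module.Finite.of_injective (LinearMap.restrictScalarsₗ K A P₁ (∀ i, C i) K)
      (LinearMap.restrictScalars_injective K)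
  obtain ⟨f, hf⟩ := exists_max_rank (preHom (K := K) (A := A) P₁ P₀ (∀ i, C i))
  refine ⟨f, ?_⟩
  by_contra hcon
  unfold IsRigidMap at hcon
  push Not at hcon
  obtain ⟨h0, hh0⟩ := hcon
  have hnot : h0 ∉ nullHom (K := K) f := by
    rintro ⟨a, b, hab⟩
    exact hh0 a b hab
  obtain ⟨ξ, hξ0, hξ⟩ := Submodule.exists_dual_map_eq_bot_of_notMem hnot inferInstance
  have hξ2 : ∀ g ∈ nullHom (K := K) f, ξ g = 0 := by
    intro g hg
    have : ξ g ∈ (nullHom (K := K) f).map ξ := ⟨g, hg, rfl⟩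
    rw [hξ] at this
    exact this
  obtain ⟨B, _, _, _, _, hB, hlen, c, hc, hcf, h, hh⟩ := exists_brick_obstruction f
    ξ.toAddMonoidHom (fun a => hξ2 _ ⟨a, 0, by ext x; simp⟩)
    (fun b => hξ2 _ ⟨0, b, by ext x; simp⟩) h0 hξ0
  obtain ⟨i, ⟨e⟩⟩ := hC B hB hlen
  let φ : P₀ →ₗ[A] (∀ i, C i) := LinearMap.single A C i ∘ₗ e.toLinearMap ∘ₗ c
  have h3 : preHom (K := K) (A := A) P₁ P₀ (∀ i, C i) f φ = 0 := by
    rw [preHom_apply]
    simp only [φ, LinearMap.comp_assoc, hcf, LinearMap.comp_zero]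
  obtain ⟨ψ, hψ⟩ := hf h φ h3
  rw [preHom_apply, preHom_apply] at hψ
  apply hh (e.symm.toLinearMap ∘ₗ LinearMap.proj i ∘ₗ ψ)
  ext x
  have h4 := congrFun (LinearMap.congr_fun hψ x) i
  simp only [φ, LinearMap.comp_apply, LinearMap.single_apply, Pi.single_eq_same,
    LinearEquiv.coe_coe] at h4
  simp only [LinearMap.comp_apply, LinearMap.proj_apply, LinearEquiv.coe_coe]
  rw [h4, LinearEquiv.symm_apply_apply]

end

lemma brCls_out {A : Type u} [Ring A] {d : ℕ} {c : Cls.{u, v} A} (hc : c ∈ BrCls.{u, v} A d) :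
    IsBr A d c.out := by
  obtain ⟨M, hM, h1, h2, h3, h4⟩ := hc
  obtain ⟨e⟩ : (isoSetoid A).r c.out M := Quotient.exact (by rw [hM]; exact Quotient.out_eq c)
  exact ⟨h1.of_equiv e.symm, isArtinian_of_linearEquiv e.symm, isNoetherian_of_linearEquiv e.symm,
    (len_eq_of_equiv e).trans h4⟩

section

open scoped ModuleCat

variable (K : Type w) [Field K] {A : Type u} [Ring A] [Algebra K A] [FiniteDimensional K A]

/-- Over an infinite field: if there are only finitely many isomorphism classes of bricks of length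
`≤ len P₀`, then there is a rigid map `P₁ → P₀`. -/
theorem exists_rigid [Infinite K] (P₁ : ModuleCat.{x} A) (P₀ : ModuleCat.{v} A)
    [Module.Projective A P₁] [Module.Projective A P₀]
    [Module.Finite A P₁] [Module.Finite A P₀]
    (hfin : (⋃ d ∈ Set.Iic (len A P₀), BrCls.{u, v} A d).Finite) :
    ∃ f : P₁ →ₗ[A] P₀, IsRigidMap f := by
  classical
  let F : Set (Cls.{u, v} A) := ⋃ d ∈ Set.Iic (len A P₀), BrCls.{u, v} A d
  have : Finite F := hfin.to_subtype
  have : FiniteDimensional K P₁ := Module.Finite.trans A P₁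
  have : FiniteDimensional K P₀ := Module.Finite.trans A P₀
  have : IsArtinian A P₀ := isArtinian_of_tower K inferInstance
  have : IsNoetherian A P₀ := isNoetherian_of_tower K inferInstance
  have hout : ∀ i : F, Module.Finite A i.1.out := by
    intro i
    obtain ⟨d, hd, hid⟩ := Set.mem_iUnion₂.mp i.2
    have := (brCls_out hid).2.2.1
    infer_instance
  have : ∀ i : F, FiniteDimensional K i.1.out := fun i => by
    have := hout i
    exact Module.Finite.trans A i.1.out
  refine exists_rigid_aux (K := K) P₁ P₀ (fun i : F => i.1.out) ?_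
  intro B _ _ _ _ hB hlen
  refine ⟨⟨⟦ModuleCat.of A B⟧, Set.mem_biUnion (x := len A B) hlen
    ⟨ModuleCat.of A B, rfl, hB, inferInstanceAs (IsArtinian A B),
      inferInstanceAs (IsNoetherian A B), rfl⟩⟩, ?_⟩
  have : (isoSetoid A).r (ModuleCat.of A B) (Quotient.out (⟦ModuleCat.of A B⟧ : Cls.{u, v} A)) :=
    (isoSetoid A).symm (Quotient.exact (Quotient.out_eq _))
  exact this

/-- Over an infinite field: if no map `P₁ → P₀` is rigid then there is an infinite semibrick of
bricks of length `≤ len P₀`. -/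
theorem exists_semibrick_of_no_rigid [Infinite K] (P₁ : ModuleCat.{x} A) (P₀ : ModuleCat.{v} A)
    [Module.Projective A P₁] [Module.Projective A P₀]
    [Module.Finite A P₁] [Module.Finite A P₀]
    (hno : ∀ f : P₁ →ₗ[A] P₀, ¬ IsRigidMap f) :
    ∃ d ≤ len A P₀, ∃ M : ℕ → ModuleCat.{v} A, (∀ i, IsBr A d (M i)) ∧
      ∀ i j, i ≠ j → ∀ f : M i →ₗ[A] M j, f = 0 := by
  have h1 : ¬ (⋃ d ∈ Set.Iic (len A P₀), BrCls.{u, v} A d).Finite := by
    intro h
    obtain ⟨f, hf⟩ := exists_rigid K P₁ P₀ h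
    exact hno f hf
  have h2 : ∃ d ≤ len A P₀, (BrCls.{u, v} A d).Infinite := by
    by_contra hcon
    push Not at hcon
    exact h1 (Set.Finite.biUnion (Set.finite_Iic _) hcon)
  obtain ⟨d, hd, hinf⟩ := h2
  obtain ⟨d', hd', h3⟩ := exists_semibrick_of_infinite d hinf
  exact ⟨d', hd'.trans hd, h3⟩

end

end Pool.Agent.Helper793Bricks
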