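import Mathlib
import Pool.Agent.Helper793_Bricks.Chain
import Pool.Agent.Helper793_Bricks.Rigid

set_option autoImplicit false

namespace Pool.Agent.Helper793Bricks

open scoped ModuleCat

section

variable {K A : Type} [Field K] [Ring A] [Algebra K A] [FiniteDimensional K A] (D : R2Data K A)
  (R : ∀ a b : ℕ, (Fin b → D.Q) →ₗ[A] (Fin a → D.P))

/-- a simple quotient above a proper submodule -/
lemma exists_simple_quot (N : Type) [AddCommGroup N] [Module A N] [IsNoetherian A N]
    (N' : Submodule A N) (hN' : N' ≠ ⊤) :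
    ∃ S : Submodule A N, N' ≤ S ∧ IsSimpleModule A (N ⧸ S) := by
  obtain ⟨S, hS, hle⟩ := (eq_top_or_exists_le_coatom N').resolve_left hN'
  exact ⟨S, hle, isSimpleModule_iff_isCoatom.mpr hS⟩

omit [FiniteDimensional K A] in
/-- lifting a nonzero map `P → S₁` to a module with quotient `S₁` -/
lemma R2Data.exists_lift (N : Type) [AddCommGroup N] [Module A N] (S : Submodule A N)
    (e : (N ⧸ S) ≃ₗ[A] D.S₁) : ∃ φ : D.P →ₗ[A] N, ¬ LinearMap.range φ ≤ S := by
  have := D.projP
  obtain ⟨f, hf⟩ := D.PS₁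
  obtain ⟨φ, hφ⟩ := Module.projective_lifting_property S.mkQ (e.symm.toLinearMap ∘ₗ f)
    S.mkQ_surjective
  refine ⟨φ, fun h => hf ?_⟩
  ext x
  have h1 : S.mkQ (φ x) = 0 := by
    rw [← LinearMap.mem_ker, Submodule.ker_mkQ]; exact h ⟨x, rfl⟩
  have h2 := LinearMap.congr_fun hφ x
  rw [LinearMap.comp_apply, h1] at h2
  have h3 : f x = e 0 := by
    rw [h2]
    simp
  rw [h3, map_zero]; rfl

omit [FiniteDimensional K A] in
/-- a brick with simple quotient and simple submodule both isomorphic to `T` is `T` -/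
lemma brick_of_simple {M T : Type} [AddCommGroup M] [Module A M] [AddCommGroup T] [Module A T]
    (hM : IsBrick A M) [Nontrivial T] (S : Submodule A M) (e : (M ⧸ S) ≃ₗ[A] T)
    (S' : Submodule A M) (e' : S' ≃ₗ[A] T) : Nonempty (M ≃ₗ[A] T) := by
  have h1 := brick_no_small hM (e.toLinearMap ∘ₗ S.mkQ) (e.surjective.comp S.mkQ_surjective)
    (S'.subtype ∘ₗ e'.symm.toLinearMap)
    ((Submodule.subtype_injective _).comp e'.symm.injective)
  exact ⟨LinearEquiv.ofBijective _ h1.1⟩

/-- bricks with no map from `Q` are isomorphic to `S₁` -/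
lemma R2Data.brick_of_hom_Q_zero (M : Type) [AddCommGroup M] [Module A M] [Module.Finite A M]
    (hM : IsBrick A M) (h : ∀ f : D.Q →ₗ[A] M, f = 0) : Nonempty (M ≃ₗ[A] D.S₁) := by
  have : IsArtinianRing A := isArtinian_of_tower K inferInstance
  have := hM.1
  have := D.simple₁
  have : Nontrivial D.S₁ := IsSimpleModule.nontrivial A D.S₁
  obtain ⟨S', hS'⟩ := exists_simple_sub (A := A) M
  obtain ⟨S, -, hS⟩ := exists_simple_quot (A := A) M ⊥ bot_ne_top
  have e' : Nonempty (S' ≃ₗ[A] D.S₁) := by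
    rcases D.all S' with h1 | ⟨⟨e⟩⟩
    · exact h1
    · exfalso
      obtain ⟨f, hf⟩ := D.QS₂
      apply hf
      have h2 := h (S'.subtype ∘ₗ e.symm.toLinearMap ∘ₗ f)
      ext x
      have h3 : (e.symm (f x) : M) = 0 := LinearMap.congr_fun h2 x
      have h4 : e.symm (f x) = 0 := Subtype.ext h3
      have h5 : f x = 0 := by rw [← e.apply_symm_apply (f x), h4, map_zero]
      rw [h5]; rfl
  have e : Nonempty ((M ⧸ S) ≃ₗ[A] D.S₁) := by
    rcases D.all (M ⧸ S) with h1 | ⟨⟨e⟩⟩
    · exact h1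
    · exfalso
      obtain ⟨φ, hφ⟩ := D.swap.exists_lift M S e
      apply hφ
      have h0 : ∀ f : D.swap.P →ₗ[A] M, f = 0 := h
      rw [h0 φ, LinearMap.range_zero]
      exact bot_le
  obtain ⟨e⟩ := e
  obtain ⟨e'⟩ := e'
  exact brick_of_simple hM S e S' e'

/-- all bricks (finitely generated) as a set of classes -/
def allBr (A : Type) [Ring A] : Set (Cls.{0, 0} A) :=
  {c | ∃ M : ModuleCat.{0} A, Quotient.mk (isoSetoid A) M = c ∧ Module.Finite A M ∧ IsBrick A M}

/-- bricks generated by `P` -/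
def R2Data.FacP : Set (Cls.{0, 0} A) :=
  {c | ∃ M : ModuleCat.{0} A, Quotient.mk (isoSetoid A) M = c ∧ Module.Finite A M ∧
    IsBrick A M ∧ ∀ N : Submodule A M, N ≠ ⊤ → ∃ φ : D.P →ₗ[A] M, ¬ LinearMap.range φ ≤ N}

lemma R2Data.FacP_finite (hR : ∀ a b, E2 (R a b) (R a b)) : (D.FacP).Finite := by
  have h1 := (D.chain R hR _ 1 0 0 1 rfl (by norm_num) (Or.inl ⟨rfl, rfl⟩)).2
  refine (h1.union (Set.finite_singleton (Quotient.mk (isoSetoid A) D.S₁))).subset ?_
  rintro c ⟨M, rfl, hMf, hM, hgen⟩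
  have hT : Tr (R 1 0) M = ⊤ := by
    by_contra hne
    obtain ⟨φ, hφ⟩ := hgen _ hne
    apply hφ
    let φ' : (Fin 1 → D.P) →ₗ[A] M := φ ∘ₗ LinearMap.proj 0
    have h2 : φ' ∘ₗ (R 1 0) = 0 := by
      refine LinearMap.ext fun x => ?_
      have hx : x = 0 := Subsingleton.elim _ _
      rw [hx, map_zero, map_zero]
    have h3 := range_le_Tr (R 1 0) φ' h2
    rintro _ ⟨x, rfl⟩
    exact h3 ⟨fun _ => x, rfl⟩
  have hE : E0 (R 1 0) M := by
    intro ψ
    refine ⟨0, ?_⟩
    refine LinearMap.ext fun x => ?_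
    have hx : x = 0 := Subsingleton.elim _ _
    rw [hx, map_zero, map_zero]
  by_cases hE' : E0 (R 0 1) M
  · right
    have h2 : ∀ f : D.Q →ₗ[A] M, f = 0 := by
      intro f
      obtain ⟨φ, hφ⟩ := hE' (f ∘ₗ LinearMap.proj (0 : Fin 1))
      ext x
      have h3 := LinearMap.congr_fun hφ (fun _ => x)
      have h4 : (R 0 1) (fun _ => x) = 0 := Subsingleton.elim _ _
      rw [LinearMap.comp_apply, h4, map_zero] at h3
      exact h3.symm
    exact Quotient.sound (D.brick_of_hom_Q_zero M hM h2)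
  · left
    exact ⟨M, rfl, hMf, hM, hT, hE, hE'⟩

lemma R2Data.allBr_subset : allBr A ⊆ {Quotient.mk (isoSetoid A) D.S₁,
    Quotient.mk (isoSetoid A) D.S₂} ∪ (D.FacP ∪ D.swap.FacP) := by
  rintro c ⟨M, rfl, hMf, hM⟩
  have : IsArtinianRing A := isArtinian_of_tower K inferInstance
  have := hM.1
  have := D.simple₁
  have := D.simple₂
  have : Nontrivial D.S₁ := IsSimpleModule.nontrivial A D.S₁
  have : Nontrivial D.S₂ := IsSimpleModule.nontrivial A D.S₂
  by_cases hP : ∀ N : Submodule A M, N ≠ ⊤ → ∃ φ : D.P →ₗ[A] M, ¬ LinearMap.range φ ≤ N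
  · exact Or.inr (Or.inl ⟨M, rfl, hMf, hM, hP⟩)
  by_cases hQ : ∀ N : Submodule A M, N ≠ ⊤ → ∃ φ : D.Q →ₗ[A] M, ¬ LinearMap.range φ ≤ N
  · exact Or.inr (Or.inr ⟨M, rfl, hMf, hM, hQ⟩)
  left
  push Not at hP hQ
  obtain ⟨N, hN, hNP⟩ := hP
  obtain ⟨N', hN', hNQ⟩ := hQ
  obtain ⟨S, hSN, hS⟩ := exists_simple_quot (A := A) M N hN
  obtain ⟨S', hSN', hS'⟩ := exists_simple_quot (A := A) M N' hN'
  have e2 : Nonempty ((M ⧸ S) ≃ₗ[A] D.S₂) := by
    rcases D.all (M ⧸ S) with ⟨⟨e⟩⟩ | h1
    · exfalso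
      obtain ⟨φ, hφ⟩ := D.exists_lift M S e
      exact hφ ((hNP φ).trans hSN)
    · exact h1
  have e1 : Nonempty ((M ⧸ S') ≃ₗ[A] D.S₁) := by
    rcases D.all (M ⧸ S') with h1 | ⟨⟨e⟩⟩
    · exact h1
    · exfalso
      obtain ⟨φ, hφ⟩ := D.swap.exists_lift M S' e
      exact hφ ((hNQ φ).trans hSN')
  obtain ⟨T, hT⟩ := exists_simple_sub (A := A) M
  obtain ⟨e1⟩ := e1
  obtain ⟨e2⟩ := e2
  rcases D.all T with ⟨⟨e⟩⟩ | ⟨⟨e⟩⟩
  · left
    exact Quotient.sound (brick_of_simple hM S' e1 T e)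
  · right
    exact Quotient.sound (brick_of_simple hM S e2 T e)

/-- Existence of the rigid family from finiteness of bricks of each length. -/
lemma R2Data.exists_R [Infinite K] (hfin : ∀ d, (BrCls.{0, 0} A d).Finite) :
    ∃ R : ∀ a b : ℕ, (Fin b → D.Q) →ₗ[A] (Fin a → D.P), ∀ a b, E2 (R a b) (R a b) := by
  have := D.finP
  have := D.finQ
  have := D.projP
  have := D.projQ
  have h1 : ∀ a b : ℕ, ∃ f : (Fin b → D.Q) →ₗ[A] (Fin a → D.P), E2 f f := by
    intro a b
    have : Module.Projective A (ModuleCat.of A (Fin b → D.Q)) := projPi b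
    have : Module.Projective A (ModuleCat.of A (Fin a → D.P)) := projPi a
    have : Module.Finite A (ModuleCat.of A (Fin b → D.Q)) :=
      inferInstanceAs (Module.Finite A (Fin b → D.Q))
    have : Module.Finite A (ModuleCat.of A (Fin a → D.P)) :=
      inferInstanceAs (Module.Finite A (Fin a → D.P))
    exact exists_rigid K (ModuleCat.of A (Fin b → D.Q)) (ModuleCat.of A (Fin a → D.P))
      (Set.Finite.biUnion (Set.finite_Iic _) (fun d _ => hfin d))
  choose R hR using h1
  exact ⟨R, hR⟩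

include D in
theorem R2Data.allBr_finite [Infinite K] (hfin : ∀ d, (BrCls.{0, 0} A d).Finite) :
    (allBr A).Finite := by
  obtain ⟨R, hR⟩ := D.exists_R hfin
  obtain ⟨R', hR'⟩ := D.swap.exists_R hfin
  refine Set.Finite.subset ?_ D.allBr_subset
  refine Set.Finite.union (Set.toFinite _) (Set.Finite.union (D.FacP_finite R hR)
    (D.swap.FacP_finite R' hR'))

end

section existence

variable {A : Type} [Ring A] [IsArtinianRing A]

/-- A projective which sees `S₁` but not `S₂`. -/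
theorem exists_proj {S₁ S₂ : Type} [AddCommGroup S₁] [Module A S₁] [AddCommGroup S₂] [Module A S₂]
    [IsSimpleModule A S₁] [IsSimpleModule A S₂] (hne : IsEmpty (S₁ ≃ₗ[A] S₂)) :
    ∃ P : ModuleCat.{0} A, Module.Finite A P ∧ Module.Projective A P ∧
      (∃ f : P →ₗ[A] S₁, f ≠ 0) ∧ ∀ f : P →ₗ[A] S₂, f = 0 := by
  classical
  have : Nontrivial S₁ := IsSimpleModule.nontrivial A S₁
  let Pr : ℕ → Prop := fun n => ∃ P : ModuleCat.{0} A, Module.Finite A P ∧ Module.Projective A P ∧
      (∃ f : P →ₗ[A] S₁, f ≠ 0) ∧ len A P = n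
  have hP : ∃ n, Pr n := by
    obtain ⟨s, hs⟩ := exists_ne (0 : S₁)
    refine ⟨_, ModuleCat.of A A, inferInstanceAs (Module.Finite A A),
      inferInstanceAs (Module.Projective A A), ⟨LinearMap.toSpanSingleton A S₁ s, ?_⟩, rfl⟩
    intro h
    apply hs
    have := LinearMap.congr_fun h (1 : A)
    simpa using this
  obtain ⟨P, hPf, hPp, ⟨f, hf⟩, hn⟩ := Nat.find_spec hP
  refine ⟨P, hPf, hPp, ⟨f, hf⟩, fun g => ?_⟩
  by_contra hg
  have hfs : Function.Surjective f := LinearMap.surjective_of_ne_zero hf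
  have hgs : Function.Surjective g := LinearMap.surjective_of_ne_zero hg
  -- ker f is not contained in ker g
  have hk : ¬ LinearMap.ker f ≤ LinearMap.ker g := by
    intro hle
    let h : S₁ →ₗ[A] S₂ := (LinearMap.ker f).liftQ g hle ∘ₗ
      (f.quotKerEquivOfSurjective hfs).symm.toLinearMap
    have hh : ∀ x, h (f x) = g x := by
      intro x
      have h5 : (f.quotKerEquivOfSurjective hfs).symm (f x) = (LinearMap.ker f).mkQ x := by
        rw [LinearEquiv.symm_apply_eq]
        rfl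
      change (LinearMap.ker f).liftQ g hle ((f.quotKerEquivOfSurjective hfs).symm (f x)) = _
      rw [h5]
      rfl
    have h0 : h ≠ 0 := by
      intro h0
      apply hg
      ext x
      rw [← hh, h0]; rfl
    exact hne.false (LinearEquiv.ofBijective h (LinearMap.bijective_of_ne_zero h0))
  have hmap : (LinearMap.ker f).map g = ⊤ := by
    rcases eq_bot_or_eq_top ((LinearMap.ker f).map g) with h | h
    · exfalso
      apply hk
      intro x hx
      have h1 : g x ∈ (LinearMap.ker f).map g := ⟨x, hx, rfl⟩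
      rw [h] at h1
      exact h1
    · exact h
  have hsurj : Function.Surjective (f.prod g) := by
    rintro ⟨s, t⟩
    obtain ⟨r, rfl⟩ := hfs s
    have h1 : t - g r ∈ (LinearMap.ker f).map g := by rw [hmap]; trivial
    obtain ⟨k, hk, hk2⟩ := h1
    refine ⟨r + k, ?_⟩
    have h2 : f k = 0 := hk
    refine Prod.ext ?_ ?_
    · change f (r + k) = f r
      rw [map_add, h2, add_zero]
    · change g (r + k) = t
      rw [map_add, hk2, add_sub_cancel]
  obtain ⟨φ, hφ⟩ := Module.projective_lifting_property (f.prod g)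
    (f.prod (0 : P →ₗ[A] S₂)) hsurj
  have hφf : ∀ x, f (φ x) = f x := fun x => congrArg Prod.fst (LinearMap.congr_fun hφ x)
  have hφg : ∀ x, g (φ x) = 0 := fun x => congrArg Prod.snd (LinearMap.congr_fun hφ x)
  obtain ⟨n, hn0, hn2⟩ := ((LinearMap.eventually_isCompl_ker_pow_range_pow φ).and
    (Filter.eventually_ge_atTop 1)).exists
  have hfn : ∀ (m : ℕ) (x : P), f ((φ ^ m) x) = f x := by
    intro m
    induction m with
    | zero => intro x; rfl
    | succ m ih =>
      intro x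
      rw [pow_succ', Module.End.mul_apply, hφf, ih]
  have hlt : LinearMap.range (φ ^ n) ≠ ⊤ := by
    intro htop
    apply hg
    ext x
    have hx : x ∈ LinearMap.range (φ ^ n) := by rw [htop]; trivial
    obtain ⟨y, rfl⟩ := hx
    obtain ⟨m, rfl⟩ : ∃ m, n = m + 1 := ⟨n - 1, by omega⟩
    rw [pow_succ', Module.End.mul_apply, hφg]
    rfl
  have hlen := len_submodule_lt hlt
  have hmin := Nat.find_min hP (m := len A (LinearMap.range (φ ^ n))) (by rw [← hn]; exact hlen)
  apply hmin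
  refine ⟨ModuleCat.of A (LinearMap.range (φ ^ n)),
    inferInstanceAs (Module.Finite A (LinearMap.range (φ ^ n))), ?_,
    ⟨f ∘ₗ (LinearMap.range (φ ^ n)).subtype, ?_⟩, rfl⟩
  · exact Module.Projective.of_split (LinearMap.range (φ ^ n)).subtype
      ((LinearMap.range (φ ^ n)).projectionOnto (LinearMap.ker (φ ^ n)) hn0.symm)
      (LinearMap.ext fun x => Submodule.projectionOnto_apply_left hn0.symm x)
  · intro h0
    apply hf
    ext x
    have h1 : f ((φ ^ n) x) = 0 := LinearMap.congr_fun h0 ⟨(φ ^ n) x, x, rfl⟩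
    rw [hfn] at h1
    rw [h1]; rfl

end existence

/-- If all simples are isomorphic to `S`, every brick is isomorphic to `S`. -/
lemma brick_of_one_simple {A : Type} [Ring A] [IsArtinianRing A] (S : ModuleCat.{0} A)
    (hS : ∀ (T : Type) [AddCommGroup T] [Module A T] [IsSimpleModule A T],
      Nonempty (T ≃ₗ[A] S)) (M : Type) [AddCommGroup M] [Module A M] [Module.Finite A M]
    (hM : IsBrick A M) : Nonempty (M ≃ₗ[A] S) := by
  have := hM.1
  obtain ⟨S', hS'⟩ := exists_simple_sub (A := A) M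
  obtain ⟨S'', -, hS''⟩ := exists_simple_quot (A := A) M ⊥ bot_ne_top
  obtain ⟨e⟩ := hS S'
  obtain ⟨e'⟩ := hS (M ⧸ S'')
  have : Nontrivial S' := IsSimpleModule.nontrivial A S'
  have : Nontrivial S := e.symm.toEquiv.nontrivial
  exact brick_of_simple hM S'' e' S' e

/-- **Rank two theorem.** -/
theorem rank_two {K A : Type} [Field K] [Infinite K] [Ring A] [Algebra K A]
    [FiniteDimensional K A] (S₁ S₂ : ModuleCat.{0} A)
    (hS : ∀ (T : Type) [AddCommGroup T] [Module A T] [IsSimpleModule A T],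
      Nonempty (T ≃ₗ[A] S₁) ∨ Nonempty (T ≃ₗ[A] S₂))
    (hfin : ∀ d, (BrCls.{0, 0} A d).Finite) : (allBr A).Finite := by
  have : IsArtinianRing A := isArtinian_of_tower K inferInstance
  by_cases h1 : IsSimpleModule A S₁
  · by_cases h2 : IsSimpleModule A S₂
    · by_cases h3 : Nonempty (S₁ ≃ₗ[A] S₂)
      · obtain ⟨e⟩ := h3
        have h4 : ∀ (T : Type) [AddCommGroup T] [Module A T] [IsSimpleModule A T],
            Nonempty (T ≃ₗ[A] S₁) := by
          intro T _ _ _
          rcases hS T with h | ⟨⟨e'⟩⟩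
          · exact h
          · exact ⟨e'.trans e.symm⟩
        refine (Set.finite_singleton (Quotient.mk (isoSetoid A) S₁)).subset ?_
        rintro c ⟨M, rfl, hMf, hM⟩
        exact Quotient.sound (brick_of_one_simple S₁ h4 M hM)
      · rw [not_nonempty_iff] at h3
        obtain ⟨P, hP1, hP2, hP3, hP4⟩ := exists_proj h3
        obtain ⟨Q, hQ1, hQ2, hQ3, hQ4⟩ := exists_proj (A := A) (S₁ := S₂) (S₂ := S₁)
          ⟨fun e => h3.false e.symm⟩
        let D : R2Data K A :=
          { P := P, Q := Q, S₁ := S₁, S₂ := S₂, finP := hP1, finQ := hQ1, projP := hP2,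
            projQ := hQ2, simple₁ := h1, simple₂ := h2, PS₁ := hP3, PS₂ := hP4, QS₂ := hQ3,
            QS₁ := hQ4, all := hS }
        exact D.allBr_finite hfin
    · have h4 : ∀ (T : Type) [AddCommGroup T] [Module A T] [IsSimpleModule A T],
          Nonempty (T ≃ₗ[A] S₁) := by
        intro T _ _ hT
        rcases hS T with h | ⟨⟨e'⟩⟩
        · exact h
        · exact absurd (IsSimpleModule.congr e'.symm) h2
      refine (Set.finite_singleton (Quotient.mk (isoSetoid A) S₁)).subset ?_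
      rintro c ⟨M, rfl, hMf, hM⟩
      exact Quotient.sound (brick_of_one_simple S₁ h4 M hM)
  · have h4 : ∀ (T : Type) [AddCommGroup T] [Module A T] [IsSimpleModule A T],
        Nonempty (T ≃ₗ[A] S₂) := by
      intro T _ _ hT
      rcases hS T with ⟨⟨e'⟩⟩ | h
      · exact absurd (IsSimpleModule.congr e'.symm) h1
      · exact h
    refine (Set.finite_singleton (Quotient.mk (isoSetoid A) S₂)).subset ?_
    rintro c ⟨M, rfl, hMf, hM⟩
    exact Quotient.sound (brick_of_one_simple S₂ h4 M hM)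

end Pool.Agent.Helper793Bricks
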