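import Mathlib

set_option autoImplicit false

namespace Pool.Agent.Helper793Bricks

/-! Matrix representations of a `K`-algebra `A` over commutative `K`-algebras and intertwiners. -/

section

variable {K A : Type} [Field K] [Ring A] [Algebra K A]

/-- there is no nonzero intertwiner -/
def NoIt {Ω : Type} [CommRing Ω] [Algebra K Ω] {ι κ : Type} [Fintype ι] [DecidableEq ι]
    [Fintype κ] [DecidableEq κ] (α : A →ₐ[K] Matrix ι ι Ω) (β : A →ₐ[K] Matrix κ κ Ω) : Prop :=
  ∀ X : Matrix κ ι Ω, (∀ a, X * α a = β a * X) → X = 0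

/-- base change of a representation -/
def bc {Ω Ω' : Type} [CommRing Ω] [Algebra K Ω] [CommRing Ω'] [Algebra K Ω'] {ι : Type}
    [Fintype ι] [DecidableEq ι] (χ : Ω →ₐ[K] Ω') (α : A →ₐ[K] Matrix ι ι Ω) :
    A →ₐ[K] Matrix ι ι Ω' := χ.mapMatrix.comp α

lemma bc_apply {Ω Ω' : Type} [CommRing Ω] [Algebra K Ω] [CommRing Ω'] [Algebra K Ω'] {ι : Type}
    [Fintype ι] [DecidableEq ι] (χ : Ω →ₐ[K] Ω') (α : A →ₐ[K] Matrix ι ι Ω) (a : A) :
    bc χ α a = (α a).map χ := rfl

lemma bc_bc {Ω Ω' Ω'' : Type} [CommRing Ω] [Algebra K Ω] [CommRing Ω'] [Algebra K Ω']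
    [CommRing Ω''] [Algebra K Ω''] {ι : Type}
    [Fintype ι] [DecidableEq ι] (χ : Ω →ₐ[K] Ω') (χ' : Ω' →ₐ[K] Ω'')
    (α : A →ₐ[K] Matrix ι ι Ω) : bc χ' (bc χ α) = bc (χ'.comp χ) α := by
  ext a i j
  rfl

/-- `K`-valued representations do not see the map -/
lemma bc_ofId {Ω Ω' : Type} [CommRing Ω] [Algebra K Ω] [CommRing Ω'] [Algebra K Ω'] {ι : Type}
    [Fintype ι] [DecidableEq ι] (χ : Ω →ₐ[K] Ω') (ν : A →ₐ[K] Matrix ι ι K) :
    bc χ (bc (Algebra.ofId K Ω) ν) = bc (Algebra.ofId K Ω') ν := by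
  rw [bc_bc]
  congr 1
  exact Subsingleton.elim _ _

/-- base change along a field extension preserves absence of intertwiners -/
lemma noIt_bc {Ω Ω' : Type} [Field Ω] [Algebra K Ω] [CommRing Ω'] [Algebra K Ω']
    {ι κ : Type} [Fintype ι] [DecidableEq ι] [Fintype κ] [DecidableEq κ]
    {α : A →ₐ[K] Matrix ι ι Ω} {β : A →ₐ[K] Matrix κ κ Ω} (h : NoIt α β) (χ : Ω →ₐ[K] Ω') :
    NoIt (bc χ α) (bc χ β) := by
  intro X hX
  let _ : Algebra Ω Ω' := χ.toRingHom.toAlgebra
  have hsm : ∀ (c : Ω) (x : Ω'), c • x = χ c * x := fun c x => rfl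
  by_contra hne
  have hex : ∃ k l, X k l ≠ 0 := by
    by_contra hcon
    push Not at hcon
    exact hne (Matrix.ext hcon)
  obtain ⟨k, l, hkl⟩ := hex
  obtain ⟨f, hf⟩ := Module.Projective.exists_dual_ne_zero Ω hkl
  have h0 := h (X.map f) (fun a => by
    have h1 := hX a
    ext i j
    have h2 : (X * bc χ α a) i j =
        (bc χ β a * X) i j := by rw [h1]
    rw [Matrix.mul_apply, Matrix.mul_apply] at h2
    rw [Matrix.mul_apply, Matrix.mul_apply]
    have h3 := congrArg f h2
    rw [map_sum, map_sum] at h3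
    refine Eq.trans ?_ (Eq.trans h3 ?_)
    · refine Finset.sum_congr rfl (fun m _ => ?_)
      rw [bc_apply, Matrix.map_apply, Matrix.map_apply, mul_comm (X i m), ← hsm, map_smul,
        smul_eq_mul, mul_comm]
    · refine Finset.sum_congr rfl (fun m _ => ?_)
      rw [bc_apply, Matrix.map_apply, Matrix.map_apply, ← hsm, map_smul, smul_eq_mul])
  apply hf
  have h1 := congrFun (congrFun h0 k) l
  simpa using h1

/-- automorphisms -/
lemma noIt_of_equiv {Ω Ω' : Type} [CommRing Ω] [Algebra K Ω] [CommRing Ω'] [Algebra K Ω']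
    {ι κ : Type} [Fintype ι] [DecidableEq ι] [Fintype κ] [DecidableEq κ]
    {α : A →ₐ[K] Matrix ι ι Ω} {β : A →ₐ[K] Matrix κ κ Ω} (χ : Ω →ₐ[K] Ω')
    (hχ : Function.Injective χ)
    (h : NoIt (bc χ α) (bc χ β)) :
    NoIt α β := by
  intro X hX
  have h1 := h (X.map χ) (fun a => by
    rw [bc_apply, bc_apply]
    have h2 := congrArg (fun Y => Matrix.map Y χ) (hX a)
    simpa [Matrix.map_mul] using h2)
  ext i j
  have h2 := congrFun (congrFun h1 i) j
  rw [Matrix.map_apply, Matrix.zero_apply] at h2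
  apply hχ
  rw [h2, Matrix.zero_apply, map_zero]

end

section restriction

variable {K A E : Type} [Field K] [Ring A] [Algebra K A] [Field E] [Algebra K E]
  {r : Type} [Fintype r] [DecidableEq r] (e : Module.Basis r K E)

/-- restriction of scalars of a representation -/
noncomputable def res {ι : Type} [Fintype ι] [DecidableEq ι] (α : A →ₐ[K] Matrix ι ι E) :
    A →ₐ[K] Matrix (ι × r) (ι × r) K :=
  ((Matrix.compAlgEquiv ι r K K).toAlgHom.comp (Algebra.leftMulMatrix e).mapMatrix).comp α

lemma res_apply {ι : Type} [Fintype ι] [DecidableEq ι] (α : A →ₐ[K] Matrix ι ι E) (a : A)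
    (i j : ι) (u v : r) : res e α a (i, u) (j, v) = Algebra.leftMulMatrix e (α a i j) u v := rfl

variable {Lf Ω : Type} [Field Lf] [Algebra K Lf] [Field Ω] [Algebra K Ω] [Algebra E Ω]
  [Algebra Lf Ω] [IsScalarTower K E Ω] [IsScalarTower K Lf Ω]

/-- `u * e b = ∑ c, (leftMul u) c b • e c` -/
lemma mul_basis (u : E) (b : r) : u * e b = ∑ c, Algebra.leftMulMatrix e u c b • e c := by
  conv_lhs => rw [← e.sum_repr (u * e b)]
  refine Finset.sum_congr rfl (fun c _ => ?_)
  rw [Algebra.leftMulMatrix_eq_repr_mul]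

/-- dual-type basis -/
lemma exists_dual_basis : ∃ e' : Module.Basis r K E, ∀ (u : E) (b : r),
    u * e' b = ∑ c, Algebra.leftMulMatrix e u b c • e' c := by
  -- the transposed action on `r → K`
  have hfd : FiniteDimensional K E := e.finiteDimensional_of_finite
  obtain ⟨f, hf⟩ := Module.Projective.exists_dual_ne_zero K (one_ne_zero : (1 : E) ≠ 0)
  -- `u ↦ (c ↦ f (u * e c))`
  let g : E →ₗ[K] (r → K) := LinearMap.pi (fun c => f ∘ₗ LinearMap.mulRight K (e c))
  have hginj : Function.Injective g := by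
    rw [injective_iff_map_eq_zero]
    intro u hu
    by_contra hne
    apply hf
    have h1 : ∀ c, f (u * e c) = 0 := fun c => congrFun hu c
    have h2 : ∀ x : E, f (u * x) = 0 := by
      intro x
      rw [← e.sum_repr x, Finset.mul_sum, map_sum]
      refine Finset.sum_eq_zero (fun c _ => ?_)
      rw [mul_smul_comm, map_smul, h1, smul_zero]
    have h3 := h2 u⁻¹
    rwa [mul_inv_cancel₀ hne] at h3
  have hcard : Module.finrank K E = Module.finrank K (r → K) := by
    rw [Module.finrank_eq_card_basis e, Module.finrank_fintype_fun_eq_card]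
  let G : E ≃ₗ[K] (r → K) := LinearEquiv.ofInjectiveOfFinrankEq g hginj hcard
  let e' : Module.Basis r K E := (Pi.basisFun K r).map G.symm
  refine ⟨e', fun u b => ?_⟩
  have hG : ∀ x c, G x c = f (x * e c) := fun x c => rfl
  apply G.injective
  ext d
  rw [map_sum, Finset.sum_apply, hG]
  have h1 : u * e' b * e d = ∑ c, Algebra.leftMulMatrix e u c d • (e' b * e c) := by
    rw [mul_comm u, mul_assoc, mul_basis e u d, Finset.mul_sum]
    refine Finset.sum_congr rfl (fun c _ => ?_)
    rw [mul_smul_comm]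
  have he' : ∀ b c, f (e' b * e c) = if b = c then 1 else 0 := by
    intro b c
    rw [← hG]
    simp only [e', Module.Basis.map_apply, LinearEquiv.apply_symm_apply, Pi.basisFun_apply]
    rw [Pi.single_apply]
    simp only [eq_comm]
  rw [h1, map_sum]
  simp only [map_smul, he', smul_eq_mul, mul_ite, mul_one, mul_zero, Finset.sum_ite_eq,
    Finset.mem_univ, if_true, hG, smul_mul_assoc, Finset.sum_ite_eq']

lemma noIt_res_right {ι κ : Type} [Fintype ι] [DecidableEq ι] [Fintype κ] [DecidableEq κ]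
    (hli : LinearIndependent Lf (fun c => algebraMap E Ω (e c)))
    (α : A →ₐ[K] Matrix ι ι E) (β : A →ₐ[K] Matrix κ κ Lf)
    (h : NoIt (bc (IsScalarTower.toAlgHom K Lf Ω) β) (bc (IsScalarTower.toAlgHom K E Ω) α)) :
    NoIt β (bc (Algebra.ofId K Lf) (res e α)) := by
  intro X hX
  let Y : Matrix ι κ Ω := fun i k => ∑ c, X (i, c) k • algebraMap E Ω (e c)
  have hY : Y = 0 := by
    apply h
    intro a
    ext i k
    rw [Matrix.mul_apply, Matrix.mul_apply]
    -- both sides in terms of `X * β a`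
    have hL : ∑ l, Y i l * (bc (IsScalarTower.toAlgHom K Lf Ω) β a) l k =
        ∑ c, (X * β a) (i, c) k • algebraMap E Ω (e c) := by
      simp only [Y, Matrix.mul_apply, bc_apply, Matrix.map_apply, Finset.sum_mul, Finset.sum_smul]
      rw [Finset.sum_comm]
      refine Finset.sum_congr rfl (fun c _ => Finset.sum_congr rfl (fun l _ => ?_))
      rw [IsScalarTower.toAlgHom_apply, mul_comm, ← Algebra.smul_def, smul_smul, mul_comm]
    have hR : ∑ j, (bc (IsScalarTower.toAlgHom K E Ω) α a) i j * Y j k =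
        ∑ c, (bc (Algebra.ofId K Lf) (res e α) a * X) (i, c) k • algebraMap E Ω (e c) := by
      have h1 : ∀ j, (bc (IsScalarTower.toAlgHom K E Ω) α a) i j * Y j k =
          ∑ c, ∑ b, (algebraMap K Lf (Algebra.leftMulMatrix e (α a i j) c b) * X (j, b) k) •
            algebraMap E Ω (e c) := by
        intro j
        simp only [Y, bc_apply, Matrix.map_apply, Finset.mul_sum, IsScalarTower.toAlgHom_apply]
        rw [Finset.sum_comm]
        refine Finset.sum_congr rfl (fun b _ => ?_)
        rw [mul_smul_comm, ← map_mul, mul_basis e (α a i j) b, map_sum, Finset.smul_sum]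
        refine Finset.sum_congr rfl (fun c _ => ?_)
        rw [Algebra.smul_def (Algebra.leftMulMatrix e (α a i j) c b), map_mul,
          ← IsScalarTower.algebraMap_apply K E Ω, IsScalarTower.algebraMap_apply K Lf Ω,
          ← Algebra.smul_def, smul_smul, mul_comm]
      simp only [h1, Matrix.mul_apply, Finset.sum_smul]
      rw [Finset.sum_comm]
      refine Finset.sum_congr rfl (fun c _ => ?_)
      rw [Fintype.sum_prod_type]
      rfl
    rw [hL, hR, hX a]
  ext ⟨i, c⟩ k
  have h1 : ∑ c, X (i, c) k • algebraMap E Ω (e c) = 0 := congrFun (congrFun hY i) k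
  exact (Fintype.linearIndependent_iff.mp hli) (fun c => X (i, c) k) h1 c

lemma noIt_res_left {ι κ : Type} [Fintype ι] [DecidableEq ι] [Fintype κ] [DecidableEq κ]
    (hli : ∀ e' : Module.Basis r K E, LinearIndependent Lf (fun c => algebraMap E Ω (e' c)))
    (α : A →ₐ[K] Matrix ι ι E) (β : A →ₐ[K] Matrix κ κ Lf)
    (h : NoIt (bc (IsScalarTower.toAlgHom K E Ω) α) (bc (IsScalarTower.toAlgHom K Lf Ω) β)) :
    NoIt (bc (Algebra.ofId K Lf) (res e α)) β := by
  intro X hX
  obtain ⟨e', he'⟩ := exists_dual_basis e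
  let Y : Matrix κ ι Ω := fun k i => ∑ c, X k (i, c) • algebraMap E Ω (e' c)
  have hY : Y = 0 := by
    apply h
    intro a
    ext k j
    rw [Matrix.mul_apply, Matrix.mul_apply]
    have hL : ∑ l, (bc (IsScalarTower.toAlgHom K Lf Ω) β a) k l * Y l j =
        ∑ c, (β a * X) k (j, c) • algebraMap E Ω (e' c) := by
      simp only [Y, Matrix.mul_apply, bc_apply, Matrix.map_apply, Finset.mul_sum, Finset.sum_smul]
      rw [Finset.sum_comm]
      refine Finset.sum_congr rfl (fun c _ => Finset.sum_congr rfl (fun l _ => ?_))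
      rw [IsScalarTower.toAlgHom_apply, ← Algebra.smul_def, smul_smul]
    have hR : ∑ i, Y k i * (bc (IsScalarTower.toAlgHom K E Ω) α a) i j =
        ∑ c, (X * bc (Algebra.ofId K Lf) (res e α) a) k (j, c) • algebraMap E Ω (e' c) := by
      have h1 : ∀ i, Y k i * (bc (IsScalarTower.toAlgHom K E Ω) α a) i j =
          ∑ c, ∑ b, (X k (i, b) * algebraMap K Lf (Algebra.leftMulMatrix e (α a i j) b c)) •
            algebraMap E Ω (e' c) := by
        intro i
        simp only [Y, bc_apply, Matrix.map_apply, Finset.sum_mul, IsScalarTower.toAlgHom_apply]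
        rw [Finset.sum_comm]
        refine Finset.sum_congr rfl (fun b _ => ?_)
        rw [smul_mul_assoc, mul_comm, ← map_mul, he' (α a i j) b, map_sum, Finset.smul_sum]
        refine Finset.sum_congr rfl (fun c _ => ?_)
        rw [Algebra.smul_def (Algebra.leftMulMatrix e (α a i j) b c), map_mul,
          ← IsScalarTower.algebraMap_apply K E Ω, IsScalarTower.algebraMap_apply K Lf Ω,
          ← Algebra.smul_def, smul_smul]
      simp only [h1, Matrix.mul_apply, Finset.sum_smul]
      rw [Finset.sum_comm]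
      refine Finset.sum_congr rfl (fun c _ => ?_)
      rw [Fintype.sum_prod_type]
      rfl
    rw [hL, hR, hX a]
  ext k ⟨i, c⟩
  have h1 : ∑ c, X k (i, c) • algebraMap E Ω (e' c) = 0 := congrFun (congrFun hY k) i
  exact (Fintype.linearIndependent_iff.mp (hli e')) (fun c => X k (i, c)) h1 c

end restriction

end Pool.Agent.Helper793Bricks
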