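import Mathlib
import Pool.Agent.Helper793_Bricks.Inter

set_option autoImplicit false

namespace Pool.Agent.Helper793Bricks

/-- polynomials in variables indexed by `ℤ` -/
abbrev Rz (K : Type) [Field K] := MvPolynomial ℤ K

/-- rational functions in variables indexed by `ℤ` -/
abbrev Lz (K : Type) [Field K] := FractionRing (MvPolynomial ℤ K)

/-- A representation with entries in polynomials, up to one denominator `g`. -/
structure PRep (K A : Type) [Field K] [Ring A] [Algebra K A] (ι : Type) [Fintype ι]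
    [DecidableEq ι] where
  g : Rz K
  P : A →ₗ[K] Matrix ι ι (Rz K)
  one' : P 1 = g • (1 : Matrix ι ι (Rz K))
  mul' : ∀ a b, P a * P b = g • P (a * b)

section

variable {K A : Type} [Field K] [Ring A] [Algebra K A] {ι κ : Type} [Fintype ι] [DecidableEq ι]
  [Fintype κ] [DecidableEq κ]

/-- specialisation of a polynomial representation -/
noncomputable def PRep.sp (p : PRep K A ι) {Ω : Type} [Field Ω] [Algebra K Ω]
    (χ : Rz K →ₐ[K] Ω) (hχ : χ p.g ≠ 0) : A →ₐ[K] Matrix ι ι Ω :=
  AlgHom.ofLinearMap ((χ p.g)⁻¹ • (χ.toLinearMap.mapMatrix ∘ₗ p.P))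
    (by
      simp only [LinearMap.smul_apply, LinearMap.comp_apply, p.one']
      ext i j
      simp only [Matrix.smul_apply, LinearMap.mapMatrix_apply, Matrix.map_apply,
        AlgHom.toLinearMap_apply, smul_eq_mul, map_mul, Matrix.one_apply]
      rw [← mul_assoc, inv_mul_cancel₀ hχ, one_mul]
      split_ifs <;> simp)
    (by
      intro a b
      simp only [LinearMap.smul_apply, LinearMap.comp_apply]
      have h1 : χ.toLinearMap.mapMatrix (p.P a) * χ.toLinearMap.mapMatrix (p.P b) =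
          χ p.g • χ.toLinearMap.mapMatrix (p.P (a * b)) := by
        have h2 : χ.mapMatrix (p.P a) * χ.mapMatrix (p.P b) = χ.mapMatrix (p.g • p.P (a * b)) := by
          rw [← map_mul, p.mul']
        refine h2.trans ?_
        ext i j
        simp
      rw [smul_mul_smul_comm, h1, smul_smul, mul_assoc, inv_mul_cancel₀ hχ, mul_one])

lemma PRep.sp_apply (p : PRep K A ι) {Ω : Type} [Field Ω] [Algebra K Ω]
    (χ : Rz K →ₐ[K] Ω) (hχ : χ p.g ≠ 0) (a : A) (i j : ι) :
    p.sp χ hχ a i j = (χ p.g)⁻¹ * χ (p.P a i j) := rfl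

lemma PRep.bc_sp (p : PRep K A ι) {Ω Ω' : Type} [Field Ω] [Algebra K Ω] [Field Ω'] [Algebra K Ω']
    (χ : Rz K →ₐ[K] Ω) (hχ : χ p.g ≠ 0) (τ : Ω →ₐ[K] Ω') (h : (τ.comp χ) p.g ≠ 0) :
    bc τ (p.sp χ hχ) = p.sp (τ.comp χ) h := by
  ext a i j
  rw [bc_apply, Matrix.map_apply, p.sp_apply, p.sp_apply, map_mul, map_inv₀]
  rfl

lemma PRep.sp_congr (p : PRep K A ι) {Ω : Type} [Field Ω] [Algebra K Ω]
    (χ χ' : Rz K →ₐ[K] Ω) (hχ : χ p.g ≠ 0) (hχ' : χ' p.g ≠ 0) (hg : χ p.g = χ' p.g)
    (hP : ∀ a i j, χ (p.P a i j) = χ' (p.P a i j)) : p.sp χ hχ = p.sp χ' hχ' := by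
  ext a i j
  rw [p.sp_apply, p.sp_apply, hg, hP]

/-- the constant polynomial representation -/
noncomputable def constRep (ν : A →ₐ[K] Matrix ι ι K) : PRep K A ι where
  g := 1
  P := (bc (Algebra.ofId K (Rz K)) ν).toLinearMap
  one' := by simp
  mul' a b := by simp

lemma constRep_sp (ν : A →ₐ[K] Matrix ι ι K) {Ω : Type} [Field Ω] [Algebra K Ω]
    (χ : Rz K →ₐ[K] Ω) (hχ : χ (constRep ν).g ≠ 0) :
    (constRep ν).sp χ hχ = bc (Algebra.ofId K Ω) ν := by
  ext a i j
  rw [PRep.sp_apply]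
  simp only [constRep, map_one, inv_one, one_mul, AlgHom.toLinearMap_apply, bc_apply,
    Matrix.map_apply, Algebra.ofId_apply, AlgHom.commutes]

/-- every representation over `Lz K` comes from a polynomial one -/
lemma exists_pRep [FiniteDimensional K A] (ρ : A →ₐ[K] Matrix ι ι (Lz K)) :
    ∃ p : PRep K A ι, ∃ hg : IsScalarTower.toAlgHom K (Rz K) (Lz K) p.g ≠ 0,
      p.sp (IsScalarTower.toAlgHom K (Rz K) (Lz K)) hg = ρ := by
  classical
  let b := Module.finBasis K A
  obtain ⟨d, hd⟩ := IsLocalization.exist_integer_multiples_of_finite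
    (nonZeroDivisors (Rz K)) (fun x : (Fin (Module.finrank K A) × ι) × ι =>
      ρ (b x.1.1) x.1.2 x.2)
  choose Q hQ using hd
  have hinj : Function.Injective (algebraMap (Rz K) (Lz K)) := IsFractionRing.injective _ _
  let P : A →ₗ[K] Matrix ι ι (Rz K) := b.constr K (fun u => Matrix.of (fun i j => Q ((u, i), j)))
  have hP : ∀ a, (P a).map (algebraMap (Rz K) (Lz K)) = algebraMap (Rz K) (Lz K) d • ρ a := by
    intro a
    let T₁ : A →ₗ[K] Matrix ι ι (Lz K) :=
      (IsScalarTower.toAlgHom K (Rz K) (Lz K)).toLinearMap.mapMatrix ∘ₗ P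
    let T₂ : A →ₗ[K] Matrix ι ι (Lz K) := algebraMap (Rz K) (Lz K) d • ρ.toLinearMap
    have h1 : T₁ = T₂ := by
      refine b.ext (fun u => ?_)
      ext i j
      simp only [T₁, T₂, P, LinearMap.comp_apply, Module.Basis.constr_basis,
        LinearMap.mapMatrix_apply, Matrix.map_apply, Matrix.of_apply, LinearMap.smul_apply,
        Matrix.smul_apply, AlgHom.toLinearMap_apply, IsScalarTower.toAlgHom_apply]
      rw [hQ, Algebra.smul_def]
      rfl
    exact LinearMap.congr_fun h1 a
  have hd0 : (d : Rz K) ≠ 0 := nonZeroDivisors.coe_ne_zero d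
  have hmap : Function.Injective (fun X : Matrix ι ι (Rz K) => X.map (algebraMap (Rz K) (Lz K))) :=
    Matrix.map_injective hinj
  refine ⟨⟨d, P, ?_, ?_⟩, ?_, ?_⟩
  · apply hmap
    simp only
    rw [hP, map_one]
    ext i j
    simp only [Matrix.smul_apply, Matrix.one_apply, smul_eq_mul, mul_ite, mul_one, mul_zero,
      Matrix.map_apply]
    split_ifs <;> simp
  · intro a a'
    apply hmap
    simp only
    rw [Matrix.map_mul, hP, hP]
    have h2 : ((d : Rz K) • P (a * a')).map (algebraMap (Rz K) (Lz K)) =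
        algebraMap (Rz K) (Lz K) d • (P (a * a')).map (algebraMap (Rz K) (Lz K)) := by
      ext i j; simp
    rw [h2, hP, map_mul, smul_mul_smul_comm, smul_smul]
  · rw [IsScalarTower.toAlgHom_apply]
    intro h0
    exact hd0 (hinj (by rw [h0, map_zero]))
  · ext a i j
    rw [PRep.sp_apply]
    have h3 := congrFun (congrFun (hP a) i) j
    rw [Matrix.map_apply, Matrix.smul_apply, smul_eq_mul] at h3
    rw [IsScalarTower.toAlgHom_apply, IsScalarTower.toAlgHom_apply, h3, ← mul_assoc,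
      inv_mul_cancel₀, one_mul]
    intro h0
    exact hd0 (hinj (by rw [h0, map_zero]))

end

end Pool.Agent.Helper793Bricks
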