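import Mathlib
import Pool.Agent.Helper793_Bricks.Spec

set_option autoImplicit false

namespace Pool.Agent.Helper793Bricks

section

variable {K A : Type} [Field K] [Ring A] [Algebra K A] {ι κ : Type} [Fintype ι] [DecidableEq ι]
  [Fintype κ] [DecidableEq κ]

/-- the linear system of intertwiners, over the polynomial ring -/
noncomputable def sysMat (p : PRep K A ι) (p' : PRep K A κ) (i i' : Rz K →ₐ[K] Rz K) {n : ℕ}
    (b : Fin n → A) : Matrix (Fin n × κ × ι) (κ × ι) (Rz K) :=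
  fun u v => (if u.2.1 = v.1 then i' p'.g * i (p.P (b u.1) v.2 u.2.2) else 0) -
    (if u.2.2 = v.2 then i p.g * i' (p'.P (b u.1) u.2.1 v.1) else 0)

lemma sysMat_mulVec (p : PRep K A ι) (p' : PRep K A κ) (i i' : Rz K →ₐ[K] Rz K) {n : ℕ}
    (b : Fin n → A) {Ω : Type} [Field Ω] [Algebra K Ω] (ψ : Rz K →ₐ[K] Ω) (X : Matrix κ ι Ω)
    (u : Fin n) (k : κ) (l : ι) :
    (((sysMat p p' i i' b).map ψ).mulVec (fun v => X v.1 v.2)) (u, k, l) =
      ψ (i' p'.g) * (X * (p.P (b u)).map (ψ.comp i)) k l -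
      ψ (i p.g) * ((p'.P (b u)).map (ψ.comp i') * X) k l := by
  rw [Matrix.mulVec, dotProduct, Fintype.sum_prod_type]
  simp only [sysMat, Matrix.map_apply, map_sub, sub_mul]
  have h1 : ∀ x y, ψ (if k = x then i' p'.g * i (p.P (b u) y l) else 0) * X x y =
      if k = x then ψ (i' p'.g) * (X x y * ψ (i (p.P (b u) y l))) else 0 := by
    intro x y
    split_ifs
    · rw [map_mul]; ring
    · rw [map_zero, zero_mul]
  have h2 : ∀ x y, ψ (if l = y then i p.g * i' (p'.P (b u) k x) else 0) * X x y =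
      if l = y then ψ (i p.g) * (ψ (i' (p'.P (b u) k x)) * X x y) else 0 := by
    intro x y
    split_ifs
    · rw [map_mul]; ring
    · rw [map_zero, zero_mul]
  simp only [h1, h2, Finset.sum_sub_distrib]
  congr 1
  · rw [Finset.sum_comm]
    simp only [Finset.sum_ite_eq, Finset.mem_univ, if_true, Matrix.mul_apply, Matrix.map_apply,
      AlgHom.comp_apply, Finset.mul_sum]
  · simp only [Finset.sum_ite_eq, Finset.mem_univ, if_true, Matrix.mul_apply, Matrix.map_apply,
      AlgHom.comp_apply, Finset.mul_sum]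

/-- intertwining in terms of the system -/
lemma sysMat_iff (p : PRep K A ι) (p' : PRep K A κ) (i i' : Rz K →ₐ[K] Rz K) {n : ℕ}
    (b : Module.Basis (Fin n) K A) {Ω : Type} [Field Ω] [Algebra K Ω] (ψ : Rz K →ₐ[K] Ω)
    (h : (ψ.comp i) p.g ≠ 0) (h' : (ψ.comp i') p'.g ≠ 0) (X : Matrix κ ι Ω) :
    (∀ a, X * p.sp (ψ.comp i) h a = p'.sp (ψ.comp i') h' a * X) ↔
    ((sysMat p p' i i' b).map ψ).mulVec (fun v => X v.1 v.2) = 0 := by
  have key : ∀ (a : A) (k : κ) (l : ι),
      (X * p.sp (ψ.comp i) h a) k l = (p'.sp (ψ.comp i') h' a * X) k l ↔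
      ψ (i' p'.g) * (X * (p.P a).map (ψ.comp i)) k l =
        ψ (i p.g) * ((p'.P a).map (ψ.comp i') * X) k l := by
    intro a k l
    have h1 : (X * p.sp (ψ.comp i) h a) k l =
        (ψ (i p.g))⁻¹ * (X * (p.P a).map (ψ.comp i)) k l := by
      rw [Matrix.mul_apply, Matrix.mul_apply, Finset.mul_sum]
      refine Finset.sum_congr rfl (fun m _ => ?_)
      rw [p.sp_apply, Matrix.map_apply, AlgHom.comp_apply, AlgHom.comp_apply]
      ring
    have h2 : (p'.sp (ψ.comp i') h' a * X) k l =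
        (ψ (i' p'.g))⁻¹ * ((p'.P a).map (ψ.comp i') * X) k l := by
      rw [Matrix.mul_apply, Matrix.mul_apply, Finset.mul_sum]
      refine Finset.sum_congr rfl (fun m _ => ?_)
      rw [p'.sp_apply, Matrix.map_apply, AlgHom.comp_apply, AlgHom.comp_apply]
      ring
    have hg : ψ (i p.g) ≠ 0 := h
    have hg' : ψ (i' p'.g) ≠ 0 := h'
    rw [h1, h2]
    constructor
    · intro h3
      field_simp at h3
      linear_combination h3
    · intro h3
      field_simp
      linear_combination h3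
  constructor
  · intro hX
    ext ⟨u, k, l⟩
    rw [sysMat_mulVec, Pi.zero_apply, sub_eq_zero]
    exact (key (b u) k l).mp (congrFun (congrFun (hX (b u)) k) l)
  · intro hX
    have h3 : ∀ u, X * p.sp (ψ.comp i) h (b u) = p'.sp (ψ.comp i') h' (b u) * X := by
      intro u
      ext k l
      rw [key]
      have h4 := congrFun hX (u, k, l)
      rw [sysMat_mulVec, Pi.zero_apply, sub_eq_zero] at h4
      exact h4
    intro a
    rw [← b.sum_repr a]
    simp only [map_sum, map_smul, Matrix.mul_sum, Matrix.sum_mul, Matrix.mul_smul,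
      Matrix.smul_mul, h3]

/-- **Openness of absence of intertwiners.** -/
theorem noIt_open [FiniteDimensional K A] (p : PRep K A ι) (p' : PRep K A κ)
    (i i' : Rz K →ₐ[K] Rz K)
    (h : ((IsScalarTower.toAlgHom K (Rz K) (Lz K)).comp i) p.g ≠ 0)
    (h' : ((IsScalarTower.toAlgHom K (Rz K) (Lz K)).comp i') p'.g ≠ 0)
    (hN : NoIt (p.sp _ h) (p'.sp _ h')) :
    ∃ G : Rz K, G ≠ 0 ∧ ∀ (Ω : Type) [Field Ω] [Algebra K Ω] (ψ : Rz K →ₐ[K] Ω)
      (h1 : (ψ.comp i) p.g ≠ 0) (h2 : (ψ.comp i') p'.g ≠ 0), ψ G ≠ 0 →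
      NoIt (p.sp (ψ.comp i) h1) (p'.sp (ψ.comp i') h2) := by
  classical
  let b := Module.finBasis K A
  let F := sysMat p p' i i' b
  let al : Rz K →ₐ[K] Lz K := IsScalarTower.toAlgHom K (Rz K) (Lz K)
  have hinj : Function.Injective al := IsFractionRing.injective (Rz K) (Lz K)
  let FL := F.map al
  have hker : LinearMap.ker FL.mulVecLin = ⊥ := by
    rw [LinearMap.ker_eq_bot']
    intro x hx
    have h3 : (Matrix.of (fun k l => x (k, l)) : Matrix κ ι (Lz K)) = 0 := by
      apply hN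
      rw [sysMat_iff p p' i i' b al h h']
      exact hx
    ext ⟨k, l⟩
    exact congrFun (congrFun h3 k) l
  obtain ⟨T, hT⟩ := LinearMap.exists_leftInverse_of_injective FL.mulVecLin hker
  let C := LinearMap.toMatrix' T
  have hC : C * FL = 1 := by
    have h4 : LinearMap.toMatrix' FL.mulVecLin = FL := LinearMap.toMatrix'_toLin' FL
    rw [← h4, ← LinearMap.toMatrix'_comp, hT, LinearMap.toMatrix'_id]
  obtain ⟨d, hd⟩ := IsLocalization.exist_integer_multiples_of_finite
    (nonZeroDivisors (Rz K)) (fun x : (κ × ι) × (Fin (Module.finrank K A) × κ × ι) => C x.1 x.2)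
  choose Q hQ using hd
  have hd0 : (d : Rz K) ≠ 0 := nonZeroDivisors.coe_ne_zero d
  let C' : Matrix (κ × ι) (Fin (Module.finrank K A) × κ × ι) (Rz K) := fun x y => Q (x, y)
  have hC' : C' * F = (d : Rz K) • (1 : Matrix (κ × ι) (κ × ι) (Rz K)) := by
    refine Matrix.ext (fun x y => hinj ?_)
    have h5 : al ((C' * F) x y) = ∑ z, algebraMap (Rz K) (Lz K) d * (C x z * FL z y) := by
      rw [Matrix.mul_apply, map_sum]
      refine Finset.sum_congr rfl (fun z _ => ?_)
      rw [map_mul]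
      have h6 : al (C' x z) = (d : Rz K) • C x z := hQ (x, z)
      rw [h6, Algebra.smul_def, mul_assoc]
      rfl
    rw [h5, ← Finset.mul_sum, ← Matrix.mul_apply, hC, Matrix.smul_apply, Matrix.one_apply,
      Matrix.one_apply, smul_eq_mul]
    split_ifs
    · rw [mul_one, mul_one]; rfl
    · rw [mul_zero, mul_zero, map_zero]
  refine ⟨d, hd0, ?_⟩
  intro Ω _ _ ψ h1 h2 hG X hX
  rw [sysMat_iff p p' i i' b ψ h1 h2] at hX
  have h7 : (C'.map ψ) * (F.map ψ) = ψ (d : Rz K) • (1 : Matrix (κ × ι) (κ × ι) Ω) := by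
    have h8 : (C'.map ψ) * (F.map ψ) = (C' * F).map ψ := (Matrix.map_mul).symm
    rw [h8, hC']
    ext x y
    rw [Matrix.map_apply, Matrix.smul_apply, Matrix.smul_apply, Matrix.one_apply,
      Matrix.one_apply, smul_eq_mul, smul_eq_mul, map_mul]
    split_ifs
    · rw [map_one]
    · rw [map_zero]
  have h9 : (ψ (d : Rz K) • (1 : Matrix (κ × ι) (κ × ι) Ω)).mulVec (fun v => X v.1 v.2) = 0 := by
    rw [← h7, ← Matrix.mulVec_mulVec, hX, Matrix.mulVec_zero]
  ext k l
  have h10 := congrFun h9 (k, l)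
  rw [Matrix.smul_mulVec, Matrix.one_mulVec, Pi.smul_apply, Pi.zero_apply, smul_eq_mul,
    mul_eq_zero] at h10
  exact h10.resolve_left hG

/-- **Openness of isomorphism.** -/
theorem iso_open [FiniteDimensional K A] (p p' : PRep K A ι) (i i' : Rz K →ₐ[K] Rz K)
    (h : ((IsScalarTower.toAlgHom K (Rz K) (Lz K)).comp i) p.g ≠ 0)
    (h' : ((IsScalarTower.toAlgHom K (Rz K) (Lz K)).comp i') p'.g ≠ 0)
    (X Y : Matrix ι ι (Lz K)) (hXY : X * Y = 1)
    (hX : ∀ a, X * p.sp _ h a = p'.sp _ h' a * X) :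
    ∃ G : Rz K, G ≠ 0 ∧ ∀ (Ω : Type) [Field Ω] [Algebra K Ω] (ψ : Rz K →ₐ[K] Ω)
      (h1 : (ψ.comp i) p.g ≠ 0) (h2 : (ψ.comp i') p'.g ≠ 0), ψ G ≠ 0 →
      ∃ X' Y' : Matrix ι ι Ω, X' * Y' = 1 ∧
        ∀ a, X' * p.sp (ψ.comp i) h1 a = p'.sp (ψ.comp i') h2 a * X' := by
  classical
  let b := Module.finBasis K A
  let F := sysMat p p' i i' b
  let al : Rz K →ₐ[K] Lz K := IsScalarTower.toAlgHom K (Rz K) (Lz K)
  have hinj : Function.Injective al := IsFractionRing.injective (Rz K) (Lz K)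
  obtain ⟨d, hd⟩ := IsLocalization.exist_integer_multiples_of_finite
    (nonZeroDivisors (Rz K)) (fun x : ι × ι => X x.1 x.2)
  choose U hU using hd
  obtain ⟨d', hd'⟩ := IsLocalization.exist_integer_multiples_of_finite
    (nonZeroDivisors (Rz K)) (fun x : ι × ι => Y x.1 x.2)
  choose V hV using hd'
  have hd0 : (d : Rz K) ≠ 0 := nonZeroDivisors.coe_ne_zero d
  have hd0' : (d' : Rz K) ≠ 0 := nonZeroDivisors.coe_ne_zero d'
  let U' : Matrix ι ι (Rz K) := fun x y => U (x, y)
  let V' : Matrix ι ι (Rz K) := fun x y => V (x, y)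
  have hUV : U' * V' = ((d : Rz K) * d') • (1 : Matrix ι ι (Rz K)) := by
    refine Matrix.ext (fun x y => hinj ?_)
    have h5 : al ((U' * V') x y) = ∑ z, algebraMap (Rz K) (Lz K) (d * d') * (X x z * Y z y) := by
      rw [Matrix.mul_apply, map_sum]
      refine Finset.sum_congr rfl (fun z _ => ?_)
      rw [map_mul]
      have h6 : al (U' x z) = (d : Rz K) • X x z := hU (x, z)
      have h7 : al (V' z y) = (d' : Rz K) • Y z y := hV (z, y)
      rw [h6, h7, Algebra.smul_def, Algebra.smul_def, map_mul]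
      ring
    rw [h5, ← Finset.mul_sum, ← Matrix.mul_apply, hXY, Matrix.smul_apply, Matrix.one_apply,
      Matrix.one_apply, smul_eq_mul]
    split_ifs
    · rw [mul_one, mul_one]; rfl
    · rw [mul_zero, mul_zero, map_zero]
  have hFU : F.mulVec (fun v => U' v.1 v.2) = 0 := by
    have h8 : (F.map al).mulVec (fun v => X v.1 v.2) = 0 :=
      (sysMat_iff p p' i i' b al h h' X).mp hX
    refine funext (fun w => hinj ?_)
    have h9 : al (F.mulVec (fun v => U' v.1 v.2) w) =
        algebraMap (Rz K) (Lz K) d * (F.map al).mulVec (fun v => X v.1 v.2) w := by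
      rw [Matrix.mulVec, Matrix.mulVec, dotProduct, dotProduct, map_sum, Finset.mul_sum]
      refine Finset.sum_congr rfl (fun z _ => ?_)
      rw [map_mul]
      have h6 : al (U' z.1 z.2) = (d : Rz K) • X z.1 z.2 := hU (z.1, z.2)
      rw [h6, Algebra.smul_def, Matrix.map_apply]
      ring
    rw [h9, h8, Pi.zero_apply, mul_zero, Pi.zero_apply, map_zero]
  refine ⟨d * d', mul_ne_zero hd0 hd0', ?_⟩
  intro Ω _ _ ψ h1 h2 hG
  refine ⟨U'.map ψ, (ψ ((d : Rz K) * d'))⁻¹ • V'.map ψ, ?_, ?_⟩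
  · rw [Matrix.mul_smul, ← Matrix.map_mul, hUV]
    ext x y
    rw [Matrix.smul_apply, Matrix.map_apply, Matrix.smul_apply, Matrix.one_apply,
      Matrix.one_apply, smul_eq_mul, smul_eq_mul]
    split_ifs
    · rw [mul_one, inv_mul_cancel₀ hG]
    · rw [mul_zero, map_zero, mul_zero]
  · rw [sysMat_iff p p' i i' b ψ h1 h2]
    ext w
    have h9 : ψ (F.mulVec (fun v => U' v.1 v.2) w) =
        (F.map ψ).mulVec (fun v => (U'.map ψ) v.1 v.2) w := by
      rw [Matrix.mulVec, Matrix.mulVec, dotProduct, dotProduct, map_sum]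
      refine Finset.sum_congr rfl (fun z _ => ?_)
      rw [map_mul, Matrix.map_apply, Matrix.map_apply]
    change (F.map ψ).mulVec (fun v => (U'.map ψ) v.1 v.2) w = 0
    rw [← h9, hFU, Pi.zero_apply, map_zero]

end

end Pool.Agent.Helper793Bricks
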