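import Mathlib
import Pool.Agent.Helper793_Bricks.Open

set_option autoImplicit false

namespace Pool.Agent.Helper793Bricks

section points

variable {K : Type} [Field K]

/-- every nonzero polynomial is nonzero at some point over a finite extension -/
theorem exists_point (G : Rz K) (hG : G ≠ 0) : ∃ (E : Type) (_ : Field E) (_ : Algebra K E)
    (_ : FiniteDimensional K E) (x : ℤ → E), MvPolynomial.aeval x G ≠ 0 := by
  classical
  have h1 : ∃ y : ℤ → AlgebraicClosure K, MvPolynomial.aeval y G ≠ 0 := by
    by_contra hcon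
    push Not at hcon
    apply hG
    have h2 : MvPolynomial.map (algebraMap K (AlgebraicClosure K)) G = 0 := by
      apply MvPolynomial.funext
      intro y
      rw [MvPolynomial.eval_map, map_zero, ← MvPolynomial.aeval_def]
      exact hcon y
    exact (MvPolynomial.map_injective _ (algebraMap K (AlgebraicClosure K)).injective)
      (by rw [h2, map_zero])
  obtain ⟨y, hy⟩ := h1
  let S : Set (AlgebraicClosure K) := y '' (G.vars : Set ℤ)
  have hS : Finite S := (G.vars.finite_toSet.image y).to_subtype
  let E := IntermediateField.adjoin K S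
  have hfd : FiniteDimensional K E :=
    IntermediateField.finiteDimensional_adjoin (fun x _ => Algebra.IsIntegral.isIntegral x)
  let x : ℤ → E := fun m => if h : m ∈ G.vars then ⟨y m,
    IntermediateField.subset_adjoin K S ⟨m, h, rfl⟩⟩ else 0
  refine ⟨E, inferInstance, inferInstance, hfd, x, ?_⟩
  intro h0
  apply hy
  have h3 : MvPolynomial.aeval y G = algebraMap E (AlgebraicClosure K) (MvPolynomial.aeval x G) := by
    have h4 := MvPolynomial.hom_congr_vars (p₁ := G) (p₂ := G)
      (f₁ := (MvPolynomial.aeval y : Rz K →ₐ[K] AlgebraicClosure K).toRingHom)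
      (f₂ := (algebraMap E (AlgebraicClosure K)).comp
        (MvPolynomial.aeval x : Rz K →ₐ[K] E).toRingHom)
      (by
        ext k
        simp only [RingHom.comp_apply, AlgHom.toRingHom_eq_coe, RingHom.coe_coe,
          MvPolynomial.algHom_C]
        rfl)
      (by
        intro i hi _
        simp only [RingHom.comp_apply, AlgHom.toRingHom_eq_coe, RingHom.coe_coe,
          MvPolynomial.aeval_X, x, dif_pos hi]
        rfl) rfl
    exact h4
  rw [h3, h0, map_zero]

variable {E : Type} [Field E] [Algebra K E]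

/-- the embedding `K(t) → E(t)` -/
noncomputable def iotaL (K E : Type) [Field K] [Field E] [Algebra K E] : Lz K →ₐ[K] Lz E :=
  IsFractionRing.liftAlgHom
    (g := (IsScalarTower.toAlgHom K (Rz E) (Lz E)).comp (MvPolynomial.mapAlgHom (Algebra.ofId K E)))
    (by
      rw [AlgHom.coe_comp]
      exact (IsFractionRing.injective (Rz E) (Lz E)).comp
        (MvPolynomial.map_injective _ (algebraMap K E).injective))

lemma iotaL_algebraMap (f : Rz K) : iotaL K E (algebraMap (Rz K) (Lz K) f) =
    algebraMap (Rz E) (Lz E) (MvPolynomial.map (algebraMap K E) f) := by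
  unfold iotaL
  rw [IsFractionRing.liftAlgHom_apply, IsFractionRing.lift_algebraMap]
  rfl

/-- evaluation at the mixed point -/
noncomputable def mixPt (x : ℤ → E) (c : ℤ) (m : ℤ) : Lz E :=
  if m < c then algebraMap E (Lz E) (x m) else algebraMap (Rz E) (Lz E) (MvPolynomial.X m)

noncomputable def mixEv (x : ℤ → E) (c : ℤ) : Rz K →ₐ[K] Lz E := MvPolynomial.aeval (mixPt x c)

lemma mixEv_low (x : ℤ → E) (c : ℤ) (f : Rz K) (hf : ∀ m ∈ f.vars, m < c) :
    mixEv x c f = algebraMap E (Lz E) (MvPolynomial.aeval x f) := by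
  have h4 := MvPolynomial.hom_congr_vars (p₁ := f) (p₂ := f)
      (f₁ := (mixEv x c : Rz K →ₐ[K] Lz E).toRingHom)
      (f₂ := (algebraMap E (Lz E)).comp (MvPolynomial.aeval x : Rz K →ₐ[K] E).toRingHom)
      (by
        ext k
        simp only [RingHom.comp_apply, AlgHom.toRingHom_eq_coe, RingHom.coe_coe,
          MvPolynomial.algHom_C]
        exact IsScalarTower.algebraMap_apply K E (Lz E) k)
      (by
        intro i hi _
        simp only [RingHom.comp_apply, AlgHom.toRingHom_eq_coe, RingHom.coe_coe, mixEv,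
          MvPolynomial.aeval_X, mixPt, if_pos (hf i hi)]) rfl
  exact h4

lemma mixEv_high (x : ℤ → E) (c : ℤ) (f : Rz K) (hf : ∀ m ∈ f.vars, c ≤ m) :
    mixEv x c f = iotaL K E (algebraMap (Rz K) (Lz K) f) := by
  rw [iotaL_algebraMap]
  have h4 := MvPolynomial.hom_congr_vars (p₁ := f) (p₂ := f)
      (f₁ := (mixEv x c : Rz K →ₐ[K] Lz E).toRingHom)
      (f₂ := (algebraMap (Rz E) (Lz E)).comp (MvPolynomial.map (algebraMap K E)))
      (by
        ext k
        simp only [RingHom.comp_apply, AlgHom.toRingHom_eq_coe, RingHom.coe_coe,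
          MvPolynomial.algHom_C, MvPolynomial.map_C]
        rw [← MvPolynomial.algebraMap_eq, ← IsScalarTower.algebraMap_apply E (Rz E) (Lz E)]
        exact IsScalarTower.algebraMap_apply K E (Lz E) k)
      (by
        intro i hi _
        simp only [RingHom.comp_apply, AlgHom.toRingHom_eq_coe, RingHom.coe_coe, mixEv,
          MvPolynomial.aeval_X, mixPt, if_neg (not_lt.mpr (hf i hi)), MvPolynomial.map_X]) rfl
  exact h4

/-- generic nonvanishing -/
lemma mixEv_ne_zero (h : Rz K) (hh : h ≠ 0) (c : ℤ) : ∃ G : Rz K, G ≠ 0 ∧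
    ∀ (E : Type) [Field E] [Algebra K E] (x : ℤ → E), MvPolynomial.aeval x G ≠ 0 →
      mixEv x c h ≠ 0 := by
  classical
  let q : ℤ → MvPolynomial ℤ (Rz K) := fun m =>
    if m < c then MvPolynomial.C (MvPolynomial.X m) else MvPolynomial.X m
  let F : Rz K →ₐ[K] MvPolynomial ℤ (Rz K) := MvPolynomial.aeval q
  let B : MvPolynomial ℤ (Rz K) →ₐ[K] Rz K :=
    (MvPolynomial.aeval (fun m => (MvPolynomial.X m : Rz K)) :
      MvPolynomial ℤ (Rz K) →ₐ[Rz K] Rz K).restrictScalars K
  have hBF : ∀ f, B (F f) = f := by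
    intro f
    have h1 : B.comp F = AlgHom.id K (Rz K) := by
      apply MvPolynomial.algHom_ext
      intro m
      simp only [AlgHom.comp_apply, F, MvPolynomial.aeval_X, q, B, AlgHom.restrictScalars_apply,
        AlgHom.id_apply]
      split_ifs
      · rw [MvPolynomial.aeval_C]; rfl
      · rw [MvPolynomial.aeval_X]
    exact DFunLike.congr_fun h1 f
  have hF : F h ≠ 0 := by
    intro h0
    apply hh
    rw [← hBF h, h0, map_zero]
  obtain ⟨s, hs⟩ := MvPolynomial.ne_zero_iff.mp hF
  refine ⟨MvPolynomial.coeff s (F h), hs, ?_⟩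
  intro E _ _ x hx
  have h2 : mixEv x c h = algebraMap (Rz E) (Lz E)
      (MvPolynomial.map (MvPolynomial.aeval x : Rz K →ₐ[K] E).toRingHom (F h)) := by
    have h3 : (mixEv x c : Rz K →ₐ[K] Lz E).toRingHom = ((algebraMap (Rz E) (Lz E)).comp
      (MvPolynomial.map (MvPolynomial.aeval x : Rz K →ₐ[K] E).toRingHom)).comp F.toRingHom := by
      apply MvPolynomial.ringHom_ext
      · intro k
        simp only [RingHom.comp_apply, AlgHom.toRingHom_eq_coe, RingHom.coe_coe,
          MvPolynomial.algHom_C]
        rw [IsScalarTower.algebraMap_apply K (Rz K) (MvPolynomial ℤ (Rz K)),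
          MvPolynomial.algebraMap_eq (Rz K), MvPolynomial.map_C]
        simp only [RingHom.coe_coe, AlgHom.commutes]
        rw [← MvPolynomial.algebraMap_eq, ← IsScalarTower.algebraMap_apply E (Rz E) (Lz E)]
        exact IsScalarTower.algebraMap_apply K E (Lz E) k
      · intro m
        simp only [RingHom.comp_apply, AlgHom.toRingHom_eq_coe, RingHom.coe_coe, mixEv, F,
          MvPolynomial.aeval_X, mixPt, q]
        split_ifs
        · rw [MvPolynomial.map_C]
          simp only [RingHom.coe_coe, MvPolynomial.aeval_X]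
          rw [← MvPolynomial.algebraMap_eq, ← IsScalarTower.algebraMap_apply E (Rz E) (Lz E)]
        · rw [MvPolynomial.map_X]
    exact RingHom.congr_fun h3 h
  rw [h2]
  intro h0
  have h4 : MvPolynomial.map (MvPolynomial.aeval x : Rz K →ₐ[K] E).toRingHom (F h) = 0 :=
    (IsFractionRing.injective (Rz E) (Lz E)) (by rw [h0, map_zero])
  apply hx
  have h5 := congrArg (MvPolynomial.coeff s) h4
  rw [MvPolynomial.coeff_map, MvPolynomial.coeff_zero] at h5
  exact h5

/-- a `K`-basis of `E` is `K(t)`-independent in `E(t)` -/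
lemma linearIndependent_Lz {r : Type} [Fintype r] (e : Module.Basis r K E) :
    letI := (iotaL K E).toRingHom.toAlgebra
    LinearIndependent (Lz K) (fun c => algebraMap E (Lz E) (e c)) := by
  classical
  let _ := (iotaL K E).toRingHom.toAlgebra
  rw [Fintype.linearIndependent_iff]
  intro l hl
  obtain ⟨d, hd⟩ := IsLocalization.exist_integer_multiples_of_finite
    (nonZeroDivisors (Rz K)) l
  choose Q hQ using hd
  have hd0 : (d : Rz K) ≠ 0 := nonZeroDivisors.coe_ne_zero d
  have hdL : algebraMap (Rz K) (Lz K) d ≠ 0 := by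
    intro h0
    exact hd0 ((IsFractionRing.injective (Rz K) (Lz K)) (by rw [h0, map_zero]))
  have hsm : ∀ (c : Lz K) (y : Lz E), c • y = iotaL K E c * y := fun c y => rfl
  have h1 : ∑ c, MvPolynomial.map (algebraMap K E) (Q c) * MvPolynomial.C (e c) = 0 := by
    apply IsFractionRing.injective (Rz E) (Lz E)
    rw [map_sum, map_zero]
    have h2 : ∑ c, (algebraMap (Rz K) (Lz K) d) • (l c • algebraMap E (Lz E) (e c)) = 0 := by
      rw [← Finset.smul_sum, hl, smul_zero]
    rw [← h2]
    refine Finset.sum_congr rfl (fun c _ => ?_)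
    rw [smul_smul, hsm]
    have h3 : algebraMap (Rz K) (Lz K) d * l c = algebraMap (Rz K) (Lz K) (Q c) := by
      rw [hQ, Algebra.smul_def]
    rw [h3, iotaL_algebraMap, map_mul, ← MvPolynomial.algebraMap_eq,
      ← IsScalarTower.algebraMap_apply E (Rz E) (Lz E)]
  have h4 : ∀ c, Q c = 0 := by
    intro c
    ext m
    have h5 := congrArg (MvPolynomial.coeff m) h1
    rw [MvPolynomial.coeff_sum, MvPolynomial.coeff_zero] at h5
    have h6 : ∑ c, MvPolynomial.coeff m (Q c) • e c = 0 := by
      rw [← h5]
      refine Finset.sum_congr rfl (fun c _ => ?_)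
      rw [mul_comm, MvPolynomial.coeff_C_mul, MvPolynomial.coeff_map, Algebra.smul_def, mul_comm]
    exact (Fintype.linearIndependent_iff.mp e.linearIndependent) _ h6 c
  intro c
  have h7 := hQ c
  rw [h4, map_zero, Algebra.smul_def] at h7
  exact (mul_eq_zero.mp h7.symm).resolve_left hdL

end points

end Pool.Agent.Helper793Bricks
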