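import Mathlib
import Pool.Agent.Helper793_Bricks.Point

set_option autoImplicit false

namespace Pool.Agent.Helper793Bricks

section shift

variable {K : Type} [Field K]

/-- shift of the variables -/
noncomputable def sh (K : Type) [Field K] (k : ℤ) : Rz K →ₐ[K] Rz K :=
  MvPolynomial.rename (fun m => m + k)

lemma sh_injective (k : ℤ) : Function.Injective (sh K k) :=
  MvPolynomial.rename_injective _ (add_left_injective k)

/-- inclusion of polynomials in rational functions -/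
noncomputable abbrev alg (K : Type) [Field K] : Rz K →ₐ[K] Lz K :=
  IsScalarTower.toAlgHom K (Rz K) (Lz K)

lemma alg_injective : Function.Injective (alg K) := IsFractionRing.injective (Rz K) (Lz K)

/-- shift on rational functions -/
noncomputable def shL (K : Type) [Field K] (k : ℤ) : Lz K →ₐ[K] Lz K :=
  IsFractionRing.liftAlgHom (g := (alg K).comp (sh K k))
    (by rw [AlgHom.coe_comp]; exact alg_injective.comp (sh_injective k))

lemma shL_comp (k : ℤ) : (shL K k).comp (alg K) = (alg K).comp (sh K k) := by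
  apply AlgHom.ext
  intro f
  rw [AlgHom.comp_apply]
  unfold shL
  rw [IsScalarTower.toAlgHom_apply, IsFractionRing.liftAlgHom_apply,
    IsFractionRing.lift_algebraMap]
  rfl

lemma shL_injective (k : ℤ) : Function.Injective (shL K k) := (shL K k).toRingHom.injective

end shift

section conj

variable {K A : Type} [Field K] [Ring A] [Algebra K A] {ι κ : Type} [Fintype ι] [DecidableEq ι]
  [Fintype κ] [DecidableEq κ] {Ω : Type} [Field Ω] [Algebra K Ω]

lemma noIt_conj_left {α α' : A →ₐ[K] Matrix ι ι Ω} {β : A →ₐ[K] Matrix κ κ Ω}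
    (X Y : Matrix ι ι Ω) (hXY : X * Y = 1) (hX : ∀ a, X * α a = α' a * X) :
    NoIt α β ↔ NoIt α' β := by
  have hYX : Y * X = 1 := mul_eq_one_comm.mp hXY
  constructor
  · intro h Z hZ
    have h1 : Z * X = 0 := h (Z * X) (fun a => by
      rw [Matrix.mul_assoc, hX, ← Matrix.mul_assoc, hZ, Matrix.mul_assoc])
    calc Z = Z * (X * Y) := by rw [hXY, Matrix.mul_one]
      _ = 0 := by rw [← Matrix.mul_assoc, h1, Matrix.zero_mul]
  · intro h Z hZ
    have h1 : Z * Y = 0 := h (Z * Y) (fun a => by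
      have h2 : Y * α' a = α a * Y := by
        calc Y * α' a = Y * (α' a * (X * Y)) := by rw [hXY, Matrix.mul_one]
          _ = Y * (X * α a) * Y := by rw [hX]; simp only [Matrix.mul_assoc]
          _ = α a * Y := by rw [← Matrix.mul_assoc Y X, hYX, Matrix.one_mul]
      rw [Matrix.mul_assoc, h2, ← Matrix.mul_assoc, hZ, Matrix.mul_assoc])
    calc Z = Z * (Y * X) := by rw [hYX, Matrix.mul_one]
      _ = 0 := by rw [← Matrix.mul_assoc, h1, Matrix.zero_mul]

lemma noIt_conj_right {α α' : A →ₐ[K] Matrix ι ι Ω} {β : A →ₐ[K] Matrix κ κ Ω}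
    (X Y : Matrix ι ι Ω) (hXY : X * Y = 1) (hX : ∀ a, X * α a = α' a * X) :
    NoIt β α ↔ NoIt β α' := by
  have hYX : Y * X = 1 := mul_eq_one_comm.mp hXY
  have h2 : ∀ a, Y * α' a = α a * Y := by
    intro a
    calc Y * α' a = Y * (α' a * (X * Y)) := by rw [hXY, Matrix.mul_one]
      _ = Y * (X * α a) * Y := by rw [hX]; simp only [Matrix.mul_assoc]
      _ = α a * Y := by rw [← Matrix.mul_assoc Y X, hYX, Matrix.one_mul]
  constructor
  · intro h Z hZ
    have h1 : Y * Z = 0 := h (Y * Z) (fun a => by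
      rw [Matrix.mul_assoc, hZ, ← Matrix.mul_assoc, h2, Matrix.mul_assoc])
    calc Z = (X * Y) * Z := by rw [hXY, Matrix.one_mul]
      _ = 0 := by rw [Matrix.mul_assoc, h1, Matrix.mul_zero]
  · intro h Z hZ
    have h1 : X * Z = 0 := h (X * Z) (fun a => by
      rw [Matrix.mul_assoc, hZ, ← Matrix.mul_assoc, hX, Matrix.mul_assoc])
    calc Z = (Y * X) * Z := by rw [hYX, Matrix.one_mul]
      _ = 0 := by rw [Matrix.mul_assoc, h1, Matrix.mul_zero]

end conj

/-- a nonzero `K`-rational matrix representation -/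
structure KRep (K A : Type) [Field K] [Ring A] [Algebra K A] where
  ι : Type
  ft : Fintype ι
  de : DecidableEq ι
  ne : Nonempty ι
  ν : A →ₐ[K] Matrix ι ι K

attribute [instance] KRep.ft KRep.de KRep.ne

section cases

variable {K A : Type} [Field K] [Ring A] [Algebra K A] [FiniteDimensional K A]

/-- data at a point -/
lemma point_data {ι : Type} [Fintype ι] [DecidableEq ι] (p : PRep K A ι) (k c : ℤ)
    (hlg : ∀ m ∈ p.g.vars, m < c) (hlP : ∀ a i j, ∀ m ∈ (p.P a i j).vars, m < c)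
    (hhg : ∀ m ∈ p.g.vars, c ≤ m + k) (hhP : ∀ a i j, ∀ m ∈ (p.P a i j).vars, c ≤ m + k)
    {E : Type} [Field E] [Algebra K E] (x : ℤ → E)
    (hx : (MvPolynomial.aeval x : Rz K →ₐ[K] E) p.g ≠ 0)
    (h1 : ((mixEv x c).comp (AlgHom.id K (Rz K))) p.g ≠ 0)
    (h2 : ((mixEv x c).comp (sh K k)) p.g ≠ 0)
    (h3 : ((alg K).comp (sh K k)) p.g ≠ 0) :
    p.sp _ h1 = bc (IsScalarTower.toAlgHom K E (Lz E)) (p.sp _ hx) ∧
    p.sp _ h2 = bc (iotaL K E) (p.sp _ h3) := by
  have hv : ∀ f : Rz K, (∀ m ∈ f.vars, c ≤ m + k) → ∀ m ∈ (sh K k f).vars, c ≤ m := by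
    intro f hf m hm
    obtain ⟨m', hm', rfl⟩ := MvPolynomial.mem_vars_rename _ f hm
    exact hf m' hm'
  constructor
  · have h4 : ((IsScalarTower.toAlgHom K E (Lz E)).comp
        (MvPolynomial.aeval x : Rz K →ₐ[K] E)) p.g ≠ 0 := by
      rw [AlgHom.comp_apply, IsScalarTower.toAlgHom_apply]
      intro h0
      apply hx
      exact (algebraMap E (Lz E)).injective (by rw [h0, map_zero])
    rw [p.bc_sp _ hx _ h4]
    apply p.sp_congr
    · rw [AlgHom.comp_apply, AlgHom.comp_apply, IsScalarTower.toAlgHom_apply, AlgHom.id_apply]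
      exact mixEv_low x c p.g hlg
    · intro a i j
      rw [AlgHom.comp_apply, AlgHom.comp_apply, IsScalarTower.toAlgHom_apply, AlgHom.id_apply]
      exact mixEv_low x c _ (hlP a i j)
  · have h4 : ((iotaL K E).comp ((alg K).comp (sh K k))) p.g ≠ 0 := by
      rw [AlgHom.comp_apply]
      intro h0
      apply h3
      exact (iotaL K E).toRingHom.injective (by rw [map_zero]; exact h0)
    rw [p.bc_sp ((alg K).comp (sh K k)) h3 (iotaL K E) h4]
    apply p.sp_congr
    · rw [AlgHom.comp_apply, AlgHom.comp_apply, AlgHom.comp_apply, IsScalarTower.toAlgHom_apply]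
      exact mixEv_high x c _ (hv _ hhg)
    · intro a i j
      rw [AlgHom.comp_apply, AlgHom.comp_apply, AlgHom.comp_apply, IsScalarTower.toAlgHom_apply]
      exact mixEv_high x c _ (hv _ (hhP a i j))

lemma mixEv_g_ne {ι : Type} [Fintype ι] [DecidableEq ι] (p : PRep K A ι) (k c : ℤ)
    (hlg : ∀ m ∈ p.g.vars, m < c) (hhg : ∀ m ∈ p.g.vars, c ≤ m + k)
    {E : Type} [Field E] [Algebra K E] (x : ℤ → E)
    (hx : (MvPolynomial.aeval x : Rz K →ₐ[K] E) p.g ≠ 0) :
    ((mixEv x c).comp (AlgHom.id K (Rz K))) p.g ≠ 0 ∧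
    ((mixEv x c).comp (sh K k)) p.g ≠ 0 := by
  have hg : p.g ≠ 0 := by
    intro h0; apply hx; rw [h0, map_zero]
  constructor
  · rw [AlgHom.comp_apply, AlgHom.id_apply, mixEv_low x c p.g hlg]
    intro h0
    exact hx ((algebraMap E (Lz E)).injective (by rw [h0, map_zero]))
  · rw [AlgHom.comp_apply, mixEv_high x c]
    · intro h0
      have h1 : algebraMap (Rz K) (Lz K) (sh K k p.g) = 0 :=
        (iotaL K E).toRingHom.injective (by rw [map_zero]; exact h0)
      have h2 : sh K k p.g = 0 := alg_injective (by rw [map_zero]; exact h1)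
      exact hg (sh_injective k (by rw [h2, map_zero]))
    · intro m hm
      obtain ⟨m', hm', rfl⟩ := MvPolynomial.mem_vars_rename _ p.g hm
      exact hhg m' hm'

/-- **Case A.** -/
theorem caseA {ι : Type} [Fintype ι] [DecidableEq ι] [Nonempty ι] (p : PRep K A ι) (k c : ℤ)
    (hlg : ∀ m ∈ p.g.vars, m < c) (hlP : ∀ a i j, ∀ m ∈ (p.P a i j).vars, m < c)
    (hhg : ∀ m ∈ p.g.vars, c ≤ m + k) (hhP : ∀ a i j, ∀ m ∈ (p.P a i j).vars, c ≤ m + k)
    (hg : (alg K) p.g ≠ 0) (hgk : ((alg K).comp (sh K k)) p.g ≠ 0)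
    (h1 : NoIt (p.sp _ hg) (p.sp _ hgk)) (h2 : NoIt (p.sp _ hgk) (p.sp _ hg)) :
    ∃ N : ℕ → KRep K A, ∀ i j, i ≠ j → NoIt (N i).ν (N j).ν := by
  classical
  have hg0 : p.g ≠ 0 := by
    intro h0; apply hg; rw [h0, map_zero]
  have hgid : ((alg K).comp (AlgHom.id K (Rz K))) p.g ≠ 0 := hg
  have hcomp : (shL K k).comp (alg K) = (alg K).comp (sh K k) := shL_comp k
  obtain ⟨G₁, hG₁, hN₁⟩ := noIt_open p p (AlgHom.id K (Rz K)) (sh K k) hgid hgk h1
  obtain ⟨G₂, hG₂, hN₂⟩ := noIt_open p p (sh K k) (AlgHom.id K (Rz K)) hgk hgid h2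
  obtain ⟨C₁, hC₁, hM₁⟩ := mixEv_ne_zero G₁ hG₁ c
  obtain ⟨C₂, hC₂, hM₂⟩ := mixEv_ne_zero G₂ hG₂ c
  have hseq := exists_seq_of_forall_finset_exists
    (P := fun x : KRep K A => NoIt (bc (Algebra.ofId K (Lz K)) x.ν) (p.sp _ hg) ∧
      NoIt (p.sp _ hg) (bc (Algebra.ofId K (Lz K)) x.ν))
    (r := fun x y : KRep K A => NoIt x.ν y.ν ∧ NoIt y.ν x.ν) (by
    intro s hs
    have hopen : ∀ x : KRep K A, ∃ G : Rz K, G ≠ 0 ∧ (x ∈ s → ∀ (E : Type) [Field E]
        [Algebra K E] (ψ : Rz K →ₐ[K] E) (h1 : ψ p.g ≠ 0), ψ G ≠ 0 →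
        NoIt (bc (Algebra.ofId K E) x.ν) (p.sp ψ h1) ∧
        NoIt (p.sp ψ h1) (bc (Algebra.ofId K E) x.ν)) := by
      intro x
      by_cases hxs : x ∈ s
      · obtain ⟨hx1, hx2⟩ := hs x hxs
        have hc1 : ((alg K).comp (AlgHom.id K (Rz K))) (constRep x.ν).g ≠ 0 := by
          simp [constRep]
        have hy1 : NoIt ((constRep x.ν).sp _ hc1) (p.sp _ hgid) := by
          rw [constRep_sp]; exact hx1
        have hy2 : NoIt (p.sp _ hgid) ((constRep x.ν).sp _ hc1) := by
          rw [constRep_sp]; exact hx2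
        obtain ⟨G, hG, hN⟩ := noIt_open _ _ _ _ hc1 hgid hy1
        obtain ⟨G', hG', hN'⟩ := noIt_open _ _ _ _ hgid hc1 hy2
        refine ⟨G * G', mul_ne_zero hG hG', fun _ E _ _ ψ h3 h4 => ?_⟩
        rw [map_mul] at h4
        have hc2 : (ψ.comp (AlgHom.id K (Rz K))) (constRep x.ν).g ≠ 0 := by
          simp [constRep]
        have h5 := hN E ψ hc2 h3 (left_ne_zero_of_mul h4)
        have h6 := hN' E ψ h3 hc2 (right_ne_zero_of_mul h4)
        rw [constRep_sp] at h5 h6
        exact ⟨h5, h6⟩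
      · exact ⟨1, one_ne_zero, fun h => absurd h hxs⟩
    choose G hG hGN using hopen
    obtain ⟨E, _, _, _, x, hx⟩ := exists_point (p.g * (C₁ * (C₂ * ∏ y ∈ s, G y)))
      (mul_ne_zero hg0 (mul_ne_zero hC₁ (mul_ne_zero hC₂ (Finset.prod_ne_zero_iff.mpr
        (fun y _ => hG y)))))
    rw [map_mul, map_mul, map_mul, map_prod] at hx
    have hxg := left_ne_zero_of_mul hx
    have hx1 := left_ne_zero_of_mul (right_ne_zero_of_mul hx)
    have hx2 := left_ne_zero_of_mul (right_ne_zero_of_mul (right_ne_zero_of_mul hx))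
    have hxp := right_ne_zero_of_mul (right_ne_zero_of_mul (right_ne_zero_of_mul hx))
    rw [Finset.prod_ne_zero_iff] at hxp
    let e := Module.finBasis K E
    have : Nonempty (Fin (Module.finrank K E)) := ⟨⟨0, Module.finrank_pos⟩⟩
    let α := p.sp _ hxg
    obtain ⟨hm1, hm2⟩ := mixEv_g_ne p k c hlg hhg x hxg
    obtain ⟨hd1, hd2⟩ := point_data p k c hlg hlP hhg hhP x hxg hm1 hm2 hgk
    refine ⟨⟨ι × Fin (Module.finrank K E), inferInstance, inferInstance, inferInstance,
      res e α⟩, ⟨?_, ?_⟩, ?_⟩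
    · -- left
      let _ : Algebra (Lz K) (Lz E) := (iotaL K E).toRingHom.toAlgebra
      have : IsScalarTower K (Lz K) (Lz E) :=
        IsScalarTower.of_algebraMap_eq' (iotaL K E).comp_algebraMap.symm
      have h5 : NoIt (bc (Algebra.ofId K (Lz K)) (res e α)) (p.sp _ hgk) := by
        apply noIt_res_left (Ω := Lz E) e (fun e' => linearIndependent_Lz e')
        have h6 := hN₁ (Lz E) (mixEv x c) hm1 hm2 (hM₁ E x hx1)
        rw [hd1, hd2] at h6
        exact h6
      apply noIt_of_equiv (shL K k) (shL_injective k)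
      have h7 : (((shL K k).comp (alg K)) p.g) ≠ 0 := by rw [hcomp]; exact hgk
      rw [bc_ofId, p.bc_sp _ hg _ h7]
      rw [p.sp_congr _ _ h7 hgk (by rw [hcomp]) (fun a i j => by rw [hcomp])]
      exact h5
    · let _ : Algebra (Lz K) (Lz E) := (iotaL K E).toRingHom.toAlgebra
      have : IsScalarTower K (Lz K) (Lz E) :=
        IsScalarTower.of_algebraMap_eq' (iotaL K E).comp_algebraMap.symm
      have h5 : NoIt (p.sp _ hgk) (bc (Algebra.ofId K (Lz K)) (res e α)) := by
        apply noIt_res_right (Ω := Lz E) e (linearIndependent_Lz e)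
        have h6 := hN₂ (Lz E) (mixEv x c) hm2 hm1 (hM₂ E x hx2)
        rw [hd1, hd2] at h6
        exact h6
      apply noIt_of_equiv (shL K k) (shL_injective k)
      have h7 : (((shL K k).comp (alg K)) p.g) ≠ 0 := by rw [hcomp]; exact hgk
      rw [bc_ofId, p.bc_sp _ hg _ h7]
      rw [p.sp_congr _ _ h7 hgk (by rw [hcomp]) (fun a i j => by rw [hcomp])]
      exact h5
    · intro y hy
      obtain ⟨h8, h9⟩ := hGN y hy E _ hxg (hxp y hy)
      have hK : ∀ (μ : A →ₐ[K] Matrix (ι × Fin (Module.finrank K E))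
          (ι × Fin (Module.finrank K E)) K), bc (Algebra.ofId K K) μ = μ := by
        intro μ; ext a i j; rfl
      have hE : bc (IsScalarTower.toAlgHom K E E) α = α := by
        ext a i j; rfl
      constructor
      · have h10 := noIt_res_right (Lf := K) (Ω := E) e e.linearIndependent α y.ν
          (by rw [hE]; exact h8)
        rwa [hK] at h10
      · have h10 := noIt_res_left (Lf := K) (Ω := E) e (fun e' => e'.linearIndependent) α y.ν
          (by rw [hE]; exact h9)
        rwa [hK] at h10)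
  obtain ⟨f, -, hf⟩ := hseq
  refine ⟨f, fun i j hij => ?_⟩
  rcases lt_or_gt_of_ne hij with h | h
  · exact (hf i j h).1
  · exact (hf j i h).2

end cases

end Pool.Agent.Helper793Bricks
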