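import Mathlib
import Pool.Agent.Helper793_Bricks.CaseAB

set_option autoImplicit false

namespace Pool.Agent.Helper793Bricks

section cases

variable {K A : Type} [Field K] [Ring A] [Algebra K A] [FiniteDimensional K A]

/-- **Case B**, one representation. -/
theorem caseB_single {ι : Type} [Fintype ι] [DecidableEq ι] [Nonempty ι] (p : PRep K A ι)
    (k c : ℤ)
    (hlg : ∀ m ∈ p.g.vars, m < c) (hlP : ∀ a i j, ∀ m ∈ (p.P a i j).vars, m < c)
    (hhg : ∀ m ∈ p.g.vars, c ≤ m + k) (hhP : ∀ a i j, ∀ m ∈ (p.P a i j).vars, c ≤ m + k)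
    (hg : (alg K) p.g ≠ 0) (hgk : ((alg K).comp (sh K k)) p.g ≠ 0)
    (X Y : Matrix ι ι (Lz K)) (hXY : X * Y = 1)
    (hX : ∀ a, X * p.sp _ hg a = p.sp _ hgk a * X) :
    ∃ N : KRep K A, (∀ (κ : Type) [Fintype κ] [DecidableEq κ]
        (β : A →ₐ[K] Matrix κ κ (Lz K)), NoIt (p.sp _ hg) β →
          NoIt (bc (Algebra.ofId K (Lz K)) N.ν) β) ∧
      (∀ (κ : Type) [Fintype κ] [DecidableEq κ] (μ : A →ₐ[K] Matrix κ κ K),
        NoIt (bc (Algebra.ofId K (Lz K)) μ) (p.sp _ hg) → NoIt μ N.ν) := by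
  classical
  have hg0 : p.g ≠ 0 := by
    intro h0; apply hg; rw [h0, map_zero]
  have hgid : ((alg K).comp (AlgHom.id K (Rz K))) p.g ≠ 0 := hg
  obtain ⟨G, hG, hiso⟩ := iso_open p p (AlgHom.id K (Rz K)) (sh K k) hgid hgk X Y hXY hX
  obtain ⟨C, hC, hM⟩ := mixEv_ne_zero G hG c
  obtain ⟨E, _, _, _, x, hx⟩ := exists_point (p.g * C) (mul_ne_zero hg0 hC)
  rw [map_mul] at hx
  have hxg := left_ne_zero_of_mul hx
  have hxC := right_ne_zero_of_mul hx
  let e := Module.finBasis K E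
  have : Nonempty (Fin (Module.finrank K E)) := ⟨⟨0, Module.finrank_pos⟩⟩
  let α := p.sp _ hxg
  obtain ⟨hm1, hm2⟩ := mixEv_g_ne p k c hlg hhg x hxg
  obtain ⟨hd1, hd2⟩ := point_data p k c hlg hlP hhg hhP x hxg hm1 hm2 hgk
  obtain ⟨X', Y', hXY', hX'⟩ := hiso (Lz E) (mixEv x c) hm1 hm2 (hM E x hxC)
  rw [hd1, hd2] at hX'
  let _ : Algebra (Lz K) (Lz E) := (iotaL K E).toRingHom.toAlgebra
  have : IsScalarTower K (Lz K) (Lz E) :=
    IsScalarTower.of_algebraMap_eq' (iotaL K E).comp_algebraMap.symm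
  have hK : ∀ {κ : Type} [Fintype κ] [DecidableEq κ] (μ : A →ₐ[K] Matrix κ κ K),
      bc (Algebra.ofId K K) μ = μ := by
    intro κ _ _ μ; ext a i j; rfl
  refine ⟨⟨ι × Fin (Module.finrank K E), inferInstance, inferInstance, inferInstance,
      res e α⟩, ?_, ?_⟩
  · intro κ _ _ β hβ
    apply noIt_res_left (Ω := Lz E) e (fun e' => linearIndependent_Lz e')
    have h1 : NoIt (p.sp _ hgk) β := (noIt_conj_left X Y hXY hX).mp hβ
    have h2 := noIt_bc h1 (iotaL K E)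
    exact (noIt_conj_left X' Y' hXY' hX').mpr h2
  · intro κ _ _ μ hμ
    have h1 : NoIt (bc (Algebra.ofId K (Lz K)) μ) (p.sp _ hgk) :=
      (noIt_conj_right X Y hXY hX).mp hμ
    have h2 := noIt_bc h1 (iotaL K E)
    have h3 := (noIt_conj_right X' Y' hXY' hX').mpr h2
    rw [bc_ofId] at h3
    have h4 : NoIt (bc (Algebra.ofId K E) μ) α := by
      apply noIt_of_equiv (IsScalarTower.toAlgHom K E (Lz E))
        (algebraMap E (Lz E)).injective
      rw [bc_ofId]
      exact h3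
    have hE : bc (IsScalarTower.toAlgHom K E E) α = α := by
      ext a i j; rfl
    have h10 := noIt_res_right (Lf := K) (Ω := E) e e.linearIndependent α μ
      (by rw [hE]; exact h4)
    rwa [hK] at h10

end cases

end Pool.Agent.Helper793Bricks
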