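import Mathlib
import Pool.Agent.Helper793_Bricks.Family

set_option autoImplicit false

namespace Pool.Agent.Helper793Bricks

universe u v

section twist

variable {S : Type u} [Ring S]

/-- there is a `σ`-semilinear bijection -/
def SLE (σ : S ≃+* S) (M N : Type v) [AddCommGroup M] [Module S M] [AddCommGroup N]
    [Module S N] : Prop := ∃ w : M ≃+ N, ∀ (s : S) (m : M), w (s • m) = σ s • w m

variable {M N P : Type v} [AddCommGroup M] [Module S M] [AddCommGroup N] [Module S N]
  [AddCommGroup P] [Module S P]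

lemma SLE.refl : SLE (1 : S ≃+* S) M M := ⟨AddEquiv.refl M, fun _ _ => rfl⟩

lemma SLE.trans {σ τ : S ≃+* S} (h : SLE σ M N) (h' : SLE τ N P) : SLE (τ * σ) M P := by
  obtain ⟨w, hw⟩ := h
  obtain ⟨w', hw'⟩ := h'
  refine ⟨w.trans w', fun s m => ?_⟩
  rw [AddEquiv.trans_apply, hw, hw']
  rfl

lemma SLE.symm {σ : S ≃+* S} (h : SLE σ M N) : SLE σ⁻¹ N M := by
  obtain ⟨w, hw⟩ := h
  refine ⟨w.symm, fun s m => ?_⟩
  apply w.injective
  rw [AddEquiv.apply_symm_apply, hw, AddEquiv.apply_symm_apply]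
  congr 1
  exact (σ.apply_symm_apply s).symm

lemma SLE.of_equiv (e : M ≃ₗ[S] N) : SLE (1 : S ≃+* S) M N := ⟨e.toAddEquiv, fun s m => e.map_smul s m⟩

lemma SLE.toEquiv (h : SLE (1 : S ≃+* S) M N) : Nonempty (M ≃ₗ[S] N) := by
  obtain ⟨w, hw⟩ := h
  exact ⟨{ w with map_smul' := fun s m => hw s m }⟩

/-- order isomorphism of submodule lattices -/
def SLE.orderIso {σ : S ≃+* S} (w : M ≃+ N) (hw : ∀ (s : S) (m : M), w (s • m) = σ s • w m) :
    Submodule S M ≃o Submodule S N where
  toFun W :=
    { carrier := w.symm ⁻¹' W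
      add_mem' := fun {a b} ha hb => by
        rw [Set.mem_preimage, map_add]; exact W.add_mem ha hb
      zero_mem' := by rw [Set.mem_preimage, map_zero]; exact W.zero_mem
      smul_mem' := fun s n hn => by
        have h1 : w.symm (s • n) = σ.symm s • w.symm n := by
          apply w.injective
          rw [hw, AddEquiv.apply_symm_apply, AddEquiv.apply_symm_apply,
            RingEquiv.apply_symm_apply]
        rw [Set.mem_preimage, h1]
        exact W.smul_mem _ hn }
  invFun W :=
    { carrier := w ⁻¹' W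
      add_mem' := fun {a b} ha hb => by
        rw [Set.mem_preimage, map_add]; exact W.add_mem ha hb
      zero_mem' := by rw [Set.mem_preimage, map_zero]; exact W.zero_mem
      smul_mem' := fun s n hn => by
        rw [Set.mem_preimage, hw]
        exact W.smul_mem _ hn }
  left_inv W := by
    ext m
    change w.symm (w m) ∈ W ↔ m ∈ W
    rw [AddEquiv.symm_apply_apply]
  right_inv W := by
    ext m
    change w (w.symm m) ∈ W ↔ m ∈ W
    rw [AddEquiv.apply_symm_apply]
  map_rel_iff' := by
    intro W W'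
    constructor
    · intro h m hm
      have h1 : w m ∈ (w.symm ⁻¹' (W : Set M)) := by
        rw [Set.mem_preimage, AddEquiv.symm_apply_apply]; exact hm
      have h2 := h h1
      change w.symm (w m) ∈ W' at h2
      rwa [AddEquiv.symm_apply_apply] at h2
    · intro h n hn
      exact h hn

lemma SLE.isBr {σ : S ≃+* S} {d : ℕ} {M N : ModuleCat.{v} S} (h : SLE σ M N) (hM : IsBr S d M) :
    IsBr S d N := by
  obtain ⟨w, hw⟩ := h
  obtain ⟨⟨hn, hb⟩, ha, hno, hl⟩ := hM
  let O := SLE.orderIso w hw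
  refine ⟨⟨w.symm.toEquiv.nontrivial, ?_⟩, ?_, ?_, ?_⟩
  · intro f hf
    let g : M →ₗ[S] M :=
      { toFun := fun m => w.symm (f (w m))
        map_add' := fun a b => by rw [map_add, map_add, map_add]
        map_smul' := fun s m => by
          rw [hw, map_smul, RingHom.id_apply]
          apply w.injective
          rw [hw, AddEquiv.apply_symm_apply, AddEquiv.apply_symm_apply] }
    have hg : g ≠ 0 := by
      intro h0
      apply hf
      ext n
      have h1 : w.symm (f (w (w.symm n))) = 0 := LinearMap.congr_fun h0 (w.symm n)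
      rw [AddEquiv.apply_symm_apply] at h1
      have h2 := congrArg w h1
      rw [AddEquiv.apply_symm_apply, map_zero] at h2
      rw [h2]; rfl
    have h3 := hb g hg
    have h4 : (f : N → N) = w ∘ g ∘ w.symm := by
      ext n
      change f n = w (w.symm (f (w (w.symm n))))
      rw [AddEquiv.apply_symm_apply, AddEquiv.apply_symm_apply]
    rw [h4]
    exact w.bijective.comp (h3.comp w.symm.bijective)
  · change WellFoundedLT (Submodule S N)
    have : WellFoundedLT (Submodule S M) := ha
    exact O.symm.toOrderEmbedding.wellFoundedLT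
  · rw [isNoetherian_iff'] at hno ⊢
    exact O.symm.toOrderEmbedding.wellFoundedGT
  · rw [← hl]
    unfold len
    congr 1
    rw [← WithBot.coe_inj, Module.coe_length, Module.coe_length]
    exact Order.krullDim_eq_of_orderIso O.symm

/-- the twist of a module -/
def Tw (_ : S ≃+* S) (M : Type v) : Type v := M

instance (σ : S ≃+* S) : AddCommGroup (Tw σ M) := inferInstanceAs (AddCommGroup M)

instance (σ : S ≃+* S) : Module S (Tw σ M) := Module.compHom M (σ.symm : S →+* S)

lemma SLE.tw (σ : S ≃+* S) : SLE σ M (Tw σ M) := by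
  refine ⟨AddEquiv.refl M, fun s m => ?_⟩
  change s • m = σ.symm (σ s) • m
  rw [RingEquiv.symm_apply_apply]

/-- small quotients -/
def QSet (S : Type u) [Ring S] (M : Type v) [AddCommGroup M] [Module S M] : Set (Cls.{u, v} S) :=
  {c | ∃ q : M →ₗ[S] c.out, Function.Surjective q}

/-- small submodules -/
def SSet (S : Type u) [Ring S] (M : Type v) [AddCommGroup M] [Module S M] : Set (Cls.{u, v} S) :=
  {c | ∃ q : c.out →ₗ[S] M, Function.Injective q}

lemma exists_small {d : ℕ} {M N : Type v} [AddCommGroup M] [Module S M] [AddCommGroup N]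
    [Module S N] [IsArtinian S M] [IsNoetherian S M] [IsArtinian S N] [IsNoetherian S N]
    (hM : len S M = d) (hN : len S N = d) (f : M →ₗ[S] N) (hf : f ≠ 0)
    (hfb : ¬ Function.Bijective f) :
    ∃ m < d, ∃ c ∈ BrCls.{u, v} S m, c ∈ QSet S M ∧ c ∈ SSet S N := by
  have hrlt : len S (LinearMap.range f) < d := by
    by_contra hge
    have h1 : LinearMap.range f = ⊤ := by
      by_contra hne
      have := len_submodule_lt hne
      omega
    exact hfb (bijective_of_surjective_of_len f (LinearMap.range_eq_top.mp h1) (by omega))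
  have : Nontrivial (LinearMap.range f) := by
    rw [Submodule.nontrivial_iff_ne_bot]
    intro h
    exact hf (LinearMap.range_eq_bot.mp h)
  obtain ⟨C, hC, q, hq⟩ := exists_image_brick (R := S) (LinearMap.range f)
  have hClen : len S C ≤ len S (LinearMap.range f) :=
    len_le_of_surjective q hq
  let D : Cls.{u, v} S := ⟦ModuleCat.of S C⟧
  obtain ⟨eD⟩ : Nonempty (D.out ≃ₗ[S] C) := by
    have : (isoSetoid S).r D.out (ModuleCat.of S C) := Quotient.exact (Quotient.out_eq D)
    exact this
  refine ⟨len S C, by omega, D, ⟨ModuleCat.of S C, rfl, hC, inferInstanceAs (IsArtinian S C),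
      inferInstanceAs (IsNoetherian S C), rfl⟩, ?_, ?_⟩
  · refine ⟨eD.symm.toLinearMap ∘ₗ q ∘ₗ f.rangeRestrict, ?_⟩
    exact eD.symm.surjective.comp (hq.comp f.surjective_rangeRestrict)
  · refine ⟨(LinearMap.range f).subtype ∘ₗ C.subtype ∘ₗ eD.toLinearMap, ?_⟩
    exact (Submodule.subtype_injective _).comp ((Submodule.subtype_injective _).comp eD.injective)

lemma out_isBr {d : ℕ} {c : Cls.{u, v} S} (hc : c ∈ BrCls.{u, v} S d) : IsBr S d c.out := by
  obtain ⟨M, hM, h1⟩ := hc
  obtain ⟨e⟩ : (isoSetoid S).r M c.out := Quotient.exact (by rw [hM]; exact (Quotient.out_eq c).symm)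
  exact SLE.isBr (SLE.of_equiv e) h1

/-- bricks of one type: semilinear maps are zero or bijective -/
lemma semilinear_dichotomy {d : ℕ} {M N : ModuleCat.{v} S} (hM : IsBr S d M) (hN : IsBr S d N)
    (σ : S ≃+* S) (hσ : ∀ m < d, ∀ c ∈ BrCls.{u, v} S m, SLE σ c.out c.out)
    (hQ : ∀ m < d, ∀ c ∈ BrCls.{u, v} S m, c ∈ QSet S M → c ∈ QSet S N)
    (f : M →+ N) (hf : ∀ (s : S) (m : M), f (s • m) = σ s • f m) :
    f = 0 ∨ Function.Bijective f := by
  obtain ⟨w, hw⟩ := SLE.tw (M := M) σ
  have hT : IsBr S d (ModuleCat.of S (Tw σ M)) := SLE.isBr (SLE.tw σ) hM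
  let f' : Tw σ M →ₗ[S] N :=
    { toFun := fun n => f (w.symm n)
      map_add' := fun a b => by rw [map_add, map_add]
      map_smul' := fun s n => by
        have h1 : w.symm (s • n) = σ.symm s • w.symm n := by
          apply w.injective
          rw [hw, AddEquiv.apply_symm_apply, AddEquiv.apply_symm_apply,
            RingEquiv.apply_symm_apply]
        rw [h1, hf, RingEquiv.apply_symm_apply, RingHom.id_apply] }
  have hf' : ∀ m, f' (w m) = f m := fun m => congrArg f (w.symm_apply_apply m)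
  by_cases h0 : f' = 0
  · left
    ext m
    rw [← hf', h0]; rfl
  by_cases hb : Function.Bijective f'
  · right
    have : (f : M → N) = f' ∘ w := by
      ext m; exact (hf' m).symm
    rw [this]
    exact hb.comp w.bijective
  exfalso
  obtain ⟨-, ha, hno, hl⟩ := hT
  obtain ⟨hbN, haN, hnoN, hlN⟩ := hN
  have : IsArtinian S (Tw σ M) := ha
  have : IsNoetherian S (Tw σ M) := hno
  obtain ⟨m, hm, c, hc, ⟨q, hq⟩, hcS⟩ := exists_small (M := Tw σ M) hl hlN f' h0 hb
  obtain ⟨z, hz⟩ := hσ m hm c hc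
  have hcM : c ∈ QSet S M := by
    let q' : M →ₗ[S] c.out :=
      { toFun := fun x => z.symm (q (w x))
        map_add' := fun a b => by rw [map_add, map_add, map_add]
        map_smul' := fun s x => by
          rw [hw, map_smul, RingHom.id_apply]
          apply z.injective
          rw [hz, AddEquiv.apply_symm_apply, AddEquiv.apply_symm_apply] }
    exact ⟨q', z.symm.surjective.comp (hq.comp w.surjective)⟩
  obtain ⟨q₁, hq₁⟩ := hQ m hm c hc hcM
  obtain ⟨s₁, hs₁⟩ := hcS
  have hcb := out_isBr hc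
  have : Nontrivial c.out := hcb.1.1
  have hbij := (brick_no_small hbN q₁ hq₁ s₁ hs₁).2
  have h1 : len S c.out = len S N := len_eq_of_equiv (LinearEquiv.ofBijective s₁ hbij)
  have h2 := hcb.2.2.2
  omega

/-- **Types.** -/
theorem exists_family (φ : S ≃+* S) (d : ℕ) (hd : (BrCls.{u, v} S d).Infinite)
    (hmin : ∀ m < d, (BrCls.{u, v} S m).Finite) :
    ∃ n : ℕ, 0 < n ∧ ∃ M : ℕ → ModuleCat.{v} S, (∀ i, IsBr S d (M i)) ∧
      (∀ i j, i ≠ j → ∀ f : M i →ₗ[S] M j, f = 0) ∧
      ∀ i (r : ℤ) (f : M i →+ M i), (∀ (s : S) (m : M i), f (s • m) = (φ ^ (n * r)) s • f m) →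
        f = 0 ∨ Function.Bijective f := by
  classical
  let F : Set (Cls.{u, v} S) := ⋃ m ∈ Set.Iio d, BrCls.{u, v} S m
  have hF : F.Finite := Set.Finite.biUnion (Set.finite_Iio d) (fun m hm => hmin m hm)
  have hmemF : ∀ m < d, ∀ c ∈ BrCls.{u, v} S m, c ∈ F := fun m hm c hc =>
    Set.mem_biUnion (x := m) hm hc
  -- the stabilisers
  let H : Cls.{u, v} S → Subgroup (S ≃+* S) := fun c =>
    { carrier := {σ | SLE σ c.out c.out}
      mul_mem' := fun {a b} ha hb => hb.trans ha
      one_mem' := SLE.refl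
      inv_mem' := fun {a} ha => ha.symm }
  have hper : ∀ c : Cls.{u, v} S, ∃ n : ℕ, 0 < n ∧ (c ∈ F → φ ^ n ∈ H c) := by
    intro c
    by_cases hc : c ∈ F
    · obtain ⟨m, hm, hcm⟩ := Set.mem_iUnion₂.mp hc
      have hm' : m < d := hm
      have hfin : Finite (BrCls.{u, v} S m) := (hmin m hm').to_subtype
      have hcb := out_isBr hcm
      let g : ℕ → BrCls.{u, v} S m := fun k => ⟨⟦ModuleCat.of S (Tw (φ ^ k) c.out)⟧,
        ModuleCat.of S (Tw (φ ^ k) c.out), rfl, SLE.isBr (SLE.tw (φ ^ k)) hcb⟩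
      obtain ⟨k, l, hkl, hg⟩ := Finite.exists_ne_map_eq_of_infinite g
      have h1 : Nonempty (Tw (φ ^ k) c.out ≃ₗ[S] Tw (φ ^ l) c.out) := by
        have h2 : (⟦ModuleCat.of S (Tw (φ ^ k) c.out)⟧ : Cls.{u, v} S) =
          ⟦ModuleCat.of S (Tw (φ ^ l) c.out)⟧ := congrArg Subtype.val hg
        exact Quotient.exact h2
      obtain ⟨e⟩ := h1
      have h3 : ((φ ^ l)⁻¹ * (1 * φ ^ k)) ∈ H c :=
        ((SLE.tw (φ ^ k)).trans (SLE.of_equiv e)).trans (SLE.tw (φ ^ l)).symm
      rw [one_mul] at h3
      rcases lt_or_gt_of_ne hkl with h | h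
      · refine ⟨l - k, by omega, fun _ => ?_⟩
        have h4 := (H c).inv_mem h3
        have h5 : ((φ ^ l)⁻¹ * φ ^ k)⁻¹ = φ ^ (l - k) := by
          rw [mul_inv_rev, inv_inv]
          have : l = k + (l - k) := by omega
          conv_lhs => rw [this, pow_add]
          rw [← mul_assoc, inv_mul_cancel, one_mul]
        rwa [h5] at h4
      · refine ⟨k - l, by omega, fun _ => ?_⟩
        have h5 : ((φ ^ l)⁻¹ * φ ^ k) = φ ^ (k - l) := by
          have : k = l + (k - l) := by omega
          conv_lhs => rw [this, pow_add]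
          rw [← mul_assoc, inv_mul_cancel, one_mul]
        rwa [h5] at h3
    · exact ⟨1, one_pos, fun h => absurd h hc⟩
  choose n hn0 hn using hper
  let n' := ∏ c ∈ hF.toFinset, n c
  have hn' : 0 < n' := Finset.prod_pos (fun c _ => hn0 c)
  have hmem : ∀ (r : ℤ), ∀ m < d, ∀ c ∈ BrCls.{u, v} S m, SLE (φ ^ (n' * r)) c.out c.out := by
    intro r m hm c hc
    have hcF := hmemF m hm c hc
    have h1 := hn c hcF
    have h2 : n c ∣ n' := Finset.dvd_prod_of_mem n (hF.mem_toFinset.mpr hcF)
    obtain ⟨q, hq⟩ := h2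
    have h3 : φ ^ ((n' : ℤ) * r) = (φ ^ n c) ^ ((q : ℤ) * r) := by
      rw [hq, ← zpow_natCast φ (n c), ← zpow_mul]
      congr 1
      push_cast
      ring
    rw [h3]
    exact (H c).zpow_mem h1 _
  -- the types
  have : Finite F := hF.to_subtype
  have : Infinite (BrCls.{u, v} S d) := hd.to_subtype
  let ty : BrCls.{u, v} S d → Set F := fun c => {D | D.1 ∈ QSet S c.1.out}
  obtain ⟨t, ht⟩ := Finite.exists_infinite_fiber ty
  let e := Infinite.natEmbedding (ty ⁻¹' {t})
  have hbr : ∀ i, IsBr S d (e i).1.1.out := fun i => out_isBr (e i).1.2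
  have hQ : ∀ i j, ∀ m < d, ∀ c ∈ BrCls.{u, v} S m, c ∈ QSet S (e i).1.1.out →
      c ∈ QSet S (e j).1.1.out := by
    intro i j m hm c hc hci
    have h1 : (⟨c, hmemF m hm c hc⟩ : F) ∈ ty (e i).1 := hci
    have hti : ty (e i).1 = t := (e i).2
    have htj : ty (e j).1 = t := (e j).2
    rw [hti, ← htj] at h1
    exact h1
  refine ⟨n', hn', fun i => (e i).1.1.out, hbr, ?_, ?_⟩
  · intro i j hij f
    rcases semilinear_dichotomy (hbr i) (hbr j) 1 (fun _ _ _ _ => SLE.refl) (hQ i j)
      f.toAddMonoidHom (fun s m => f.map_smul s m) with h | h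
    · ext m
      exact DFunLike.congr_fun h m
    · exfalso
      apply hij
      apply e.injective
      apply Subtype.ext
      apply Subtype.ext
      have h1 : (isoSetoid S).r ((e i).1.1.out) ((e j).1.1.out) :=
        ⟨LinearEquiv.ofBijective f h⟩
      rw [← Quotient.out_eq (e i).1.1, ← Quotient.out_eq (e j).1.1]
      exact Quotient.sound h1
  · intro i r f hf
    exact semilinear_dichotomy (hbr i) (hbr i) _ (hmem r) (fun _ _ _ _ h => h) f hf

end twist

end Pool.Agent.Helper793Bricks
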