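import Mathlib
import Pool.Agent.Helper793_Bricks.CaseB
import Pool.Agent.Helper793_Bricks.Types

set_option autoImplicit false

open scoped TensorProduct

namespace Pool.Agent.Helper793Bricks

section shiftgroup

variable {K : Type} [Field K]

lemma sh_sh (k l : ℤ) (f : Rz K) : sh K k (sh K l f) = sh K (k + l) f := by
  unfold sh
  rw [MvPolynomial.rename_rename]
  congr 2
  funext m
  simp only [Function.comp_apply]
  ring

lemma shL_alg (k : ℤ) (f : Rz K) : shL K k (algebraMap (Rz K) (Lz K) f) =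
    algebraMap (Rz K) (Lz K) (sh K k f) := DFunLike.congr_fun (shL_comp k) f

lemma shL_shL (k l : ℤ) (y : Lz K) : shL K k (shL K l y) = shL K (k + l) y := by
  have h : ((shL K k).toRingHom.comp (shL K l).toRingHom) = (shL K (k + l)).toRingHom := by
    apply IsLocalization.ringHom_ext (nonZeroDivisors (Rz K))
    ext f
    · simp only [RingHom.comp_apply, AlgHom.toRingHom_eq_coe, RingHom.coe_coe, shL_alg, sh_sh]
    · simp only [RingHom.comp_apply, AlgHom.toRingHom_eq_coe, RingHom.coe_coe, shL_alg, sh_sh]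
  exact RingHom.congr_fun h y

lemma shL_zero (y : Lz K) : shL K 0 y = y := by
  have h : (shL K 0).toRingHom = RingHom.id (Lz K) := by
    apply IsLocalization.ringHom_ext (nonZeroDivisors (Rz K))
    have h1 : ∀ f : Rz K, sh K 0 f = f := by
      intro f
      have : (fun m : ℤ => m + 0) = id := by funext m; simp
      unfold sh
      rw [this, MvPolynomial.rename_id_apply]
    ext f
    · simp only [RingHom.comp_apply, AlgHom.toRingHom_eq_coe, RingHom.coe_coe, shL_alg, h1,
        RingHom.id_apply]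
    · simp only [RingHom.comp_apply, AlgHom.toRingHom_eq_coe, RingHom.coe_coe, shL_alg, h1,
        RingHom.id_apply]
  exact RingHom.congr_fun h y

/-- shift as an automorphism -/
noncomputable def shE (K : Type) [Field K] (k : ℤ) : Lz K ≃ₐ[K] Lz K :=
  AlgEquiv.ofAlgHom (shL K k) (shL K (-k))
    (by apply AlgHom.ext; intro y; rw [AlgHom.comp_apply, shL_shL, add_neg_cancel, shL_zero]; rfl)
    (by apply AlgHom.ext; intro y; rw [AlgHom.comp_apply, shL_shL, neg_add_cancel, shL_zero]; rfl)

lemma shE_apply (k : ℤ) (y : Lz K) : shE K k y = shL K k y := rfl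

variable (A : Type) [Ring A] [Algebra K A]

/-- the ring `A_L` -/
abbrev AL (K A : Type) [Field K] [Ring A] [Algebra K A] : Type := Lz K ⊗[K] A

noncomputable def phi (K A : Type) [Field K] [Ring A] [Algebra K A] (k : ℤ) : AL K A ≃+* AL K A :=
  (Algebra.TensorProduct.congr (shE K k) (AlgEquiv.refl : A ≃ₐ[K] A)).toRingEquiv

lemma phi_tmul (k : ℤ) (y : Lz K) (a : A) : phi K A k (y ⊗ₜ[K] a) = (shL K k y) ⊗ₜ[K] a := rfl

lemma phi_add (k l : ℤ) : phi K A (k + l) = phi K A k * phi K A l := by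
  apply RingEquiv.ext
  intro s
  induction s using TensorProduct.induction_on with
  | zero => rw [map_zero, map_zero]
  | tmul y a =>
    change phi K A (k + l) (y ⊗ₜ[K] a) = phi K A k (phi K A l (y ⊗ₜ[K] a))
    rw [phi_tmul, phi_tmul, phi_tmul, shL_shL]
  | add x y hx hy => rw [map_add, map_add, hx, hy]

lemma phi_zpow (k : ℤ) : phi K A k = (phi K A 1) ^ k := by
  let f : Multiplicative ℤ →* (AL K A ≃+* AL K A) :=
    { toFun := fun k => phi K A k.toAdd
      map_one' := by
        have h := phi_add A (K := K) 0 0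
        rw [add_zero] at h
        exact (mul_eq_left.mp h.symm)
      map_mul' := fun k l => phi_add A _ _ }
  have h1 : f (Multiplicative.ofAdd k) = f (Multiplicative.ofAdd 1) ^ k := by
    rw [← map_zpow, ← ofAdd_zsmul, smul_eq_mul, mul_one]
  exact h1

end shiftgroup

section RM

variable {K A : Type} [Field K] [Ring A] [Algebra K A] {Ω : Type} [Field Ω] [Algebra K Ω]

/-- the algebra map attached to a representation -/
noncomputable def rmHom {ι : Type} [Fintype ι] [DecidableEq ι] (ρ : A →ₐ[K] Matrix ι ι Ω) :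
    Ω ⊗[K] A →ₐ[Ω] Matrix ι ι Ω :=
  Algebra.TensorProduct.lift (Algebra.ofId Ω _) ρ
    (fun y a => Algebra.commute_algebraMap_left y (ρ a))

lemma rmHom_tmul {ι : Type} [Fintype ι] [DecidableEq ι] (ρ : A →ₐ[K] Matrix ι ι Ω) (y : Ω) (a : A) :
    rmHom ρ (y ⊗ₜ[K] a) = y • ρ a := by
  refine (Algebra.TensorProduct.lift_tmul (Algebra.ofId Ω _) ρ
    (fun y a => Algebra.commute_algebraMap_left y (ρ a)) y a).trans ?_
  rw [Algebra.ofId_apply, Algebra.smul_def]

/-- the module of a representation -/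
def RM {ι : Type} [Fintype ι] [DecidableEq ι] (_ : A →ₐ[K] Matrix ι ι Ω) : Type := ι → Ω

variable {ι : Type} [Fintype ι] [DecidableEq ι] (ρ : A →ₐ[K] Matrix ι ι Ω)

instance : AddCommGroup (RM ρ) := inferInstanceAs (AddCommGroup (ι → Ω))

noncomputable instance : Module (Ω ⊗[K] A) (RM ρ) :=
  Module.compHom (ι → Ω)
    ((Matrix.toLinAlgEquiv' : Matrix ι ι Ω ≃ₐ[Ω] _).toRingHom.comp (rmHom ρ).toRingHom)

lemma rm_smul (s : Ω ⊗[K] A) (v : RM ρ) : (s • v : RM ρ) = ((rmHom ρ s).mulVec v : ι → Ω) := rfl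

lemma rm_tmul_smul (y : Ω) (a : A) (v : RM ρ) :
    ((y ⊗ₜ[K] a) • v : RM ρ) = (y • (ρ a).mulVec v : ι → Ω) := by
  rw [rm_smul, rmHom_tmul]
  exact Matrix.smul_mulVec y (ρ a) v

end RM

section fromModule

variable {K A : Type} [Field K] [Ring A] [Algebra K A] [FiniteDimensional K A]

/-- every finitely generated module over `A_L` comes from a representation -/
theorem exists_rep (M : Type) [AddCommGroup M] [Module (AL K A) M] [Module.Finite (AL K A) M] :
    ∃ (n : ℕ) (ρ : A →ₐ[K] Matrix (Fin n) (Fin n) (Lz K)), Nonempty (M ≃ₗ[AL K A] RM ρ) := by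
  let _ : Module (Lz K) M := Module.compHom M (algebraMap (Lz K) (AL K A))
  have : IsScalarTower (Lz K) (AL K A) M := ⟨fun x y z => by
    change (x • y) • z = (algebraMap (Lz K) (AL K A) x) • (y • z)
    rw [← mul_smul, ← Algebra.smul_def]⟩
  have : Module.Finite (Lz K) (AL K A) := inferInstance
  have : Module.Finite (Lz K) M := Module.Finite.trans (AL K A) M
  let b := Module.finBasis (Lz K) M
  let act : AL K A →ₐ[Lz K] Module.End (Lz K) M := Algebra.lsmul (Lz K) (Lz K) M
  let ρ' : AL K A →ₐ[Lz K] Matrix _ _ (Lz K) := (LinearMap.toMatrixAlgEquiv b).toAlgHom.comp act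
  let ρ : A →ₐ[K] Matrix (Fin (Module.finrank (Lz K) M)) (Fin (Module.finrank (Lz K) M)) (Lz K) :=
    (ρ'.restrictScalars K).comp Algebra.TensorProduct.includeRight
  let Φ : M ≃+ RM ρ := b.equivFun.toAddEquiv
  have hΦ : ∀ (s : AL K A) (m : M), Φ (s • m) = s • Φ m := ?_
  · exact ⟨_, ρ, ⟨{ Φ with map_smul' := hΦ }⟩⟩
  intro s m
  induction s using TensorProduct.induction_on with
  | zero =>
    exact (congrArg Φ (zero_smul (AL K A) m)).trans
      ((map_zero Φ).trans (zero_smul (AL K A) (Φ m)).symm)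
  | add x y hx hy =>
    rw [add_smul, map_add, hx, hy, add_smul]
  | tmul y a =>
    refine Eq.trans ?_ (rm_tmul_smul ρ y a (Φ m)).symm
    change (b.equivFun ((y ⊗ₜ[K] a : AL K A) • m) : _ → Lz K) =
      y • (ρ a).mulVec (b.equivFun m)
    have h1 : (y ⊗ₜ[K] a : AL K A) • m = y • (((1 : Lz K) ⊗ₜ[K] a : AL K A) • m) := by
      rw [← smul_assoc]
      congr 1
      rw [TensorProduct.smul_tmul', smul_eq_mul, mul_one]
    rw [h1, map_smul]
    congr 1
    have h2 := LinearMap.toMatrix_mulVec_repr b b (act ((1 : Lz K) ⊗ₜ[K] a)) m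
    exact h2.symm

end fromModule

end Pool.Agent.Helper793Bricks
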