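import Mathlib
import Pool.Agent.Helper793_Bricks.Bridge

set_option autoImplicit false

open scoped TensorProduct

namespace Pool.Agent.Helper793Bricks

section

variable {K : Type} [Field K] {ι κ : Type} [Fintype ι]

/-- twisted matrix action on vectors -/
noncomputable def vecMap (k : ℤ) (X : Matrix κ ι (Lz K)) : (ι → Lz K) →+ (κ → Lz K) where
  toFun v := X.mulVec (fun i => shL K k (v i))
  map_zero' := by
    have : (fun i => shL K k ((0 : ι → Lz K) i)) = 0 := by
      funext i
      exact map_zero (shL K k)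
    rw [this, Matrix.mulVec_zero]
  map_add' v w := by
    have : (fun i => shL K k ((v + w) i)) =
        (fun i => shL K k (v i)) + (fun i => shL K k (w i)) := by
      funext i
      exact map_add (shL K k) _ _
    rw [this, Matrix.mulVec_add]

lemma vecMap_apply (k : ℤ) (X : Matrix κ ι (Lz K)) (v : ι → Lz K) :
    vecMap k X v = X.mulVec (fun i => shL K k (v i)) := rfl

omit [Fintype ι] in
lemma shL_single [DecidableEq ι] (k : ℤ) (j : ι) :
    (fun i => shL K k ((Pi.single j (1 : Lz K) : ι → Lz K) i)) =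
      (Pi.single j (1 : Lz K) : ι → Lz K) := by
  funext l
  simp only [Pi.single_apply]
  split_ifs
  · exact map_one _
  · exact map_zero _

lemma vecMap_single [DecidableEq ι] (k : ℤ) (X : Matrix κ ι (Lz K)) (j : ι) :
    vecMap k X (Pi.single j (1 : Lz K)) = fun i => X i j := by
  rw [vecMap_apply, shL_single, Matrix.mulVec_single_one]
  rfl

lemma map_mulVec_shL (k : ℤ) (X : Matrix κ ι (Lz K)) (v : ι → Lz K) :
    (fun i => shL K k (X.mulVec v i)) = (X.map (shL K k)).mulVec (fun i => shL K k (v i)) := by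
  funext i
  rw [Matrix.mulVec, Matrix.mulVec, dotProduct, dotProduct, map_sum]
  refine Finset.sum_congr rfl (fun j _ => ?_)
  rw [map_mul, Matrix.map_apply]

end

section

variable {K A : Type} [Field K] [Ring A] [Algebra K A] {ι κ : Type} [Fintype ι] [DecidableEq ι]
  [Fintype κ] [DecidableEq κ] (ρ : A →ₐ[K] Matrix ι ι (Lz K)) (ρ' : A →ₐ[K] Matrix κ κ (Lz K))

/-- the identity between a module and vectors -/
noncomputable def rmE : RM ρ ≃+ (ι → Lz K) := AddEquiv.refl (ι → Lz K)

lemma rmE_tmul (y : Lz K) (a : A) (v : RM ρ) :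
    rmE ρ ((y ⊗ₜ[K] a : AL K A) • v) = y • (ρ a).mulVec (rmE ρ v) := rm_tmul_smul ρ y a v

omit [Fintype κ] [DecidableEq κ] in
lemma rm_zero_smul (v : RM ρ) : (0 : AL K A) • v = 0 := by
  refine (rm_smul ρ 0 v).trans ?_
  rw [map_zero]
  exact Matrix.zero_mulVec _

/-- additive map attached to a matrix and a shift -/
noncomputable def semiMap (k : ℤ) (X : Matrix κ ι (Lz K)) : RM ρ →+ RM ρ' :=
  (rmE ρ').symm.toAddMonoidHom.comp ((vecMap k X).comp (rmE ρ).toAddMonoidHom)

lemma semiMap_apply (k : ℤ) (X : Matrix κ ι (Lz K)) (v : RM ρ) :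
    rmE ρ' (semiMap ρ ρ' k X v) = vecMap k X (rmE ρ v) := rfl

lemma semiMap_smul (k : ℤ) (X : Matrix κ ι (Lz K))
    (hX : ∀ a, X * bc (shL K k) ρ a = ρ' a * X) (s : AL K A) (v : RM ρ) :
    semiMap ρ ρ' k X (s • v) = phi K A k s • semiMap ρ ρ' k X v := by
  induction s using TensorProduct.induction_on with
  | zero =>
    have e1 : (0 : AL K A) • v = 0 := rm_zero_smul ρ v
    have e2 : (0 : AL K A) • semiMap ρ ρ' k X v = 0 := rm_zero_smul ρ' _
    have h1 : semiMap ρ ρ' k X ((0 : AL K A) • v) = phi K A k (0 : AL K A) • semiMap ρ ρ' k X v := by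
      rw [e1, map_zero, map_zero, e2]
    exact h1
  | add x y hx hy => rw [add_smul, map_add, hx, hy, map_add, add_smul]
  | tmul y a =>
    rw [phi_tmul]
    apply (rmE ρ').injective
    rw [rmE_tmul, semiMap_apply, semiMap_apply, rmE_tmul, vecMap_apply, vecMap_apply]
    have h1 : (fun i => shL K k ((y • (ρ a).mulVec (rmE ρ v)) i)) =
        shL K k y • (bc (shL K k) ρ a).mulVec (fun i => shL K k (rmE ρ v i)) := by
      rw [bc_apply, ← map_mulVec_shL]
      funext i
      rw [Pi.smul_apply, Pi.smul_apply, smul_eq_mul, smul_eq_mul, map_mul]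
    rw [h1, Matrix.mulVec_smul, Matrix.mulVec_mulVec, hX, ← Matrix.mulVec_mulVec]

lemma exists_matrix (k : ℤ) (f : RM ρ →+ RM ρ')
    (hf : ∀ (s : AL K A) (v : RM ρ), f (s • v) = phi K A k s • f v) :
    ∃ X : Matrix κ ι (Lz K), (∀ v, f v = semiMap ρ ρ' k X v) ∧
      ∀ a, X * bc (shL K k) ρ a = ρ' a * X := by
  let g : (ι → Lz K) →+ (κ → Lz K) :=
    (rmE ρ').toAddMonoidHom.comp (f.comp (rmE ρ).symm.toAddMonoidHom)
  have hg : ∀ v, rmE ρ' (f v) = g (rmE ρ v) := fun v => rfl
  have hga : ∀ (y : Lz K) (a : A) (v : ι → Lz K),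
      g (y • (ρ a).mulVec v) = shL K k y • (ρ' a).mulVec (g v) := by
    intro y a v
    have h1 := hf (y ⊗ₜ[K] a) ((rmE ρ).symm v)
    have h2 := congrArg (rmE ρ') h1
    rw [hg, rmE_tmul, phi_tmul, rmE_tmul, hg, AddEquiv.apply_symm_apply] at h2
    exact h2
  have hL : ∀ (y : Lz K) (v : ι → Lz K), g (y • v) = shL K k y • g v := by
    intro y v
    have h1 := hga y 1 v
    rwa [map_one, map_one, Matrix.one_mulVec, Matrix.one_mulVec] at h1
  let X : Matrix κ ι (Lz K) := fun i j => g (Pi.single j (1 : Lz K)) i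
  have hX : ∀ v, g v = vecMap k X v := by
    intro v
    have h1 : v = ∑ j, (v j) • (Pi.single j (1 : Lz K) : ι → Lz K) := by
      funext i
      rw [Finset.sum_apply]
      simp [Pi.single_apply]
    have h2 : g v = ∑ j, g ((v j) • (Pi.single j (1 : Lz K) : ι → Lz K)) := by
      conv_lhs => rw [h1]
      exact map_sum g _ Finset.univ
    rw [h2, vecMap_apply]
    funext i
    rw [Matrix.mulVec, dotProduct, Finset.sum_apply]
    refine Finset.sum_congr rfl (fun j _ => ?_)
    rw [hL, Pi.smul_apply, smul_eq_mul, mul_comm]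
  refine ⟨X, fun v => ?_, fun a => ?_⟩
  · apply (rmE ρ').injective
    rw [hg, hX, semiMap_apply]
  · ext i j
    have h3 := hga 1 a (Pi.single j (1 : Lz K))
    rw [map_one, one_smul, one_smul, hX, hX, vecMap_single, vecMap_apply, map_mulVec_shL,
      shL_single, Matrix.mulVec_single_one, ← bc_apply] at h3
    have h5 := congrFun h3 i
    rw [Matrix.mul_apply, Matrix.mul_apply]
    rw [Matrix.mulVec, Matrix.mulVec, dotProduct, dotProduct] at h5
    exact h5

lemma noIt_of_semi (k : ℤ) (h : ∀ f : RM ρ →+ RM ρ',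
    (∀ (s : AL K A) (v : RM ρ), f (s • v) = phi K A k s • f v) → f = 0) :
    NoIt (bc (shL K k) ρ) ρ' := by
  intro X hX
  have h1 := h (semiMap ρ ρ' k X) (semiMap_smul ρ ρ' k X hX)
  ext i j
  have h2 : semiMap ρ ρ' k X ((rmE ρ).symm (Pi.single j (1 : Lz K))) = 0 := by rw [h1]; rfl
  have h3 := congrArg (rmE ρ') h2
  rw [semiMap_apply, AddEquiv.apply_symm_apply, vecMap_single, map_zero] at h3
  exact congrFun h3 i

lemma inverse_of_semi (k : ℤ) (f : RM ρ →+ RM ρ)
    (hf : ∀ (s : AL K A) (v : RM ρ), f (s • v) = phi K A k s • f v)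
    (hb : Function.Bijective f) :
    ∃ X Y : Matrix ι ι (Lz K), X * Y = 1 ∧ ∀ a, X * ρ a = bc (shL K k) ρ a * X := by
  obtain ⟨Y, hY, hY2⟩ := exists_matrix ρ ρ k f hf
  let e : RM ρ ≃+ RM ρ := AddEquiv.ofBijective f hb
  have he : ∀ v, e v = f v := fun v => rfl
  have hinv : ∀ (s : AL K A) (v : RM ρ), e.symm (s • v) = phi K A (-k) s • e.symm v := by
    intro s v
    apply e.injective
    rw [AddEquiv.apply_symm_apply, he, hf, ← he, AddEquiv.apply_symm_apply]
    congr 1
    have h1 := phi_add A (K := K) k (-k)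
    have h0 : phi K A 0 = 1 := by
      have h := phi_add A (K := K) 0 0
      rw [add_zero] at h
      exact (mul_eq_left.mp h.symm)
    rw [add_neg_cancel, h0] at h1
    exact (DFunLike.congr_fun h1 s)
  obtain ⟨Z, hZ, -⟩ := exists_matrix ρ ρ (-k) e.symm.toAddMonoidHom hinv
  have h2 : Y * Z.map (shL K k) = 1 := by
    ext i j
    have h3 : f (e.symm ((rmE ρ).symm (Pi.single j (1 : Lz K)))) =
      (rmE ρ).symm (Pi.single j (1 : Lz K)) := e.apply_symm_apply _
    have h4 : rmE ρ (e.symm ((rmE ρ).symm (Pi.single j (1 : Lz K)))) = fun i => Z i j := by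
      have h5 := hZ ((rmE ρ).symm (Pi.single j (1 : Lz K)))
      have h6 := congrArg (rmE ρ) h5
      rw [semiMap_apply, AddEquiv.apply_symm_apply, vecMap_single] at h6
      exact h6
    have h7 := congrArg (rmE ρ) h3
    rw [hY, semiMap_apply, h4, AddEquiv.apply_symm_apply, vecMap_apply] at h7
    have h8 := congrFun h7 i
    rw [Matrix.mul_apply, Matrix.one_apply]
    rw [Matrix.mulVec, dotProduct, Pi.single_apply] at h8
    exact h8
  have h9 : Z.map (shL K k) * Y = 1 := mul_eq_one_comm.mp h2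
  refine ⟨Z.map (shL K k), Y, h9, fun a => ?_⟩
  calc Z.map (shL K k) * ρ a = Z.map (shL K k) * (ρ a * (Y * Z.map (shL K k))) := by
        rw [h2, Matrix.mul_one]
    _ = Z.map (shL K k) * (Y * bc (shL K k) ρ a) * Z.map (shL K k) := by
        rw [hY2]; simp only [Matrix.mul_assoc]
    _ = bc (shL K k) ρ a * Z.map (shL K k) := by
        rw [← Matrix.mul_assoc (Z.map (shL K k)) Y, h9, Matrix.one_mul]

end

lemma pRep_bound {K A : Type} [Field K] [Ring A] [Algebra K A] {ι : Type} [Fintype ι]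
    [DecidableEq ι] [FiniteDimensional K A] (p : PRep K A ι) :
    ∃ c : ℕ, (∀ m ∈ p.g.vars, |m| < (c : ℤ)) ∧
      ∀ a i j, ∀ m ∈ (p.P a i j).vars, |m| < (c : ℤ) := by
  classical
  let b := Module.finBasis K A
  let V : Finset ℤ := p.g.vars ∪ Finset.univ.biUnion (fun u : Fin (Module.finrank K A) × ι × ι =>
    (p.P (b u.1) u.2.1 u.2.2).vars)
  let c := V.sup Int.natAbs + 1
  have hc : ∀ m ∈ V, |m| < (c : ℤ) := by
    intro m hm
    have h1 := Finset.le_sup (f := Int.natAbs) hm
    have h2 : (|m| : ℤ) = (m.natAbs : ℤ) := (Int.natCast_natAbs m).symm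
    rw [h2]
    simp only [c]
    exact_mod_cast Nat.lt_succ_of_le h1
  refine ⟨c, fun m hm => hc m (Finset.mem_union_left _ hm), ?_⟩
  intro a i j
  have h3 : p.P a i j ∈ MvPolynomial.supported K {m : ℤ | |m| < (c : ℤ)} := by
    rw [← b.sum_repr a, map_sum, Matrix.sum_apply]
    refine Subalgebra.sum_mem _ (fun u _ => ?_)
    rw [map_smul, Matrix.smul_apply]
    refine Subalgebra.smul_mem _ ?_ _
    rw [MvPolynomial.mem_supported]
    intro m hm
    exact hc m (Finset.mem_union_right _ (Finset.mem_biUnion.mpr ⟨(u, i, j), Finset.mem_univ _, hm⟩))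
  rw [MvPolynomial.mem_supported] at h3
  exact fun m hm => h3 hm

end Pool.Agent.Helper793Bricks
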