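import Mathlib
import Pool.Agent.Helper793_Bricks.FF

set_option autoImplicit false

open scoped TensorProduct

namespace Pool.Agent.Helper793Bricks

section

variable {K A : Type} [Field K] [Ring A] [Algebra K A] [FiniteDimensional K A]

omit [FiniteDimensional K A] in
lemma bc_shL_zero {ι : Type} [Fintype ι] [DecidableEq ι] (ρ : A →ₐ[K] Matrix ι ι (Lz K)) :
    bc (shL K 0) ρ = ρ := by
  ext a i j
  rw [bc_apply, Matrix.map_apply, shL_zero]

omit [FiniteDimensional K A] in
lemma phi_zero : phi K A 0 = 1 := by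
  have h := phi_add A (K := K) 0 0
  rw [add_zero] at h
  exact (mul_eq_left.mp h.symm)

/-- **Descent theorem.** Infinitely many bricks of one length over `K(t)` give an infinite sequence
of pairwise Hom-orthogonal finite-dimensional modules over `K`. -/
theorem ff_main (d : ℕ) (hd : (BrCls.{0, 0} (AL K A) d).Infinite) :
    ∃ N : ℕ → KRep K A, ∀ i j, i ≠ j → NoIt (N i).ν (N j).ν := by
  classical
  have hex : ∃ d, (BrCls.{0, 0} (AL K A) d).Infinite := ⟨d, hd⟩
  obtain ⟨n, hn, M, hM, horth, hdich⟩ := exists_family (phi K A 1) (Nat.find hex)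
    (Nat.find_spec hex) (fun m hm => by
      have := Nat.find_min hex hm
      rwa [Set.not_infinite] at this)
  have hfin : ∀ i, Module.Finite (AL K A) (M i) := fun i => by
    have := (hM i).2.2.1
    infer_instance
  have hrep : ∀ i, ∃ (n : ℕ) (ρ : A →ₐ[K] Matrix (Fin n) (Fin n) (Lz K)),
      Nonempty (M i ≃ₗ[AL K A] RM ρ) := fun i => exists_rep (M i)
  choose m ρ e using hrep
  have hprep := fun i => exists_pRep (ρ i)
  choose p hg hsp using hprep
  have hbd := fun i => pRep_bound (p i)
  choose c hc1 hc2 using hbd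
  let k : ℕ → ℤ := fun i => n * (2 * c i : ℤ)
  have hne : ∀ i, Nonempty (Fin (m i)) := by
    intro i
    by_contra hcon
    rw [not_nonempty_iff] at hcon
    obtain ⟨e⟩ := e i
    have h1 : Nontrivial (M i) := (hM i).1.1
    have h2 : Nontrivial (RM (ρ i)) := e.symm.toEquiv.nontrivial
    obtain ⟨x, y, hxy⟩ := h2
    apply hxy
    funext j
    exact hcon.elim j
  -- transfer of the dichotomy
  have hdich' : ∀ i (r : ℤ) (f : RM (ρ i) →+ RM (ρ i)),
      (∀ (s : AL K A) (v : RM (ρ i)), f (s • v) = phi K A (n * r) s • f v) →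
      f = 0 ∨ Function.Bijective f := by
    intro i r f hf
    obtain ⟨e⟩ := e i
    let g : M i →+ M i := e.symm.toAddEquiv.toAddMonoidHom.comp
      (f.comp e.toAddEquiv.toAddMonoidHom)
    have hgf : ∀ x, g x = e.symm (f (e x)) := fun x => rfl
    have h1 := hdich i r g (fun s x => by
      rw [hgf, hgf, map_smul, hf, map_smul, phi_zpow])
    rcases h1 with h1 | h1
    · left
      ext v
      have h2 : g (e.symm v) = 0 := by rw [h1]; rfl
      rw [hgf, LinearEquiv.apply_symm_apply] at h2
      have h3 := congrArg e h2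
      rw [LinearEquiv.apply_symm_apply, map_zero] at h3
      exact h3
    · right
      have h2 : (f : RM (ρ i) → RM (ρ i)) = e ∘ g ∘ e.symm := by
        ext v
        simp only [Function.comp_apply, hgf, LinearEquiv.apply_symm_apply]
      rw [h2]
      exact e.bijective.comp (h1.comp e.symm.bijective)
  -- orthogonality
  have horth' : ∀ i j, i ≠ j → NoIt (ρ i) (ρ j) := by
    intro i j hij
    rw [← bc_shL_zero (ρ i)]
    apply noIt_of_semi
    intro f hf
    obtain ⟨ei⟩ := e i
    obtain ⟨ej⟩ := e j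
    let g : M i →ₗ[AL K A] M j :=
      { toFun := fun x => ej.symm (f (ei x))
        map_add' := fun x y => by rw [map_add, map_add, map_add]
        map_smul' := fun s x => by
          rw [map_smul, hf, phi_zero]
          exact ej.symm.map_smul s _ }
    have h1 := horth i j hij g
    ext v
    have h2 : g (ei.symm v) = 0 := by rw [h1]; rfl
    have h3 : ej.symm (f (ei (ei.symm v))) = 0 := h2
    rw [LinearEquiv.apply_symm_apply] at h3
    have h4 := congrArg ej h3
    rw [LinearEquiv.apply_symm_apply, map_zero] at h4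
    exact h4
  -- bounds
  have hk : ∀ i, 2 * (c i : ℤ) ≤ k i := by
    intro i
    have h1 : (1 : ℤ) ≤ n := by exact_mod_cast hn
    have h2 : (0 : ℤ) ≤ 2 * c i := by positivity
    calc 2 * (c i : ℤ) = 1 * (2 * c i) := by ring
      _ ≤ n * (2 * c i) := mul_le_mul_of_nonneg_right h1 h2
  have hlg : ∀ i, ∀ u ∈ (p i).g.vars, u < (c i : ℤ) := fun i u hu =>
    lt_of_le_of_lt (le_abs_self u) (hc1 i u hu)
  have hlP : ∀ i a s t, ∀ u ∈ ((p i).P a s t).vars, u < (c i : ℤ) := fun i a s t u hu =>
    lt_of_le_of_lt (le_abs_self u) (hc2 i a s t u hu)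
  have hhg : ∀ i, ∀ u ∈ (p i).g.vars, (c i : ℤ) ≤ u + k i := fun i u hu => by
    have h1 := hc1 i u hu
    have h2 := hk i
    have h3 := neg_abs_le u
    linarith
  have hhP : ∀ i a s t, ∀ u ∈ ((p i).P a s t).vars, (c i : ℤ) ≤ u + k i := fun i a s t u hu => by
    have h1 := hc2 i a s t u hu
    have h2 := hk i
    have h3 := neg_abs_le u
    linarith
  have hgk : ∀ i, ((alg K).comp (sh K (k i))) (p i).g ≠ 0 := by
    intro i h0
    have h1 : sh K (k i) (p i).g = 0 := alg_injective (by rw [map_zero]; exact h0)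
    have h2 : (p i).g = 0 := sh_injective (k i) (by rw [map_zero]; exact h1)
    apply hg i
    rw [h2, map_zero]
  have hspk : ∀ i, (p i).sp _ (hgk i) = bc (shL K (k i)) (ρ i) := by
    intro i
    have h7 : (((shL K (k i)).comp (alg K)) (p i).g) ≠ 0 := by rw [shL_comp]; exact hgk i
    rw [← hsp i, (p i).bc_sp (alg K) (hg i) (shL K (k i)) h7]
    exact (p i).sp_congr _ _ (hgk i) h7 (by rw [shL_comp]) (fun a i j => by rw [shL_comp])
  by_cases hA : ∃ i, (∀ f : RM (ρ i) →+ RM (ρ i),
      (∀ (s : AL K A) (v : RM (ρ i)), f (s • v) = phi K A (k i) s • f v) → f = 0) ∧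
      (∀ f : RM (ρ i) →+ RM (ρ i),
      (∀ (s : AL K A) (v : RM (ρ i)), f (s • v) = phi K A (-k i) s • f v) → f = 0)
  · obtain ⟨i, h1, h2⟩ := hA
    have h3 := noIt_of_semi (ρ i) (ρ i) (k i) h1
    have h4 := noIt_bc (noIt_of_semi (ρ i) (ρ i) (-k i) h2) (shL K (k i))
    have h5 : bc (shL K (k i)) (bc (shL K (-k i)) (ρ i)) = ρ i := by
      ext a s t
      rw [bc_apply, bc_apply, Matrix.map_apply, Matrix.map_apply, shL_shL, add_neg_cancel,
        shL_zero]
    rw [h5] at h4
    have := hne i
    refine caseA (p i) (k i) (c i) (hlg i) (hlP i) (hhg i) (hhP i) (hg i) (hgk i) ?_ ?_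
    · rw [hspk i]
      have h6 := hsp i
      rw [h6]
      exact h4
    · rw [hspk i]
      have h6 := hsp i
      rw [h6]
      exact h3
  · push Not at hA
    have hB : ∀ i, ∃ X Y : Matrix (Fin (m i)) (Fin (m i)) (Lz K), X * Y = 1 ∧
        ∀ a, X * ρ i a = bc (shL K (k i)) (ρ i) a * X := by
      intro i
      by_cases h1 : ∀ f : RM (ρ i) →+ RM (ρ i),
          (∀ (s : AL K A) (v : RM (ρ i)), f (s • v) = phi K A (k i) s • f v) → f = 0
      · obtain ⟨f, hf, hf0⟩ := hA i h1
        have hk' : -k i = n * (-(2 * c i : ℤ)) := by simp only [k]; ring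
        have hb := (hdich' i (-(2 * c i : ℤ)) f (by rw [← hk']; exact hf)).resolve_left hf0
        -- inverse
        let E : RM (ρ i) ≃+ RM (ρ i) := AddEquiv.ofBijective f hb
        have hE : ∀ v, E v = f v := fun v => rfl
        apply inverse_of_semi (ρ i) (k i) E.symm.toAddMonoidHom ?_ E.symm.bijective
        intro s v
        change E.symm (s • v) = phi K A (k i) s • E.symm v
        apply E.injective
        rw [AddEquiv.apply_symm_apply, hE, hf, ← hE, AddEquiv.apply_symm_apply]
        congr 1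
        have h2 := phi_add A (K := K) (-k i) (k i)
        rw [neg_add_cancel, phi_zero] at h2
        exact DFunLike.congr_fun h2 s
      · push Not at h1
        obtain ⟨f, hf, hf0⟩ := h1
        have hb := (hdich' i (2 * c i : ℤ) f hf).resolve_left hf0
        exact inverse_of_semi (ρ i) (k i) f hf hb
    choose X Y hXY hX using hB
    have hN : ∀ i, ∃ N : KRep K A, (∀ (κ : Type) [Fintype κ] [DecidableEq κ]
        (β : A →ₐ[K] Matrix κ κ (Lz K)), NoIt (ρ i) β →
          NoIt (bc (Algebra.ofId K (Lz K)) N.ν) β) ∧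
      (∀ (κ : Type) [Fintype κ] [DecidableEq κ] (μ : A →ₐ[K] Matrix κ κ K),
        NoIt (bc (Algebra.ofId K (Lz K)) μ) (ρ i) → NoIt μ N.ν) := by
      intro i
      have := hne i
      have h1 := caseB_single (p i) (k i) (c i) (hlg i) (hlP i) (hhg i) (hhP i) (hg i) (hgk i)
        (X i) (Y i) (hXY i) (by
          intro a
          rw [hspk i]
          have h6 := hsp i
          rw [h6]
          exact hX i a)
      have h6 := hsp i
      rw [h6] at h1
      exact h1
    choose N hN1 hN2 using hN
    refine ⟨N, fun i j hij => ?_⟩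
    exact hN2 j _ _ (hN1 i _ _ (horth' i j hij))

end

end Pool.Agent.Helper793Bricks
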