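import Mathlib
import Pool.Agent.Helper793_Bricks.FFmain

set_option autoImplicit false

open scoped TensorProduct

namespace Pool.Agent.Helper793Bricks

section VM

variable {K A : Type} [Field K] [Ring A] [Algebra K A] {ι κ : Type} [Fintype ι] [DecidableEq ι]
  [Fintype κ] [DecidableEq κ]

/-- the `A`-module of a `K`-rational representation -/
def VM (_ : A →ₐ[K] Matrix ι ι K) : Type := ι → K

instance (ν : A →ₐ[K] Matrix ι ι K) : AddCommGroup (VM ν) := inferInstanceAs (AddCommGroup (ι → K))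

noncomputable instance (ν : A →ₐ[K] Matrix ι ι K) : Module A (VM ν) :=
  Module.compHom (ι → K)
    ((Matrix.toLinAlgEquiv' : Matrix ι ι K ≃ₐ[K] _).toRingHom.comp ν.toRingHom)

variable (ν : A →ₐ[K] Matrix ι ι K) (ν' : A →ₐ[K] Matrix κ κ K)

def vmE : VM ν ≃+ (ι → K) := AddEquiv.refl (ι → K)

lemma vmE_smul (a : A) (v : VM ν) : vmE ν (a • v) = (ν a).mulVec (vmE ν v) := rfl

lemma vm_matrix (f : VM ν →ₗ[A] VM ν') : ∃ X : Matrix κ ι K,
    (∀ v, vmE ν' (f v) = X.mulVec (vmE ν v)) ∧ ∀ a, X * ν a = ν' a * X := by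
  let g : (ι → K) →+ (κ → K) :=
    (vmE ν').toAddMonoidHom.comp (f.toAddMonoidHom.comp (vmE ν).symm.toAddMonoidHom)
  have hg : ∀ v, vmE ν' (f v) = g (vmE ν v) := fun v => rfl
  have hga : ∀ (a : A) (v : ι → K), g ((ν a).mulVec v) = (ν' a).mulVec (g v) := by
    intro a v
    have h1 := f.map_smul a ((vmE ν).symm v)
    have h2 := congrArg (vmE ν') h1
    rw [hg, vmE_smul, vmE_smul, hg, AddEquiv.apply_symm_apply] at h2
    exact h2
  have hL : ∀ (y : K) (v : ι → K), g (y • v) = y • g v := by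
    intro y v
    have h1 := hga (algebraMap K A y) v
    have h2 : ∀ {τ : Type} [Fintype τ] [DecidableEq τ] (μ : A →ₐ[K] Matrix τ τ K) (w : τ → K),
        (μ (algebraMap K A y)).mulVec w = y • w := by
      intro τ _ _ μ w
      rw [AlgHom.commutes, Algebra.algebraMap_eq_smul_one, Matrix.smul_mulVec, Matrix.one_mulVec]
    rwa [h2, h2] at h1
  let X : Matrix κ ι K := fun i j => g (Pi.single j (1 : K)) i
  have hX : ∀ v, g v = X.mulVec v := by
    intro v
    have h1 : v = ∑ j, (v j) • (Pi.single j (1 : K) : ι → K) := by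
      funext i
      rw [Finset.sum_apply]
      simp [Pi.single_apply]
    have h2 : g v = ∑ j, g ((v j) • (Pi.single j (1 : K) : ι → K)) := by
      conv_lhs => rw [h1]
      exact map_sum g _ Finset.univ
    rw [h2]
    funext i
    rw [Matrix.mulVec, dotProduct, Finset.sum_apply]
    refine Finset.sum_congr rfl (fun j _ => ?_)
    rw [hL, Pi.smul_apply, smul_eq_mul, mul_comm]
  refine ⟨X, fun v => ?_, fun a => ?_⟩
  · rw [hg, hX]
  · ext i j
    have h3 := hga a (Pi.single j (1 : K))
    rw [hX, hX, Matrix.mulVec_mulVec, Matrix.mulVec_mulVec, Matrix.mulVec_single_one,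
      Matrix.mulVec_single_one] at h3
    exact congrFun h3 i

/-- linear map from an intertwiner -/
noncomputable def vmMap (X : Matrix κ ι K) (hX : ∀ a, X * ν a = ν' a * X) : VM ν →ₗ[A] VM ν' where
  toFun v := (vmE ν').symm (X.mulVec (vmE ν v))
  map_add' v w := by rw [map_add, Matrix.mulVec_add, map_add]
  map_smul' a v := by
    apply (vmE ν').injective
    rw [AddEquiv.apply_symm_apply, vmE_smul, RingHom.id_apply, vmE_smul,
      AddEquiv.apply_symm_apply, Matrix.mulVec_mulVec, hX, ← Matrix.mulVec_mulVec]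

lemma vmMap_apply (X : Matrix κ ι K) (hX : ∀ a, X * ν a = ν' a * X) (v : VM ν) :
    vmE ν' (vmMap ν ν' X hX v) = X.mulVec (vmE ν v) := rfl

/-- absence of intertwiners, module form -/
lemma noIt_iff : NoIt ν ν' ↔ ∀ f : VM ν →ₗ[A] VM ν', f = 0 := by
  constructor
  · intro h f
    obtain ⟨X, hX1, hX2⟩ := vm_matrix ν ν' f
    have hX0 := h X hX2
    ext v
    apply (vmE ν').injective
    rw [hX1, hX0, Matrix.zero_mulVec]
    rfl
  · intro h X hX
    have h1 := h (vmMap ν ν' X hX)
    ext i j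
    have h2 : vmE ν' (vmMap ν ν' X hX ((vmE ν).symm (Pi.single j (1 : K)))) = 0 := by
      rw [h1]; rfl
    rw [vmMap_apply, AddEquiv.apply_symm_apply, Matrix.mulVec_single_one] at h2
    exact congrFun h2 i

/-- a brick has an invertible commutant -/
lemma commutant_of_brick (hb : IsBrick A (VM ν)) (X : Matrix ι ι K) (hX : ∀ a, X * ν a = ν a * X)
    (hX0 : X ≠ 0) : ∃ Y, X * Y = 1 := by
  have h1 : vmMap ν ν X hX ≠ 0 := by
    intro h0
    apply hX0
    ext i j
    have h2 : vmE ν (vmMap ν ν X hX ((vmE ν).symm (Pi.single j (1 : K)))) = 0 := by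
      rw [h0]; rfl
    rw [vmMap_apply, AddEquiv.apply_symm_apply, Matrix.mulVec_single_one] at h2
    exact congrFun h2 i
  have h2 := hb.2 _ h1
  have h3 : Function.Surjective X.mulVec := by
    intro w
    obtain ⟨v, hv⟩ := h2.2 ((vmE ν).symm w)
    refine ⟨vmE ν v, ?_⟩
    have h4 := congrArg (vmE ν) hv
    rwa [vmMap_apply, AddEquiv.apply_symm_apply] at h4
  have h4 : IsUnit X := (Matrix.mulVec_surjective_iff_isUnit).mp h3
  obtain ⟨u, rfl⟩ := h4
  exact ⟨↑u⁻¹, u.mul_inv⟩

instance [FiniteDimensional K A] : Module.Finite A (VM ν) := by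
  classical
  have h1 : ∀ (k : K) (v : VM ν), (algebraMap K A k) • v = (vmE ν).symm (k • vmE ν v) := by
    intro k v
    apply (vmE ν).injective
    rw [vmE_smul, AlgHom.commutes, Algebra.algebraMap_eq_smul_one, Matrix.smul_mulVec,
      Matrix.one_mulVec, AddEquiv.apply_symm_apply]
  refine ⟨⟨Finset.univ.image (fun j => (vmE ν).symm (Pi.single j (1 : K))), ?_⟩⟩
  rw [eq_top_iff]
  intro v _
  have h2 : v = ∑ j, (algebraMap K A (vmE ν v j)) • (vmE ν).symm (Pi.single j (1 : K)) := by
    apply (vmE ν).injective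
    rw [map_sum]
    funext i
    rw [Finset.sum_apply]
    simp only [h1, AddEquiv.apply_symm_apply, Pi.smul_apply, Pi.single_apply, smul_eq_mul]
    simp
  rw [h2]
  refine Submodule.sum_mem _ (fun j _ => Submodule.smul_mem _ _ (Submodule.subset_span ?_))
  simp

/-- every finitely generated module comes from a representation -/
theorem exists_vrep [FiniteDimensional K A] (M : Type) [AddCommGroup M] [Module A M]
    [Module.Finite A M] :
    ∃ (n : ℕ) (ν : A →ₐ[K] Matrix (Fin n) (Fin n) K), Nonempty (M ≃ₗ[A] VM ν) := by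
  let _ : Module K M := Module.compHom M (algebraMap K A)
  have : IsScalarTower K A M := ⟨fun x y z => by
    change (x • y) • z = (algebraMap K A x) • (y • z)
    rw [← mul_smul, ← Algebra.smul_def]⟩
  have : Module.Finite K M := Module.Finite.trans A M
  let b := Module.finBasis K M
  let act : A →ₐ[K] Module.End K M := Algebra.lsmul K K M
  let ν : A →ₐ[K] Matrix _ _ K := (LinearMap.toMatrixAlgEquiv b).toAlgHom.comp act
  let Φ : M ≃+ VM ν := b.equivFun.toAddEquiv
  have hΦ : ∀ (s : A) (m : M), Φ (s • m) = s • Φ m := by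
    intro s m
    have h2 := LinearMap.toMatrix_mulVec_repr b b (act s) m
    exact h2.symm
  exact ⟨_, ν, ⟨{ Φ with map_smul' := hΦ }⟩⟩

/-- infinite semibrick from an infinite orthogonal sequence -/
theorem semibrick_of_kRep [FiniteDimensional K A] (N : ℕ → KRep K A)
    (hN : ∀ i j, i ≠ j → NoIt (N i).ν (N j).ν) :
    ∃ M : ℕ → ModuleCat.{0} A, (∀ i, Module.Finite A (M i) ∧ IsBrick A (M i)) ∧
      ∀ i j, i ≠ j → ∀ f : M i →ₗ[A] M j, f = 0 := by
  have : IsArtinianRing A := isArtinian_of_tower K inferInstance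
  have hnt : ∀ i, Nontrivial (VM (N i).ν) := fun i => by
    have := (N i).ne
    exact inferInstanceAs (Nontrivial ((N i).ι → K))
  have h1 := fun i => exists_image_brick (R := A) (VM (N i).ν)
  choose C hC q hq using h1
  refine ⟨fun i => ModuleCat.of A (C i), fun i => ⟨inferInstanceAs (Module.Finite A (C i)), hC i⟩,
    fun i j hij f => ?_⟩
  let f' : C i →ₗ[A] C j := f
  have h2 := (noIt_iff (N i).ν (N j).ν).mp (hN i j hij) ((C j).subtype ∘ₗ f' ∘ₗ q i)
  have h3 : f' = 0 := by
    ext x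
    obtain ⟨y, rfl⟩ := hq i x
    exact LinearMap.congr_fun h2 y
  exact h3

end VM

end Pool.Agent.Helper793Bricks
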