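import Mathlib
import Pool.Agent.Helper793_Bricks.VMod

set_option autoImplicit false

open scoped TensorProduct

namespace Pool.Agent.Helper793Bricks

section units

variable {K : Type} [Field K] (E : Type) [Field E] [Algebra K E] [FiniteDimensional K E]

/-- embedding of `K(t) ⊗ E` in `E(t)` -/
noncomputable def tensEmb (K E : Type) [Field K] [Field E] [Algebra K E] :
    Lz K ⊗[K] E →ₐ[K] Lz E :=
  Algebra.TensorProduct.lift (iotaL K E) (IsScalarTower.toAlgHom K E (Lz E))
    (fun _ _ => Commute.all _ _)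

omit [FiniteDimensional K E] in
lemma tensEmb_tmul (y : Lz K) (x : E) : tensEmb K E (y ⊗ₜ[K] x) =
    iotaL K E y * algebraMap E (Lz E) x :=
  Algebra.TensorProduct.lift_tmul _ _ _ y x

lemma tensEmb_injective : Function.Injective (tensEmb K E) := by
  rw [injective_iff_map_eq_zero]
  intro ξ hξ
  let e := Module.finBasis K E
  let B := Algebra.TensorProduct.basis (Lz K) e
  have h1 : ξ = ∑ u, B.repr ξ u • ((1 : Lz K) ⊗ₜ[K] e u) := by
    conv_lhs => rw [← B.sum_repr ξ]
    refine Finset.sum_congr rfl (fun u _ => ?_)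
    rw [Algebra.TensorProduct.basis_apply]
  have h2 : ∑ u, iotaL K E (B.repr ξ u) * algebraMap E (Lz E) (e u) = 0 := by
    rw [← hξ]
    conv_rhs => rw [h1]
    rw [map_sum]
    refine Finset.sum_congr rfl (fun u _ => ?_)
    rw [TensorProduct.smul_tmul', smul_eq_mul, mul_one, tensEmb_tmul]
  let _ := (iotaL K E).toRingHom.toAlgebra
  have h3 := (Fintype.linearIndependent_iff.mp (linearIndependent_Lz e)) (fun u => B.repr ξ u) h2
  rw [h1]
  refine Finset.sum_eq_zero (fun u _ => ?_)
  rw [h3 u, zero_smul]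

lemma isUnit_tens (ξ : Lz K ⊗[K] E) (hξ : ξ ≠ 0) : IsUnit ξ := by
  have hdom : IsDomain (Lz K ⊗[K] E) := (tensEmb_injective E).isDomain (tensEmb K E).toRingHom
  have : Module.Finite (Lz K) (Lz K ⊗[K] E) := inferInstance
  have : IsArtinianRing (Lz K ⊗[K] E) := isArtinian_of_tower (Lz K) inferInstance
  exact IsArtinianRing.isUnit_of_mem_nonZeroDivisors (mem_nonZeroDivisors_of_ne_zero hξ)

end units

section expand

variable {K A : Type} [Field K] [Ring A] [Algebra K A] {ι κ : Type} [Fintype ι] [DecidableEq ι]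
  [Fintype κ] [DecidableEq κ]

/-- base change of a rational representation to `K(t)` -/
noncomputable abbrev up (ν : A →ₐ[K] Matrix ι ι K) : A →ₐ[K] Matrix ι ι (Lz K) :=
  bc (Algebra.ofId K (Lz K)) ν

lemma up_apply (ν : A →ₐ[K] Matrix ι ι K) (a : A) (i j : ι) :
    up ν a i j = algebraMap K (Lz K) (ν a i j) := rfl

/-- expansion of a matrix along a basis of `K(t)` over `K` -/
lemma expand (X : Matrix κ ι (Lz K)) : ∃ (τ : Type) (s : Finset τ) (c : τ → Lz K)
    (Z : τ → Matrix κ ι K),
    (X = ∑ α ∈ s, c α • (Z α).map (algebraMap K (Lz K))) ∧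
    ∀ (ν : A →ₐ[K] Matrix ι ι K) (ν' : A →ₐ[K] Matrix κ κ K),
      (∀ a, X * up ν a = up ν' a * X) → ∀ α a, Z α * ν a = ν' a * Z α := by
  classical
  let b := Module.Basis.ofVectorSpace K (Lz K)
  let s : Finset _ := Finset.univ.biUnion (fun u : κ × ι => (b.repr (X u.1 u.2)).support)
  let Z : _ → Matrix κ ι K := fun α => Matrix.of (fun i j => b.repr (X i j) α)
  refine ⟨_, s, b, Z, ?_, ?_⟩
  · ext i j
    rw [Matrix.sum_apply]
    have h1 : X i j = ∑ α ∈ s, b.repr (X i j) α • b α := by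
      conv_lhs => rw [← b.linearCombination_repr (X i j), Finsupp.linearCombination_apply]
      refine Finsupp.sum_of_support_subset _ ?_ _ (fun _ _ => zero_smul _ _)
      exact Finset.subset_biUnion_of_mem (fun u : κ × ι => (b.repr (X u.1 u.2)).support)
        (Finset.mem_univ (i, j))
    rw [h1]
    refine Finset.sum_congr rfl (fun α _ => ?_)
    rw [Matrix.smul_apply, Matrix.map_apply, Algebra.smul_def, smul_eq_mul, mul_comm]
    rfl
  · intro ν ν' h α a
    ext i j
    have h2 := congrFun (congrFun (h a) i) j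
    rw [Matrix.mul_apply, Matrix.mul_apply] at h2
    have h3 := congrArg (fun y => b.repr y α) h2
    simp only [map_sum, Finsupp.coe_finsetSum, Finset.sum_apply, up_apply] at h3
    rw [Matrix.mul_apply, Matrix.mul_apply]
    refine Eq.trans ?_ (Eq.trans h3 ?_)
    · refine Finset.sum_congr rfl (fun l _ => ?_)
      rw [mul_comm (X i l), ← Algebra.smul_def, map_smul, Finsupp.smul_apply, smul_eq_mul, mul_comm]
      rfl
    · refine Finset.sum_congr rfl (fun l _ => ?_)
      rw [← Algebra.smul_def, map_smul, Finsupp.smul_apply, smul_eq_mul]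
      rfl

/-- **Bricks over finite fields stay bricks over `K(t)`.** -/
theorem commutant_up [Finite K] [Nonempty ι] (ν : A →ₐ[K] Matrix ι ι K)
    (hb : ∀ X : Matrix ι ι K, (∀ a, X * ν a = ν a * X) → X ≠ 0 → ∃ Y, X * Y = 1)
    (X : Matrix ι ι (Lz K)) (hX : ∀ a, X * up ν a = up ν a * X) (hX0 : X ≠ 0) :
    ∃ Y, X * Y = 1 := by
  classical
  let C := Subalgebra.centralizer K (Set.range ν)
  have hC : ∀ Z : Matrix ι ι K, Z ∈ C ↔ ∀ a, Z * ν a = ν a * Z := by
    intro Z
    rw [Subalgebra.mem_centralizer_iff]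
    constructor
    · intro h a
      exact (h _ ⟨a, rfl⟩).symm
    · rintro h _ ⟨a, rfl⟩
      exact (h a).symm
  have : Finite (Matrix ι ι K) := inferInstanceAs (Finite (ι → ι → K))
  have : Finite C := inferInstance
  have : Nontrivial C := inferInstance
  have : NoZeroDivisors C := by
    refine ⟨fun {x y} hxy => ?_⟩
    by_contra hcon
    push Not at hcon
    obtain ⟨hx, hy⟩ := hcon
    have hx' : x.1 ≠ 0 := fun h => hx (Subtype.ext h)
    obtain ⟨Y, hY⟩ := hb x.1 ((hC x.1).mp x.2) hx'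
    have hY' : Y * x.1 = 1 := mul_eq_one_comm.mp hY
    apply hy
    apply Subtype.ext
    have h1 : x.1 * y.1 = 0 := congrArg Subtype.val hxy
    calc y.1 = Y * x.1 * y.1 := by rw [hY', one_mul]
      _ = 0 := by rw [mul_assoc, h1, mul_zero]
  have : IsDomain C := NoZeroDivisors.to_isDomain C
  have hF : IsField C := Finite.isDomain_to_isField C
  let _ : Field C := hF.toField
  have : FiniteDimensional K C := inferInstance
  obtain ⟨τ, s, c, Z, hXZ, hZ⟩ := expand (A := A) X
  have hZC : ∀ α, Z α ∈ C := fun α => (hC _).mpr (hZ ν ν hX α)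
  let ξ : Lz K ⊗[K] C := ∑ α ∈ s, c α ⊗ₜ[K] (⟨Z α, hZC α⟩ : C)
  let θ : Lz K ⊗[K] C →ₐ[K] Matrix ι ι (Lz K) :=
    Algebra.TensorProduct.lift (IsScalarTower.toAlgHom K (Lz K) (Matrix ι ι (Lz K)))
      ((Algebra.ofId K (Lz K)).mapMatrix.comp C.val)
      (fun y x => Algebra.commute_algebraMap_left y _)
  have hθ : θ ξ = X := by
    rw [hXZ, map_sum]
    refine Finset.sum_congr rfl (fun α _ => ?_)
    refine (Algebra.TensorProduct.lift_tmul _ _ _ _ _).trans ?_
    rw [IsScalarTower.toAlgHom_apply, ← Algebra.smul_def]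
    rfl
  have hξ : ξ ≠ 0 := by
    intro h0
    apply hX0
    rw [← hθ, h0, map_zero]
  have h2 := (isUnit_tens C ξ hξ).map θ
  rw [hθ] at h2
  obtain ⟨u, rfl⟩ := h2
  exact ⟨↑u⁻¹, u.mul_inv⟩

end expand

end Pool.Agent.Helper793Bricks
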