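import Mathlib
import Pool.Agent.Helper793_Bricks.BaseCh
import Pool.Agent.Helper793_Bricks.Rank2

set_option autoImplicit false

open scoped TensorProduct

namespace Pool.Agent.Helper793Bricks

section rm

variable {K A : Type} [Field K] [Ring A] [Algebra K A] {ι κ : Type} [Fintype ι] [DecidableEq ι]
  [Fintype κ] [DecidableEq κ] (ρ : A →ₐ[K] Matrix ι ι (Lz K)) (ρ' : A →ₐ[K] Matrix κ κ (Lz K))

omit [DecidableEq ι] [DecidableEq κ] [Fintype κ] in
lemma vecMap_zero (X : Matrix κ ι (Lz K)) (v : ι → Lz K) : vecMap 0 X v = X.mulVec v := by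
  rw [vecMap_apply]
  congr 1
  funext i
  rw [shL_zero]

lemma rm_matrix (f : RM ρ →ₗ[AL K A] RM ρ') : ∃ X : Matrix κ ι (Lz K),
    (∀ v, rmE ρ' (f v) = X.mulVec (rmE ρ v)) ∧ ∀ a, X * ρ a = ρ' a * X := by
  obtain ⟨X, hX1, hX2⟩ := exists_matrix ρ ρ' 0 f.toAddMonoidHom (fun s v => by
    rw [phi_zero]
    exact f.map_smul s v)
  refine ⟨X, fun v => ?_, fun a => ?_⟩
  · have h1 := congrArg (rmE ρ') (hX1 v)
    rw [semiMap_apply, vecMap_zero] at h1
    exact h1
  · have h2 := hX2 a
    rwa [bc_shL_zero] at h2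

noncomputable def rmMap (X : Matrix κ ι (Lz K)) (hX : ∀ a, X * ρ a = ρ' a * X) :
    RM ρ →ₗ[AL K A] RM ρ' where
  toFun := semiMap ρ ρ' 0 X
  map_add' := (semiMap ρ ρ' 0 X).map_add
  map_smul' s v := by
    rw [semiMap_smul ρ ρ' 0 X (by rw [bc_shL_zero]; exact hX) s v, phi_zero]
    rfl

lemma rmMap_apply (X : Matrix κ ι (Lz K)) (hX : ∀ a, X * ρ a = ρ' a * X) (v : RM ρ) :
    rmE ρ' (rmMap ρ ρ' X hX v) = X.mulVec (rmE ρ v) := by
  refine Eq.trans (semiMap_apply ρ ρ' 0 X v) ?_
  rw [vecMap_zero]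

lemma rm_brick [Nonempty ι] (hb : ∀ X : Matrix ι ι (Lz K), (∀ a, X * ρ a = ρ a * X) → X ≠ 0 →
    ∃ Y, X * Y = 1) : IsBrick (AL K A) (RM ρ) := by
  have hnt : Nontrivial (RM ρ) := inferInstanceAs (Nontrivial (ι → Lz K))
  refine ⟨hnt, fun f hf => ?_⟩
  obtain ⟨X, hX1, hX2⟩ := rm_matrix ρ ρ f
  have hX0 : X ≠ 0 := by
    intro h0
    apply hf
    apply LinearMap.ext
    intro v
    apply (rmE ρ).injective
    rw [hX1, h0, Matrix.zero_mulVec]
    rfl
  obtain ⟨Y, hY⟩ := hb X hX2 hX0
  have hY' : Y * X = 1 := mul_eq_one_comm.mp hY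
  constructor
  · intro v w hvw
    have h1 := congrArg (rmE ρ) hvw
    rw [hX1, hX1] at h1
    have h2 := congrArg Y.mulVec h1
    rw [Matrix.mulVec_mulVec, Matrix.mulVec_mulVec, hY', Matrix.one_mulVec,
      Matrix.one_mulVec] at h2
    exact (rmE ρ).injective h2
  · intro w
    refine ⟨(rmE ρ).symm (Y.mulVec (rmE ρ w)), ?_⟩
    apply (rmE ρ).injective
    rw [hX1, AddEquiv.apply_symm_apply, Matrix.mulVec_mulVec, hY, Matrix.one_mulVec]

lemma rm_finite [FiniteDimensional K A] : Module.Finite (AL K A) (RM ρ) := by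
  classical
  refine ⟨⟨Finset.univ.image (fun j => (rmE ρ).symm (Pi.single j (1 : Lz K))), ?_⟩⟩
  rw [eq_top_iff]
  intro v _
  have h2 : v = ∑ j, ((rmE ρ v j) ⊗ₜ[K] (1 : A) : AL K A) •
      (rmE ρ).symm (Pi.single j (1 : Lz K)) := by
    apply (rmE ρ).injective
    rw [map_sum]
    funext i
    rw [Finset.sum_apply]
    simp only [rmE_tmul, map_one, Matrix.one_mulVec, AddEquiv.apply_symm_apply, Pi.smul_apply,
      Pi.single_apply, smul_eq_mul]
    simp
  rw [h2]
  refine Submodule.sum_mem _ (fun j _ => Submodule.smul_mem _ _ (Submodule.subset_span ?_))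
  simp

end rm

section up

variable {K A : Type} [Field K] [Ring A] [Algebra K A]
  {ι κ : Type} [Fintype ι] [DecidableEq ι]
  [Fintype κ] [DecidableEq κ] (ν : A →ₐ[K] Matrix ι ι K) (ν' : A →ₐ[K] Matrix κ κ K)

/-- isomorphic modules have isomorphic base changes -/
lemma up_equiv (e : VM ν ≃ₗ[A] VM ν') : Nonempty (RM (up ν) ≃ₗ[AL K A] RM (up ν')) := by
  obtain ⟨X, hX1, hX2⟩ := vm_matrix ν ν' e.toLinearMap
  obtain ⟨Y, hY1, hY2⟩ := vm_matrix ν' ν e.symm.toLinearMap
  have hXY : X * Y = 1 := by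
    ext i j
    have h1 := hX1 (e.symm ((vmE ν').symm (Pi.single j (1 : K))))
    have h2 := hY1 ((vmE ν').symm (Pi.single j (1 : K)))
    simp only [LinearEquiv.coe_coe] at h1 h2
    rw [h2, LinearEquiv.apply_symm_apply, AddEquiv.apply_symm_apply, Matrix.mulVec_mulVec,
      Matrix.mulVec_single_one] at h1
    have h3 := congrFun h1 i
    rw [Pi.single_apply] at h3
    rw [Matrix.one_apply]
    exact h3.symm
  have hYX : Y * X = 1 := by
    ext i j
    have h1 := hY1 (e ((vmE ν).symm (Pi.single j (1 : K))))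
    have h2 := hX1 ((vmE ν).symm (Pi.single j (1 : K)))
    simp only [LinearEquiv.coe_coe] at h1 h2
    rw [h2, LinearEquiv.symm_apply_apply, AddEquiv.apply_symm_apply, Matrix.mulVec_mulVec,
      Matrix.mulVec_single_one] at h1
    have h3 := congrFun h1 i
    rw [Pi.single_apply] at h3
    rw [Matrix.one_apply]
    exact h3.symm
  have hup : ∀ {α β γ : Type} [Fintype β] (P : Matrix α β K) (Q : Matrix β γ K),
      (P * Q).map (algebraMap K (Lz K)) =
        P.map (algebraMap K (Lz K)) * Q.map (algebraMap K (Lz K)) :=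
    fun P Q => Matrix.map_mul
  have hX3 : ∀ a, X.map (algebraMap K (Lz K)) * up ν a = up ν' a * X.map (algebraMap K (Lz K)) := by
    intro a
    have h1 := hup X (ν a)
    have h2 := hup (ν' a) X
    rw [hX2] at h1
    exact h1.symm.trans h2
  have hY3 : ∀ a, Y.map (algebraMap K (Lz K)) * up ν' a = up ν a * Y.map (algebraMap K (Lz K)) := by
    intro a
    have h1 := hup Y (ν' a)
    have h2 := hup (ν a) Y
    rw [hY2] at h1
    exact h1.symm.trans h2
  have hXYL : X.map (algebraMap K (Lz K)) * Y.map (algebraMap K (Lz K)) = 1 := by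
    rw [← hup, hXY]
    ext i j
    rw [Matrix.map_apply, Matrix.one_apply, Matrix.one_apply]
    split_ifs <;> simp
  have hYXL : Y.map (algebraMap K (Lz K)) * X.map (algebraMap K (Lz K)) = 1 := by
    rw [← hup, hYX]
    ext i j
    rw [Matrix.map_apply, Matrix.one_apply, Matrix.one_apply]
    split_ifs <;> simp
  refine ⟨LinearEquiv.ofLinearMap (rmMap _ _ _ hX3) (rmMap _ _ _ hY3) ?_ ?_⟩
  · apply LinearMap.ext
    intro v
    apply (rmE _).injective
    rw [LinearMap.comp_apply, rmMap_apply, rmMap_apply, Matrix.mulVec_mulVec, hXYL,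
      Matrix.one_mulVec]
    rfl
  · apply LinearMap.ext
    intro v
    apply (rmE _).injective
    rw [LinearMap.comp_apply, rmMap_apply, rmMap_apply, Matrix.mulVec_mulVec, hYXL,
      Matrix.one_mulVec]
    rfl

/-- bricks with isomorphic base changes are isomorphic -/
lemma equiv_of_up (hν : IsBrick A (VM ν)) (hν' : IsBrick A (VM ν'))
    (e : RM (up ν) ≃ₗ[AL K A] RM (up ν')) : Nonempty (VM ν ≃ₗ[A] VM ν') := by
  obtain ⟨X, hX1, hX2⟩ := rm_matrix _ _ e.toLinearMap
  obtain ⟨Y, hY1, hY2⟩ := rm_matrix _ _ e.symm.toLinearMap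
  have hXY : X * Y = 1 := by
    ext i j
    have h1 := hX1 (e.symm ((rmE (up ν')).symm (Pi.single j (1 : Lz K))))
    have h2 := hY1 ((rmE (up ν')).symm (Pi.single j (1 : Lz K)))
    simp only [LinearEquiv.coe_coe] at h1 h2
    rw [h2, LinearEquiv.apply_symm_apply, AddEquiv.apply_symm_apply, Matrix.mulVec_mulVec,
      Matrix.mulVec_single_one] at h1
    have h3 := congrFun h1 i
    rw [Pi.single_apply] at h3
    rw [Matrix.one_apply]
    exact h3.symm
  obtain ⟨τ, s, c, Z, hXZ, hZ⟩ := expand (A := A) X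
  obtain ⟨τ', s', c', W, hYW, hW⟩ := expand (A := A) Y
  have hne : Nonempty κ := by
    by_contra hcon
    rw [not_nonempty_iff] at hcon
    obtain ⟨x, y, hxy⟩ := hν'.1
    apply hxy
    funext j
    exact hcon.elim j
  have hex : ∃ α β, Z α * W β ≠ 0 := by
    by_contra hcon
    push Not at hcon
    have h0 : X * Y = 0 := by
      rw [hXZ, hYW, Matrix.sum_mul]
      refine Finset.sum_eq_zero (fun α _ => ?_)
      rw [Matrix.mul_sum]
      refine Finset.sum_eq_zero (fun β _ => ?_)
      rw [Matrix.smul_mul, Matrix.mul_smul]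
      have h2 : (Z α).map (algebraMap K (Lz K)) * (W β).map (algebraMap K (Lz K)) =
          (Z α * W β).map (algebraMap K (Lz K)) := Matrix.map_mul.symm
      rw [h2, hcon α β]
      ext i j
      simp
    rw [hXY] at h0
    exact one_ne_zero h0
  obtain ⟨α, β, hαβ⟩ := hex
  let f := vmMap ν ν' (Z α) (hZ ν ν' hX2 α)
  let g := vmMap ν' ν (W β) (hW ν' ν hY2 β)
  have hfg : f ∘ₗ g ≠ 0 := by
    intro h0
    apply hαβ
    ext i j
    have h3 := LinearMap.congr_fun h0 ((vmE ν').symm (Pi.single j (1 : K)))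
    have h4 := congrArg (vmE ν') h3
    rw [LinearMap.comp_apply, vmMap_apply, vmMap_apply, AddEquiv.apply_symm_apply,
      Matrix.mulVec_mulVec, Matrix.mulVec_single_one] at h4
    exact congrFun h4 i
  have h5 := hν'.2 _ hfg
  have hgf : g ∘ₗ f ≠ 0 := by
    intro h0
    have h6 : Function.Injective ((f ∘ₗ g) ∘ (f ∘ₗ g)) := h5.1.comp h5.1
    have : Nontrivial (VM ν') := hν'.1
    obtain ⟨x, hx⟩ := exists_ne (0 : VM ν')
    apply hx
    apply h6
    have h7 : ∀ y, g (f y) = 0 := fun y => LinearMap.congr_fun h0 y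
    simp only [Function.comp_apply, LinearMap.comp_apply]
    rw [h7, h7]
  have h8 := hν.2 _ hgf
  have hf : Function.Bijective f := by
    constructor
    · have h9 : Function.Injective (g ∘ f) := h8.1
      exact h9.of_comp
    · have h9 : Function.Surjective (f ∘ g) := h5.2
      exact h9.of_comp
  exact ⟨LinearEquiv.ofBijective f hf⟩

/-- extension of scalars of maps -/
lemma exists_ext (T : Type) [AddCommGroup T] [Module (AL K A) T] (f : VM ν →+ T)
    (hf : ∀ (a : A) (v : VM ν), f (a • v) = ((1 : Lz K) ⊗ₜ[K] a : AL K A) • f v) :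
    ∃ F : RM (up ν) →ₗ[AL K A] T, ∀ v : VM ν,
      F ((rmE (up ν)).symm (fun i => algebraMap K (Lz K) (vmE ν v i))) = f v := by
  let _ : Module (Lz K) T := Module.compHom T (algebraMap (Lz K) (AL K A))
  have hsm : ∀ (y : Lz K) (t : T), y • t = (y ⊗ₜ[K] (1 : A) : AL K A) • t := fun y t => rfl
  let F₀ : (ι → Lz K) →ₗ[Lz K] T :=
    (Pi.basisFun (Lz K) ι).constr (Lz K) (fun j => f ((vmE ν).symm (Pi.single j (1 : K))))
  have hF₀ : ∀ v, F₀ v = ∑ j, v j • f ((vmE ν).symm (Pi.single j (1 : K))) := by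
    intro v
    rw [Module.Basis.constr_apply_fintype]
    refine Finset.sum_congr rfl (fun j _ => ?_)
    rw [Pi.basisFun_equivFun]
    rfl
  -- `K`-scalars
  have hK : ∀ (k : K) (v : VM ν), f ((vmE ν).symm (k • vmE ν v)) = (algebraMap K (Lz K) k) • f v := by
    intro k v
    have h1 : (vmE ν).symm (k • vmE ν v) = (algebraMap K A k) • v := by
      apply (vmE ν).injective
      rw [AddEquiv.apply_symm_apply, vmE_smul, AlgHom.commutes, Algebra.algebraMap_eq_smul_one,
        Matrix.smul_mulVec, Matrix.one_mulVec]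
    rw [h1, hf, hsm]
    congr 1
    rw [Algebra.algebraMap_eq_smul_one, Algebra.algebraMap_eq_smul_one, TensorProduct.tmul_smul,
      TensorProduct.smul_tmul']
  have hfv : ∀ v : VM ν, f v = ∑ j, (algebraMap K (Lz K) (vmE ν v j)) •
      f ((vmE ν).symm (Pi.single j (1 : K))) := by
    intro v
    have h1 : v = ∑ j, (vmE ν).symm ((vmE ν v j) • vmE ν ((vmE ν).symm (Pi.single j (1 : K)))) := by
      apply (vmE ν).injective
      rw [map_sum]
      funext i
      rw [Finset.sum_apply]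
      simp only [AddEquiv.apply_symm_apply, Pi.smul_apply, Pi.single_apply, smul_eq_mul]
      simp
    conv_lhs => rw [h1]
    rw [map_sum]
    exact Finset.sum_congr rfl (fun j _ => hK _ _)
  have hcomm : ∀ (a : A) (v : ι → Lz K), F₀ ((up ν a).mulVec v) =
      ((1 : Lz K) ⊗ₜ[K] a : AL K A) • F₀ v := by
    intro a v
    have hswap : ∀ (y : Lz K) (t : T), ((1 : Lz K) ⊗ₜ[K] a : AL K A) • (y • t) =
        y • (((1 : Lz K) ⊗ₜ[K] a : AL K A) • t) := by
      intro y t
      rw [hsm, hsm, smul_smul, smul_smul, Algebra.TensorProduct.tmul_mul_tmul,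
        Algebra.TensorProduct.tmul_mul_tmul, one_mul, mul_one, one_mul, mul_one]
    rw [hF₀, hF₀, Finset.smul_sum]
    have h2 : ∀ l, ((1 : Lz K) ⊗ₜ[K] a : AL K A) • (v l • f ((vmE ν).symm (Pi.single l (1 : K)))) =
        ∑ j, (v l * algebraMap K (Lz K) (ν a j l)) • f ((vmE ν).symm (Pi.single j (1 : K))) := by
      intro l
      rw [hswap, ← hf, hfv, Finset.smul_sum]
      refine Finset.sum_congr rfl (fun j _ => ?_)
      rw [vmE_smul, AddEquiv.apply_symm_apply, Matrix.mulVec_single_one, smul_smul]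
      rfl
    simp only [h2]
    rw [Finset.sum_comm]
    refine Finset.sum_congr rfl (fun j _ => ?_)
    rw [← Finset.sum_smul, Matrix.mulVec, dotProduct]
    congr 1
    refine Finset.sum_congr rfl (fun l _ => ?_)
    rw [up_apply, mul_comm]
  refine ⟨{ toFun := fun v => F₀ (rmE (up ν) v), map_add' := fun v w => by rw [map_add, map_add],
            map_smul' := ?_ }, ?_⟩
  · intro s v
    rw [RingHom.id_apply]
    induction s using TensorProduct.induction_on with
    | zero =>
      have e0 : ((0 : Lz K) ⊗ₜ[K] (0 : A) : AL K A) = 0 := TensorProduct.zero_tmul _ _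
      have e1 : (0 : AL K A) • v = 0 := rm_zero_smul (up ν) v
      have e2 : ((0 : Lz K) ⊗ₜ[K] (0 : A) : AL K A) • F₀ (rmE (up ν) v) = 0 := by
        have e4 : ((0 : Lz K) ⊗ₜ[K] (0 : A) : AL K A) =
            ((0 : Lz K) ⊗ₜ[K] (1 : A) : AL K A) := by
          rw [TensorProduct.zero_tmul, TensorProduct.zero_tmul]
        rw [e4, ← hsm, zero_smul]
      refine (congrArg F₀ (congrArg (rmE (up ν)) e1)).trans ?_
      rw [map_zero, map_zero]
      exact (e0 ▸ e2).symm
    | add x y hx hy => rw [add_smul, map_add, map_add, hx, hy, add_smul]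
    | tmul y a =>
      rw [rmE_tmul, map_smul, hcomm, hsm, smul_smul, Algebra.TensorProduct.tmul_mul_tmul, mul_one,
        one_mul]
  · intro v
    refine Eq.trans ?_ (hfv v).symm
    exact hF₀ (fun i => algebraMap K (Lz K) (vmE ν v i))

end up

end Pool.Agent.Helper793Bricks
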