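import Mathlib
import Pool.Agent.Helper793_Bricks.BaseMod
import Pool.Agent.Helper793_Bricks.Complex

set_option autoImplicit false

namespace Pool.Agent.Helper793Bricks

/-! Matrix form of `Hom(F, G[1]) = 0` with coefficients in a `K`-algebra. -/

section

variable {K A : Type} [Field K] [Ring A] [Algebra K A]
  {ι₁ ι₀ κ₁ κ₀ : Type} [Fintype ι₁] [DecidableEq ι₁] [Fintype ι₀] [DecidableEq ι₀]
  [Fintype κ₁] [DecidableEq κ₁] [Fintype κ₀] [DecidableEq κ₀]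

/-- intertwiners with coefficients in a `K`-algebra `B` -/
def Iw {B : Type} [Ring B] [Algebra K B] (ν : A →ₐ[K] Matrix ι₁ ι₁ K)
    (μ : A →ₐ[K] Matrix κ₀ κ₀ K) (X : Matrix κ₀ ι₁ B) : Prop :=
  ∀ a i j, ∑ l, ν a l j • X i l = ∑ l, μ a i l • X l j

omit [DecidableEq ι₁] [DecidableEq κ₀] [Fintype κ₀] [Fintype ι₁] in
lemma smul_apply_map {B C : Type} [Ring B] [Algebra K B] [Ring C] [Algebra K C]
    (f : B →ₗ[K] C) (X : Matrix κ₀ ι₁ B) (c : K) (i : κ₀) (j : ι₁) :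
    c • X.map f i j = f (c • X i j) := by
  rw [Matrix.map_apply, map_smul]

lemma Iw.map {B C : Type} [Ring B] [Algebra K B] [Ring C] [Algebra K C]
    {ν : A →ₐ[K] Matrix ι₁ ι₁ K} {μ : A →ₐ[K] Matrix κ₀ κ₀ K} {X : Matrix κ₀ ι₁ B}
    (h : Iw ν μ X) (f : B →ₗ[K] C) : Iw ν μ (X.map f) := by
  intro a i j
  have h1 := congrArg f (h a i j)
  rw [map_sum, map_sum] at h1
  simp only [smul_apply_map]
  exact h1

lemma Iw.of_injective {B C : Type} [Ring B] [Algebra K B] [Ring C] [Algebra K C]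
    {ν : A →ₐ[K] Matrix ι₁ ι₁ K} {μ : A →ₐ[K] Matrix κ₀ κ₀ K} {X : Matrix κ₀ ι₁ B}
    (f : B →ₗ[K] C) (hf : Function.Injective f) (h : Iw ν μ (X.map f)) : Iw ν μ X := by
  intro a i j
  apply hf
  rw [map_sum, map_sum]
  simp only [← smul_apply_map]
  exact h a i j

lemma Iw.add {B : Type} [Ring B] [Algebra K B]
    {ν : A →ₐ[K] Matrix ι₁ ι₁ K} {μ : A →ₐ[K] Matrix κ₀ κ₀ K} {X Y : Matrix κ₀ ι₁ B}
    (hX : Iw ν μ X) (hY : Iw ν μ Y) : Iw ν μ (X + Y) := by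
  intro a i j
  simp only [Matrix.add_apply, smul_add, Finset.sum_add_distrib]
  rw [hX a i j, hY a i j]

lemma Iw.zero {B : Type} [Ring B] [Algebra K B]
    {ν : A →ₐ[K] Matrix ι₁ ι₁ K} {μ : A →ₐ[K] Matrix κ₀ κ₀ K} :
    Iw ν μ (0 : Matrix κ₀ ι₁ B) := by
  intro a i j
  simp

lemma Iw.sum {B : Type} [Ring B] [Algebra K B] {τ : Type} (s : Finset τ)
    {ν : A →ₐ[K] Matrix ι₁ ι₁ K} {μ : A →ₐ[K] Matrix κ₀ κ₀ K} (X : τ → Matrix κ₀ ι₁ B)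
    (hX : ∀ t ∈ s, Iw ν μ (X t)) : Iw ν μ (∑ t ∈ s, X t) := by
  classical
  induction s using Finset.induction_on with
  | empty => rw [Finset.sum_empty]; exact Iw.zero
  | insert t s ht ih =>
    rw [Finset.sum_insert ht]
    exact (hX t (Finset.mem_insert_self t s)).add
      (ih (fun u hu => hX u (Finset.mem_insert_of_mem hu)))

omit [DecidableEq ι₀] in
lemma Iw.mul {B : Type} [Ring B] [Algebra K B]
    {ν : A →ₐ[K] Matrix ι₁ ι₁ K} {ν' : A →ₐ[K] Matrix κ₁ κ₁ K} {μ : A →ₐ[K] Matrix κ₀ κ₀ K}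
    {X : Matrix κ₀ κ₁ B} {Y : Matrix κ₁ ι₁ B}
    (hX : Iw ν' μ X) (hY : Iw ν ν' Y) : Iw ν μ (X * Y) := by
  intro a i j
  simp only [Matrix.mul_apply, Finset.smul_sum]
  have e1 : ∀ (c : K) (x y : B), c • (x * y) = x * (c • y) := fun c x y => (mul_smul_comm c x y).symm
  have e2 : ∀ (c : K) (x y : B), c • (x * y) = (c • x) * y := fun c x y => (smul_mul_assoc c x y).symm
  calc ∑ l, ∑ k, ν a l j • (X i k * Y k l)
      = ∑ l, ∑ k, X i k * (ν a l j • Y k l) :=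
        Finset.sum_congr rfl (fun l _ => Finset.sum_congr rfl (fun k _ => e1 _ _ _))
    _ = ∑ k, X i k * ∑ l, ν a l j • Y k l := by
        rw [Finset.sum_comm]
        exact Finset.sum_congr rfl (fun k _ => (Finset.mul_sum _ _ _).symm)
    _ = ∑ k, X i k * ∑ l, ν' a k l • Y l j :=
        Finset.sum_congr rfl (fun k _ => by rw [hY a k j])
    _ = ∑ k, ∑ l, (ν' a k l • X i k) * Y l j := by
        refine Finset.sum_congr rfl (fun k _ => ?_)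
        rw [Finset.mul_sum]
        exact Finset.sum_congr rfl (fun l _ => by rw [← e1, e2])
    _ = ∑ l, (∑ k, ν' a k l • X i k) * Y l j := by
        rw [Finset.sum_comm]
        exact Finset.sum_congr rfl (fun l _ => (Finset.sum_mul _ _ _).symm)
    _ = ∑ l, (∑ k, μ a i k • X k l) * Y l j :=
        Finset.sum_congr rfl (fun l _ => by rw [hX a i l])
    _ = ∑ l, ∑ k, μ a i k • (X k l * Y l j) := by
        refine Finset.sum_congr rfl (fun l _ => ?_)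
        rw [Finset.sum_mul]
        exact Finset.sum_congr rfl (fun k _ => (e2 _ _ _).symm)
    _ = ∑ k, ∑ l, μ a i k • (X k l * Y l j) := Finset.sum_comm

/-- `Hom(F, G[1]) = 0` with coefficients in `B` -/
def M2 {B : Type} [Ring B] [Algebra K B] (ν₁ : A →ₐ[K] Matrix ι₁ ι₁ K)
    (ν₀ : A →ₐ[K] Matrix ι₀ ι₀ K) (μ₁ : A →ₐ[K] Matrix κ₁ κ₁ K) (μ₀ : A →ₐ[K] Matrix κ₀ κ₀ K)
    (F : Matrix ι₀ ι₁ B) (G : Matrix κ₀ κ₁ B) : Prop :=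
  ∀ X : Matrix κ₀ ι₁ B, Iw ν₁ μ₀ X → ∃ (α : Matrix κ₀ ι₀ B) (β : Matrix κ₁ ι₁ B),
    Iw ν₀ μ₀ α ∧ Iw ν₁ μ₁ β ∧ X = α * F + G * β

variable {ν₁ : A →ₐ[K] Matrix ι₁ ι₁ K} {ν₀ : A →ₐ[K] Matrix ι₀ ι₀ K}
  {μ₁ : A →ₐ[K] Matrix κ₁ κ₁ K} {μ₀ : A →ₐ[K] Matrix κ₀ κ₀ K}

/-- transport along an isomorphism of coefficient rings -/
lemma M2.equiv {B C : Type} [Ring B] [Algebra K B] [Ring C] [Algebra K C] (e : B ≃ₐ[K] C)
    {F : Matrix ι₀ ι₁ B} {G : Matrix κ₀ κ₁ B} (h : M2 ν₁ ν₀ μ₁ μ₀ F G) :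
    M2 ν₁ ν₀ μ₁ μ₀ (F.map e) (G.map e) := by
  intro X hX
  obtain ⟨α, β, hα, hβ, h1⟩ := h (X.map e.symm.toLinearMap) (hX.map _)
  refine ⟨α.map e.toLinearMap, β.map e.toLinearMap, hα.map _, hβ.map _, ?_⟩
  ext i j
  have h2 := congrArg e (congrFun (congrFun h1 i) j)
  rw [Matrix.map_apply] at h2
  rw [Matrix.add_apply, Matrix.mul_apply, Matrix.mul_apply, map_add, map_sum, map_sum] at h2
  rw [Matrix.add_apply, Matrix.mul_apply, Matrix.mul_apply]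
  simp only [map_mul] at h2
  refine Eq.trans ?_ h2
  exact (e.apply_symm_apply _).symm

end

section field

variable {K A : Type} [Field K] [Ring A] [Algebra K A]
  {ι₁ ι₀ κ₁ κ₀ : Type} [Fintype ι₁] [DecidableEq ι₁] [Fintype ι₀] [DecidableEq ι₀]
  [Fintype κ₁] [DecidableEq κ₁] [Fintype κ₀] [DecidableEq κ₀]
  {ν₁ : A →ₐ[K] Matrix ι₁ ι₁ K} {ν₀ : A →ₐ[K] Matrix ι₀ ι₀ K}
  {μ₁ : A →ₐ[K] Matrix κ₁ κ₁ K} {μ₀ : A →ₐ[K] Matrix κ₀ κ₀ K}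
  {Ω : Type} [Field Ω] [Algebra K Ω]

lemma Iw.smulΩ {ν : A →ₐ[K] Matrix ι₁ ι₁ K} {μ : A →ₐ[K] Matrix κ₀ κ₀ K}
    {X : Matrix κ₀ ι₁ Ω} (hX : Iw ν μ X) (c : Ω) : Iw ν μ (c • X) := by
  intro a i j
  simp only [Matrix.smul_apply, smul_comm _ c]
  rw [← Finset.smul_sum, ← Finset.smul_sum, hX a i j]

/-- the space of intertwiners -/
def IwS (Ω : Type) [Field Ω] [Algebra K Ω] (ν : A →ₐ[K] Matrix ι₁ ι₁ K)
    (μ : A →ₐ[K] Matrix κ₀ κ₀ K) : Submodule Ω (Matrix κ₀ ι₁ Ω) where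
  carrier := {X | Iw ν μ X}
  zero_mem' := Iw.zero
  add_mem' := fun h1 h2 => h1.add h2
  smul_mem' := fun c _ h => h.smulΩ c

lemma mem_IwS {ν : A →ₐ[K] Matrix ι₁ ι₁ K} {μ : A →ₐ[K] Matrix κ₀ κ₀ K} {X : Matrix κ₀ ι₁ Ω} :
    X ∈ IwS Ω ν μ ↔ Iw ν μ X := Iff.rfl

/-- scaling -/
lemma M2.smul {F : Matrix ι₀ ι₁ Ω} {G : Matrix κ₀ κ₁ Ω} (h : M2 ν₁ ν₀ μ₁ μ₀ F G) {c c' : Ω}
    (hc : c ≠ 0) (hc' : c' ≠ 0) : M2 ν₁ ν₀ μ₁ μ₀ (c • F) (c' • G) := by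
  intro X hX
  obtain ⟨α, β, hα, hβ, rfl⟩ := h X hX
  refine ⟨c⁻¹ • α, c'⁻¹ • β, hα.smulΩ _, hβ.smulΩ _, ?_⟩
  rw [Matrix.smul_mul, Matrix.mul_smul, smul_smul, inv_mul_cancel₀ hc, one_smul,
    Matrix.smul_mul, Matrix.mul_smul, smul_smul, mul_inv_cancel₀ hc', one_smul]

/-- expansion of an intertwiner over a basis -/
lemma iw_expand (X : Matrix κ₀ ι₁ Ω) (hX : Iw ν₁ μ₀ X) :
    X ∈ Submodule.span Ω {Y : Matrix κ₀ ι₁ Ω | ∃ Z : Matrix κ₀ ι₁ K, Iw ν₁ μ₀ Z ∧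
      Y = Z.map (algebraMap K Ω)} := by
  classical
  let b := Module.Basis.ofVectorSpace K Ω
  let s : Finset _ := Finset.univ.biUnion (fun u : κ₀ × ι₁ => (b.repr (X u.1 u.2)).support)
  have h1 : X = ∑ α ∈ s, b α • (X.map (b.coord α)).map (algebraMap K Ω) := by
    ext i j
    rw [Matrix.sum_apply]
    have h1 : X i j = ∑ α ∈ s, b.repr (X i j) α • b α := by
      conv_lhs => rw [← b.linearCombination_repr (X i j), Finsupp.linearCombination_apply]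
      refine Finsupp.sum_of_support_subset _ ?_ _ (fun _ _ => zero_smul _ _)
      exact Finset.subset_biUnion_of_mem (fun u : κ₀ × ι₁ => (b.repr (X u.1 u.2)).support)
        (Finset.mem_univ (i, j))
    rw [h1]
    refine Finset.sum_congr rfl (fun α _ => ?_)
    rw [Matrix.smul_apply, Matrix.map_apply, Matrix.map_apply, Algebra.smul_def, smul_eq_mul,
      mul_comm]
    rfl
  rw [h1]
  exact Submodule.sum_mem _ (fun α _ => Submodule.smul_mem _ _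
    (Submodule.subset_span ⟨_, hX.map (b.coord α), rfl⟩))

/-- the null-homotopic intertwiners -/
def nullM (ν₁ : A →ₐ[K] Matrix ι₁ ι₁ K)
    (ν₀ : A →ₐ[K] Matrix ι₀ ι₀ K) (μ₁ : A →ₐ[K] Matrix κ₁ κ₁ K) (μ₀ : A →ₐ[K] Matrix κ₀ κ₀ K)
    (F : Matrix ι₀ ι₁ Ω) (G : Matrix κ₀ κ₁ Ω) : Submodule Ω (Matrix κ₀ ι₁ Ω) where
  carrier := {X | ∃ (α : Matrix κ₀ ι₀ Ω) (β : Matrix κ₁ ι₁ Ω),
    Iw ν₀ μ₀ α ∧ Iw ν₁ μ₁ β ∧ X = α * F + G * β}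
  zero_mem' := ⟨0, 0, Iw.zero, Iw.zero, by rw [Matrix.zero_mul, Matrix.mul_zero, add_zero]⟩
  add_mem' := by
    rintro _ _ ⟨α, β, hα, hβ, rfl⟩ ⟨α', β', hα', hβ', rfl⟩
    refine ⟨α + α', β + β', hα.add hα', hβ.add hβ', ?_⟩
    rw [Matrix.add_mul, Matrix.mul_add]
    abel
  smul_mem' := by
    rintro c _ ⟨α, β, hα, hβ, rfl⟩
    refine ⟨c • α, c • β, hα.smulΩ c, hβ.smulΩ c, ?_⟩
    rw [Matrix.smul_mul, Matrix.mul_smul, smul_add]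

/-- it is enough to test rational intertwiners -/
lemma m2_of_rational {F : Matrix ι₀ ι₁ Ω} {G : Matrix κ₀ κ₁ Ω}
    (h : ∀ Z : Matrix κ₀ ι₁ K, Iw ν₁ μ₀ Z →
      Z.map (algebraMap K Ω) ∈ nullM ν₁ ν₀ μ₁ μ₀ F G) : M2 ν₁ ν₀ μ₁ μ₀ F G := by
  intro X hX
  have h1 := iw_expand X hX
  have h2 : Submodule.span Ω {Y : Matrix κ₀ ι₁ Ω | ∃ Z : Matrix κ₀ ι₁ K, Iw ν₁ μ₀ Z ∧
      Y = Z.map (algebraMap K Ω)} ≤ nullM ν₁ ν₀ μ₁ μ₀ F G := by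
    rw [Submodule.span_le]
    rintro _ ⟨Z, hZ, rfl⟩
    exact h Z hZ
  exact h2 h1

end field

end Pool.Agent.Helper793Bricks
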