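import Mathlib
import Pool.Agent.Helper793_Bricks.Mat2

set_option autoImplicit false

namespace Pool.Agent.Helper793Bricks

section

variable {K A : Type} [Field K] [Ring A] [Algebra K A]
  {ι₁ ι₀ κ₁ κ₀ : Type} [Fintype ι₁] [DecidableEq ι₁] [Fintype ι₀] [DecidableEq ι₀]
  [Fintype κ₁] [DecidableEq κ₁] [Fintype κ₀] [DecidableEq κ₀]
  {ν₁ : A →ₐ[K] Matrix ι₁ ι₁ K} {ν₀ : A →ₐ[K] Matrix ι₀ ι₀ K}
  {μ₁ : A →ₐ[K] Matrix κ₁ κ₁ K} {μ₀ : A →ₐ[K] Matrix κ₀ κ₀ K}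

/-- **Specialisation.** -/
theorem m2_spec (F : Matrix ι₀ ι₁ (Rz K)) (G : Matrix κ₀ κ₁ (Rz K))
    (h : M2 ν₁ ν₀ μ₁ μ₀ (F.map (algebraMap (Rz K) (Lz K)))
      (G.map (algebraMap (Rz K) (Lz K)))) :
    ∃ D : Rz K, D ≠ 0 ∧ ∀ (E : Type) [Field E] [Algebra K E] (x : Rz K →ₐ[K] E), x D ≠ 0 →
      M2 ν₁ ν₀ μ₁ μ₀ (F.map x) (G.map x) := by
  classical
  let H := IwS K ν₁ μ₀
  let z := Module.finBasis K H
  have hz : ∀ γ, ∃ (α : Matrix κ₀ ι₀ (Lz K)) (β : Matrix κ₁ ι₁ (Lz K)), Iw ν₀ μ₀ α ∧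
      Iw ν₁ μ₁ β ∧ (z γ).1.map (Algebra.linearMap K (Lz K)) =
        α * F.map (algebraMap (Rz K) (Lz K)) + G.map (algebraMap (Rz K) (Lz K)) * β := by
    intro γ
    exact h _ (((z γ).2 : Iw ν₁ μ₀ (z γ).1).map (Algebra.linearMap K (Lz K)))
  choose α β hα hβ hαβ using hz
  let f : (Fin (Module.finrank K H) × κ₀ × ι₀) ⊕ (Fin (Module.finrank K H) × κ₁ × ι₁) → Lz K :=
    Sum.elim (fun u => α u.1 u.2.1 u.2.2) (fun u => β u.1 u.2.1 u.2.2)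
  obtain ⟨b, hb⟩ := IsLocalization.exist_integer_multiples_of_finite
    (nonZeroDivisors (Rz K)) f
  have hb0 : (b : Rz K) ≠ 0 := nonZeroDivisors.ne_zero b.2
  have h1 : ∀ γ (i : κ₀) (j : ι₀), ∃ y : Rz K,
      algebraMap (Rz K) (Lz K) y = algebraMap (Rz K) (Lz K) b * α γ i j := by
    intro γ i j
    obtain ⟨y, hy⟩ := hb (Sum.inl (γ, i, j))
    exact ⟨y, hy.trans (Algebra.smul_def _ _)⟩
  have h2 : ∀ γ (i : κ₁) (j : ι₁), ∃ y : Rz K,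
      algebraMap (Rz K) (Lz K) y = algebraMap (Rz K) (Lz K) b * β γ i j := by
    intro γ i j
    obtain ⟨y, hy⟩ := hb (Sum.inr (γ, i, j))
    exact ⟨y, hy.trans (Algebra.smul_def _ _)⟩
  choose α' hα' using h1
  choose β' hβ' using h2
  have hinj : Function.Injective (alg K).toLinearMap := alg_injective
  have hIα : ∀ γ, Iw ν₀ μ₀ (Matrix.of (α' γ)) := by
    intro γ
    apply Iw.of_injective (alg K).toLinearMap hinj
    have h3 : (Matrix.of (α' γ)).map (alg K).toLinearMap =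
        (algebraMap (Rz K) (Lz K) b) • α γ := by
      ext i j
      exact hα' γ i j
    rw [h3]
    exact (hα γ).smulΩ _
  have hIβ : ∀ γ, Iw ν₁ μ₁ (Matrix.of (β' γ)) := by
    intro γ
    apply Iw.of_injective (alg K).toLinearMap hinj
    have h3 : (Matrix.of (β' γ)).map (alg K).toLinearMap =
        (algebraMap (Rz K) (Lz K) b) • β γ := by
      ext i j
      exact hβ' γ i j
    rw [h3]
    exact (hβ γ).smulΩ _
  -- the equation over polynomials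
  have heq : ∀ γ (i : κ₀) (j : ι₁), (b : Rz K) * algebraMap K (Rz K) ((z γ).1 i j) =
      ∑ l, α' γ i l * F l j + ∑ l, G i l * β' γ l j := by
    intro γ i j
    apply IsFractionRing.injective (Rz K) (Lz K)
    have h3 := congrFun (congrFun (hαβ γ) i) j
    rw [Matrix.add_apply, Matrix.mul_apply, Matrix.mul_apply, Matrix.map_apply] at h3
    simp only [Matrix.map_apply] at h3
    rw [map_mul, map_add, map_sum, map_sum]
    simp only [map_mul, hα', hβ']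
    have h4 : algebraMap (Rz K) (Lz K) (algebraMap K (Rz K) ((z γ).1 i j)) =
        Algebra.linearMap K (Lz K) ((z γ).1 i j) := by
      rw [Algebra.linearMap_apply, ← IsScalarTower.algebraMap_apply]
    rw [h4, h3, mul_add, Finset.mul_sum, Finset.mul_sum]
    congr 1
    · exact Finset.sum_congr rfl (fun l _ => by rw [mul_assoc])
    · exact Finset.sum_congr rfl (fun l _ => by ring)
  refine ⟨b, hb0, fun E _ _ x hx => ?_⟩
  apply m2_of_rational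
  intro Z hZ
  let N : Submodule K (Matrix κ₀ ι₁ K) :=
    ((nullM ν₁ ν₀ μ₁ μ₀ (F.map x) (G.map x)).restrictScalars K).comap
      (Algebra.linearMap K E).mapMatrix
  have hzN : ∀ γ, (z γ).1 ∈ N := by
    intro γ
    change (z γ).1.map (Algebra.linearMap K E) ∈ nullM ν₁ ν₀ μ₁ μ₀ (F.map x) (G.map x)
    have h5 : (z γ).1.map (Algebra.linearMap K E) = (x b)⁻¹ •
        ((Matrix.of (α' γ)).map x.toLinearMap * F.map x +
          G.map x * (Matrix.of (β' γ)).map x.toLinearMap) := by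
      ext i j
      have h6 := congrArg x (heq γ i j)
      rw [map_mul, map_add, map_sum, map_sum, AlgHom.commutes] at h6
      simp only [map_mul] at h6
      rw [Matrix.smul_apply, Matrix.add_apply, Matrix.mul_apply, Matrix.mul_apply]
      simp only [Matrix.map_apply, Matrix.of_apply, AlgHom.toLinearMap_apply,
        Algebra.linearMap_apply]
      rw [← h6, smul_eq_mul, ← mul_assoc, inv_mul_cancel₀ hx, one_mul]
    rw [h5]
    exact Submodule.smul_mem _ _ ⟨_, _, (hIα γ).map x.toLinearMap, (hIβ γ).map x.toLinearMap, rfl⟩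
  have h7 : Z = ∑ γ, z.repr ⟨Z, hZ⟩ γ • (z γ).1 := by
    have h8 := congrArg Subtype.val (z.sum_repr ⟨Z, hZ⟩)
    rw [AddSubmonoidClass.coe_finsetSum] at h8
    exact h8.symm
  have h9 : Z ∈ N := by
    rw [h7]
    exact Submodule.sum_mem _ (fun γ _ => Submodule.smul_mem _ _ (hzN γ))
  exact h9

omit [DecidableEq ι₁] [DecidableEq ι₀] in
/-- scaling a matrix over the rational functions to a polynomial one -/
lemma exists_poly (F : Matrix ι₀ ι₁ (Lz K)) : ∃ (c : Rz K) (F' : Matrix ι₀ ι₁ (Rz K)), c ≠ 0 ∧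
    F'.map (algebraMap (Rz K) (Lz K)) = (algebraMap (Rz K) (Lz K) c) • F := by
  obtain ⟨b, hb⟩ := IsLocalization.exist_integer_multiples_of_finite
    (nonZeroDivisors (Rz K)) (fun u : ι₀ × ι₁ => F u.1 u.2)
  have h1 : ∀ (i : ι₀) (j : ι₁), ∃ y : Rz K,
      algebraMap (Rz K) (Lz K) y = algebraMap (Rz K) (Lz K) b * F i j := by
    intro i j
    obtain ⟨y, hy⟩ := hb (i, j)
    exact ⟨y, hy.trans (Algebra.smul_def _ _)⟩
  choose F' hF' using h1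
  refine ⟨b, Matrix.of F', nonZeroDivisors.ne_zero b.2, ?_⟩
  ext i j
  exact hF' i j

variable {Ω : Type} [Field Ω] [Algebra K Ω]

/-- precomposition -/
def preM (F : Matrix ι₀ ι₁ Ω) (hF : Iw ν₁ ν₀ F) (μ₀ : A →ₐ[K] Matrix κ₀ κ₀ K) :
    IwS Ω ν₀ μ₀ →ₗ[Ω] IwS Ω ν₁ μ₀ where
  toFun α := ⟨α.1 * F, (α.2 : Iw ν₀ μ₀ α.1).mul hF⟩
  map_add' _ _ := Subtype.ext (Matrix.add_mul _ _ _)
  map_smul' _ _ := Subtype.ext (Matrix.smul_mul _ _ _)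

/-- postcomposition -/
def postM (G : Matrix κ₀ κ₁ Ω) (hG : Iw μ₁ μ₀ G) (ν₁ : A →ₐ[K] Matrix ι₁ ι₁ K) :
    IwS Ω ν₁ μ₁ →ₗ[Ω] IwS Ω ν₁ μ₀ where
  toFun β := ⟨G * β.1, hG.mul (β.2 : Iw ν₁ μ₁ β.1)⟩
  map_add' _ _ := Subtype.ext (Matrix.mul_add _ _ _)
  map_smul' _ _ := Subtype.ext (Matrix.mul_smul _ _ _)

lemma m2_iff (F : Matrix ι₀ ι₁ Ω) (hF : Iw ν₁ ν₀ F) (G : Matrix κ₀ κ₁ Ω) (hG : Iw μ₁ μ₀ G) :
    M2 ν₁ ν₀ μ₁ μ₀ F G ↔
      LinearMap.range (postM G hG ν₁) ⊔ LinearMap.range (preM F hF μ₀) = ⊤ := by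
  rw [Submodule.eq_top_iff']
  constructor
  · rintro h ⟨X, hX⟩
    obtain ⟨α, β, hα, hβ, hX'⟩ := h X hX
    rw [Submodule.mem_sup]
    refine ⟨_, ⟨⟨β, hβ⟩, rfl⟩, _, ⟨⟨α, hα⟩, rfl⟩, ?_⟩
    apply Subtype.ext
    exact (add_comm (G * β) (α * F)).trans hX'.symm
  · intro h X hX
    obtain ⟨_, ⟨β, rfl⟩, _, ⟨α, rfl⟩, h1⟩ := Submodule.mem_sup.mp (h ⟨X, hX⟩)
    refine ⟨α.1, β.1, α.2, β.2, ?_⟩
    have h2 := congrArg Subtype.val h1
    rw [add_comm] at h2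
    exact h2.symm

/-- a rigid complex minimises `dim Hom(-, G[1])` -/
theorem m2_min (F F' : Matrix ι₀ ι₁ Ω) (hF : Iw ν₁ ν₀ F) (hF' : Iw ν₁ ν₀ F')
    (hrig : M2 ν₁ ν₀ ν₁ ν₀ F F) (G : Matrix κ₀ κ₁ Ω) (hG : Iw μ₁ μ₀ G)
    (h : M2 ν₁ ν₀ μ₁ μ₀ F' G) : M2 ν₁ ν₀ μ₁ μ₀ F G := by
  rw [m2_iff F' hF' G hG] at h
  rw [m2_iff F hF G hG]
  let S : Set (IwS Ω ν₁ μ₀ →ₗ[Ω] IwS Ω ν₁ μ₀) :=
    {s | ∃ (b : Matrix ι₁ ι₁ Ω) (hb : Iw ν₁ ν₁ b), s = preM b hb μ₀}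
  let H : Set (IwS Ω ν₀ μ₀ →ₗ[Ω] IwS Ω ν₁ μ₀) :=
    {s | ∃ (b : Matrix ι₀ ι₁ Ω) (hb : Iw ν₁ ν₀ b), s = preM b hb μ₀}
  have h1 := finrank_sup_le_of_rigid (LinearMap.range (postM G hG ν₁)) H S ?_ ?_ (preM F hF μ₀)
    ⟨F, hF, rfl⟩ ?_ (preM F' hF' μ₀) ⟨F', hF', rfl⟩
  · rw [h, finrank_top] at h1
    exact Submodule.eq_top_of_finrank_eq
      (le_antisymm (Submodule.finrank_le _) h1)
  · rintro _ ⟨b, hb, rfl⟩ _ ⟨β, rfl⟩
    refine ⟨⟨β.1 * b, (β.2 : Iw ν₁ μ₁ β.1).mul hb⟩, ?_⟩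
    apply Subtype.ext
    exact (Matrix.mul_assoc _ _ _).symm
  · rintro _ ⟨b, hb, rfl⟩ _ ⟨c, hc, rfl⟩
    refine ⟨c * b, hc.mul hb, ?_⟩
    apply LinearMap.ext
    intro α
    apply Subtype.ext
    exact Matrix.mul_assoc _ _ _
  · rintro _ ⟨F'', hF'', rfl⟩
    obtain ⟨α, β, hα, hβ, rfl⟩ := hrig F'' hF''
    refine ⟨_, ⟨β, hβ, rfl⟩, preM α hα μ₀, ?_⟩
    apply LinearMap.ext
    intro φ
    apply Subtype.ext
    change φ.1 * (α * F + F * β) = φ.1 * F * β + φ.1 * α * F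
    rw [Matrix.mul_add, Matrix.mul_assoc, Matrix.mul_assoc, add_comm]

end

end Pool.Agent.Helper793Bricks
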