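import Mathlib
import Pool.Agent.Helper793_Bricks.Spec2

set_option autoImplicit false

namespace Pool.Agent.Helper793Bricks

section

variable {K A : Type} [Field K] [Ring A] [Algebra K A]
  {ι₁ ι₀ κ₁ κ₀ : Type} [Fintype ι₁] [DecidableEq ι₁] [Fintype ι₀] [DecidableEq ι₀]
  [Fintype κ₁] [DecidableEq κ₁] [Fintype κ₀] [DecidableEq κ₀]
  {ν₁ : A →ₐ[K] Matrix ι₁ ι₁ K} {ν₀ : A →ₐ[K] Matrix ι₀ ι₀ K}
  {μ₁ : A →ₐ[K] Matrix κ₁ κ₁ K} {μ₀ : A →ₐ[K] Matrix κ₀ κ₀ K}

/-- the automorphisms form a basis of the endomorphism ring -/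
lemma exists_basis_aut (K E : Type) [Field K] [Field E] [Algebra K E] [FiniteDimensional K E]
    [Finite E] : ∃ bs : Module.Basis (E →ₐ[K] E) E (E →ₗ[K] E), ∀ τ, bs τ = τ.toLinearMap := by
  refine ⟨basisOfLinearIndependentOfCardEqFinrank (linearIndependent_toLinearMap K E E) ?_,
    fun τ => by rw [coe_basisOfLinearIndependentOfCardEqFinrank]⟩
  rw [Module.finrank_linearMap_self]
  exact FiniteField.card_algHom_of_finrank_dvd dvd_rfl

/-- the map `x ↦ x τ` -/
noncomputable def nTau {K E : Type} [Field K] [Field E] [Algebra K E] (τ : E →ₐ[K] E) :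
    E →ₗ[K] Module.End K E where
  toFun x := (Algebra.lmul K E x) * τ.toLinearMap
  map_add' x y := by rw [map_add, add_mul]
  map_smul' c x := by rw [map_smul, smul_mul_assoc]; rfl

lemma nTau_apply {K E : Type} [Field K] [Field E] [Algebra K E] (τ : E →ₐ[K] E) (x y : E) :
    nTau τ x y = x * τ y := rfl

/-- **Restriction of scalars.** -/
theorem m2_res {E : Type} [Field E] [Algebra K E] [FiniteDimensional K E] [Finite E]
    {F : Matrix ι₀ ι₁ E} {G : Matrix κ₀ κ₁ E}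
    (h : ∀ τ : E →ₐ[K] E, M2 ν₁ ν₀ μ₁ μ₀ (F.map τ) G) :
    M2 ν₁ ν₀ μ₁ μ₀ (F.map (Algebra.lmul K E)) (G.map (Algebra.lmul K E)) := by
  classical
  obtain ⟨bs, hbs⟩ := exists_basis_aut K E
  have : Fintype (E →ₐ[K] E) := Fintype.ofFinite _
  intro X hX
  let co : (E →ₐ[K] E) → (Module.End K E →ₗ[K] E) := fun τ => (bs.coord τ).restrictScalars K
  have h1 := fun τ => h τ (X.map (co τ)) (hX.map (co τ))
  choose α β hα hβ hαβ using h1
  refine ⟨∑ τ, (α τ).map (nTau τ), ∑ τ, (β τ).map (nTau τ),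
    Iw.sum _ _ (fun τ _ => (hα τ).map (nTau τ)), Iw.sum _ _ (fun τ _ => (hβ τ).map (nTau τ)), ?_⟩
  have hco : ∀ b : Module.End K E, b = ∑ τ, nTau τ (co τ b) := by
    intro b
    conv_lhs => rw [← bs.sum_repr b]
    refine Finset.sum_congr rfl (fun τ _ => ?_)
    rw [hbs]
    ext y
    rfl
  have hr : ∀ τ (x c : E), nTau τ x * Algebra.lmul K E c = nTau τ (x * τ c) := by
    intro τ x c
    ext y
    change x * τ (c * y) = x * τ c * τ y
    rw [map_mul, mul_assoc]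
  have hl : ∀ τ (x c : E), Algebra.lmul K E c * nTau τ x = nTau τ (c * x) := by
    intro τ x c
    ext y
    change c * (x * τ y) = c * x * τ y
    rw [mul_assoc]
  refine Matrix.ext (fun i j => ?_)
  rw [Matrix.add_apply, Matrix.mul_apply, Matrix.mul_apply]
  simp only [Matrix.sum_apply, Matrix.map_apply, Finset.sum_mul, Finset.mul_sum]
  refine Eq.trans ?_ (congrArg₂ (· + ·) Finset.sum_comm Finset.sum_comm)
  rw [← Finset.sum_add_distrib]
  conv_lhs => rw [hco (X i j)]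
  refine Finset.sum_congr rfl (fun τ _ => ?_)
  have h2 : co τ (X i j) = ∑ k, α τ i k * τ (F k j) + ∑ k, G i k * β τ k j := by
    have h3 := congrFun (congrFun (hαβ τ) i) j
    rw [Matrix.map_apply, Matrix.add_apply, Matrix.mul_apply, Matrix.mul_apply] at h3
    simpa only [Matrix.map_apply] using h3
  rw [h2, map_add, map_sum, map_sum]
  congr 1
  · exact Finset.sum_congr rfl (fun k _ => (hr _ _ _).symm)
  · exact Finset.sum_congr rfl (fun k _ => (hl _ _ _).symm)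

/-- rigid pairs over a finite extension restrict to rigid pairs -/
theorem m2_rest {E : Type} [Field E] [Algebra K E] [FiniteDimensional K E] [Finite E]
    {F : Matrix ι₀ ι₁ E} {G : Matrix κ₀ κ₁ E} (hF : Iw ν₁ ν₀ F) (hG : Iw μ₁ μ₀ G)
    (hFF : M2 ν₁ ν₀ ν₁ ν₀ F F) (hFG : M2 ν₁ ν₀ μ₁ μ₀ F G) :
    M2 ν₁ ν₀ μ₁ μ₀ (F.map (Algebra.lmul K E)) (G.map (Algebra.lmul K E)) := by
  apply m2_res
  intro τ
  have hb : Function.Bijective τ := Algebra.IsAlgebraic.algHom_bijective τ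
  let e : E ≃ₐ[K] E := AlgEquiv.ofBijective τ hb
  have hτ : M2 ν₁ ν₀ ν₁ ν₀ (F.map e) (F.map e) := hFF.equiv e
  exact m2_min (F.map τ) F (hF.map τ.toLinearMap) hF hτ G hG hFG

end

end Pool.Agent.Helper793Bricks
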