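import Mathlib
import Pool.Agent.Helper793_Bricks.Gal2

set_option autoImplicit false

namespace Pool.Agent.Helper793Bricks

section

variable {K A : Type} [Field K] [Ring A] [Algebra K A]
  {ι κ ξ : Type} [Fintype ι] [DecidableEq ι] [Fintype κ] [DecidableEq κ]
  [Fintype ξ] [DecidableEq ξ]

lemma iw_iff (ν : A →ₐ[K] Matrix ι ι K) (μ : A →ₐ[K] Matrix κ κ K) (X : Matrix κ ι K) :
    Iw ν μ X ↔ ∀ a, X * ν a = μ a * X := by
  constructor
  · intro h a
    ext i j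
    have h1 := h a i j
    rw [Matrix.mul_apply, Matrix.mul_apply]
    refine Eq.trans ?_ h1
    exact Finset.sum_congr rfl (fun l _ => mul_comm _ _)
  · intro h a i j
    have h1 := congrFun (congrFun (h a) i) j
    rw [Matrix.mul_apply, Matrix.mul_apply] at h1
    refine Eq.trans ?_ h1
    exact Finset.sum_congr rfl (fun l _ => mul_comm _ _)

/-- entries -/
def ent {m : ℕ} (c d : Fin m) : Matrix (Fin m) (Fin m) K →ₗ[K] K := Matrix.entryLinearMap K K c d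

omit [Fintype ι] [DecidableEq ι] [Fintype κ] [DecidableEq κ] in
lemma map_ent {m : ℕ} (X : Matrix κ ι (Matrix (Fin m) (Fin m) K)) (c d : Fin m) (i : κ) (j : ι) :
    X.map (ent c d) i j = X i j c d := rfl

variable (ν : A →ₐ[K] Matrix ι ι K) (μ : A →ₐ[K] Matrix κ κ K) (π : A →ₐ[K] Matrix ξ ξ K) {m : ℕ}

/-- block map -/
noncomputable def blk (X : Matrix κ ι (Matrix (Fin m) (Fin m) K)) (hX : Iw ν μ X) :
    (Fin m → VM ν) →ₗ[A] (Fin m → VM μ) :=
  LinearMap.pi (fun c => ∑ d, (vmMap ν μ (X.map (ent c d))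
    ((iw_iff ν μ _).mp (hX.map (ent c d)))) ∘ₗ LinearMap.proj d)

lemma blk_apply (X : Matrix κ ι (Matrix (Fin m) (Fin m) K)) (hX : Iw ν μ X) (v : Fin m → VM ν)
    (c : Fin m) :
    vmE μ (blk ν μ X hX v c) = ∑ d, (X.map (ent c d)).mulVec (vmE ν (v d)) := by
  unfold blk
  rw [LinearMap.pi_apply, LinearMap.sum_apply, map_sum]
  rfl

lemma blk_surj (h : (Fin m → VM ν) →ₗ[A] (Fin m → VM μ)) :
    ∃ (X : Matrix κ ι (Matrix (Fin m) (Fin m) K)) (hX : Iw ν μ X), h = blk ν μ X hX := by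
  have h1 := fun c d => vm_matrix ν μ (LinearMap.proj c ∘ₗ h ∘ₗ LinearMap.single A (fun _ => VM ν) d)
  choose Y hY hY' using h1
  let X : Matrix κ ι (Matrix (Fin m) (Fin m) K) := fun i j c d => Y c d i j
  have hXY : ∀ c d, X.map (ent c d) = Y c d := fun c d => rfl
  have hX : Iw ν μ X := by
    intro a i j
    ext c d
    have h2 := (iw_iff ν μ (Y c d)).mpr (hY' c d) a i j
    rw [Matrix.sum_apply, Matrix.sum_apply]
    exact h2
  refine ⟨X, hX, ?_⟩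
  apply LinearMap.ext
  intro v
  funext c
  apply (vmE μ).injective
  rw [blk_apply]
  have h3 : v = ∑ d, LinearMap.single A (fun _ => VM ν) d (v d) := by
    funext d
    rw [Finset.sum_apply]
    simp only [LinearMap.coe_single]
    rw [Finset.sum_pi_single]
    simp
  conv_lhs => rw [h3]
  rw [map_sum, Finset.sum_apply, map_sum]
  refine Finset.sum_congr rfl (fun d _ => ?_)
  rw [hXY]
  exact hY c d (v d)

variable {ν μ π}

lemma blk_add {X Y : Matrix κ ι (Matrix (Fin m) (Fin m) K)} (hX : Iw ν μ X) (hY : Iw ν μ Y) :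
    blk ν μ (X + Y) (hX.add hY) = blk ν μ X hX + blk ν μ Y hY := by
  apply LinearMap.ext
  intro v
  funext c
  apply (vmE μ).injective
  rw [LinearMap.add_apply, Pi.add_apply, map_add, blk_apply, blk_apply, blk_apply,
    ← Finset.sum_add_distrib]
  refine Finset.sum_congr rfl (fun d _ => ?_)
  rw [← Matrix.add_mulVec]
  rfl

lemma blk_mul {X : Matrix κ ξ (Matrix (Fin m) (Fin m) K)}
    {Y : Matrix ξ ι (Matrix (Fin m) (Fin m) K)} (hX : Iw π μ X) (hY : Iw ν π Y) :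
    blk ν μ (X * Y) (hX.mul hY) = blk π μ X hX ∘ₗ blk ν π Y hY := by
  apply LinearMap.ext
  intro v
  funext c
  apply (vmE μ).injective
  rw [LinearMap.comp_apply, blk_apply, blk_apply]
  simp only [blk_apply, Matrix.mulVec_sum, Matrix.mulVec_mulVec]
  rw [Finset.sum_comm]
  refine Finset.sum_congr rfl (fun d _ => ?_)
  rw [← Matrix.sum_mulVec]
  congr 1
  ext i j
  rw [map_ent, Matrix.mul_apply, Matrix.sum_apply, Matrix.sum_apply]
  simp only [Matrix.mul_apply, map_ent]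
  exact Finset.sum_comm

end

section

variable {K A : Type} [Field K] [Ring A] [Algebra K A]
  {ι₁ ι₀ κ₁ κ₀ : Type} [Fintype ι₁] [DecidableEq ι₁] [Fintype ι₀] [DecidableEq ι₀]
  [Fintype κ₁] [DecidableEq κ₁] [Fintype κ₀] [DecidableEq κ₀]
  {ν₁ : A →ₐ[K] Matrix ι₁ ι₁ K} {ν₀ : A →ₐ[K] Matrix ι₀ ι₀ K}
  {μ₁ : A →ₐ[K] Matrix κ₁ κ₁ K} {μ₀ : A →ₐ[K] Matrix κ₀ κ₀ K} {m : ℕ}

theorem e2_of_m2 {F : Matrix ι₀ ι₁ (Matrix (Fin m) (Fin m) K)}
    {G : Matrix κ₀ κ₁ (Matrix (Fin m) (Fin m) K)} (hF : Iw ν₁ ν₀ F) (hG : Iw μ₁ μ₀ G)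
    (h : M2 ν₁ ν₀ μ₁ μ₀ F G) : E2 (blk ν₁ ν₀ F hF) (blk μ₁ μ₀ G hG) := by
  intro φ
  obtain ⟨X, hX, rfl⟩ := blk_surj ν₁ μ₀ φ
  obtain ⟨α, β, hα, hβ, rfl⟩ := h X hX
  refine ⟨blk ν₀ μ₀ α hα, blk ν₁ μ₁ β hβ, ?_⟩
  rw [← blk_mul hα hF, ← blk_mul hG hβ, ← blk_add]

end

end Pool.Agent.Helper793Bricks
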