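import Mathlib
import Pool.Agent.Helper793_Bricks.VMod
import Pool.Agent.Helper793_Bricks.Rank2

set_option autoImplicit false

namespace Pool.Agent.Helper793Bricks

section

variable {K A : Type} [Field K] [Ring A] [Algebra K A] [FiniteDimensional K A]

/-- dimension of a simple module -/
lemma finrank_simple_le (M : Type) [AddCommGroup M] [Module A M] [Module K M]
    [IsScalarTower K A M] [IsSimpleModule A M] :
    FiniteDimensional K M ∧ Module.finrank K M ≤ Module.finrank K A := by
  have : Nontrivial M := IsSimpleModule.nontrivial A M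
  obtain ⟨x, hx⟩ := exists_ne (0 : M)
  have h1 := IsSimpleModule.toSpanSingleton_surjective A hx
  let f : A →ₗ[K] M := (LinearMap.toSpanSingleton A M x).restrictScalars K
  have hf : Function.Surjective f := h1
  exact ⟨Module.Finite.of_surjective f hf, LinearMap.finrank_le_finrank_of_surjective hf⟩

/-- the dimension of a module of length `n` -/
lemma finrank_le_len (n : ℕ) : ∀ (M : Type) [AddCommGroup M] [Module A M] [Module K M]
    [IsScalarTower K A M] [IsArtinian A M] [IsNoetherian A M], len A M = n →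
    FiniteDimensional K M ∧ Module.finrank K M ≤ n * Module.finrank K A := by
  induction n with
  | zero =>
    intro M _ _ _ _ _ _ h
    have h1 : Module.length A M = 0 := by rw [← len_cast, h]; rfl
    rw [Module.length_eq_zero_iff] at h1
    refine ⟨inferInstance, ?_⟩
    rw [Module.finrank_zero_of_subsingleton]
    exact Nat.zero_le _
  | succ n ih =>
    intro M _ _ _ _ _ _ h
    have hnt : Nontrivial M := by
      by_contra hcon
      rw [not_nontrivial_iff_subsingleton] at hcon
      have h1 : Module.length A M = 0 := Module.length_eq_zero_iff.mpr hcon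
      rw [← len_cast, h] at h1
      exact absurd h1 (by norm_num)
    obtain ⟨S, -, hS⟩ := exists_simple_quot (A := A) M ⊥ bot_ne_top
    have hS1 : Module.length A (M ⧸ S) = 1 := Module.length_eq_one_iff.mpr hS
    have h2 := Module.length_eq_add_of_exact S.subtype S.mkQ (Submodule.subtype_injective S)
      S.mkQ_surjective (LinearMap.exact_subtype_mkQ S)
    rw [hS1, ← len_cast, ← len_cast, h] at h2
    have h3 : len A S = n := by
      have h4 : n + 1 = len A S + 1 := by exact_mod_cast h2
      omega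
    obtain ⟨h5, h6⟩ := ih S h3
    obtain ⟨h7, h8⟩ := finrank_simple_le (K := K) (A := A) (M ⧸ S)
    let S' : Submodule K M := S.restrictScalars K
    have h9 : FiniteDimensional K S' := h5
    have h10 : FiniteDimensional K (M ⧸ S') := h7
    have h11 : FiniteDimensional K M := Module.Finite.of_submodule_quotient S'
    refine ⟨h11, ?_⟩
    have h12 := Submodule.finrank_quotient_add_finrank S'
    have h13 : Module.finrank K (M ⧸ S') ≤ Module.finrank K A := h8
    have h14 : Module.finrank K S' ≤ n * Module.finrank K A := h6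
    rw [← h12, add_mul, one_mul]
    omega

omit [FiniteDimensional K A] in
/-- conjugate representations give isomorphic modules -/
lemma equiv_of_conj {n : ℕ} (ν ν' : A →ₐ[K] Matrix (Fin n) (Fin n) K)
    (P : Matrix (Fin n) (Fin n) K) (hP : IsUnit P) (h : ∀ a, P * ν a = ν' a * P) :
    Nonempty (VM ν ≃ₗ[A] VM ν') := by
  obtain ⟨u, rfl⟩ := hP
  have hb : Function.Bijective (vmMap ν ν' u h) := by
    constructor
    · intro v w hvw
      have h1 := congrArg (vmE ν') hvw
      rw [vmMap_apply, vmMap_apply] at h1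
      have h2 := congrArg (↑u⁻¹ : Matrix (Fin n) (Fin n) K).mulVec h1
      rw [Matrix.mulVec_mulVec, Matrix.mulVec_mulVec, Units.inv_mul, Matrix.one_mulVec,
        Matrix.one_mulVec] at h2
      exact (vmE ν).injective h2
    · intro w
      refine ⟨(vmE ν).symm ((↑u⁻¹ : Matrix (Fin n) (Fin n) K).mulVec (vmE ν' w)), ?_⟩
      apply (vmE ν').injective
      rw [vmMap_apply, AddEquiv.apply_symm_apply, Matrix.mulVec_mulVec, Units.mul_inv,
        Matrix.one_mulVec]
  exact ⟨LinearEquiv.ofBijective _ hb⟩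

/-- infinitely many bricks of one length give infinitely many bricks of one dimension -/
theorem exists_dim (d : ℕ) (hd : (BrCls.{0, 0} A d).Infinite) :
    ∃ n : ℕ, ∀ N : ℕ, ∃ f : Fin N → (A →ₐ[K] Matrix (Fin n) (Fin n) K),
      (∀ i : Fin N, ∀ X : Matrix (Fin n) (Fin n) K,
          (∀ a : A, X * f i a = f i a * X) → X ≠ 0 → IsUnit X) ∧
      ∀ i j : Fin N, i ≠ j →
        ¬ ∃ P : Matrix (Fin n) (Fin n) K, IsUnit P ∧ ∀ a : A, P * f i a = f j a * P := by
  classical
  have : IsArtinianRing A := isArtinian_of_tower K inferInstance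
  have : Infinite (BrCls.{0, 0} A d) := hd.to_subtype
  have h1 : ∀ c : BrCls.{0, 0} A d, ∃ n : Fin (d * Module.finrank K A + 1),
      ∃ ν : A →ₐ[K] Matrix (Fin n) (Fin n) K, IsBrick A (VM ν) ∧
        Quotient.mk (isoSetoid A) (ModuleCat.of A (VM ν)) = c.1 := by
    rintro ⟨c, M, rfl, hM, hM1, hM2, hM3⟩
    obtain ⟨n, ν, ⟨e⟩⟩ := exists_vrep (K := K) (A := A) M
    let _ : Module K (VM ν) := inferInstanceAs (Module K (Fin n → K))
    have : IsScalarTower K A (VM ν) := by
      refine ⟨fun k a v => ?_⟩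
      apply (vmE ν).injective
      rw [vmE_smul]
      change (ν (k • a)).mulVec (vmE ν v) = k • (vmE ν (a • v))
      rw [vmE_smul, map_smul, Matrix.smul_mulVec]
    have h2 := (finrank_le_len (K := K) (A := A) d (VM ν)
      ((len_eq_of_equiv e.symm).trans hM3)).2
    have h3 : Module.finrank K (VM ν) = n := Module.finrank_fin_fun K
    rw [h3] at h2
    exact ⟨⟨n, Nat.lt_succ_of_le h2⟩, ν, hM.of_equiv e, Quotient.sound ⟨e.symm⟩⟩
  choose n hn using h1
  obtain ⟨n₀, hn₀⟩ := Finite.exists_infinite_fiber n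
  refine ⟨n₀, fun N => ?_⟩
  have h2 : ∀ c : n ⁻¹' {n₀}, ∃ ν : A →ₐ[K] Matrix (Fin n₀) (Fin n₀) K, IsBrick A (VM ν) ∧
        Quotient.mk (isoSetoid A) (ModuleCat.of A (VM ν)) = c.1.1 := by
    rintro ⟨c, rfl⟩
    exact hn c
  choose ν hν1 hν2 using h2
  let e := Infinite.natEmbedding (n ⁻¹' {n₀})
  refine ⟨fun i => ν (e i), fun i X hX hX0 => ?_, fun i j hij => ?_⟩
  · obtain ⟨Y, hY⟩ := commutant_of_brick (ν (e i)) (hν1 (e i)) X hX hX0
    exact ⟨⟨X, Y, hY, mul_eq_one_comm.mp hY⟩, rfl⟩
  · rintro ⟨P, hP, hPa⟩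
    have h3 : Quotient.mk (isoSetoid A) (ModuleCat.of A (VM (ν (e i)))) =
        Quotient.mk (isoSetoid A) (ModuleCat.of A (VM (ν (e j)))) :=
      Quotient.sound (equiv_of_conj _ _ P hP hPa)
    rw [hν2, hν2] at h3
    exact hij (Fin.ext (e.injective (Subtype.ext (Subtype.ext h3))))

/-- bricks from representations of unbounded dimension -/
theorem allBr_of_unbounded
    (h : ∀ B : ℕ, ∃ n : ℕ, B < n ∧ ∃ ρ : A →ₐ[K] Matrix (Fin n) (Fin n) K,
          ∀ X : Matrix (Fin n) (Fin n) K, (∀ a : A, X * ρ a = ρ a * X) → X ≠ 0 → IsUnit X) :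
    (allBr A).Infinite := by
  choose n hn ρ hρ using h
  intro hfin
  have hmem : ∀ B, Quotient.mk (isoSetoid A) (ModuleCat.of A (VM (ρ B))) ∈ allBr A := by
    intro B
    refine ⟨_, rfl, inferInstanceAs (Module.Finite A (VM (ρ B))), ?_, fun f hf => ?_⟩
    · have : Nonempty (Fin (n B)) := ⟨⟨0, lt_of_le_of_lt (Nat.zero_le _) (hn B)⟩⟩
      exact inferInstanceAs (Nontrivial (Fin (n B) → K))
    · obtain ⟨X, hX1, hX2⟩ := vm_matrix (ρ B) (ρ B) f
      have hX0 : X ≠ 0 := by
        intro h0
        apply hf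
        ext v
        apply (vmE (ρ B)).injective
        rw [hX1, h0, Matrix.zero_mulVec]
        rfl
      obtain ⟨u, hu⟩ := hρ B X hX2 hX0
      constructor
      · intro v w hvw
        have h1 := congrArg (vmE (ρ B)) hvw
        rw [hX1, hX1, ← hu] at h1
        have h2 := congrArg (↑u⁻¹ : Matrix (Fin (n B)) (Fin (n B)) K).mulVec h1
        rw [Matrix.mulVec_mulVec, Matrix.mulVec_mulVec, Units.inv_mul, Matrix.one_mulVec,
          Matrix.one_mulVec] at h2
        exact (vmE (ρ B)).injective h2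
      · intro w
        refine ⟨(vmE (ρ B)).symm
          ((↑u⁻¹ : Matrix (Fin (n B)) (Fin (n B)) K).mulVec (vmE (ρ B) w)), ?_⟩
        apply (vmE (ρ B)).injective
        rw [hX1, AddEquiv.apply_symm_apply, ← hu, Matrix.mulVec_mulVec, Units.mul_inv,
          Matrix.one_mulVec]
  have : Finite (allBr A) := hfin.to_subtype
  -- infinitely many indices share one class
  obtain ⟨c, hc⟩ := Finite.exists_infinite_fiber
    (fun B => (⟨_, hmem B⟩ : allBr A))
  obtain ⟨B₀⟩ : Nonempty _ := (inferInstance : Nonempty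
    ((fun B => (⟨_, hmem B⟩ : allBr A)) ⁻¹' {c}))
  have hex : ∃ B ∈ ((fun B => (⟨_, hmem B⟩ : allBr A)) ⁻¹' {c}), n B₀.1 ≤ B := by
    by_contra hcon
    push Not at hcon
    exact (Set.infinite_coe_iff.mp hc) ((Set.finite_Iio (n B₀.1)).subset (fun B hB => hcon B hB))
  obtain ⟨B, hB, hlt⟩ := hex
  have h1 : (⟨_, hmem B⟩ : allBr A) = ⟨_, hmem B₀.1⟩ := hB.trans B₀.2.symm
  have h2 := congrArg Subtype.val h1
  obtain ⟨e⟩ : (isoSetoid A).r _ _ := Quotient.exact h2
  have h3 : n B = n B₀.1 := by
    obtain ⟨X, hX1, hX2⟩ := vm_matrix (ρ B) (ρ B₀.1) e.toLinearMap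
    let g : (Fin (n B) → K) →ₗ[K] (Fin (n B₀.1) → K) := X.mulVecLin
    have hg : Function.Bijective g := by
      constructor
      · intro v w hvw
        have h4 : e ((vmE (ρ B)).symm v) = e ((vmE (ρ B)).symm w) := by
          apply (vmE (ρ B₀.1)).injective
          have h5 := hX1 ((vmE (ρ B)).symm v)
          have h6 := hX1 ((vmE (ρ B)).symm w)
          rw [AddEquiv.apply_symm_apply] at h5 h6
          exact h5.trans (hvw.trans h6.symm)
        exact (vmE (ρ B)).symm.injective (e.injective h4)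
      · intro w
        refine ⟨vmE (ρ B) (e.symm ((vmE (ρ B₀.1)).symm w)), ?_⟩
        have h5 := hX1 (e.symm ((vmE (ρ B₀.1)).symm w))
        simp only [LinearEquiv.coe_coe, LinearEquiv.apply_symm_apply,
          AddEquiv.apply_symm_apply] at h5
        exact h5.symm
    have h7 := (LinearEquiv.ofBijective g hg).finrank_eq
    rwa [Module.finrank_fin_fun, Module.finrank_fin_fun] at h7
  have h4 := hn B
  omega

end

end Pool.Agent.Helper793Bricks
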