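import Mathlib
import Pool.Agent.Helper793_Bricks.BaseMod

set_option autoImplicit false

open scoped TensorProduct

namespace Pool.Agent.Helper793Bricks

section

variable {K A : Type} [Field K] [Ring A] [Algebra K A] [FiniteDimensional K A]

/-- a nonzero module over `A_L` contains a simple module of `A` -/
lemma exists_simple_vrep (T : Type) [AddCommGroup T] [Module (AL K A) T] [Nontrivial T] :
    ∃ (n : ℕ) (ν : A →ₐ[K] Matrix (Fin n) (Fin n) K) (f : VM ν →+ T),
      IsSimpleModule A (VM ν) ∧ Function.Injective f ∧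
      ∀ (a : A) (v : VM ν), f (a • v) = ((1 : Lz K) ⊗ₜ[K] a : AL K A) • f v := by
  let _ : Module A T := Module.compHom T
    ((Algebra.TensorProduct.includeRight : A →ₐ[K] AL K A).toRingHom)
  have hact : ∀ (a : A) (t : T), a • t = ((1 : Lz K) ⊗ₜ[K] a : AL K A) • t := fun a t => rfl
  have : IsArtinianRing A := isArtinian_of_tower K inferInstance
  obtain ⟨x, hx⟩ := exists_ne (0 : T)
  let U : Submodule A T := Submodule.span A {x}
  have : Nontrivial U :=
    ⟨⟨⟨x, Submodule.mem_span_singleton_self x⟩, 0, fun h => hx (congrArg Subtype.val h)⟩⟩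
  have : Module.Finite A U := Module.Finite.span_of_finite A (Set.finite_singleton x)
  obtain ⟨S, hS⟩ := exists_simple_sub (A := A) U
  obtain ⟨n, ν, ⟨e⟩⟩ := exists_vrep (K := K) (A := A) S
  let F : VM ν →ₗ[A] T := U.subtype ∘ₗ S.subtype ∘ₗ e.symm.toLinearMap
  refine ⟨n, ν, F.toAddMonoidHom, IsSimpleModule.congr e.symm, ?_, ?_⟩
  · exact (Submodule.subtype_injective U).comp
      ((Submodule.subtype_injective S).comp e.symm.injective)
  · intro a v
    exact F.map_smul a v

omit [FiniteDimensional K A] in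
/-- a simple `A`-submodule of `L ⊗ S` is isomorphic to `S` -/
lemma equiv_of_sub {ι κ : Type} [Fintype ι] [DecidableEq ι] [Fintype κ] [DecidableEq κ]
    (ν : A →ₐ[K] Matrix ι ι K) (μ : A →ₐ[K] Matrix κ κ K) [IsSimpleModule A (VM ν)]
    [IsSimpleModule A (VM μ)] (f : VM μ →+ RM (up ν)) (hf : Function.Injective f)
    (hfa : ∀ (a : A) (v : VM μ), f (a • v) = ((1 : Lz K) ⊗ₜ[K] a : AL K A) • f v) :
    Nonempty (VM μ ≃ₗ[A] VM ν) := by
  have : Nontrivial (VM μ) := IsSimpleModule.nontrivial A (VM μ)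
  obtain ⟨x, hx⟩ := exists_ne (0 : VM μ)
  have h1 : rmE (up ν) (f x) ≠ 0 := by
    intro h0
    apply hx
    apply hf
    rw [map_zero]
    exact (rmE (up ν)).injective (h0.trans (map_zero (rmE (up ν))).symm)
  obtain ⟨i, hi⟩ := Function.ne_iff.mp h1
  have h2 : ∃ l : Module.Dual K (Lz K), l (rmE (up ν) (f x) i) ≠ 0 := by
    by_contra hcon
    push Not at hcon
    exact hi ((Module.forall_dual_apply_eq_zero_iff K _).mp hcon)
  obtain ⟨l, hl⟩ := h2
  let g : VM μ →ₗ[A] VM ν :=
    { toFun := fun v => (vmE ν).symm (fun j => l (rmE (up ν) (f v) j))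
      map_add' := by
        intro v w
        apply (vmE ν).injective
        rw [map_add (vmE ν), AddEquiv.apply_symm_apply, AddEquiv.apply_symm_apply,
          AddEquiv.apply_symm_apply]
        funext j
        rw [map_add f, map_add (rmE (up ν)), Pi.add_apply, Pi.add_apply, map_add]
      map_smul' := by
        intro a v
        apply (vmE ν).injective
        rw [AddEquiv.apply_symm_apply, RingHom.id_apply, vmE_smul, AddEquiv.apply_symm_apply,
          hfa, rmE_tmul]
        funext j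
        rw [Pi.smul_apply, one_smul, Matrix.mulVec, Matrix.mulVec, dotProduct, dotProduct, map_sum]
        refine Finset.sum_congr rfl (fun k _ => ?_)
        rw [up_apply, ← Algebra.smul_def, map_smul, smul_eq_mul] }
  have hg : g ≠ 0 := by
    intro h0
    apply hl
    have h3 := congrArg (vmE ν) (LinearMap.congr_fun h0 x)
    exact congrFun h3 i
  exact ⟨LinearEquiv.ofBijective g (LinearMap.bijective_of_ne_zero hg)⟩

/-- over a finite field base change preserves simple modules -/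
theorem rm_simple [Finite K] {n : ℕ} (ν : A →ₐ[K] Matrix (Fin n) (Fin n) K)
    [hν : IsSimpleModule A (VM ν)] : IsSimpleModule (AL K A) (RM (up ν)) := by
  have hnt : Nontrivial (VM ν) := IsSimpleModule.nontrivial A (VM ν)
  have hne : Nonempty (Fin n) := by
    by_contra hcon
    rw [not_nonempty_iff] at hcon
    obtain ⟨x, y, hxy⟩ := hnt
    apply hxy
    funext j
    exact hcon.elim j
  have hbr : IsBrick A (VM ν) := ⟨hnt, fun f hf => LinearMap.bijective_of_ne_zero hf⟩
  have hBr : IsBrick (AL K A) (RM (up ν)) :=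
    rm_brick (up ν) (commutant_up ν (commutant_of_brick ν hbr))
  have : Nontrivial (RM (up ν)) := hBr.1
  rw [isSimpleModule_iff]
  refine ⟨fun T' => ?_⟩
  by_cases hT : T' = ⊥
  · exact Or.inl hT
  right
  have : Nontrivial T' := Submodule.nontrivial_iff_ne_bot.mpr hT
  obtain ⟨m, μ, f, hμ, hf, hfa⟩ := exists_simple_vrep (K := K) (A := A) T'
  obtain ⟨e⟩ := equiv_of_sub ν μ (T'.subtype.toAddMonoidHom.comp f)
    ((Submodule.subtype_injective T').comp hf) (fun a v =>
      (congrArg T'.subtype (hfa a v)).trans (T'.subtype.map_smul _ _))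
  obtain ⟨F, hF⟩ := exists_ext ν T' (f.comp e.symm.toLinearMap.toAddMonoidHom) (fun a v => by
    have h1 : e.symm (a • v) = a • e.symm v := map_smul e.symm a v
    change f (e.symm (a • v)) = _ • f (e.symm v)
    rw [h1, hfa])
  have hF0 : T'.subtype ∘ₗ F ≠ 0 := by
    intro h0
    obtain ⟨x, hx⟩ := exists_ne (0 : VM ν)
    have h1 := hF x
    have h2 : F ((rmE (up ν)).symm (fun i => algebraMap K (Lz K) (vmE ν x i))) = 0 := by
      apply Submodule.subtype_injective T'
      exact (LinearMap.congr_fun h0 _).trans (map_zero T'.subtype).symm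
    rw [h2] at h1
    apply hx
    have h3 : f (e.symm x) = 0 := h1.symm
    have h4 : e.symm x = 0 := hf (h3.trans (map_zero f).symm)
    rw [← e.apply_symm_apply x, h4, map_zero]
  have h5 := (hBr.2 _ hF0).2
  rw [eq_top_iff]
  intro v _
  obtain ⟨w, hw⟩ := h5 v
  rw [← hw]
  exact (F w).2

/-- every simple module over `A_L` is the base change of a simple module (finite base field) -/
theorem exists_simple_up [Finite K] (T : Type) [AddCommGroup T] [Module (AL K A) T]
    [IsSimpleModule (AL K A) T] :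
    ∃ (n : ℕ) (ν : A →ₐ[K] Matrix (Fin n) (Fin n) K), IsSimpleModule A (VM ν) ∧
      Nonempty (T ≃ₗ[AL K A] RM (up ν)) := by
  have : Nontrivial T := IsSimpleModule.nontrivial (AL K A) T
  obtain ⟨n, ν, f, hν, hf, hfa⟩ := exists_simple_vrep (K := K) (A := A) T
  obtain ⟨F, hF⟩ := exists_ext ν T f hfa
  have : IsSimpleModule (AL K A) (RM (up ν)) := rm_simple ν
  have : Nontrivial (VM ν) := IsSimpleModule.nontrivial A (VM ν)
  have hF0 : F ≠ 0 := by
    intro h0
    obtain ⟨x, hx⟩ := exists_ne (0 : VM ν)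
    apply hx
    apply hf
    rw [map_zero, ← hF x, h0]
    rfl
  exact ⟨n, ν, hν, ⟨(LinearEquiv.ofBijective F (LinearMap.bijective_of_ne_zero hF0)).symm⟩⟩

omit [FiniteDimensional K A] in
/-- the two simple modules of the base change -/
lemma exists_up_simple (S : ModuleCat.{0} A) : ∃ S' : ModuleCat.{0} (AL K A),
    ∀ (n : ℕ) (ν : A →ₐ[K] Matrix (Fin n) (Fin n) K), Nonempty (VM ν ≃ₗ[A] S) →
      Nonempty (RM (up ν) ≃ₗ[AL K A] S') := by
  by_cases h : ∃ (n : ℕ) (ν : A →ₐ[K] Matrix (Fin n) (Fin n) K), Nonempty (VM ν ≃ₗ[A] S)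
  · obtain ⟨n₀, ν₀, ⟨e₀⟩⟩ := h
    refine ⟨ModuleCat.of (AL K A) (RM (up ν₀)), fun n ν ⟨e⟩ => ?_⟩
    exact up_equiv ν ν₀ (e.trans e₀.symm)
  · push Not at h
    exact ⟨ModuleCat.of (AL K A) PUnit, fun n ν ⟨e⟩ => ((h n ν).false e).elim⟩

omit [FiniteDimensional K A] in
/-- bricks of `A` give bricks of `A_L` -/
lemma up_brick [Finite K] {n : ℕ} (ν : A →ₐ[K] Matrix (Fin n) (Fin n) K)
    (hbr : IsBrick A (VM ν)) : IsBrick (AL K A) (RM (up ν)) := by
  have hne : Nonempty (Fin n) := by
    by_contra hcon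
    rw [not_nonempty_iff] at hcon
    obtain ⟨x, y, hxy⟩ := hbr.1
    apply hxy
    funext j
    exact hcon.elim j
  exact rm_brick (up ν) (commutant_up ν (commutant_of_brick ν hbr))

/-- infinitely many bricks over `A` give infinitely many over `A_L` -/
theorem allBr_up [Finite K] (h : (allBr A).Infinite) : (allBr (AL K A)).Infinite := by
  classical
  have h1 : ∀ c : allBr A, ∃ (n : ℕ) (ν : A →ₐ[K] Matrix (Fin n) (Fin n) K),
      IsBrick A (VM ν) ∧ Quotient.mk (isoSetoid A) (ModuleCat.of A (VM ν)) = c.1 := by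
    rintro ⟨c, M, rfl, hMf, hM⟩
    obtain ⟨n, ν, ⟨e⟩⟩ := exists_vrep (K := K) (A := A) M
    exact ⟨n, ν, hM.of_equiv e, Quotient.sound ⟨e.symm⟩⟩
  choose n ν hb hc using h1
  have : Infinite (allBr A) := h.to_subtype
  refine Set.infinite_of_injective_forall_mem (f := fun c : allBr A =>
    Quotient.mk (isoSetoid (AL K A)) (ModuleCat.of (AL K A) (RM (up (ν c))))) ?_ ?_
  · intro c c' hcc
    obtain ⟨e⟩ : (isoSetoid (AL K A)).r _ _ := Quotient.exact hcc
    obtain ⟨e'⟩ := equiv_of_up (ν c) (ν c') (hb c) (hb c') e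
    apply Subtype.ext
    rw [← hc c, ← hc c']
    exact Quotient.sound ⟨e'⟩
  · intro c
    exact ⟨_, rfl, rm_finite (up (ν c)), up_brick (ν c) (hb c)⟩

lemma infinite_Lz {K : Type} [Field K] : Infinite (Lz K) :=
  Infinite.of_injective (algebraMap (Rz K) (Lz K)) (IsFractionRing.injective (Rz K) (Lz K))

/-- **Two simple modules, finite base field.** -/
theorem semibrick_two_finite [Finite K] (S₁ S₂ : ModuleCat.{0} A)
    (hS : ∀ (T : Type) [AddCommGroup T] [Module A T] [IsSimpleModule A T],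
      Nonempty (T ≃ₗ[A] S₁) ∨ Nonempty (T ≃ₗ[A] S₂)) (h : (allBr A).Infinite) :
    ∃ M : ℕ → ModuleCat.{0} A, (∀ i, Module.Finite A (M i) ∧ IsBrick A (M i)) ∧
      ∀ i j, i ≠ j → ∀ f : M i →ₗ[A] M j, f = 0 := by
  have : Infinite (Lz K) := infinite_Lz
  obtain ⟨S₁', hS₁⟩ := exists_up_simple (K := K) S₁
  obtain ⟨S₂', hS₂⟩ := exists_up_simple (K := K) S₂
  have hS' : ∀ (T : Type) [AddCommGroup T] [Module (AL K A) T] [IsSimpleModule (AL K A) T],
      Nonempty (T ≃ₗ[AL K A] S₁') ∨ Nonempty (T ≃ₗ[AL K A] S₂') := by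
    intro T _ _ _
    obtain ⟨n, ν, hν, ⟨e⟩⟩ := exists_simple_up (K := K) (A := A) T
    rcases hS (VM ν) with h1 | h1
    · obtain ⟨e'⟩ := hS₁ n ν h1
      exact Or.inl ⟨e.trans e'⟩
    · obtain ⟨e'⟩ := hS₂ n ν h1
      exact Or.inr ⟨e.trans e'⟩
  have hinf : ∃ d, (BrCls.{0, 0} (AL K A) d).Infinite := by
    by_contra hcon
    push Not at hcon
    exact allBr_up (K := K) h (rank_two (K := Lz K) (A := AL K A) S₁' S₂' hS' hcon)
  obtain ⟨d, hd⟩ := hinf
  obtain ⟨N, hN⟩ := ff_main d hd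
  exact semibrick_of_kRep N hN

end

end Pool.Agent.Helper793Bricks
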