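import Mathlib
import Pool.Agent.Helper793_Bricks.Blk
import Pool.Agent.Helper793_Bricks.Simples

set_option autoImplicit false

open scoped TensorProduct

namespace Pool.Agent.Helper793Bricks

section base

variable {K A : Type} [Field K] [Ring A] [Algebra K A] {ι : Type} [Fintype ι] [DecidableEq ι]
  (ν : A →ₐ[K] Matrix ι ι K)

/-- the inclusion of a module in its base change -/
noncomputable def jm : VM ν →+ RM (up ν) where
  toFun v := (rmE (up ν)).symm (fun i => algebraMap K (Lz K) (vmE ν v i))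
  map_zero' := by
    apply (rmE (up ν)).injective
    rw [AddEquiv.apply_symm_apply, map_zero, map_zero]
    funext i
    exact map_zero _
  map_add' v w := by
    apply (rmE (up ν)).injective
    rw [map_add (rmE (up ν)), AddEquiv.apply_symm_apply, AddEquiv.apply_symm_apply,
      AddEquiv.apply_symm_apply, map_add (vmE ν)]
    funext i
    exact map_add _ _ _

lemma rmE_jm (v : VM ν) (i : ι) : rmE (up ν) (jm ν v) i = algebraMap K (Lz K) (vmE ν v i) := rfl

lemma jm_smul (a : A) (v : VM ν) : jm ν (a • v) = ((1 : Lz K) ⊗ₜ[K] a : AL K A) • jm ν v := by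
  apply (rmE (up ν)).injective
  rw [rmE_tmul, one_smul]
  funext i
  rw [rmE_jm, vmE_smul, Matrix.mulVec, Matrix.mulVec, dotProduct, dotProduct, map_sum]
  exact Finset.sum_congr rfl (fun j _ => map_mul _ _ _)

lemma rm_eq_sum (v : RM (up ν)) : v = ∑ j, ((rmE (up ν) v j) ⊗ₜ[K] (1 : A) : AL K A) •
    jm ν ((vmE ν).symm (Pi.single j (1 : K))) := by
  apply (rmE (up ν)).injective
  rw [map_sum]
  funext i
  rw [Finset.sum_apply]
  simp only [rmE_tmul, map_one, Matrix.one_mulVec, Pi.smul_apply, rmE_jm,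
    AddEquiv.apply_symm_apply, smul_eq_mul, Pi.single_apply]
  have h1 : ∀ j, rmE (up ν) v j * algebraMap K (Lz K) (if i = j then 1 else 0) =
      if i = j then rmE (up ν) v j else 0 := by
    intro j
    split_ifs <;> simp
  simp only [h1]
  simp

lemma ext_jm {T : Type} [AddCommGroup T] [Module (AL K A) T] (F G : RM (up ν) →ₗ[AL K A] T)
    (h : ∀ v, F (jm ν v) = G (jm ν v)) : F = G := by
  apply LinearMap.ext
  intro v
  rw [rm_eq_sum ν v, map_sum, map_sum]
  exact Finset.sum_congr rfl (fun j _ => by rw [map_smul, map_smul, h])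

/-- base change of projective modules -/
theorem rm_projective [Module.Finite A (VM ν)] [Module.Projective A (VM ν)] :
    Module.Projective (AL K A) (RM (up ν)) := by
  obtain ⟨n, π, hπ⟩ := Module.Finite.exists_fin' A (VM ν)
  obtain ⟨s, hs⟩ := Module.projective_lifting_property π LinearMap.id hπ
  have hS : ∀ j : Fin n, ∃ F : RM (up ν) →ₗ[AL K A] AL K A, ∀ v : VM ν,
      F (jm ν v) = ((1 : Lz K) ⊗ₜ[K] (s v j) : AL K A) := by
    intro j
    refine exists_ext ν (AL K A)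
      { toFun := fun v => ((1 : Lz K) ⊗ₜ[K] (s v j) : AL K A)
        map_zero' := by rw [map_zero, Pi.zero_apply, TensorProduct.tmul_zero]
        map_add' := fun v w => by rw [map_add, Pi.add_apply, TensorProduct.tmul_add] } ?_
    intro a v
    change ((1 : Lz K) ⊗ₜ[K] (s (a • v) j) : AL K A) =
      ((1 : Lz K) ⊗ₜ[K] a : AL K A) * ((1 : Lz K) ⊗ₜ[K] (s v j) : AL K A)
    rw [map_smul, Pi.smul_apply, smul_eq_mul, Algebra.TensorProduct.tmul_mul_tmul, one_mul]
  choose F hF using hS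
  let S : RM (up ν) →ₗ[AL K A] (Fin n → AL K A) := LinearMap.pi F
  let P : (Fin n → AL K A) →ₗ[AL K A] RM (up ν) :=
    ∑ j, (LinearMap.toSpanSingleton (AL K A) (RM (up ν)) (jm ν (π (Pi.single j 1)))) ∘ₗ
      LinearMap.proj j
  refine Module.Projective.of_split S P ?_
  apply ext_jm
  intro v
  have h1 : ∀ c, P c = ∑ j, c j • jm ν (π (Pi.single j 1)) := by
    intro c
    simp only [P, LinearMap.sum_apply]
    rfl
  have h2 : (P ∘ₗ S) (jm ν v) = ∑ j, ((1 : Lz K) ⊗ₜ[K] (s v j) : AL K A) •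
      jm ν (π (Pi.single j 1)) := by
    rw [LinearMap.comp_apply, h1]
    exact Finset.sum_congr rfl (fun j _ => congrArg (· • _) (hF j v))
  rw [h2]
  have h3 : v = ∑ j, s v j • π (Pi.single j 1) := by
    have h4 : π (s v) = v := LinearMap.congr_fun hs v
    conv_lhs => rw [← h4]
    have h5 : s v = ∑ j, s v j • (Pi.single j (1 : A) : Fin n → A) := by
      funext i
      rw [Finset.sum_apply]
      simp [Pi.single_apply]
    conv_lhs => rw [h5]
    rw [map_sum]
    exact Finset.sum_congr rfl (fun j _ => map_smul _ _ _)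
  conv_rhs => rw [h3]
  rw [LinearMap.id_apply, map_sum]
  exact Finset.sum_congr rfl (fun j _ => (jm_smul ν _ _).symm)

end base

section

variable {K A : Type} [Field K] [Ring A] [Algebra K A]
  {ι₁ ι₀ κ₁ κ₀ : Type} [Fintype ι₁] [DecidableEq ι₁] [Fintype ι₀] [DecidableEq ι₀]
  [Fintype κ₁] [DecidableEq κ₁] [Fintype κ₀] [DecidableEq κ₀]
  {ν₁ : A →ₐ[K] Matrix ι₁ ι₁ K} {ν₀ : A →ₐ[K] Matrix ι₀ ι₀ K}
  {μ₁ : A →ₐ[K] Matrix κ₁ κ₁ K} {μ₀ : A →ₐ[K] Matrix κ₀ κ₀ K}

lemma iw_iff_up (ν : A →ₐ[K] Matrix ι₁ ι₁ K) (μ : A →ₐ[K] Matrix κ₀ κ₀ K)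
    (X : Matrix κ₀ ι₁ (Lz K)) : Iw ν μ X ↔ ∀ a, X * up ν a = up μ a * X := by
  constructor
  · intro h a
    ext i j
    have h1 := h a i j
    rw [Matrix.mul_apply, Matrix.mul_apply]
    refine Eq.trans ?_ (h1.trans ?_)
    · exact Finset.sum_congr rfl (fun l _ => by rw [up_apply, Algebra.smul_def, mul_comm])
    · exact Finset.sum_congr rfl (fun l _ => by rw [up_apply, Algebra.smul_def])
  · intro h a i j
    have h1 := congrFun (congrFun (h a) i) j
    rw [Matrix.mul_apply, Matrix.mul_apply] at h1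
    refine Eq.trans ?_ (h1.trans ?_)
    · exact Finset.sum_congr rfl (fun l _ => by rw [up_apply, Algebra.smul_def, mul_comm])
    · exact Finset.sum_congr rfl (fun l _ => by rw [up_apply, Algebra.smul_def])

/-- from modules over `A_L` to matrices -/
lemma m2_of_e2 (F : Matrix ι₀ ι₁ (Lz K)) (hF : ∀ a, F * up ν₁ a = up ν₀ a * F)
    (G : Matrix κ₀ κ₁ (Lz K)) (hG : ∀ a, G * up μ₁ a = up μ₀ a * G)
    (h : E2 (rmMap (up ν₁) (up ν₀) F hF) (rmMap (up μ₁) (up μ₀) G hG)) :
    M2 ν₁ ν₀ μ₁ μ₀ F G := by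
  intro X hX
  obtain ⟨α, β, hαβ⟩ := h (rmMap (up ν₁) (up μ₀) X ((iw_iff_up ν₁ μ₀ X).mp hX))
  obtain ⟨α', hα1, hα2⟩ := rm_matrix (up ν₀) (up μ₀) α
  obtain ⟨β', hβ1, hβ2⟩ := rm_matrix (up ν₁) (up μ₁) β
  refine ⟨α', β', (iw_iff_up _ _ _).mpr hα2, (iw_iff_up _ _ _).mpr hβ2, ?_⟩
  ext i j
  have h1 := LinearMap.congr_fun hαβ ((rmE (up ν₁)).symm (Pi.single j (1 : Lz K)))
  have h2 := congrArg (rmE (up μ₀)) h1
  rw [LinearMap.add_apply, LinearMap.comp_apply, LinearMap.comp_apply, map_add, rmMap_apply,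
    rmMap_apply, hα1, hβ1, rmMap_apply, AddEquiv.apply_symm_apply, Matrix.mulVec_mulVec,
    Matrix.mulVec_mulVec, Matrix.mulVec_single_one, Matrix.mulVec_single_one,
    Matrix.mulVec_single_one] at h2
  exact congrFun h2 i

end

section main

variable {K A : Type} [Field K] [Ring A] [Algebra K A] [FiniteDimensional K A]

/-- transport of rigidity along isomorphisms -/
lemma E2.transport {R : Type} [Ring R] {U₁ U₀ V₁ V₀ : Type} [AddCommGroup U₁] [Module R U₁]
    [AddCommGroup U₀] [Module R U₀] [AddCommGroup V₁] [Module R V₁] [AddCommGroup V₀] [Module R V₀]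
    (e₁ : U₁ ≃ₗ[R] V₁) (e₀ : U₀ ≃ₗ[R] V₀) {f : U₁ →ₗ[R] U₀} (h : E2 f f) :
    E2 (e₀.toLinearMap ∘ₗ f ∘ₗ e₁.symm.toLinearMap) (e₀.toLinearMap ∘ₗ f ∘ₗ e₁.symm.toLinearMap) := by
  intro φ
  obtain ⟨α, β, hαβ⟩ := h (e₀.symm.toLinearMap ∘ₗ φ ∘ₗ e₁.toLinearMap)
  refine ⟨e₀.toLinearMap ∘ₗ α ∘ₗ e₀.symm.toLinearMap, e₁.toLinearMap ∘ₗ β ∘ₗ e₁.symm.toLinearMap,
    ?_⟩
  ext x
  have h1 := congrArg e₀ (LinearMap.congr_fun hαβ (e₁.symm x))
  simpa using h1

/-- **Non-rigid lattice points, finite base field.** -/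
theorem ff_lattice [Finite K] (V₁ V₀ : ModuleCat.{0} A) [Module.Finite A V₁]
    [Module.Projective A V₁] [Module.Finite A V₀] [Module.Projective A V₀]
    (hno : ∀ m : ℕ, 1 ≤ m → ∀ f : (Fin m → V₁) →ₗ[A] (Fin m → V₀), ¬ E2 f f) :
    ∃ M : ℕ → ModuleCat.{0} A, (∀ i, Module.Finite A (M i) ∧ IsBrick A (M i)) ∧
      ∀ i j, i ≠ j → ∀ f : M i →ₗ[A] M j, f = 0 := by
  classical
  have : Infinite (Lz K) := infinite_Lz
  have hinf : ∃ d, (BrCls.{0, 0} (AL K A) d).Infinite := by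
    by_contra hcon
    push Not at hcon
    obtain ⟨n₁, ν₁, ⟨e₁⟩⟩ := exists_vrep (K := K) (A := A) V₁
    obtain ⟨n₀, ν₀, ⟨e₀⟩⟩ := exists_vrep (K := K) (A := A) V₀
    have : Module.Projective A (VM ν₁) := Module.Projective.of_equiv e₁
    have : Module.Projective A (VM ν₀) := Module.Projective.of_equiv e₀
    have : Module.Projective (AL K A) (ModuleCat.of (AL K A) (RM (up ν₁))) := rm_projective ν₁
    have : Module.Projective (AL K A) (ModuleCat.of (AL K A) (RM (up ν₀))) := rm_projective ν₀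
    have : Module.Finite (AL K A) (ModuleCat.of (AL K A) (RM (up ν₁))) := rm_finite (up ν₁)
    have : Module.Finite (AL K A) (ModuleCat.of (AL K A) (RM (up ν₀))) := rm_finite (up ν₀)
    obtain ⟨f, hf⟩ := exists_rigid (Lz K) (ModuleCat.of (AL K A) (RM (up ν₁)))
      (ModuleCat.of (AL K A) (RM (up ν₀)))
      (Set.Finite.biUnion (Set.finite_Iic _) (fun d _ => hcon d))
    obtain ⟨F, hF1, hF2⟩ := rm_matrix (up ν₁) (up ν₀) f
    have hfF : f = rmMap (up ν₁) (up ν₀) F hF2 := by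
      apply LinearMap.ext
      intro v
      apply (rmE (up ν₀)).injective
      rw [hF1, rmMap_apply]
    have hE : E2 (rmMap (up ν₁) (up ν₀) F hF2) (rmMap (up ν₁) (up ν₀) F hF2) := by
      rw [← hfF]
      exact hf
    have hM := m2_of_e2 F hF2 F hF2 hE
    obtain ⟨c, F', hc, hF'⟩ := exists_poly F
    have hc' : algebraMap (Rz K) (Lz K) c ≠ 0 := fun h => hc
      (IsFractionRing.injective (Rz K) (Lz K) (h.trans (map_zero _).symm))
    have hM' : M2 ν₁ ν₀ ν₁ ν₀ (F'.map (algebraMap (Rz K) (Lz K)))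
        (F'.map (algebraMap (Rz K) (Lz K))) := by
      rw [hF']
      exact hM.smul hc' hc'
    have hI' : Iw ν₁ ν₀ F' := by
      apply Iw.of_injective (alg K).toLinearMap alg_injective
      have h3 : F'.map (alg K).toLinearMap = F'.map (algebraMap (Rz K) (Lz K)) := rfl
      rw [h3, hF']
      exact ((iw_iff_up ν₁ ν₀ F).mpr hF2).smulΩ _
    obtain ⟨D, hD, hspec⟩ := m2_spec F' F' hM'
    obtain ⟨E, _, _, _, x, hx⟩ := exists_point D hD
    have hE := hspec E (MvPolynomial.aeval x) hx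
    have : Finite E := Module.finite_of_finite K
    have hIE : Iw ν₁ ν₀ (F'.map (MvPolynomial.aeval x : Rz K →ₐ[K] E)) :=
      hI'.map (MvPolynomial.aeval x : Rz K →ₐ[K] E).toLinearMap
    have h1 := m2_rest hIE hIE hE hE
    let m := Module.finrank K E
    let b := Module.finBasis K E
    have h2 := h1.equiv (LinearMap.toMatrixAlgEquiv b)
    have h3 : Iw ν₁ ν₀ (((F'.map (MvPolynomial.aeval x : Rz K →ₐ[K] E)).map
        (Algebra.lmul K E)).map (LinearMap.toMatrixAlgEquiv b)) :=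
      (hIE.map (Algebra.lmul K E).toLinearMap).map (LinearMap.toMatrixAlgEquiv b).toLinearMap
    have h4 := e2_of_m2 h3 h3 h2
    exact hno m Module.finrank_pos _ (h4.transport (LinearEquiv.piCongrRight fun _ => e₁.symm)
      (LinearEquiv.piCongrRight fun _ => e₀.symm))
  obtain ⟨d, hd⟩ := hinf
  obtain ⟨N, hN⟩ := ff_main d hd
  exact semibrick_of_kRep N hN

end main

end Pool.Agent.Helper793Bricks
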