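import Mathlib
import Pool.Agent.Helper793_Bricks.FFL
import Pool.Agent.Helper793_Bricks.Rigid
import Pool.Agent.Helper391_TT.Back

set_option autoImplicit false

namespace Pool.Agent.Helper793Bricks

open Pool.Agent.Helper391_TT

section

variable (k : Type) {A : Type} [Field k] [Ring A] [Algebra k A] [FiniteDimensional k A]

include k in
/-- **Non-rigid lattice points, every field.** -/
theorem lattice_any (V₁ V₀ : ModuleCat.{0} A) [Module.Finite A V₁]
    [Module.Projective A V₁] [Module.Finite A V₀] [Module.Projective A V₀]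
    (hno : ∀ m : ℕ, 1 ≤ m → ∀ f : (Fin m → V₁) →ₗ[A] (Fin m → V₀), ¬ E2 f f) :
    ∃ M : ℕ → ModuleCat.{0} A, (∀ i, Module.Finite A (M i) ∧ IsBrick A (M i)) ∧
      ∀ i j, i ≠ j → ∀ f : M i →ₗ[A] M j, f = 0 := by
  rcases finite_or_infinite k with hk | hk
  · exact ff_lattice (K := k) V₁ V₀ hno
  · have hno' : ∀ f : V₁ →ₗ[A] V₀, ¬ IsRigidMap f := by
      intro f hf
      have hf' : E2 f f := hf
      exact hno 1 le_rfl _ (hf'.transport (LinearEquiv.funUnique (Fin 1) A V₁).symm
        (LinearEquiv.funUnique (Fin 1) A V₀).symm)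
    obtain ⟨d, hd, M, hM, hM0⟩ := exists_semibrick_of_no_rigid k V₁ V₀ hno'
    refine ⟨M, fun i => ?_, hM0⟩
    obtain ⟨h1, h2, h3, h4⟩ := hM i
    exact ⟨inferInstance, h1⟩

variable {k}

omit [FiniteDimensional k A] in
/-- presilting complexes are rigid objects -/
lemma rigid_of_E2 (F : Obj k A) (h : E2 F.f F.f) : Rigid F := by
  unfold Rigid
  rw [ee_eq_zero_iff]
  intro φ
  obtain ⟨ψ, hψ⟩ := Module.projective_lifting_property F.pr φ F.pr_surj
  obtain ⟨α, β, hαβ⟩ := h ψ
  refine ⟨F.pr ∘ₗ α, ?_⟩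
  rw [← hψ, hαβ, LinearMap.comp_add, ← LinearMap.comp_assoc, ← LinearMap.comp_assoc, F.pr_comp,
    LinearMap.zero_comp, add_zero]

/-- **Lattice points outside the fan, every field.** -/
theorem fan_lattice {ι : Type} [Fintype ι] (B : ProjBasis k A ι) (z : ι → ℤ)
    (hz : (fun i => (z i : ℝ)) ∉ B.gFan) :
    ∃ M : ℕ → ModuleCat.{0} A, (∀ i, Module.Finite A (M i) ∧ IsBrick A (M i)) ∧
      ∀ i j, i ≠ j → ∀ f : M i →ₗ[A] M j, f = 0 := by
  classical
  let P₀ : FM k A := FM.pi (fun u : Σ i : ι, Fin (z i).toNat => B.P u.1)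
  let P₁ : FM k A := FM.pi (fun u : Σ i : ι, Fin (-z i).toNat => B.P u.1)
  have hp := B.proj
  have p₀ : Module.Projective A P₀.X := Helper391_TT.projPi (fun u : Σ i : ι, Fin (z i).toNat => (B.P u.1).X)
  have p₁ : Module.Projective A P₁.X := Helper391_TT.projPi (fun u : Σ i : ι, Fin (-z i).toNat => (B.P u.1).X)
  have f₀ : Module.Finite A P₀.X := Module.Finite.of_restrictScalars_finite k A P₀.X
  have f₁ : Module.Finite A P₁.X := Module.Finite.of_restrictScalars_finite k A P₁.X
  have : Module.Projective A (ModuleCat.of A P₀.X) := p₀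
  have : Module.Projective A (ModuleCat.of A P₁.X) := p₁
  have : Module.Finite A (ModuleCat.of A P₀.X) := f₀
  have : Module.Finite A (ModuleCat.of A P₁.X) := f₁
  refine lattice_any k (ModuleCat.of A P₁.X) (ModuleCat.of A P₀.X) (fun m hm f hf => hz ?_)
  let Q : FM k A := FM.pi (fun _ : Fin m => P₁)
  let P : FM k A := FM.pi (fun _ : Fin m => P₀)
  have pQ : Module.Projective A Q.X := Helper391_TT.projPi (fun _ : Fin m => P₁.X)
  have pP : Module.Projective A P.X := Helper391_TT.projPi (fun _ : Fin m => P₀.X)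
  let F : Obj k A := { Q := Q, P := P, f := f, pQ := pQ, pP := pP }
  have hF : Rigid F := rigid_of_E2 F hf
  have hcls : B.Cls F (fun i => (m : ℤ) * z i) := by
    intro X
    unfold chi
    change (dd P X : ℤ) - (dd Q X : ℤ) = _
    rw [dd_pi_left, dd_pi_left]
    simp only [Finset.sum_const, Finset.card_univ, Fintype.card_fin, smul_eq_mul]
    rw [dd_pi_left, dd_pi_left, Fintype.sum_sigma, Fintype.sum_sigma]
    simp only [Finset.sum_const, Finset.card_univ, Fintype.card_fin, smul_eq_mul]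
    push_cast
    rw [← mul_sub, ← Finset.sum_sub_distrib, Finset.mul_sum]
    refine Finset.sum_congr rfl (fun i _ => ?_)
    rw [← sub_mul, mul_assoc]
    congr 2
    omega
  obtain ⟨V, W, hVW, h⟩ := mem_cone_of_cmp B F F hF hF ⟨hF, hF⟩ _ _ hcls hcls
  refine ⟨V, W, hVW, ?_⟩
  have h1 := h (1 / (m : ℝ)) 0 (by positivity) le_rfl
  have h2 : (fun i => 1 / (m : ℝ) * (((m : ℤ) * z i : ℤ) : ℝ) + 0 * (((m : ℤ) * z i : ℤ) : ℝ)) =
      (fun i => (z i : ℝ)) := by
    funext i
    have hm' : (m : ℝ) ≠ 0 := by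
      have : 0 < m := hm
      positivity
    push_cast
    field_simp
    ring
  rw [h2] at h1
  exact h1

end

end Pool.Agent.Helper793Bricks
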