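import Mathlib
import Pool.Agent.Helper793_Bricks.Fan
import Pool.Agent.Helper343_Dio.Dio

set_option autoImplicit false

open Pool.Agent.Helper391_TT Filter Topology

namespace Pool.Agent.Helper793Bricks

variable {k A : Type} [Field k] [Ring A] [Algebra k A] [FiniteDimensional k A]

/-- **Well approximable points outside the fan, every field.** -/
theorem fan_approx {ι : Type} [Fintype ι] (B : ProjBasis k A ι) (θ : ι → ℝ)
    (hθ : θ ∉ B.gFan) (C : ℝ)
    (h : ∀ T : ℝ, ∃ t : ℝ, T < t ∧ ∃ p : ι → ℤ, ∀ i, |t * θ i - p i| ≤ C / t) :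
    ∃ M : ℕ → ModuleCat.{0} A, (∀ i, Module.Finite A (M i) ∧ IsBrick A (M i)) ∧
      ∀ i j, i ≠ j → ∀ f : M i →ₗ[A] M j, f = 0 := by
  classical
  by_contra hcon
  apply hθ
  choose t ht p hp using fun k : ℕ => h k
  have ht0 : ∀ k, 0 < t k := fun k => lt_of_le_of_lt (Nat.cast_nonneg k) (ht k)
  refine Helper343_Dio.mem_gFan_of_approx B (fun x => by
      by_contra hx
      exact hcon (fan_lattice B x hx)) θ p t
    (tendsto_atTop_mono (fun k => (ht k).le) tendsto_natCast_atTop_atTop) (max C 0) fun k => ?_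
  rw [mul_comm, ← le_div_iff₀ (ht0 k), pi_norm_le_iff_of_nonneg
    (div_nonneg (le_max_right _ _) (ht0 k).le)]
  intro i
  rw [Real.norm_eq_abs]
  exact (hp k i).trans (div_le_div_of_nonneg_right (le_max_left _ _) (ht0 k).le)

end Pool.Agent.Helper793Bricks
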