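import Mathlib
import Pool.Agent.Helper793_Bricks.Fan

set_option autoImplicit false

namespace Pool.Agent.Helper793Bricks

open Pool.Agent.Helper391_TT

/-- the indecomposable projective modules of a finite dimensional algebra -/
theorem exists_projBasis (k A : Type) [Field k] [Ring A] [Algebra k A] [FiniteDimensional k A] :
    ∃ (ι : Type) (_ : Fintype ι), Nonempty (ProjBasis k A ι) := by
  classical
  let R : FM k A := { X := A, fd := (inferInstance : FiniteDimensional k A) }
  obtain ⟨n, V, hV, ⟨e⟩⟩ := exists_decomp_fin R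
  have hproj : ∀ j, Module.Projective A (V j).X := fun j => by
    have : Module.Projective A R.X := inferInstanceAs (Module.Projective A A)
    exact proj_of_retract ((retract_pi V j).trans (Retract.of_equiv e.symm))
  let s : Setoid (Fin n) :=
    { r := fun i j => Nonempty ((V i).X ≃ₗ[A] (V j).X)
      iseqv := ⟨fun i => ⟨LinearEquiv.refl A _⟩, fun ⟨e⟩ => ⟨e.symm⟩,
        fun ⟨e⟩ ⟨e'⟩ => ⟨e.trans e'⟩⟩ }
  refine ⟨Quotient s, Fintype.ofFinite _, ⟨⟨fun q => V q.out, fun q => hproj _, fun q => hV _,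
    fun q q' h => ?_, fun W hW hWi => ?_⟩⟩⟩
  · have h1 : s.r q.out q'.out := h
    have h2 : (⟦q.out⟧ : Quotient s) = ⟦q'.out⟧ := Quotient.sound h1
    rwa [Quotient.out_eq, Quotient.out_eq] at h2
  · have hWf : Module.Finite A W.X := Module.Finite.of_restrictScalars_finite k A W.X
    obtain ⟨m, π, hπ⟩ := Module.Finite.exists_fin' A W.X
    obtain ⟨i, hi⟩ := Module.projective_lifting_property π LinearMap.id hπ
    obtain ⟨-, i', r', hir'⟩ := Retract.of_pi k hWi (W := fun _ : Fin m => A) i π hi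
    have h1 : Retract A W.X ((j : Fin n) → (V j).X) :=
      Retract.trans ⟨i', r', hir'⟩ (Retract.of_equiv e)
    obtain ⟨i'', r'', hir''⟩ := h1
    obtain ⟨j, hj⟩ := Retract.of_pi k hWi i'' r'' hir''
    obtain ⟨e1⟩ := hj.equiv (hV j) hWi.1
    have h2 : s.r ((⟦j⟧ : Quotient s).out) j := Quotient.exact (Quotient.out_eq _)
    obtain ⟨e2⟩ := h2
    exact ⟨⟦j⟧, ⟨e1.trans e2.symm⟩⟩

variable {k A : Type} [Field k] [Ring A] [Algebra k A] [FiniteDimensional k A]

omit [FiniteDimensional k A] in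
/-- the fan is stable under positive scaling -/
lemma gFan_smul {ι : Type} (B : ProjBasis k A ι) (x : ι → ℝ) (hx : x ∈ B.gFan) (c : ℝ)
    (hc : 0 ≤ c) : (fun i => c * x i) ∈ B.gFan := by
  obtain ⟨V, P, hVP, J, J', fJ, fJ', V', P', g, h, α, β, h1, h2, h3, h4, h5, h6, hα, hβ, hs⟩ := hx
  refine ⟨V, P, hVP, J, J', fJ, fJ', V', P', g, h, fun i => c * α i, fun j => c * β j, h1, h2, h3,
    h4, h5, h6, fun i => mul_nonneg hc (hα i), fun j => mul_nonneg hc (hβ j), fun l => ?_⟩
  change c * x l = ∑ i, c * α i * (g i l : ℝ) - ∑ j, c * β j * (h j l : ℝ)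
  rw [hs l, mul_sub, Finset.mul_sum, Finset.mul_sum]
  congr 1
  · exact Finset.sum_congr rfl (fun i _ => by ring)
  · exact Finset.sum_congr rfl (fun i _ => by ring)

/-- **Rational points outside the fan, every field.** -/
theorem fan_rational {ι : Type} [Fintype ι] (B : ProjBasis k A ι) (v : ι → ℚ)
    (hv : (fun i => (v i : ℝ)) ∉ B.gFan) :
    ∃ M : ℕ → ModuleCat.{0} A, (∀ i, Module.Finite A (M i) ∧ IsBrick A (M i)) ∧
      ∀ i j, i ≠ j → ∀ f : M i →ₗ[A] M j, f = 0 := by
  classical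
  let D : ℕ := ∏ i, (v i).den
  have hD : 0 < D := Finset.prod_pos (fun i _ => (v i).den_pos)
  have h1 : ∀ i, ∃ z : ℤ, (z : ℚ) = D * v i := by
    intro i
    obtain ⟨c, hc⟩ : (v i).den ∣ D := Finset.dvd_prod_of_mem _ (Finset.mem_univ i)
    refine ⟨c * (v i).num, ?_⟩
    rw [hc]
    push_cast
    have h2 : (v i : ℚ) * (v i).den = (v i).num := Rat.mul_den_eq_num _
    rw [← h2]
    ring
  choose z hz using h1
  refine fan_lattice B z (fun hmem => hv ?_)
  have h3 := gFan_smul B _ hmem (1 / (D : ℝ)) (by positivity)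
  have h4 : (fun i => 1 / (D : ℝ) * (z i : ℝ)) = (fun i => (v i : ℝ)) := by
    funext i
    have h5 : (z i : ℝ) = D * (v i : ℝ) := by exact_mod_cast congrArg (fun q : ℚ => (q : ℝ)) (hz i)
    rw [h5]
    field_simp
  rwa [h4] at h3

end Pool.Agent.Helper793Bricks
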