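import Mathlib
import Pool.Agent.Helper793_Bricks.Chain
import Pool.Agent.Helper793_Bricks.Rigid

set_option autoImplicit false

namespace Pool.Agent.Helper793Bricks

open scoped ModuleCat

section sums

variable {A : Type*} [Ring A]
variable {U₁ U₀ V₁ V₀ W₁ W₀ : Type*} [AddCommGroup U₁] [Module A U₁]
    [AddCommGroup U₀] [Module A U₀] [AddCommGroup V₁] [Module A V₁] [AddCommGroup V₀]
    [Module A V₀] [AddCommGroup W₁] [Module A W₁] [AddCommGroup W₀] [Module A W₀]

lemma E2.prod_left {F : U₁ →ₗ[A] U₀} {G : V₁ →ₗ[A] V₀} {H : W₁ →ₗ[A] W₀}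
    (h : E2 F H) (h' : E2 G H) : E2 (F.prodMap G) H := by
  intro g
  obtain ⟨α, β, h1⟩ := h (g ∘ₗ LinearMap.inl A U₁ V₁)
  obtain ⟨α', β', h2⟩ := h' (g ∘ₗ LinearMap.inr A U₁ V₁)
  refine ⟨α.coprod α', β.coprod β', ?_⟩
  apply LinearMap.ext
  rintro ⟨u, v⟩
  have e1 : g (u, 0) = α (F u) + H (β u) := LinearMap.congr_fun h1 u
  have e2 : g (0, v) = α' (G v) + H (β' v) := LinearMap.congr_fun h2 v
  have e3 : g (u, v) = g (u, 0) + g (0, v) := by rw [← map_add]; simp
  rw [e3, e1, e2]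
  simp only [LinearMap.add_apply, LinearMap.comp_apply, LinearMap.prodMap_apply,
    LinearMap.coprod_apply, map_add]
  abel

lemma E2.prod_right {F : U₁ →ₗ[A] U₀} {G : V₁ →ₗ[A] V₀} {H : W₁ →ₗ[A] W₀}
    (h : E2 H F) (h' : E2 H G) : E2 H (F.prodMap G) := by
  intro g
  obtain ⟨α, β, h1⟩ := h (LinearMap.fst A U₀ V₀ ∘ₗ g)
  obtain ⟨α', β', h2⟩ := h' (LinearMap.snd A U₀ V₀ ∘ₗ g)
  refine ⟨α.prod α', β.prod β', ?_⟩
  exact LinearMap.ext fun x => Prod.ext (LinearMap.congr_fun h1 x) (LinearMap.congr_fun h2 x)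

end sums

section

variable {K A : Type} [Field K] [Ring A] [Algebra K A] [FiniteDimensional K A]

variable (V₁ V₀ W₁ W₀ : ModuleCat.{0} A)

/-- source/target of class `(a, b)` -/
abbrev Obj (V W : ModuleCat.{0} A) (a b : ℕ) : Type := (Fin a → V) × (Fin b → W)

/-- splitting -/
def objSplit (V W : ModuleCat.{0} A) (a b a' b' : ℕ) :
    Obj V W (a' + a) (b' + b) ≃ₗ[A] Obj V W a' b' × Obj V W a b :=
  ((powSplit A V a' a).prodCongr (powSplit A W b' b)).trans
    (LinearEquiv.prodProdProdComm A _ _ _ _)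

variable [Module.Finite A V₁] [Module.Finite A V₀] [Module.Finite A W₁] [Module.Finite A W₀]

variable (R : ∀ a b : ℕ, Obj V₁ W₁ a b →ₗ[A] Obj V₀ W₀ a b)

omit [FiniteDimensional K A] in
include K in
lemma plane_fd [FiniteDimensional K A] (X Y : Type) [AddCommGroup X] [Module A X]
    [AddCommGroup Y] [Module A Y] [Module K Y] [IsScalarTower K A Y]
    [Module.Finite A X] [Module.Finite A Y] : FiniteDimensional K (X →ₗ[A] Y) := by
  have : FiniteDimensional K Y := Module.Finite.trans A Y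
  exact finDimHom K

/-- both exchanges decrease, or are zero -/
lemma plane_dec (hR : ∀ a b, E2 (R a b) (R a b)) (a b a' b' : ℕ)
    (h : e2 K (R a b) (R a' b') ≠ 0) :
    e2 K (R a b) (R (a' + a) (b' + b)) < e2 K (R a b) (R a' b') ∧
    e2 K (R (a' + a) (b' + b)) (R a' b') < e2 K (R a b) (R a' b') := by
  have : FiniteDimensional K V₁ := Module.Finite.trans A V₁
  have : FiniteDimensional K V₀ := Module.Finite.trans A V₀
  have : FiniteDimensional K W₁ := Module.Finite.trans A W₁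
  have : FiniteDimensional K W₀ := Module.Finite.trans A W₀
  have hf1 : ∀ n m k l : ℕ, FiniteDimensional K (Obj V₁ W₁ n m →ₗ[A] Obj V₀ W₀ k l) :=
    fun n m k l => plane_fd _ _
  have hf2 : ∀ n m k l : ℕ, FiniteDimensional K (Obj V₀ W₀ n m →ₗ[A] Obj V₀ W₀ k l) :=
    fun n m k l => plane_fd _ _
  have hf3 : ∀ n m k l : ℕ, FiniteDimensional K (Obj V₁ W₁ n m →ₗ[A] Obj V₁ W₁ k l) :=
    fun n m k l => plane_fd _ _
  obtain ⟨ξ, hξ⟩ : ∃ ξ, ξ ∉ nullS K (R a b) (R a' b') := by
    by_contra hcon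
    push Not at hcon
    apply h
    rw [e2_eq_zero_iff, ← nullS_eq_top_iff (K := K), eq_top_iff]
    intro x _
    exact hcon x
  have h1 := ext_lt_a (R a b) (hR a b) (R a' b') ξ hξ
  have h2 := ext_lt_b (R a b) (R a' b') (hR a' b') ξ hξ
  constructor
  · refine lt_of_le_of_lt ?_ h1
    rw [← e2_congr_right (objSplit V₁ W₁ a b a' b') (objSplit V₀ W₀ a b a' b') (R a b)
      (extMap (R a b) (R a' b') ξ)]
    exact e2_le_right _ _ (hR _ _) _
  · refine lt_of_le_of_lt ?_ h2
    rw [← e2_congr_left (objSplit V₁ W₁ a b a' b') (objSplit V₀ W₀ a b a' b')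
      (extMap (R a b) (R a' b') ξ) (R a' b')]
    exact e2_le_left _ (hR _ _) _ _

lemma plane_zero (hR : ∀ a b, E2 (R a b) (R a b)) (a b a' b' : ℕ)
    (h : e2 K (R a b) (R a' b') = 0) :
    e2 K (R a b) (R (a' + a) (b' + b)) = 0 ∧
    e2 K (R (a' + a) (b' + b)) (R a' b') = 0 := by
  have : FiniteDimensional K V₁ := Module.Finite.trans A V₁
  have : FiniteDimensional K V₀ := Module.Finite.trans A V₀
  have : FiniteDimensional K W₁ := Module.Finite.trans A W₁
  have : FiniteDimensional K W₀ := Module.Finite.trans A W₀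
  have hf1 : ∀ n m k l : ℕ, FiniteDimensional K (Obj V₁ W₁ n m →ₗ[A] Obj V₀ W₀ k l) :=
    fun n m k l => plane_fd _ _
  have hf2 : ∀ n m k l : ℕ, FiniteDimensional K (Obj V₀ W₀ n m →ₗ[A] Obj V₀ W₀ k l) :=
    fun n m k l => plane_fd _ _
  have hf3 : ∀ n m k l : ℕ, FiniteDimensional K (Obj V₁ W₁ n m →ₗ[A] Obj V₁ W₁ k l) :=
    fun n m k l => plane_fd _ _
  have hf4 : ∀ n m : ℕ, FiniteDimensional K (Obj V₁ W₁ n m →ₗ[A]
      (Obj V₀ W₀ a' b' × Obj V₀ W₀ a b)) := fun n m => plane_fd _ _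
  have hf5 : ∀ n m : ℕ, FiniteDimensional K ((Obj V₁ W₁ a' b' × Obj V₁ W₁ a b) →ₗ[A]
      Obj V₀ W₀ n m) := fun n m => plane_fd _ _
  rw [e2_eq_zero_iff] at h
  have h1 : e2 K (R a b) ((R a' b').prodMap (R a b)) = 0 := by
    rw [e2_eq_zero_iff]
    exact h.prod_right (hR a b)
  have h2 : e2 K ((R a' b').prodMap (R a b)) (R a' b') = 0 := by
    rw [e2_eq_zero_iff]
    exact (hR a' b').prod_left h
  constructor
  · rw [← Nat.le_zero, ← h1]
    rw [← e2_congr_right (objSplit V₁ W₁ a b a' b') (objSplit V₀ W₀ a b a' b') (R a b)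
      ((R a' b').prodMap (R a b))]
    exact e2_le_right _ _ (hR _ _) _
  · rw [← Nat.le_zero, ← h2]
    rw [← e2_congr_left (objSplit V₁ W₁ a b a' b') (objSplit V₀ W₀ a b a' b')
      ((R a' b').prodMap (R a b)) (R a' b')]
    exact e2_le_left _ (hR _ _) _ _

/-- **Plane theorem**: every point of the cone spanned by two classes lies in the cone spanned by
two compatible rigid classes. -/
theorem plane_cone (hR : ∀ a b, E2 (R a b) (R a b)) :
    ∀ (n a b a' b' : ℕ), e2 K (R a b) (R a' b') + e2 K (R a' b') (R a b) = n →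
      ∀ s t : ℝ, 0 ≤ s → 0 ≤ t → ∃ (c d c' d' : ℕ) (s' t' : ℝ), 0 ≤ s' ∧ 0 ≤ t' ∧
        s * a + t * a' = s' * c + t' * c' ∧ s * b + t * b' = s' * d + t' * d' ∧
        E2 (R c d) (R c' d') ∧ E2 (R c' d') (R c d) := by
  have : FiniteDimensional K V₁ := Module.Finite.trans A V₁
  have : FiniteDimensional K V₀ := Module.Finite.trans A V₀
  have : FiniteDimensional K W₁ := Module.Finite.trans A W₁
  have : FiniteDimensional K W₀ := Module.Finite.trans A W₀
  have hf1 : ∀ n m k l : ℕ, FiniteDimensional K (Obj V₁ W₁ n m →ₗ[A] Obj V₀ W₀ k l) :=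
    fun n m k l => plane_fd _ _
  intro n
  induction n using Nat.strong_induction_on with
  | _ n ih =>
  intro a b a' b' hn s t hs ht
  by_cases h0 : n = 0
  · refine ⟨a, b, a', b', s, t, hs, ht, rfl, rfl, ?_, ?_⟩
    · rw [← e2_eq_zero_iff (K := K)]; omega
    · rw [← e2_eq_zero_iff (K := K)]; omega
  -- the four exchange values
  have key : ∀ p q p' q' : ℕ, (e2 K (R p q) (R (p' + p) (q' + q)) ≤ e2 K (R p q) (R p' q') ∧
      e2 K (R (p' + p) (q' + q)) (R p' q') ≤ e2 K (R p q) (R p' q')) ∧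
      (e2 K (R p q) (R p' q') ≠ 0 →
        e2 K (R p q) (R (p' + p) (q' + q)) < e2 K (R p q) (R p' q') ∧
      e2 K (R (p' + p) (q' + q)) (R p' q') < e2 K (R p q) (R p' q')) := by
    intro p q p' q'
    by_cases h : e2 K (R p q) (R p' q') = 0
    · have := plane_zero (K := K) V₁ V₀ W₁ W₀ R hR p q p' q' h
      refine ⟨⟨?_, ?_⟩, fun h' => absurd h h'⟩ <;> omega
    · have := plane_dec (K := K) V₁ V₀ W₁ W₀ R hR p q p' q' h
      exact ⟨⟨this.1.le, this.2.le⟩, fun _ => this⟩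
  have k1 := key a b a' b'
  have k2 := key a' b' a b
  have c1 : a' + a = a + a' := Nat.add_comm _ _
  have c2 : b' + b = b + b' := Nat.add_comm _ _
  rw [c1, c2] at k1
  -- D(v, m) < n and D(m, w) < n
  have d1 : e2 K (R a b) (R (a + a') (b + b')) + e2 K (R (a + a') (b + b')) (R a b) < n := by
    rcases Nat.eq_zero_or_pos (e2 K (R a b) (R a' b')) with h | h
    · have h' : e2 K (R a' b') (R a b) ≠ 0 := by omega
      have := (k2.2 h').2
      have := k1.1.1
      omega
    · have := (k1.2 (by omega)).1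
      have := k2.1.2
      omega
  have d2 : e2 K (R (a + a') (b + b')) (R a' b') + e2 K (R a' b') (R (a + a') (b + b')) < n := by
    rcases Nat.eq_zero_or_pos (e2 K (R a b) (R a' b')) with h | h
    · have h' : e2 K (R a' b') (R a b) ≠ 0 := by omega
      have := (k2.2 h').1
      have := k1.1.2
      omega
    · have := (k1.2 (by omega)).2
      have := k2.1.1
      omega
  rcases le_total s t with hst | hst
  · obtain ⟨c, d, c', d', s', t', hs', ht', e1, e2, h1, h2⟩ := ih _ d2 (a + a') (b + b') a' b' rfl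
      s (t - s) hs (by linarith)
    refine ⟨c, d, c', d', s', t', hs', ht', ?_, ?_, h1, h2⟩
    · rw [← e1]; push_cast; ring
    · rw [← e2]; push_cast; ring
  · obtain ⟨c, d, c', d', s', t', hs', ht', e1, e2, h1, h2⟩ := ih _ d1 a b (a + a') (b + b') rfl
      (s - t) t (by linarith) ht
    refine ⟨c, d, c', d', s', t', hs', ht', ?_, ?_, h1, h2⟩
    · rw [← e1]; push_cast; ring
    · rw [← e2]; push_cast; ring

end

end Pool.Agent.Helper793Bricks
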