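import Mathlib
import Pool.Agent.Helper793_Bricks.PBasis
import Pool.Agent.Helper391_TT.Planar

set_option autoImplicit false

namespace Pool.Agent.Helper793Bricks

open Pool.Agent.Helper391_TT

variable {k A : Type} [Field k] [Ring A] [Algebra k A] [FiniteDimensional k A]

/-- if all lattice points of a rational cone of dimension two lie in the fan, so do all its real
points (this is the covering theorem of `Helper391_TT`) -/
theorem plane_mem {ι : Type} [Fintype ι] (B : ProjBasis k A ι) (v w : ι → ℤ)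
    (h : ∀ a b : ℕ, (fun i => (((a : ℤ) * v i + (b : ℤ) * w i : ℤ) : ℝ)) ∈ B.gFan) (s t : ℝ)
    (hs : 0 ≤ s) (ht : 0 ≤ t) : (fun i => s * (v i : ℝ) + t * (w i : ℝ)) ∈ B.gFan := by
  have h1 : ∀ a b : ℕ, ∃ H : Obj k A, Rigid H ∧
      B.Cls H (fun i => (a : ℤ) * v i + (b : ℤ) * w i) :=
    fun a b => rigid_of_mem B _ (h a b)
  obtain ⟨F, hF, cF⟩ := h1 1 0
  obtain ⟨G, hG, cG⟩ := h1 0 1
  have cF' : B.Cls F v := by
    intro X
    rw [cF X]
    exact Finset.sum_congr rfl fun i _ => by push_cast; ring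
  have cG' : B.Cls G w := by
    intro X
    rw [cG X]
    exact Finset.sum_congr rfl fun i _ => by push_cast; ring
  have comb : ∀ (H : Obj k A) (a b : ℕ), (∀ X, chi H X = a * chi F X + b * chi G X) →
      B.Cls H (fun i => (a : ℤ) * v i + (b : ℤ) * w i) := by
    intro H a b hH X
    rw [hH X, cF' X, cG' X, Finset.mul_sum, Finset.mul_sum, ← Finset.sum_add_distrib]
    exact Finset.sum_congr rfl fun i _ => by ring
  obtain ⟨L, hL⟩ := cov_of_all F G hF hG (fun a b => by
    obtain ⟨H, hH, cH⟩ := h1 a b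
    refine ⟨H, hH, fun X => ?_⟩
    rw [cH X, cF' X, cG' X, Finset.mul_sum, Finset.mul_sum, ← Finset.sum_add_distrib]
    exact Finset.sum_congr rfl fun i _ => by ring)
  obtain ⟨p, hp, s', t', hs', ht', e1, e2⟩ := hL s t hs ht
  obtain ⟨V, P, hVP, hmem⟩ := mem_cone_of_cmp B p.F' p.G' p.rF p.rG p.cmp
    (fun i => (p.a : ℤ) * v i + (p.b : ℤ) * w i) (fun i => (p.c : ℤ) * v i + (p.d : ℤ) * w i)
    (comb p.F' p.a p.b p.hF) (comb p.G' p.c p.d p.hG)
  refine ⟨V, P, hVP, ?_⟩
  have h3 := hmem s' t' hs' ht'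
  have h4 : (fun i => s * (v i : ℝ) + t * (w i : ℝ)) = fun i =>
      s' * (((p.a : ℤ) * v i + (p.b : ℤ) * w i : ℤ) : ℝ) +
      t' * (((p.c : ℤ) * v i + (p.d : ℤ) * w i : ℤ) : ℝ) := by
    funext i
    push_cast
    rw [e1, e2]
    ring
  rw [h4]
  exact h3

/-- **Points of rational planes outside the fan, every field.** -/
theorem fan_plane {ι : Type} [Fintype ι] (B : ProjBasis k A ι) (v w : ι → ℤ) (s t : ℝ)
    (hθ : (fun i => s * (v i : ℝ) + t * (w i : ℝ)) ∉ B.gFan) :
    ∃ M : ℕ → ModuleCat.{0} A, (∀ i, Module.Finite A (M i) ∧ IsBrick A (M i)) ∧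
      ∀ i j, i ≠ j → ∀ f : M i →ₗ[A] M j, f = 0 := by
  by_contra hcon
  have hall : ∀ z : ι → ℤ, (fun i => (z i : ℝ)) ∈ B.gFan := by
    intro z
    by_contra hz
    exact hcon (fan_lattice B z hz)
  apply hθ
  have key : ∀ (e e' : ℤ) (s' t' : ℝ), 0 ≤ s' → 0 ≤ t' →
      (fun i => s' * ((e * v i : ℤ) : ℝ) + t' * ((e' * w i : ℤ) : ℝ)) ∈ B.gFan := by
    intro e e' s' t' hs' ht'
    exact plane_mem B (fun i => e * v i) (fun i => e' * w i) (fun a b => hall _) s' t' hs' ht'
  rcases le_total 0 s with hs | hs <;> rcases le_total 0 t with ht | ht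
  · have h := key 1 1 s t hs ht
    simpa using h
  · have h := key 1 (-1) s (-t) hs (by linarith)
    simpa using h
  · have h := key (-1) 1 (-s) t (by linarith) ht
    simpa using h
  · have h := key (-1) (-1) (-s) (-t) (by linarith) (by linarith)
    simpa using h

end Pool.Agent.Helper793Bricks
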