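import Mathlib

set_option autoImplicit false

open Filter

namespace Pool.Agent.Helper793Bricks

/-! A combinatorial trichotomy for two relations (being a submodule, being a quotient), proved with
ultrafilters. -/

section

variable {X : Type*}

/-- elements related to almost all elements -/
def Lim (r : X → X → Prop) (U : Ultrafilter X) : Set X := {d | ∀ᶠ n in (U : Filter X), r d n}

lemma not_mem_Lim {r : X → X → Prop} {U : Ultrafilter X} {d : X} :
    d ∉ Lim r U ↔ ∀ᶠ n in (U : Filter X), ¬ r d n := Ultrafilter.eventually_not.symm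

/-- the pair of limit sets as one set -/
def LimP (s q : X → X → Prop) (U : Ultrafilter X) : Set (X ⊕ X) :=
  {e | Sum.elim (fun d => d ∈ Lim s U) (fun d => d ∈ Lim q U) e}

/-- relation indexed by the sum -/
def relP (s q : X → X → Prop) (e : X ⊕ X) (n : X) : Prop :=
  Sum.elim (fun d => s d n) (fun d => q d n) e

lemma mem_LimP {s q : X → X → Prop} {U : Ultrafilter X} {e : X ⊕ X} :
    e ∈ LimP s q U ↔ ∀ᶠ n in (U : Filter X), relP s q e n := by
  rcases e with d | d <;> rfl

lemma not_mem_LimP {s q : X → X → Prop} {U : Ultrafilter X} {e : X ⊕ X} :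
    e ∉ LimP s q U ↔ ∀ᶠ n in (U : Filter X), ¬ relP s q e n := by
  rw [mem_LimP]
  exact Ultrafilter.eventually_not.symm

/-- existence of a nonprincipal ultrafilter with minimal limit sets -/
theorem exists_minimal_ultra [Infinite X] (s q : X → X → Prop) :
    ∃ U : Ultrafilter X, (U : Filter X) ≤ cofinite ∧ ∀ U' : Ultrafilter X,
      (U' : Filter X) ≤ cofinite → LimP s q U' ⊆ LimP s q U → LimP s q U ⊆ LimP s q U' := by
  classical
  let 𝒮 : Set (Set (X ⊕ X)) :=
    {P | ∃ U : Ultrafilter X, (U : Filter X) ≤ cofinite ∧ LimP s q U = P}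
  obtain ⟨m, hm⟩ := zorn_superset 𝒮 (by
    intro c hc hch
    rcases c.eq_empty_or_nonempty with rfl | ⟨P₀, hP₀⟩
    · exact ⟨_, ⟨hyperfilter X, hyperfilter_le_cofinite, rfl⟩, fun P hP => hP.elim⟩
    let Sg : Set (Set X) := {t | tᶜ.Finite} ∪ {t | ∃ e, e ∉ ⋂₀ c ∧ t = {n | ¬ relP s q e n}}
    -- finitely many sets of `Sg` belong to a common ultrafilter
    have key : ∀ T : Finset (Set X), (↑T : Set (Set X)) ⊆ Sg → ∃ P ∈ c,
        ∀ U : Ultrafilter X, (U : Filter X) ≤ cofinite → LimP s q U ⊆ P → ∀ t ∈ T, t ∈ U := by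
      intro T
      induction T using Finset.induction_on with
      | empty => exact fun _ => ⟨P₀, hP₀, fun U _ _ t ht => by simp at ht⟩
      | insert a T ha ih =>
        intro hT
        rw [Finset.coe_insert, Set.insert_subset_iff] at hT
        obtain ⟨P, hP, h1⟩ := ih hT.2
        rcases hT.1 with h2 | ⟨e, he, rfl⟩
        · refine ⟨P, hP, fun U hU hUP t ht => ?_⟩
          rcases Finset.mem_insert.mp ht with rfl | ht
          · exact hU (mem_cofinite.mpr h2)
          · exact h1 U hU hUP t ht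
        · rw [Set.mem_sInter] at he
          push Not at he
          obtain ⟨P', hP', heP'⟩ := he
          rcases hch.total hP hP' with hle | hle
          · refine ⟨P, hP, fun U hU hUP t ht => ?_⟩
            rcases Finset.mem_insert.mp ht with rfl | ht
            · exact not_mem_LimP.mp (fun h => heP' (hle (hUP h)))
            · exact h1 U hU hUP t ht
          · refine ⟨P', hP', fun U hU hUP t ht => ?_⟩
            rcases Finset.mem_insert.mp ht with rfl | ht
            · exact not_mem_LimP.mp (fun h => heP' (hUP h))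
            · exact h1 U hU (hUP.trans hle) t ht
    obtain ⟨U, hU⟩ := Ultrafilter.exists_ultrafilter_of_finite_inter_nonempty Sg (by
      intro T hT
      obtain ⟨P, hP, h1⟩ := key T hT
      obtain ⟨V, hV, rfl⟩ := hc hP
      have h2 : (⋂₀ (↑T : Set (Set X))) ∈ (V : Filter X) :=
        (Filter.sInter_mem T.finite_toSet).mpr (fun t ht => h1 V hV subset_rfl t ht)
      exact Filter.nonempty_of_mem h2)
    refine ⟨_, ⟨U, ?_, rfl⟩, fun P hP e he => ?_⟩
    · intro t ht
      exact hU (Or.inl (mem_cofinite.mp ht))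
    · by_contra heP
      have h3 : {n | ¬ relP s q e n} ∈ U := hU (Or.inr ⟨e, fun h => heP (h P hP), rfl⟩)
      exact (not_mem_LimP.mpr h3) he)
  obtain ⟨⟨U, hU, rfl⟩, hmin⟩ := hm
  exact ⟨U, hU, fun U' hU' hle => hmin ⟨U', hU', rfl⟩ hle⟩

/-- symmetric form -/
theorem exists_minimal_ultra' [Infinite X] (s q : X → X → Prop) :
    ∃ U : Ultrafilter X, (U : Filter X) ≤ cofinite ∧ ∀ U' : Ultrafilter X,
      (U' : Filter X) ≤ cofinite → Lim s U' ⊆ Lim s U → Lim q U' ⊆ Lim q U →
        Lim s U ⊆ Lim s U' ∧ Lim q U ⊆ Lim q U' := by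
  obtain ⟨U, hU, h⟩ := exists_minimal_ultra s q
  refine ⟨U, hU, fun U' hU' h1 h2 => ?_⟩
  have h3 := h U' hU' (by
    rintro (d | d) hd
    · exact h1 hd
    · exact h2 hd)
  exact ⟨fun d hd => h3 (a := Sum.inl d) hd, fun d hd => h3 (a := Sum.inr d) hd⟩

/-- if almost all elements have a quotient which is a submodule of almost all elements, there is an
infinite chain -/
theorem chain_of_ultra (s q : X → X → Prop) (hs : ∀ a b c, s a b → s b c → s a c)
    (hq : ∀ a b c, q a b → q b c → q a c) (hsq : ∀ a b, s a b → q a b → a = b)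
    (U : Ultrafilter X) (hU : (U : Filter X) ≤ cofinite)
    (hmin : ∀ U' : Ultrafilter X, (U' : Filter X) ≤ cofinite → Lim s U' ⊆ Lim s U →
      Lim q U' ⊆ Lim q U → Lim s U ⊆ Lim s U' ∧ Lim q U ⊆ Lim q U')
    (hA : ∀ᶠ n in (U : Filter X), ∃ d, q d n ∧ d ∈ Lim s U) :
    ∃ M : ℕ → X, ∀ i j, i < j → s (M i) (M j) ∧ M i ≠ M j := by
  classical
  let D : X → X := fun n => if h : ∃ d, q d n ∧ d ∈ Lim s U then h.choose else n
  have hD : ∀ᶠ n in (U : Filter X), q (D n) n ∧ D n ∈ Lim s U := by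
    filter_upwards [hA] with n hn
    simp only [D, dif_pos hn]
    exact hn.choose_spec
  let U' : Ultrafilter X := U.map D
  have hU' : (U' : Filter X) ≤ cofinite := by
    rw [le_cofinite_iff_compl_singleton_mem]
    intro d
    by_contra hcon
    have h1 : ∀ᶠ n in (U : Filter X), D n = d := by
      have h2 : ¬ ∀ᶠ n in (U : Filter X), D n ≠ d := hcon
      rw [← Ultrafilter.eventually_not] at h2
      exact h2.mono (fun n hn => not_not.mp hn)
    obtain ⟨n, ⟨-, hn2⟩, hn3⟩ := (hD.and h1).exists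
    rw [hn3] at hn2
    have h3 : ∀ᶠ m in (U : Filter X), m ≠ d := le_cofinite_iff_compl_singleton_mem.mp hU d
    obtain ⟨m, ⟨⟨hm1, -⟩, hm2⟩, hm3, hm4⟩ := ((hD.and h1).and (hn2.and h3)).exists
    rw [hm2] at hm1
    exact hm4 (hsq d m hm3 hm1).symm
  have hS : Lim s U' ⊆ Lim s U := by
    intro d hd
    have h1 : ∀ᶠ n in (U : Filter X), s d (D n) := hd
    obtain ⟨n, ⟨-, hn2⟩, hn3⟩ := (hD.and h1).exists
    have h2 : ∀ᶠ m in (U : Filter X), s (D n) m := hn2
    exact h2.mono (fun m hm => hs _ _ _ hn3 hm)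
  have hQ : Lim q U' ⊆ Lim q U := by
    intro d hd
    have h1 : ∀ᶠ n in (U : Filter X), q d (D n) := hd
    exact (hD.and h1).mono (fun n hn => hq _ _ _ hn.2 hn.1.1)
  have h3 := (hmin U' hU' hS hQ).1
  have h4 : ∀ᶠ n in (U' : Filter X), n ∈ Lim s U := hD.mono (fun n hn => hn.2)
  obtain ⟨M, -, hM⟩ := exists_seq_of_forall_finset_exists (fun n => n ∈ Lim s U)
    (fun a b => s a b ∧ a ≠ b) (by
      intro t ht
      have h5 : ∀ᶠ n in (U' : Filter X), ∀ a ∈ t, s a n ∧ a ≠ n := by
        rw [Filter.eventually_all_finset]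
        intro a ha
        have h6 : ∀ᶠ n in (U' : Filter X), s a n := h3 (ht a ha)
        have h7 : ∀ᶠ n in (U' : Filter X), n ≠ a := le_cofinite_iff_compl_singleton_mem.mp hU' a
        exact (h6.and h7).mono (fun n hn => ⟨hn.1, hn.2.symm⟩)
      exact (h4.and h5).exists)
  exact ⟨M, hM⟩

/-- **Combinatorial trichotomy.** -/
theorem trichotomy [Infinite X] (s q : X → X → Prop) (hs : ∀ a b c, s a b → s b c → s a c)
    (hq : ∀ a b c, q a b → q b c → q a c) (hsq : ∀ a b, s a b → q a b → a = b)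
    (hfs : ∀ b, {a | s a b}.Finite) (hfq : ∀ b, {a | q a b}.Finite) :
    ∃ M : ℕ → X, Function.Injective M ∧
      ((∀ i j, i ≠ j → ¬ ∃ d, q d (M i) ∧ s d (M j)) ∨ (∀ i j, i < j → s (M i) (M j)) ∨
        (∀ i j, i < j → q (M i) (M j))) := by
  classical
  have hinj : ∀ M : ℕ → X, (∀ i j, i < j → M i ≠ M j) → Function.Injective M := by
    intro M hM i j hij
    rcases lt_trichotomy i j with h | h | h
    · exact absurd hij (hM i j h)
    · exact h
    · exact absurd hij.symm (hM j i h)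
  obtain ⟨U, hU, hmin⟩ := exists_minimal_ultra' s q
  by_cases hA : ∀ᶠ n in (U : Filter X), ∃ d, q d n ∧ d ∈ Lim s U
  · obtain ⟨M, hM⟩ := chain_of_ultra s q hs hq hsq U hU hmin hA
    exact ⟨M, hinj M (fun i j h => (hM i j h).2), Or.inr (Or.inl fun i j h => (hM i j h).1)⟩
  by_cases hB : ∀ᶠ n in (U : Filter X), ∃ d, s d n ∧ d ∈ Lim q U
  · obtain ⟨M, hM⟩ := chain_of_ultra q s hq hs (fun a b h1 h2 => hsq a b h2 h1) U hU
      (fun U' hU' h1 h2 => (hmin U' hU' h2 h1).symm) hB
    exact ⟨M, hinj M (fun i j h => (hM i j h).2), Or.inr (Or.inr fun i j h => (hM i j h).1)⟩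
  rw [← Ultrafilter.eventually_not] at hA hB
  obtain ⟨M, hM1, hM2⟩ := exists_seq_of_forall_finset_exists
    (fun n => (¬ ∃ d, q d n ∧ d ∈ Lim s U) ∧ ¬ ∃ d, s d n ∧ d ∈ Lim q U)
    (fun a b => ((¬ ∃ d, q d a ∧ s d b) ∧ ¬ ∃ d, q d b ∧ s d a) ∧ a ≠ b) (by
      intro t ht
      have h5 : ∀ᶠ n in (U : Filter X), ∀ a ∈ t,
          ((¬ ∃ d, q d a ∧ s d n) ∧ ¬ ∃ d, q d n ∧ s d a) ∧ a ≠ n := by
        rw [Filter.eventually_all_finset]
        intro a ha
        obtain ⟨ha1, ha2⟩ := ht a ha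
        have h6 : ∀ᶠ n in (U : Filter X), ∀ d ∈ {d | q d a}, ¬ s d n := by
          rw [Filter.eventually_all_finite (hfq a)]
          intro d hd
          exact not_mem_Lim.mp (fun h => ha1 ⟨d, hd, h⟩)
        have h7 : ∀ᶠ n in (U : Filter X), ∀ d ∈ {d | s d a}, ¬ q d n := by
          rw [Filter.eventually_all_finite (hfs a)]
          intro d hd
          exact not_mem_Lim.mp (fun h => ha2 ⟨d, hd, h⟩)
        have h8 : ∀ᶠ n in (U : Filter X), n ≠ a := le_cofinite_iff_compl_singleton_mem.mp hU a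
        filter_upwards [h6, h7, h8] with n hn6 hn7 hn8
        exact ⟨⟨fun ⟨d, hd1, hd2⟩ => hn6 d hd1 hd2, fun ⟨d, hd1, hd2⟩ => hn7 d hd2 hd1⟩, hn8.symm⟩
      exact ((hA.and hB).and h5).exists)
  refine ⟨M, hinj M (fun i j h => (hM2 i j h).2), Or.inl (fun i j hij => ?_)⟩
  rcases lt_or_gt_of_ne hij with h | h
  · exact (hM2 i j h).1.1
  · exact (hM2 j i h).1.2

end

end Pool.Agent.Helper793Bricks
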