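import Mathlib
import Pool.Agent.Helper793_Bricks.Cat
import Pool.Agent.Helper793_Bricks.Ultra

set_option autoImplicit false

open CategoryTheory

namespace Pool.Agent.Helper793Bricks

universe u v w

variable {R : Type u} [Ring R]

/-- class of a module -/
def cl (M : ModuleCat.{v} R) : Cls.{u, v} R := Quotient.mk (isoSetoid R) M

lemma cl_out (c : Cls.{u, v} R) : cl (Quotient.out c) = c := Quotient.out_eq c

lemma cl_eq {M N : ModuleCat.{v} R} (h : Nonempty (M ≃ₗ[R] N)) : cl M = cl N := Quotient.sound h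

lemma equiv_of_cl {M N : ModuleCat.{v} R} (h : cl M = cl N) : Nonempty (M ≃ₗ[R] N) :=
  Quotient.exact h

/-- classes of finite length bricks of length `≤ n` -/
def BrLe (R : Type u) [Ring R] (n : ℕ∞) : Set (Cls.{u, v} R) :=
  {c | ∃ d : ℕ, (d : ℕ∞) ≤ n ∧ c ∈ BrCls.{u, v} R d}

/-- the submodule relation on classes -/
def SubRel (a b : Cls.{u, v} R) : Prop :=
  ∃ f : (Quotient.out a : ModuleCat.{v} R) →ₗ[R] (Quotient.out b : ModuleCat.{v} R),
    Function.Injective f

/-- the quotient relation on classes: `a` is a quotient of `b` -/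
def QuoRel (a b : Cls.{u, v} R) : Prop :=
  ∃ f : (Quotient.out b : ModuleCat.{v} R) →ₗ[R] (Quotient.out a : ModuleCat.{v} R),
    Function.Surjective f

lemma isBr_out {c : Cls.{u, v} R} {d : ℕ} (hc : c ∈ BrCls.{u, v} R d) :
    IsBr R d (Quotient.out c : ModuleCat.{v} R) := by
  obtain ⟨M, hM, hM1, hM2, hM3, hM4⟩ := hc
  obtain ⟨e⟩ : Nonempty (M ≃ₗ[R] (Quotient.out c : ModuleCat.{v} R)) :=
    equiv_of_cl (by rw [cl_out]; exact hM)
  refine ⟨hM1.of_equiv e, ?_, ?_, ?_⟩
  · exact isArtinian_of_linearEquiv e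
  · exact isNoetherian_of_linearEquiv e
  · rw [← len_eq_of_equiv e, hM4]

lemma isBrick_out {n : ℕ∞} {c : Cls.{u, v} R} (hc : c ∈ BrLe R n) :
    IsBrick R (Quotient.out c : ModuleCat.{v} R) ∧
      IsArtinian R (Quotient.out c : ModuleCat.{v} R) ∧
      IsNoetherian R (Quotient.out c : ModuleCat.{v} R) ∧
      (len R (Quotient.out c : ModuleCat.{v} R) : ℕ∞) ≤ n ∧
      c ∈ BrCls.{u, v} R (len R (Quotient.out c : ModuleCat.{v} R)) := by
  obtain ⟨d, hd, hc⟩ := hc
  obtain ⟨h1, h2, h3, h4⟩ := isBr_out hc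
  refine ⟨h1, h2, h3, by rw [h4]; exact hd, by rw [h4]; exact hc⟩

/-- a nonzero map between bricks of length `≤ n` factors through a brick which is a quotient of the
source and a submodule of the target -/
lemma exists_mid {n : ℕ∞} {a b : Cls.{u, v} R} (ha : a ∈ BrLe R n) (hb : b ∈ BrLe R n)
    (f : (Quotient.out a : ModuleCat.{v} R) →ₗ[R] (Quotient.out b : ModuleCat.{v} R))
    (hf : f ≠ 0) : ∃ d ∈ BrLe.{u, v} R n, QuoRel d a ∧ SubRel d b := by
  obtain ⟨ha1, ha2, ha3, ha4, ha5⟩ := isBrick_out ha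
  obtain ⟨hb1, hb2, hb3, hb4, hb5⟩ := isBrick_out hb
  have : Nontrivial (LinearMap.range f) := by
    rw [Submodule.nontrivial_iff_ne_bot]
    intro h
    exact hf (LinearMap.range_eq_bot.mp h)
  obtain ⟨C, hC, q, hq⟩ := exists_image_brick (R := R) (LinearMap.range f)
  have hClen : len R C ≤ len R (Quotient.out b : ModuleCat.{v} R) :=
    (len_le_of_surjective q hq).trans
      (len_le_of_injective (LinearMap.range f).subtype (Submodule.subtype_injective _))
  let D : Cls.{u, v} R := cl (ModuleCat.of R C)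
  obtain ⟨eD⟩ : Nonempty ((Quotient.out D : ModuleCat.{v} R) ≃ₗ[R] C) :=
    equiv_of_cl (M := (Quotient.out D : ModuleCat.{v} R)) (N := ModuleCat.of R C)
      (by rw [cl_out])
  refine ⟨D, ⟨len R C, le_trans (by exact_mod_cast hClen) hb4, ModuleCat.of R C, rfl, hC,
      inferInstanceAs (IsArtinian R C), inferInstanceAs (IsNoetherian R C), rfl⟩, ?_, ?_⟩
  · exact ⟨eD.symm.toLinearMap ∘ₗ q ∘ₗ f.rangeRestrict,
      eD.symm.surjective.comp (hq.comp f.surjective_rangeRestrict)⟩
  · exact ⟨(LinearMap.range f).subtype ∘ₗ C.subtype ∘ₗ eD.toLinearMap,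
      (Submodule.subtype_injective _).comp ((Submodule.subtype_injective _).comp eD.injective)⟩

/-- If there are infinitely many bricks of finite length at most `n`, but only finitely many of
each length, there is an infinite sequence with strictly increasing lengths, orthogonal or a chain
of injections, or a chain of surjections. -/
theorem exists_chain (n : ℕ∞) (hinf : (BrLe.{u, v} R n).Infinite)
    (hfin : ∀ d : ℕ, (d : ℕ∞) ≤ n → (BrCls.{u, v} R d).Finite) :
    ∃ M : ℕ → Cls.{u, v} R, (∀ i, M i ∈ BrLe.{u, v} R n) ∧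
      (∀ i j, i < j → len R (Quotient.out (M i) : ModuleCat.{v} R) <
        len R (Quotient.out (M j) : ModuleCat.{v} R)) ∧
      ((∀ i j, i ≠ j → ∀ f : (Quotient.out (M i) : ModuleCat.{v} R) →ₗ[R]
          (Quotient.out (M j) : ModuleCat.{v} R), f = 0) ∨
        (∀ i j, i < j → SubRel (M i) (M j)) ∨ (∀ i j, i < j → QuoRel (M i) (M j))) := by
  classical
  have hX : Infinite (BrLe.{u, v} R n) := hinf.to_subtype
  -- only finitely many classes of bounded length
  have hfinm : ∀ m : ℕ, {x : BrLe.{u, v} R n |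
      len R (Quotient.out x.1 : ModuleCat.{v} R) ≤ m}.Finite := by
    intro m
    have h1 : (⋃ d ∈ {d : ℕ | d ≤ m ∧ (d : ℕ∞) ≤ n}, BrCls.{u, v} R d).Finite := by
      refine Set.Finite.biUnion ((Set.finite_Iic m).subset fun d hd => hd.1) (fun d hd => hfin d hd.2)
    refine Set.Finite.of_finite_image (f := Subtype.val) (h1.subset ?_)
      (Subtype.val_injective.injOn)
    rintro _ ⟨x, hx, rfl⟩
    obtain ⟨hx1, hx2, hx3, hx4, hx5⟩ := isBrick_out x.2
    exact Set.mem_biUnion (x := len R (Quotient.out x.1 : ModuleCat.{v} R)) ⟨hx, hx4⟩ hx5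
  have hsq : ∀ a b : BrLe.{u, v} R n, SubRel a.1 b.1 → QuoRel a.1 b.1 → a = b := by
    rintro a b ⟨s, hs⟩ ⟨q, hq⟩
    obtain ⟨ha1, -, -, -, -⟩ := isBrick_out a.2
    obtain ⟨hb1, -, -, -, -⟩ := isBrick_out b.2
    have : Nontrivial (Quotient.out a.1 : ModuleCat.{v} R) := ha1.1
    have h1 := (brick_no_small hb1 q hq s hs).2
    apply Subtype.ext
    rw [← cl_out a.1, ← cl_out b.1]
    exact cl_eq ⟨LinearEquiv.ofBijective s h1⟩
  obtain ⟨M, hMinj, hM⟩ := trichotomy (X := BrLe.{u, v} R n) (fun a b => SubRel a.1 b.1)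
    (fun a b => QuoRel a.1 b.1)
    (fun a b c ⟨f, hf⟩ ⟨g, hg⟩ => ⟨g ∘ₗ f, hg.comp hf⟩)
    (fun a b c ⟨f, hf⟩ ⟨g, hg⟩ => ⟨f ∘ₗ g, hf.comp hg⟩) hsq
    (fun b => (hfinm (len R (Quotient.out b.1 : ModuleCat.{v} R))).subset (by
      rintro a ⟨f, hf⟩
      obtain ⟨-, hb2, hb3, -, -⟩ := isBrick_out b.2
      exact len_le_of_injective f hf))
    (fun b => (hfinm (len R (Quotient.out b.1 : ModuleCat.{v} R))).subset (by
      rintro a ⟨f, hf⟩
      obtain ⟨-, hb2, hb3, -, -⟩ := isBrick_out b.2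
      exact len_le_of_surjective f hf))
  -- a subsequence with strictly increasing lengths
  obtain ⟨φ, hφ⟩ : ∃ φ : ℕ → ℕ, ∀ i j, i < j → φ i < φ j ∧
      len R (Quotient.out (M (φ i)).1 : ModuleCat.{v} R) <
        len R (Quotient.out (M (φ j)).1 : ModuleCat.{v} R) := by
    obtain ⟨φ, -, hφ⟩ := exists_seq_of_forall_finset_exists (fun _ : ℕ => True)
      (fun a b => a < b ∧ len R (Quotient.out (M a).1 : ModuleCat.{v} R) <
        len R (Quotient.out (M b).1 : ModuleCat.{v} R)) (by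
        intro t _
        obtain ⟨B, hB⟩ : ∃ B, ∀ a ∈ t, a ≤ B ∧
            len R (Quotient.out (M a).1 : ModuleCat.{v} R) ≤ B := by
          refine ⟨t.sup id + t.sup (fun a => len R (Quotient.out (M a).1 : ModuleCat.{v} R)),
            fun a ha => ⟨?_, ?_⟩⟩
          · exact le_trans (Finset.le_sup (f := id) ha) (Nat.le_add_right _ _)
          · exact le_trans (Finset.le_sup
              (f := fun a => len R (Quotient.out (M a).1 : ModuleCat.{v} R)) ha)
              (Nat.le_add_left _ _)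
        have h1 : {i : ℕ | i ≤ B ∨
            len R (Quotient.out (M i).1 : ModuleCat.{v} R) ≤ B}.Finite := by
          have h2 : {i : ℕ | len R (Quotient.out (M i).1 : ModuleCat.{v} R) ≤ B}.Finite :=
            (hfinm B).preimage hMinj.injOn
          exact (Set.finite_Iic B).union h2
        obtain ⟨i, hi⟩ := h1.infinite_compl.nonempty
        rw [Set.mem_compl_iff, Set.mem_setOf_eq, not_or, not_le, not_le] at hi
        refine ⟨i, trivial, fun a ha => ?_⟩
        obtain ⟨h3, h4⟩ := hB a ha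
        omega)
    exact ⟨φ, hφ⟩
  have hφm : ∀ i j, i ≠ j → φ i ≠ φ j := by
    intro i j hij h
    rcases lt_or_gt_of_ne hij with h1 | h1
    · have := (hφ i j h1).1
      omega
    · have := (hφ j i h1).1
      omega
  refine ⟨fun i => (M (φ i)).1, fun i => (M (φ i)).2, fun i j hij => (hφ i j hij).2, ?_⟩
  rcases hM with hM | hM | hM
  · refine Or.inl fun i j hij f => ?_
    by_contra hf
    obtain ⟨d, hd, h1, h2⟩ := exists_mid (M (φ i)).2 (M (φ j)).2 f hf
    exact hM (φ i) (φ j) (hφm i j hij) ⟨⟨d, hd⟩, h1, h2⟩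
  · exact Or.inr (Or.inl fun i j hij => hM _ _ (hφ i j hij).1)
  · exact Or.inr (Or.inr fun i j hij => hM _ _ (hφ i j hij).1)

/-- **Trichotomy for bricks.** -/
theorem brick_trichotomy (n : ℕ∞) (hinf : (BrLe.{u, v} R n).Infinite) :
    ∃ M : ℕ → ModuleCat.{v} R,
      (∀ i, IsBrick R (M i) ∧ Module.length R (M i) ≠ ⊤ ∧ Module.length R (M i) ≤ n) ∧
      (((∀ i j, Module.length R (M i) = Module.length R (M j)) ∧
          ∀ i j, i ≠ j → ∀ f : M i →ₗ[R] M j, f = 0) ∨
        ((∀ i j, i < j → Module.length R (M i) < Module.length R (M j)) ∧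
          ((∀ i j, i ≠ j → ∀ f : M i →ₗ[R] M j, f = 0) ∨
            (∀ i j, i < j → (∃ f : M i →ₗ[R] M j, Function.Injective f) ∧
              ∀ f : M j →ₗ[R] M i, f = 0) ∨
            (∀ i j, i < j → (∃ f : M j →ₗ[R] M i, Function.Surjective f) ∧
              ∀ f : M i →ₗ[R] M j, f = 0)))) := by
  by_cases hcase : ∃ d : ℕ, (d : ℕ∞) ≤ n ∧ (BrCls.{u, v} R d).Infinite
  · obtain ⟨d, hd, h⟩ := hcase
    obtain ⟨d', hd', N, hN, hN0⟩ := exists_semibrick_of_infinite d h
    have hlen : ∀ i, Module.length R (N i) = d' := by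
      intro i
      obtain ⟨h1, h2, h3, h4⟩ := hN i
      rw [← len_cast, h4]
    refine ⟨N, fun i => ⟨(hN i).1, ?_, ?_⟩, Or.inl ⟨fun i j => by rw [hlen, hlen], hN0⟩⟩
    · rw [hlen]
      exact ENat.natCast_ne_top d'
    · rw [hlen]
      exact le_trans (by exact_mod_cast hd') hd
  push Not at hcase
  obtain ⟨M, hM1, hM2, hM3⟩ := exists_chain n hinf hcase
  have hlen : ∀ i, Module.length R (Quotient.out (M i) : ModuleCat.{v} R) =
      len R (Quotient.out (M i) : ModuleCat.{v} R) := by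
    intro i
    obtain ⟨h1, h2, h3, h4, -⟩ := isBrick_out (hM1 i)
    rw [len_cast]
  have hniso : ∀ i j, i < j → ¬ Nonempty ((Quotient.out (M i) : ModuleCat.{v} R) ≃ₗ[R]
      (Quotient.out (M j) : ModuleCat.{v} R)) := by
    rintro i j hij ⟨e⟩
    have := hM2 i j hij
    rw [len_eq_of_equiv e] at this
    exact lt_irrefl _ this
  refine ⟨fun i => Quotient.out (M i), fun i => ?_, Or.inr ⟨fun i j hij => ?_, ?_⟩⟩
  · obtain ⟨h1, h2, h3, h4, -⟩ := isBrick_out (hM1 i)
    refine ⟨h1, ?_, ?_⟩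
    · rw [hlen]
      exact ENat.natCast_ne_top _
    · rw [hlen]
      exact h4
  · rw [hlen, hlen]
    exact_mod_cast hM2 i j hij
  rcases hM3 with hM3 | hM3 | hM3
  · exact Or.inl hM3
  · refine Or.inr (Or.inl fun i j hij => ?_)
    obtain ⟨s, hs⟩ := hM3 i j hij
    refine ⟨⟨s, hs⟩, fun g => ?_⟩
    by_contra hg
    obtain ⟨h1, -, -, -, -⟩ := isBrick_out (hM1 j)
    have h2 : s ∘ₗ g ≠ 0 := by
      intro h0
      apply hg
      ext x
      apply hs
      rw [LinearMap.zero_apply, map_zero]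
      exact LinearMap.congr_fun h0 x
    have h3 := h1.2 _ h2
    have h4 : Function.Bijective (s ∘ g) := h3
    exact hniso i j hij ⟨LinearEquiv.ofBijective s ⟨hs, h4.2.of_comp⟩⟩
  · refine Or.inr (Or.inr fun i j hij => ?_)
    obtain ⟨q, hq⟩ := hM3 i j hij
    refine ⟨⟨q, hq⟩, fun g => ?_⟩
    by_contra hg
    obtain ⟨h1, -, -, -, -⟩ := isBrick_out (hM1 j)
    have h2 : g ∘ₗ q ≠ 0 := by
      intro h0
      apply hg
      ext x
      obtain ⟨y, rfl⟩ := hq x
      exact LinearMap.congr_fun h0 y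
    have h3 := h1.2 _ h2
    have h4 : Function.Bijective (g ∘ q) := h3
    exact hniso i j hij ⟨(LinearEquiv.ofBijective q ⟨h4.1.of_comp, hq⟩).symm⟩

/-- from an infinite sequence of pairwise non-isomorphic bricks -/
theorem brLe_infinite (n : ℕ∞) (M : ℕ → ModuleCat.{v} R)
    (hb : ∀ i, IsBrick R (M i)) (hf : ∀ i, Module.length R (M i) ≠ ⊤)
    (hl : ∀ i, Module.length R (M i) ≤ n)
    (hni : ∀ i j, i ≠ j → IsEmpty (M i ≃ₗ[R] M j)) : (BrLe.{u, v} R n).Infinite := by
  have hfin : ∀ i, IsArtinian R (M i) ∧ IsNoetherian R (M i) := fun i =>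
    artin_noeth_of_length_ne_top (M i) (hf i)
  have hmem : ∀ i, cl (M i) ∈ BrLe.{u, v} R n := by
    intro i
    obtain ⟨h1, h2⟩ := hfin i
    refine ⟨len R (M i), ?_, M i, rfl, hb i, h1, h2, rfl⟩
    rw [len_cast]
    exact hl i
  have hinj : Function.Injective (fun i => cl (M i)) := by
    intro i j hij
    by_contra hne
    obtain ⟨e⟩ := equiv_of_cl hij
    exact (hni i j hne).false e
  exact Set.infinite_of_injective_forall_mem hinj hmem

end Pool.Agent.Helper793Bricks
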